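import Mathlib

/-!
Compact homogeneous spaces at the level of Lie algebras, invariant metrics and their Ricci
curvature.
-/

namespace Pool.Agent.H.MP_deabf1_gt

open LinearMap (BilinForm)

/-- The Lie algebra data of a compact homogeneous space `G/K`: an inner product `Q` on the Lie
algebra `𝔤` of `G` for which the operators `ad x` are skew, the isotropy group `K` acting on `𝔤` by
automorphisms preserving `Q`, and the Lie algebra `𝔨` of `K`, an invariant subalgebra acting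
infinitesimally by elements of `K`. -/
structure HomData (𝔤 K : Type*) [LieRing 𝔤] [LieAlgebra ℝ 𝔤] [Group K] where
  /-- the invariant inner product -/
  Q : BilinForm ℝ 𝔤
  Q_symm : ∀ x y, Q x y = Q y x
  Q_pos : ∀ x, x ≠ 0 → 0 < Q x x
  Q_inv : ∀ x y z, Q ⁅x, y⁆ z = Q x ⁅y, z⁆
  /-- the adjoint action of `K` -/
  Ad : Representation ℝ K 𝔤
  Ad_lie : ∀ h x y, Ad h ⁅x, y⁆ = ⁅Ad h x, Ad h y⁆
  Q_Ad : ∀ h x y, Q (Ad h x) (Ad h y) = Q x y
  /-- the Lie algebra of `K` -/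
  𝔨 : LieSubalgebra ℝ 𝔤
  𝔨_Ad : ∀ h, ∀ x ∈ 𝔨, Ad h x ∈ 𝔨
  𝔨_exp : ∀ z ∈ 𝔨, ∃ c : ℝ → K, ∀ (f : 𝔤 →ₗ[ℝ] ℝ) (y : 𝔤),
    HasDerivAt (fun t : ℝ => f (Ad (c t) y)) (f ⁅z, y⁆) 0

namespace HomData

variable {𝔤 K : Type*} [LieRing 𝔤] [LieAlgebra ℝ 𝔤] [Group K] (D : HomData 𝔤 K)

/-- The `Q`-orthogonal complement of `𝔨`, the tangent space of `G/K`. -/
def 𝔪 : Submodule ℝ 𝔤 where
  carrier := {x | ∀ z ∈ D.𝔨, D.Q x z = 0}
  add_mem' := by
    intro x y hx hy z hz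
    rw [map_add, LinearMap.add_apply, hx z hz, hy z hz, add_zero]
  zero_mem' := by
    intro z _
    rw [map_zero, LinearMap.zero_apply]
  smul_mem' := by
    intro c x hx z hz
    rw [map_smul, LinearMap.smul_apply, hx z hz, smul_zero]

/-- The `G`-invariant Riemannian metrics on `G/K`, as `K`-invariant symmetric bilinear forms on `𝔤`
which vanish on `𝔨` and are positive definite on `𝔪`. -/
structure IsMetric (g : BilinForm ℝ 𝔤) : Prop where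
  symm : ∀ x y, g x y = g y x
  ker : ∀ z ∈ D.𝔨, ∀ y, g z y = 0
  pos : ∀ x ∈ D.𝔪, x ≠ 0 → 0 < g x x
  inv : ∀ h x y, g (D.Ad h x) (D.Ad h y) = g x y

/-- `e` is a `g`-orthonormal basis of `W`. -/
structure _root_.Pool.Agent.H.MP_deabf1_gt.IsONB {𝔤 : Type*} [AddCommGroup 𝔤] [Module ℝ 𝔤]
    {n : Type*} [Fintype n] [DecidableEq n]
    (g : BilinForm ℝ 𝔤) (W : Submodule ℝ 𝔤) (e : n → 𝔤) : Prop where
  mem : ∀ i, e i ∈ W
  orth : ∀ i j, g (e i) (e j) = if i = j then 1 else 0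
  exp : ∀ x ∈ W, x = ∑ i, g x (e i) • e i

/-- The metric `g` is Einstein with constant `lam`: its Ricci curvature, given for an orthonormal
basis `e` of the tangent space `𝔪` and the Killing form `B` of `𝔤` by
`Ric(x, x) = - 1/2 ∑ |[x, e_i]|² - 1/2 B(x, x) + 1/4 ∑ g([e_i, e_j], x)²`, is `lam • g`. -/
def IsEinstein (g : BilinForm ℝ 𝔤) (lam : ℝ) : Prop :=
  ∃ (n : ℕ) (e : Fin n → 𝔤), IsONB g D.𝔪 e ∧ ∀ x ∈ D.𝔪,
    -(1 / 2) * ∑ i, g ⁅x, e i⁆ ⁅x, e i⁆ - 1 / 2 * killingForm ℝ 𝔤 x x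
      + 1 / 4 * ∑ i, ∑ j, g ⁅e i, e j⁆ x ^ 2 = lam * g x x

/-- `W` is an irreducible `K`-invariant subspace. -/
structure Irr (W : Submodule ℝ 𝔤) : Prop where
  ne : W ≠ ⊥
  inv : ∀ h, ∀ x ∈ W, D.Ad h x ∈ W
  irr : ∀ V : Submodule ℝ 𝔤, V ≤ W → (∀ h, ∀ x ∈ V, D.Ad h x ∈ V) → V = ⊥ ∨ V = W

/-- The `K`-invariant subspaces `V` and `W` are isomorphic representations of `K`. -/
def Equivalent (V W : Submodule ℝ 𝔤) : Prop :=
  ∃ f : 𝔤 →ₗ[ℝ] 𝔤, Set.BijOn f V W ∧ ∀ h, ∀ x ∈ V, f (D.Ad h x) = D.Ad h (f x)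

/-- The isotropy representation is the sum of the pairwise inequivalent irreducible
representations `m i`. -/
structure Decomp {q : ℕ} (m : Fin q → Submodule ℝ 𝔤) : Prop where
  irr : ∀ i, D.Irr (m i)
  inequiv : ∀ i j, i ≠ j → ¬ D.Equivalent (m i) (m j)
  sup : ⨆ i, m i = D.𝔪

end HomData

end Pool.Agent.H.MP_deabf1_gt
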