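import Pool.Agent.H.MP_deabf1_gt.Defs

/-!
Orthonormal bases for bilinear forms.
-/

namespace Pool.Agent.H.MP_deabf1_gt

open LinearMap (BilinForm)

variable {V : Type*} [AddCommGroup V] [Module ℝ V] {n n' : Type*} [Fintype n] [DecidableEq n]
  [Fintype n'] [DecidableEq n']

/-- Job L1-1. Orthonormal bases exist.

Proof. Give `W` the inner product `g` (`InnerProductSpace.Core`, `InnerProductSpace.ofCore`, with
`letI`) and take `stdOrthonormalBasis ℝ W` (the type of its underlying basis only depends on the given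
module structure of `W`); or induction on the dimension (Gram-Schmidt). -/
theorem onb_exists {g : BilinForm ℝ V} (hs : ∀ x y, g x y = g y x) (W : Submodule ℝ V)
    [Module.Finite ℝ W] (hpos : ∀ x ∈ W, x ≠ 0 → 0 < g x x) :
    ∃ e : Fin (Module.finrank ℝ W) → V, IsONB g W e := by
  classical
  set B : BilinForm ℝ W := LinearMap.BilinForm.restrict g W with hBdef
  have hB : ∀ x y : W, B x y = g x y := fun x y => rfl
  have hBs : LinearMap.IsSymm B := ⟨fun x y => by
    show B x y = B y x
    rw [hB, hB, hs]⟩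
  have hinv : Invertible (2 : ℝ) := invertibleOfNonzero two_ne_zero
  obtain ⟨v, hv⟩ := LinearMap.BilinForm.exists_orthogonal_basis (B := B) hBs
  have hv0 : ∀ i j, i ≠ j → g (v i) (v j) = 0 := by
    intro i j hij
    have h1 := hv hij
    exact h1
  have hvp : ∀ i, 0 < g (v i) (v i) := by
    intro i
    apply hpos _ (v i).2
    intro h0
    exact v.ne_zero i (Subtype.ext h0)
  refine ⟨fun i => (Real.sqrt (g (v i) (v i)))⁻¹ • (v i : V), ?_, ?_, ?_⟩
  · intro i
    exact W.smul_mem _ (v i).2
  · intro i j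
    simp only [map_smul, LinearMap.smul_apply, smul_eq_mul]
    by_cases hij : i = j
    · subst hij
      have h2 := Real.mul_self_sqrt (hvp i).le
      have h3 : Real.sqrt (g (v i) (v i)) ≠ 0 := (Real.sqrt_pos.mpr (hvp i)).ne'
      rw [if_pos rfl]
      field_simp
      nlinarith [h2]
    · rw [if_neg hij, hv0 i j hij]
      simp
  · intro x hx
    have h0 := congrArg (fun w : W => (w : V)) (v.sum_repr ⟨x, hx⟩)
    have h1' : x = ∑ i, v.repr ⟨x, hx⟩ i • (v i : V) := by
      simp only [Submodule.coe_sum, Submodule.coe_smul] at h0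
      exact h0.symm
    have h4 : ∀ j, g x (v j) = v.repr ⟨x, hx⟩ j * g (v j) (v j) := by
      intro j
      conv_lhs => rw [h1']
      rw [map_sum, LinearMap.sum_apply, Finset.sum_eq_single j]
      · simp
      · intro i _ hij
        rw [map_smul, LinearMap.smul_apply, hv0 i j hij, smul_zero]
      · simp
    conv_lhs => rw [h1']
    refine Finset.sum_congr rfl fun i _ => ?_
    rw [map_smul, smul_eq_mul, h4 i, smul_smul]
    congr 1
    have h2 := Real.mul_self_sqrt (hvp i).le
    have h3 : Real.sqrt (g (v i) (v i)) ≠ 0 := (Real.sqrt_pos.mpr (hvp i)).ne'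
    field_simp
    rw [pow_two, h2]

/-- Job L1-2. Parseval. Proof: expand `x`. -/
theorem onb_parseval {g : BilinForm ℝ V} {W : Submodule ℝ V} {e : n → V}
    (he : IsONB g W e) {x : V} (hx : x ∈ W) (y : V) : g x y = ∑ i, g x (e i) * g (e i) y := by
  conv_lhs => rw [he.exp x hx]
  rw [map_sum, LinearMap.sum_apply]
  refine Finset.sum_congr rfl fun i _ => ?_
  rw [map_smul, LinearMap.smul_apply, smul_eq_mul]

/-- Job L1-3. The trace of a bilinear form does not depend on the orthonormal basis.

Proof. `e' a = ∑ i, g (e' a) (e i) • e i`, so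
`∑ a, β (e' a) (e' a) = ∑ i, ∑ j, (∑ a, g (e' a) (e i) * g (e' a) (e j)) * β (e i) (e j)`, and the inner sum is
`g (e i) (e j)` by `onb_parseval` for `e'` and symmetry. -/
theorem onb_indep {g : BilinForm ℝ V} (hs : ∀ x y, g x y = g y x) {W : Submodule ℝ V} {e : n → V}
    {e' : n' → V} (he : IsONB g W e) (he' : IsONB g W e') (β : V →ₗ[ℝ] V →ₗ[ℝ] ℝ) :
    ∑ i, β (e i) (e i) = ∑ a, β (e' a) (e' a) := by
  have h1 : ∀ a, β (e' a) (e' a)
      = ∑ i, ∑ j, g (e' a) (e i) * g (e' a) (e j) * β (e i) (e j) := by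
    intro a
    have h2 : e' a = ∑ i, g (e' a) (e i) • e i := he.exp _ (he'.mem a)
    calc β (e' a) (e' a) = β (∑ i, g (e' a) (e i) • e i) (∑ j, g (e' a) (e j) • e j) := by
          rw [← h2]
      _ = _ := by
          rw [LinearMap.map_sum₂]
          refine Finset.sum_congr rfl fun i _ => ?_
          rw [map_smul, LinearMap.smul_apply, smul_eq_mul, map_sum, Finset.mul_sum]
          refine Finset.sum_congr rfl fun j _ => ?_
          rw [map_smul, smul_eq_mul]
          ring
  have h3 : ∀ i j, ∑ a, g (e' a) (e i) * g (e' a) (e j) = if i = j then 1 else 0 := by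
    intro i j
    rw [← he.orth i j, onb_parseval he' (he.mem i) (e j)]
    refine Finset.sum_congr rfl fun a _ => ?_
    rw [hs (e' a) (e i)]
  symm
  calc ∑ a, β (e' a) (e' a)
      = ∑ a, ∑ i, ∑ j, g (e' a) (e i) * g (e' a) (e j) * β (e i) (e j) :=
        Finset.sum_congr rfl fun a _ => h1 a
    _ = ∑ i, ∑ j, (∑ a, g (e' a) (e i) * g (e' a) (e j)) * β (e i) (e j) := by
        rw [Finset.sum_comm]
        refine Finset.sum_congr rfl fun i _ => ?_
        rw [Finset.sum_comm]
        refine Finset.sum_congr rfl fun j _ => ?_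
        rw [Finset.sum_mul]
    _ = ∑ i, ∑ j, (if i = j then 1 else 0) * β (e i) (e j) := by
        refine Finset.sum_congr rfl fun i _ => Finset.sum_congr rfl fun j _ => ?_
        rw [h3]
    _ = ∑ i, β (e i) (e i) := by
        refine Finset.sum_congr rfl fun i _ => ?_
        simp

/-- Job L1-4. Proof: `onb_indep` twice, for `β x y = ∑ j, ω x (e j) * ω y (e j)` etc. -/
theorem onb_indep2 {g : BilinForm ℝ V} (hs : ∀ x y, g x y = g y x) {W : Submodule ℝ V} {e : n → V}
    {e' : n' → V} (he : IsONB g W e) (he' : IsONB g W e') (ω : V →ₗ[ℝ] V →ₗ[ℝ] ℝ) :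
    ∑ i, ∑ j, ω (e i) (e j) ^ 2 = ∑ a, ∑ b, ω (e' a) (e' b) ^ 2 := by
  have hA : ∀ (ι : Type _) [Fintype ι] (w : ι → V), ∃ β : V →ₗ[ℝ] V →ₗ[ℝ] ℝ,
      ∀ x y, β x y = ∑ j, ω x (w j) * ω y (w j) := by
    intro ι _ w
    refine ⟨LinearMap.mk₂ ℝ (fun x y => ∑ j, ω x (w j) * ω y (w j)) ?_ ?_ ?_ ?_, fun x y => rfl⟩
    · intro x x' y
      rw [← Finset.sum_add_distrib]
      refine Finset.sum_congr rfl fun j _ => ?_
      rw [map_add, LinearMap.add_apply, add_mul]
    · intro c x y
      rw [smul_eq_mul, Finset.mul_sum]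
      refine Finset.sum_congr rfl fun j _ => ?_
      rw [map_smul, LinearMap.smul_apply, smul_eq_mul, mul_assoc]
    · intro x y y'
      rw [← Finset.sum_add_distrib]
      refine Finset.sum_congr rfl fun j _ => ?_
      rw [map_add, LinearMap.add_apply, mul_add]
    · intro c x y
      rw [smul_eq_mul, Finset.mul_sum]
      refine Finset.sum_congr rfl fun j _ => ?_
      rw [map_smul, LinearMap.smul_apply, smul_eq_mul]
      ring
  have hC : ∀ (ι : Type _) [Fintype ι] (w : ι → V), ∃ β : V →ₗ[ℝ] V →ₗ[ℝ] ℝ,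
      ∀ x y, β x y = ∑ j, ω (w j) x * ω (w j) y := by
    intro ι _ w
    refine ⟨LinearMap.mk₂ ℝ (fun x y => ∑ j, ω (w j) x * ω (w j) y) ?_ ?_ ?_ ?_, fun x y => rfl⟩
    · intro x x' y
      rw [← Finset.sum_add_distrib]
      refine Finset.sum_congr rfl fun j _ => ?_
      rw [map_add, add_mul]
    · intro c x y
      rw [smul_eq_mul, Finset.mul_sum]
      refine Finset.sum_congr rfl fun j _ => ?_
      rw [map_smul, smul_eq_mul, mul_assoc]
    · intro x y y'
      rw [← Finset.sum_add_distrib]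
      refine Finset.sum_congr rfl fun j _ => ?_
      rw [map_add, mul_add]
    · intro c x y
      rw [smul_eq_mul, Finset.mul_sum]
      refine Finset.sum_congr rfl fun j _ => ?_
      rw [map_smul, smul_eq_mul]
      ring
  obtain ⟨β, hβ⟩ := hA n e
  obtain ⟨γ, hγ⟩ := hC n' e'
  calc ∑ i, ∑ j, ω (e i) (e j) ^ 2 = ∑ i, β (e i) (e i) := by
        refine Finset.sum_congr rfl fun i _ => ?_
        rw [hβ]
        refine Finset.sum_congr rfl fun j _ => ?_
        rw [pow_two]
    _ = ∑ a, β (e' a) (e' a) := onb_indep hs he he' β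
    _ = ∑ j, γ (e j) (e j) := by
        have h1 : ∀ a, β (e' a) (e' a) = ∑ j, ω (e' a) (e j) * ω (e' a) (e j) := fun a => hβ _ _
        have h2 : ∀ j, γ (e j) (e j) = ∑ a, ω (e' a) (e j) * ω (e' a) (e j) := fun j => hγ _ _
        simp only [h1, h2]
        exact Finset.sum_comm
    _ = ∑ b, γ (e' b) (e' b) := onb_indep hs he he' γ
    _ = ∑ a, ∑ b, ω (e' a) (e' b) ^ 2 := by
        rw [Finset.sum_comm]
        refine Finset.sum_congr rfl fun b _ => ?_
        rw [hγ]
        refine Finset.sum_congr rfl fun a _ => ?_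
        rw [pow_two]

/-- Job L1-5. Rescaling and combining orthonormal bases: if `W` is the sum of the subspaces `m i`
which are `g`-orthogonal, `g = x i • Q` on `m i` with `x i > 0` and `f i` is a `Q`-orthonormal basis of
`m i`, then the `(x i)^(-1/2) • f i a` form a `g`-orthonormal basis of `W`.
Proof: `exp` by `Submodule.iSup_induction` (it is enough to prove it for `x ∈ m i`, both sides are linear). -/
theorem onb_scale {q : ℕ} {g Q : BilinForm ℝ V} {m : Fin q → Submodule ℝ V} {d : Fin q → ℕ}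
    {f : ∀ i, Fin (d i) → V} (hf : ∀ i, IsONB Q (m i) (f i)) {x : Fin q → ℝ} (hx : ∀ i, 0 < x i)
    (hg : ∀ i, ∀ v ∈ m i, ∀ w ∈ m i, g v w = x i * Q v w)
    (hgo : ∀ i j, i ≠ j → ∀ v ∈ m i, ∀ w ∈ m j, g v w = 0) :
    IsONB g (⨆ i, m i) (fun p : Σ i, Fin (d i) => (Real.sqrt (x p.1))⁻¹ • f p.1 p.2) := by
  classical
  have hsq : ∀ i, Real.sqrt (x i) ≠ 0 := fun i => (Real.sqrt_pos.mpr (hx i)).ne'
  have hmm : ∀ i, (Real.sqrt (x i))⁻¹ * (Real.sqrt (x i))⁻¹ * x i = 1 := by
    intro i
    have h2 := Real.mul_self_sqrt (hx i).le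
    have h3 := hsq i
    rw [← mul_inv, h2]
    exact inv_mul_cancel₀ (hx i).ne'
  refine ⟨?_, ?_, ?_⟩
  · rintro ⟨i, a⟩
    exact Submodule.smul_mem _ _ (Submodule.mem_iSup_of_mem i ((hf i).mem a))
  · rintro ⟨i, a⟩ ⟨j, b⟩
    simp only [map_smul, LinearMap.smul_apply, smul_eq_mul]
    by_cases hij : i = j
    · subst hij
      rw [hg i _ ((hf i).mem a) _ ((hf i).mem b), (hf i).orth a b]
      have h1 := hmm i
      by_cases hab : a = b
      · subst hab
        rw [if_pos rfl, if_pos rfl]
        linear_combination h1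
      · rw [if_neg hab, if_neg (by
          intro h
          apply hab
          have h2 := (Sigma.mk.inj_iff.mp h).2
          exact eq_of_heq h2)]
        ring
    · rw [hgo i j hij _ ((hf i).mem a) _ ((hf j).mem b), if_neg (by
        intro h
        exact hij (Sigma.mk.inj_iff.mp h).1)]
      ring
  · intro y hy
    refine Submodule.iSup_induction m (motive := fun y => y = ∑ p : Σ i, Fin (d i),
      g y ((Real.sqrt (x p.1))⁻¹ • f p.1 p.2) • ((Real.sqrt (x p.1))⁻¹ • f p.1 p.2)) hy ?_ ?_ ?_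
    · intro i v hv
      rw [Fintype.sum_sigma, Finset.sum_eq_single i]
      · conv_lhs => rw [(hf i).exp v hv]
        refine Finset.sum_congr rfl fun a _ => ?_
        simp only [map_smul, smul_eq_mul, smul_smul]
        rw [hg i _ hv _ ((hf i).mem a)]
        congr 1
        have h1 := hmm i
        linear_combination (-(Q v (f i a))) * h1
      · intro j _ hji
        refine Finset.sum_eq_zero fun b _ => ?_
        simp only [map_smul]
        rw [hgo i j (Ne.symm hji) _ hv _ ((hf j).mem b)]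
        simp
      · simp
    · simp
    · intro y z h1 h2
      conv_lhs => rw [h1, h2]
      rw [← Finset.sum_add_distrib]
      refine Finset.sum_congr rfl fun p _ => ?_
      rw [map_add, LinearMap.add_apply, add_smul]

end Pool.Agent.H.MP_deabf1_gt
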