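import Pool.Agent.H.MP_deabf1_gt.L1

/-!
The Killing form.
-/

namespace Pool.Agent.H.MP_deabf1_gt

open LinearMap (BilinForm)

variable {𝔤 K : Type*} [LieRing 𝔤] [LieAlgebra ℝ 𝔤] [Module.Finite ℝ 𝔤] [Group K]
  (D : HomData 𝔤 K) {n n' : Type*} [Fintype n] [DecidableEq n] [Fintype n'] [DecidableEq n']

namespace HomData

/-- Job L2-1. Skewness. Proof: `Q_inv`, `Q_symm`, `lie_skew`. -/
theorem Q_skew (x y z : 𝔤) : D.Q ⁅x, y⁆ z = -D.Q y ⁅x, z⁆ := by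
  rw [← lie_skew x y, map_neg, LinearMap.neg_apply, D.Q_inv y x z]

/-- Job L2-2. `[𝔨, 𝔪] ⊆ 𝔪`. Proof: `Q ⁅z, x⁆ z' = - Q x ⁅z, z'⁆ = 0`. -/
theorem lie_mem_𝔪 {z x : 𝔤} (hz : z ∈ D.𝔨) (hx : x ∈ D.𝔪) : ⁅z, x⁆ ∈ D.𝔪 := by
  intro z' hz'
  rw [D.Q_skew, hx _ (D.𝔨.lie_mem hz hz'), neg_zero]

/-- `𝔪` is invariant under `K`. Proof: `Q (Ad h x) z = Q x (Ad h⁻¹ z)` (`D.Ad` is a representation). -/
theorem Ad_mem_𝔪 (h : K) {x : 𝔤} (hx : x ∈ D.𝔪) : D.Ad h x ∈ D.𝔪 := by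
  intro z hz
  have h1 : z = D.Ad h (D.Ad h⁻¹ z) := by
    rw [← Module.End.mul_apply, ← map_mul, mul_inv_cancel, map_one, Module.End.one_apply]
  rw [h1, D.Q_Ad]
  exact hx _ (D.𝔨_Ad _ _ hz)

/-- Job L2-3. A `Q`-orthonormal basis of `𝔨` and one of `𝔪` form one of `𝔤`.
Proof: `exp`: for `x : 𝔤` the vector `x - ∑ Q x (z a) • z a` is orthogonal to all `z a`, hence to `𝔨`
(`hz.exp`), so it is in `𝔪`. -/
theorem onb_sum {z : n → 𝔤} {f : n' → 𝔤} (hz : IsONB D.Q D.𝔨.toSubmodule z)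
    (hf : IsONB D.Q D.𝔪 f) : IsONB D.Q ⊤ (Sum.elim z f) := by
  have hzf : ∀ a b, D.Q (z a) (f b) = 0 := by
    intro a b
    rw [D.Q_symm]
    exact hf.mem b _ (hz.mem a)
  refine ⟨fun _ => trivial, ?_, ?_⟩
  · rintro (a | b) (a' | b')
    · simp only [Sum.elim_inl, Sum.inl.injEq]
      exact hz.orth a a'
    · simp only [Sum.elim_inl, Sum.elim_inr, reduceCtorEq, if_false]
      exact hzf a b'
    · simp only [Sum.elim_inl, Sum.elim_inr, reduceCtorEq, if_false]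
      rw [D.Q_symm]
      exact hzf a' b
    · simp only [Sum.elim_inr, Sum.inr.injEq]
      exact hf.orth b b'
  · intro x _
    rw [Fintype.sum_sum_type]
    simp only [Sum.elim_inl, Sum.elim_inr]
    have hy : x - ∑ a, D.Q x (z a) • z a ∈ D.𝔪 := by
      intro w hw
      have h1 : D.Q w x = ∑ a, D.Q w (z a) * D.Q (z a) x := onb_parseval hz hw x
      rw [map_sub, LinearMap.sub_apply, LinearMap.map_sum₂, D.Q_symm x w, h1, sub_eq_zero]
      refine Finset.sum_congr rfl fun a _ => ?_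
      rw [map_smul, LinearMap.smul_apply, smul_eq_mul, D.Q_symm x (z a), D.Q_symm w (z a), mul_comm]
    have h2 := hf.exp _ hy
    have h3 : ∀ b, D.Q (x - ∑ a, D.Q x (z a) • z a) (f b) = D.Q x (f b) := by
      intro b
      rw [map_sub, LinearMap.sub_apply, LinearMap.map_sum₂, Finset.sum_eq_zero, sub_zero]
      intro a _
      rw [map_smul, LinearMap.smul_apply, hzf, smul_zero]
    simp only [h3] at h2
    rw [← h2]
    abel

/-- Job L2-4. Proof: the trace of an endomorphism `A` is `∑ Q (A (b i)) (b i)` for a `Q`-orthonormal basis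
`b` of `𝔤` (make a `Module.Basis` from `b`: it spans by `exp` and is linearly independent by `orth`;
`LinearMap.trace_eq_matrix_trace`, `Matrix.trace`, `LinearMap.toMatrix_apply`, and `repr x i = Q x (b i)`);
`killingForm ℝ 𝔤 x x = trace (ad x ∘ ad x)` (`killingForm_apply_apply`); `Q_skew`. -/
theorem killing_eq {b : n → 𝔤} (hb : IsONB D.Q ⊤ b) (x : 𝔤) :
    killingForm ℝ 𝔤 x x = -∑ i, D.Q ⁅x, b i⁆ ⁅x, b i⁆ := by
  let E : 𝔤 ≃ₗ[ℝ] (n → ℝ) :=
    { toFun := fun y i => D.Q y (b i)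
      invFun := fun c => ∑ i, c i • b i
      map_add' := fun y y' => by
        funext i
        rw [Pi.add_apply, map_add, LinearMap.add_apply]
      map_smul' := fun c y => by
        funext i
        rw [Pi.smul_apply, map_smul, LinearMap.smul_apply, RingHom.id_apply]
      left_inv := fun y => (hb.exp y trivial).symm
      right_inv := fun c => by
        funext j
        show D.Q (∑ i, c i • b i) (b j) = c j
        rw [LinearMap.map_sum₂, Finset.sum_eq_single j]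
        · rw [map_smul, LinearMap.smul_apply, hb.orth, if_pos rfl, smul_eq_mul, mul_one]
        · intro i _ hij
          rw [map_smul, LinearMap.smul_apply, hb.orth, if_neg hij, smul_zero]
        · simp }
  let bb : Module.Basis n ℝ 𝔤 := Module.Basis.ofEquivFun E
  have hbb : ∀ i, bb i = b i := by
    intro i
    show (Module.Basis.ofEquivFun E) i = b i
    rw [Module.Basis.coe_ofEquivFun]
    show ∑ j, (Pi.single i (1 : ℝ) : n → ℝ) j • b j = b i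
    rw [Finset.sum_eq_single i]
    · rw [Pi.single_eq_same, one_smul]
    · intro j _ hj
      rw [Pi.single_eq_of_ne hj, zero_smul]
    · simp
  have hrepr : ∀ y i, bb.repr y i = D.Q y (b i) := by
    intro y i
    rfl
  rw [killingForm_apply_apply, LinearMap.trace_eq_matrix_trace ℝ bb, Matrix.trace,
    ← Finset.sum_neg_distrib]
  refine Finset.sum_congr rfl fun i _ => ?_
  rw [Matrix.diag_apply, LinearMap.toMatrix_apply, hrepr, hbb, LinearMap.comp_apply,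
    LieAlgebra.ad_apply, LieAlgebra.ad_apply, D.Q_skew]

/-- Job L2-5. The Killing form on `𝔪`.

Proof. `killing_eq` for `onb_sum`. The sum over `z` is the first sum (`⁅x, z⁆ = -⁅z, x⁆`). For the sum
over `f`: `Q ⁅x, f a⁆ ⁅x, f a⁆ = ∑ c, Q ⁅x, f a⁆ (z c) ^ 2 + ∑ b, Q ⁅x, f a⁆ (f b) ^ 2` (`onb_parseval` for
`onb_sum`), and `∑ a, ∑ c, Q ⁅x, f a⁆ (z c) ^ 2 = ∑ c, ∑ a, Q (f a) ⁅z c, x⁆ ^ 2 = ∑ c, Q ⁅z c, x⁆ ⁅z c, x⁆` by
`Q_skew`, `onb_parseval` for `f` and `lie_mem_𝔪`. -/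
theorem killing_𝔪 {z : n → 𝔤} {f : n' → 𝔤} (hz : IsONB D.Q D.𝔨.toSubmodule z)
    (hf : IsONB D.Q D.𝔪 f) {x : 𝔤} (hx : x ∈ D.𝔪) :
    -killingForm ℝ 𝔤 x x = 2 * ∑ c, D.Q ⁅z c, x⁆ ⁅z c, x⁆ + ∑ a, ∑ b, D.Q ⁅x, f a⁆ (f b) ^ 2 := by
  have hb := D.onb_sum hz hf
  rw [D.killing_eq hb x, neg_neg, Fintype.sum_sum_type]
  simp only [Sum.elim_inl, Sum.elim_inr]
  have h1 : ∀ c, D.Q ⁅x, z c⁆ ⁅x, z c⁆ = D.Q ⁅z c, x⁆ ⁅z c, x⁆ := by
    intro c
    rw [← lie_skew x (z c), map_neg, map_neg, LinearMap.neg_apply, neg_neg]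
  have h2 : ∀ a, D.Q ⁅x, f a⁆ ⁅x, f a⁆
      = ∑ c, D.Q ⁅x, f a⁆ (z c) ^ 2 + ∑ b, D.Q ⁅x, f a⁆ (f b) ^ 2 := by
    intro a
    have h3 := onb_parseval hb (x := ⁅x, f a⁆) trivial ⁅x, f a⁆
    rw [Fintype.sum_sum_type] at h3
    simp only [Sum.elim_inl, Sum.elim_inr] at h3
    rw [h3]
    congr 1
    · refine Finset.sum_congr rfl fun c _ => ?_
      rw [D.Q_symm (z c), pow_two]
    · refine Finset.sum_congr rfl fun c _ => ?_
      rw [D.Q_symm (f c), pow_two]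
  have h4 : ∀ c, ∑ a, D.Q ⁅x, f a⁆ (z c) ^ 2 = D.Q ⁅z c, x⁆ ⁅z c, x⁆ := by
    intro c
    have h5 : ⁅z c, x⁆ ∈ D.𝔪 := D.lie_mem_𝔪 (hz.mem c) hx
    rw [onb_parseval hf h5 ⁅z c, x⁆]
    refine Finset.sum_congr rfl fun a _ => ?_
    have h6 : D.Q ⁅x, f a⁆ (z c) = - D.Q (f a) ⁅x, z c⁆ := D.Q_skew _ _ _
    rw [h6, ← lie_skew x (z c), map_neg, neg_neg, D.Q_symm ⁅z c, x⁆ (f a), pow_two]
  simp only [h1, h2]
  rw [Finset.sum_add_distrib, Finset.sum_comm (f := fun a c => D.Q ⁅x, f a⁆ (z c) ^ 2)]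
  simp only [h4]
  ring

end HomData

end Pool.Agent.H.MP_deabf1_gt
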