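import Pool.Agent.H.MP_deabf1_gt.L1

/-!
Invariant bilinear forms (Schur's lemma): inequivalent subspaces.
-/

namespace Pool.Agent.H.MP_deabf1_gt

open LinearMap (BilinForm)

variable {𝔤 K : Type*} [LieRing 𝔤] [LieAlgebra ℝ 𝔤] [Module.Finite ℝ 𝔤] [Group K]
  (D : HomData 𝔤 K)

namespace HomData

theorem l3_Ad_inv (h : K) (y : 𝔤) : D.Ad h (D.Ad h⁻¹ y) = y := by
  rw [← Module.End.mul_apply, ← map_mul, mul_inv_cancel, map_one, Module.End.one_apply]

theorem l3_Q_ext {W : Submodule ℝ 𝔤} {v w : 𝔤} (hv : v ∈ W) (hw : w ∈ W)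
    (h : ∀ y ∈ W, D.Q v y = D.Q w y) : v = w := by
  by_contra hne
  have h1 : v - w ≠ 0 := sub_ne_zero.2 hne
  have h2 := D.Q_pos _ h1
  have h3 : D.Q (v - w) (v - w) = 0 := by
    have h4 : v - w ∈ W := W.sub_mem hv hw
    have h5 := h _ h4
    rw [map_sub D.Q v w, LinearMap.sub_apply, h5, sub_self]
  linarith

/-- The linear map representing an invariant form on an invariant subspace. -/
theorem l3_rep (W : Submodule ℝ 𝔤) (hW : ∀ h, ∀ x ∈ W, D.Ad h x ∈ W)
    {b : BilinForm ℝ 𝔤} (hb : ∀ h x y, b (D.Ad h x) (D.Ad h y) = b x y) :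
    ∃ f : 𝔤 →ₗ[ℝ] 𝔤, (∀ x, f x ∈ W) ∧ (∀ x, ∀ y ∈ W, D.Q (f x) y = b x y) ∧
      ∀ h x, f (D.Ad h x) = D.Ad h (f x) := by
  obtain ⟨e, he⟩ := onb_exists D.Q_symm W (fun x _ hx => D.Q_pos x hx)
  let f : 𝔤 →ₗ[ℝ] 𝔤 := ∑ a, (b.flip (e a)).smulRight (e a)
  have hf : ∀ x, f x = ∑ a, b x (e a) • e a := by
    intro x
    simp only [f, LinearMap.sum_apply, LinearMap.smulRight_apply]
    rfl
  have hfW : ∀ x, f x ∈ W := by
    intro x
    rw [hf]
    exact Submodule.sum_mem _ fun a _ => W.smul_mem _ (he.mem a)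
  have hfQ : ∀ x, ∀ y ∈ W, D.Q (f x) y = b x y := by
    intro x y hy
    have h1 : b x y = ∑ a, D.Q y (e a) * b x (e a) := by
      conv_lhs => rw [he.exp y hy]
      rw [map_sum]
      apply Finset.sum_congr rfl
      intro a _
      rw [map_smul, smul_eq_mul]
    rw [h1, hf, map_sum, LinearMap.sum_apply]
    apply Finset.sum_congr rfl
    intro a _
    rw [map_smul, LinearMap.smul_apply, smul_eq_mul, D.Q_symm (e a) y, mul_comm]
  refine ⟨f, hfW, hfQ, ?_⟩
  intro h x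
  apply D.l3_Q_ext (hfW _) (hW h _ (hfW x))
  intro y hy
  have h1 : D.Ad h⁻¹ y ∈ W := hW _ y hy
  rw [hfQ _ y hy]
  have h2 := hb h x (D.Ad h⁻¹ y)
  rw [D.l3_Ad_inv] at h2
  have h3 := D.Q_Ad h (f x) (D.Ad h⁻¹ y)
  rw [D.l3_Ad_inv] at h3
  rw [h2, h3, hfQ _ _ h1]

/-- Job L3-1. An invariant form vanishes between inequivalent irreducible subspaces.

Proof. Let `e` be a `Q`-orthonormal basis of `W` (`onb_exists`) and `f x = ∑ a, b x (e a) • e a`, a linear
map `𝔤 → 𝔤` with values in `W` and `Q (f x) y = b x y` for `y ∈ W` (`x : 𝔤`). For `y ∈ W`,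
`Q (f (Ad h x)) y = b (Ad h x) y = b x (Ad h⁻¹ y) = Q (f x) (Ad h⁻¹ y) = Q (Ad h (f x)) y`, so
`f (Ad h x) = Ad h (f x)` (`Q` is positive definite on `W`). The subspace `{x ∈ V | f x = 0}` of `V` is
invariant, so it is `⊥` or `V`; the image of `V` under `f` is an invariant subspace of `W`, so it is `⊥` or
`W`. If `f` is not zero on `V` then `f` maps `V` bijectively onto `W`, contradiction. So `b x y = 0`. -/
theorem schur_off {V W : Submodule ℝ 𝔤} (hV : D.Irr V) (hW : D.Irr W) (hVW : ¬ D.Equivalent V W)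
    {b : BilinForm ℝ 𝔤} (hb : ∀ h x y, b (D.Ad h x) (D.Ad h y) = b x y) :
    ∀ x ∈ V, ∀ y ∈ W, b x y = 0 := by
  obtain ⟨f, hfW, hfQ, hfA⟩ := D.l3_rep W hW.inv hb
  have hzero : (∀ x ∈ V, f x = 0) → ∀ x ∈ V, ∀ y ∈ W, b x y = 0 := by
    intro h0 x hx y hy
    rw [← hfQ x y hy, h0 x hx, map_zero, LinearMap.zero_apply]
  rcases hV.irr (V ⊓ LinearMap.ker f) inf_le_left (by
      intro h x hx
      refine ⟨hV.inv h x hx.1, ?_⟩
      rw [SetLike.mem_coe, LinearMap.mem_ker, hfA, LinearMap.mem_ker.1 hx.2, map_zero]) with h1 | h1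
  · rcases hW.irr (V.map f) (by
        rintro _ ⟨x, _, rfl⟩
        exact hfW x) (by
        rintro h _ ⟨x, hx, rfl⟩
        exact ⟨D.Ad h x, hV.inv h x hx, hfA h x⟩) with h2 | h2
    · apply hzero
      intro x hx
      have h3 : f x ∈ V.map f := ⟨x, hx, rfl⟩
      rw [h2, Submodule.mem_bot] at h3
      exact h3
    · exfalso
      apply hVW
      refine ⟨f, ⟨fun x _ => hfW x, ?_, ?_⟩, fun h x _ => hfA h x⟩
      · intro x hx y hy hxy
        have h3 : x - y ∈ V ⊓ LinearMap.ker f := by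
          refine ⟨V.sub_mem hx hy, ?_⟩
          rw [SetLike.mem_coe, LinearMap.mem_ker, map_sub, hxy, sub_self]
        rw [h1, Submodule.mem_bot] at h3
        exact sub_eq_zero.1 h3
      · intro y hy
        have h3 : y ∈ V.map f := by
          rw [h2]
          exact hy
        obtain ⟨x, hx, rfl⟩ := h3
        exact ⟨x, hx, rfl⟩
  · apply hzero
    intro x hx
    have h3 : x ∈ V ⊓ LinearMap.ker f := by
      rw [h1]
      exact hx
    exact LinearMap.mem_ker.1 h3.2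

end HomData

end Pool.Agent.H.MP_deabf1_gt
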