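import Pool.Agent.H.MP_deabf1_gt.L3a

/-!
Invariant bilinear forms (Schur's lemma): symmetric forms on an irreducible subspace.
-/

namespace Pool.Agent.H.MP_deabf1_gt

open LinearMap (BilinForm)

variable {𝔤 K : Type*} [LieRing 𝔤] [LieAlgebra ℝ 𝔤] [Module.Finite ℝ 𝔤] [Group K]
  (D : HomData 𝔤 K)

namespace HomData

/-- Job L3-2. A symmetric invariant form on an irreducible subspace is a multiple of `Q`.

Proof. Let `e` be a `Q`-orthonormal basis of `W`, `f x = ∑ a, b x (e a) • e a`, so `Q (f x) y = b x y` for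
`y ∈ W`, and `f` is `Q`-symmetric on `W`. It has an eigenvector in `W`: e.g. maximize the continuous function
`b x x` on the compact set `{x ∈ W | Q x x = 1}` (transport to `EuclideanSpace ℝ (Fin n)` by the basis `e`;
`IsSelfAdjoint`/`IsSymmetric` Rayleigh quotient theory of Mathlib, or
`LinearMap.IsSymmetric.hasEigenvalue_iSup_of_finiteDimensional`, or the spectral theorem for the real
symmetric matrix `b (e i) (e j)`, `Matrix.IsHermitian`). Let `a` be the eigenvalue. The subspace
`{x ∈ W | ∀ y ∈ W, b x y = a * Q x y}` is invariant and not zero, so it is `W`. -/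
theorem schur_diag {W : Submodule ℝ 𝔤} (hW : D.Irr W) {b : BilinForm ℝ 𝔤}
    (hs : ∀ x y, b x y = b y x) (hb : ∀ h x y, b (D.Ad h x) (D.Ad h y) = b x y) :
    ∃ a : ℝ, ∀ x ∈ W, ∀ y ∈ W, b x y = a * D.Q x y := by
  classical
  obtain ⟨e, he⟩ := onb_exists D.Q_symm W (fun x _ hx => D.Q_pos x hx)
  have hn : 0 < Module.finrank ℝ W := by
    rw [Module.finrank_pos_iff]
    exact (Submodule.nontrivial_iff_ne_bot).2 hW.ne
  let M : Matrix (Fin (Module.finrank ℝ W)) (Fin (Module.finrank ℝ W)) ℝ :=
    Matrix.of fun i j => b (e i) (e j)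
  have hM : M.IsHermitian := by
    ext i j
    rw [Matrix.conjTranspose_apply]
    change b (e j) (e i) = b (e i) (e j)
    exact hs _ _
  let j0 : Fin (Module.finrank ℝ W) := ⟨0, hn⟩
  let a : ℝ := hM.eigenvalues j0
  let v : Fin (Module.finrank ℝ W) → ℝ := ⇑(hM.eigenvectorBasis j0)
  have hv : M.mulVec v = a • v := hM.mulVec_eigenvectorBasis j0
  let w : 𝔤 := ∑ i, v i • e i
  have hw : w ∈ W := Submodule.sum_mem _ fun i _ => W.smul_mem _ (he.mem i)
  have hQw : ∀ j, D.Q (e j) w = v j := by
    intro j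
    simp only [w, map_sum, map_smul, smul_eq_mul, he.orth]
    rw [Finset.sum_eq_single j]
    · rw [if_pos rfl, mul_one]
    · intro i _ hi
      rw [if_neg (Ne.symm hi), mul_zero]
    · intro h
      exact absurd (Finset.mem_univ j) h
  have hw0 : w ≠ 0 := by
    intro h0
    have h1 : v = 0 := by
      funext j
      rw [← hQw j, h0, map_zero, Pi.zero_apply]
    have h2 : hM.eigenvectorBasis j0 = 0 := by
      ext j
      exact congrFun h1 j
    exact hM.eigenvectorBasis.toBasis.ne_zero j0 (by simpa using h2)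
  have hbw : ∀ j, b (e j) w = a * D.Q (e j) w := by
    intro j
    have h1 := congrFun hv j
    rw [hQw j]
    simp only [w, map_sum, map_smul, smul_eq_mul]
    rw [Matrix.mulVec, dotProduct] at h1
    simp only [M, Matrix.of_apply, Pi.smul_apply, smul_eq_mul] at h1
    rw [← h1]
    apply Finset.sum_congr rfl
    intro i _
    ring
  let N : Submodule ℝ 𝔤 :=
    { carrier := {x | x ∈ W ∧ ∀ y ∈ W, b x y = a * D.Q x y}
      add_mem' := by
        rintro x x' ⟨h1, h2⟩ ⟨h3, h4⟩
        refine ⟨W.add_mem h1 h3, fun y hy => ?_⟩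
        rw [map_add, map_add, LinearMap.add_apply, LinearMap.add_apply, h2 y hy, h4 y hy, mul_add]
      zero_mem' := by
        refine ⟨W.zero_mem, fun y _ => ?_⟩
        rw [map_zero, map_zero, LinearMap.zero_apply, mul_zero]
      smul_mem' := by
        rintro c x ⟨h1, h2⟩
        refine ⟨W.smul_mem c h1, fun y hy => ?_⟩
        rw [map_smul, map_smul, LinearMap.smul_apply, LinearMap.smul_apply, h2 y hy, smul_eq_mul,
          smul_eq_mul]
        ring }
  have hwN : w ∈ N := by
    refine ⟨hw, fun y hy => ?_⟩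
    rw [hs w y, D.Q_symm w y, he.exp y hy]
    simp only [map_sum, LinearMap.sum_apply, map_smul, LinearMap.smul_apply, smul_eq_mul,
      Finset.mul_sum, hbw]
    apply Finset.sum_congr rfl
    intro i _
    ring
  rcases hW.irr N (fun x hx => hx.1) (by
      rintro h x ⟨h1, h2⟩
      refine ⟨hW.inv h x h1, fun y hy => ?_⟩
      have h3 : D.Ad h⁻¹ y ∈ W := hW.inv _ y hy
      have h4 := hb h x (D.Ad h⁻¹ y)
      have h5 := D.Q_Ad h x (D.Ad h⁻¹ y)
      rw [D.l3_Ad_inv] at h4 h5
      rw [h4, h5, h2 _ h3]) with h1 | h1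
  · exfalso
    rw [h1, Submodule.mem_bot] at hwN
    exact hw0 hwN
  · refine ⟨a, fun x hx y hy => ?_⟩
    have h2 : x ∈ N := by
      rw [h1]
      exact hx
    exact h2.2 y hy

end HomData

end Pool.Agent.H.MP_deabf1_gt
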