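import Mathlib

/-!
Polynomials in two variables given by monomials; the Einstein equations.
-/

namespace Pool.Agent.H.MP_deabf1_gt

open Polynomial

/-- The value at `(s, t)` of `∑ j, c j * w j * s ^ A j * t ^ B j`. -/
def ev {ι : Type*} [Fintype ι] (A B : ι → ℕ) (c : ι → ℂ) (s t : ℂ) : ℂ :=
  ∑ j, c j * (s ^ A j * t ^ B j)

/-- The polynomial `∑ j, c j * X ^ A j * Y ^ B j` (`Y` is the outer variable). -/
noncomputable def pol {ι : Type*} [Fintype ι] (A B : ι → ℕ) (c : ι → ℂ) : ℂ[X][X] :=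
  ∑ j, C (C (c j) * X ^ A j) * X ^ B j

/-- The left hand side of the Einstein equation with index `i`, in terms of the inverses `u` of the
eigenvalues of the metric. -/
def eqL {ι 𝕜 : Type*} [Fintype ι] [Field 𝕜] (T : ι → ι → ι → 𝕜) (γ u : ι → 𝕜) (i : ι) : 𝕜 :=
  γ i * u i + 1 / 4 * ∑ j, ∑ k, T i j k *
    (2 * u i + u j * u k / u i - u i * u k / u j - u i * u j / u k)

/-- `T` is symmetric. -/
def Sym {ι 𝕜 : Type*} (T : ι → ι → ι → 𝕜) : Prop :=
  (∀ i j k, T i j k = T j i k) ∧ ∀ i j k, T i j k = T i k j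

end Pool.Agent.H.MP_deabf1_gt
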