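import Pool.Agent.H.MP_deabf1_gt.L2
import Pool.Agent.H.MP_deabf1_gt.PDefs

/-!
The structure constants.
-/

namespace Pool.Agent.H.MP_deabf1_gt

open LinearMap (BilinForm)

variable {𝔤 K : Type*} [LieRing 𝔤] [LieAlgebra ℝ 𝔤] [Module.Finite ℝ 𝔤] [Group K]
  (D : HomData 𝔤 K) {q : ℕ} {n : Type*} [Fintype n] [DecidableEq n]

namespace HomData

/-- The structure constants `[ijk]`. -/
def TT {d : Fin q → ℕ} (f : ∀ i, Fin (d i) → 𝔤) (i j k : Fin q) : ℝ :=
  ∑ a, ∑ b, ∑ c, D.Q ⁅f i a, f j b⁆ (f k c) ^ 2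

/-- The Casimir constants. -/
def GG {d : Fin q → ℕ} (f : ∀ i, Fin (d i) → 𝔤) (z : n → 𝔤) (i : Fin q) : ℝ :=
  ∑ a, ∑ c, D.Q ⁅z c, f i a⁆ ⁅z c, f i a⁆

/-- Job L4-1. Proof: `lie_skew`, `Q_skew`, `Finset.sum_comm`. -/
theorem TT_sym {d : Fin q → ℕ} (f : ∀ i, Fin (d i) → 𝔤) : Sym (D.TT f) := by
  constructor
  · intro i j k
    unfold TT
    rw [Finset.sum_comm]
    apply Finset.sum_congr rfl
    intro b _
    apply Finset.sum_congr rfl
    intro a _
    apply Finset.sum_congr rfl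
    intro c _
    rw [← lie_skew, map_neg, LinearMap.neg_apply, neg_sq]
  · intro i j k
    unfold TT
    apply Finset.sum_congr rfl
    intro a _
    rw [Finset.sum_comm]
    apply Finset.sum_congr rfl
    intro c _
    apply Finset.sum_congr rfl
    intro b _
    rw [D.Q_skew, neg_sq, D.Q_symm]

theorem TT_nonneg {d : Fin q → ℕ} (f : ∀ i, Fin (d i) → 𝔤) (i j k : Fin q) : 0 ≤ D.TT f i j k := by
  unfold TT
  exact Finset.sum_nonneg fun a _ => Finset.sum_nonneg fun b _ => Finset.sum_nonneg fun c _ =>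
    sq_nonneg _

/-- Proof: `Q x x ≥ 0`. -/
theorem GG_nonneg {d : Fin q → ℕ} (f : ∀ i, Fin (d i) → 𝔤) (z : n → 𝔤) (i : Fin q) :
    0 ≤ D.GG f z i := by
  unfold GG
  refine Finset.sum_nonneg fun a _ => Finset.sum_nonneg fun c _ => ?_
  by_cases h : ⁅z c, f i a⁆ = 0
  · rw [h, map_zero]
  · exact (D.Q_pos _ h).le

end HomData

end Pool.Agent.H.MP_deabf1_gt
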