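import Pool.Agent.H.MP_deabf1_gt.L4

/-!
Vanishing structure constants.
-/

namespace Pool.Agent.H.MP_deabf1_gt

open LinearMap (BilinForm)

variable {𝔤 K : Type*} [LieRing 𝔤] [LieAlgebra ℝ 𝔤] [Module.Finite ℝ 𝔤] [Group K]
  (D : HomData 𝔤 K) {q : ℕ} {n : Type*} [Fintype n] [DecidableEq n]

namespace HomData

/-- Job L4-3. If all structure constants vanish then `𝔪` is central.

Proof. `GG = 0` gives `⁅z c, f i a⁆ = 0`, so `⁅𝔨, 𝔪⁆ = 0`; `TT = 0` gives `Q ⁅f i a, f j b⁆ (f k c) = 0`, so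
`⁅f i a, f j b⁆` is orthogonal to `𝔪`; and `Q ⁅f i a, f j b⁆ (z c) = ± Q (f j b) ⁅z c, f i a⁆ = 0`. So
`⁅f i a, f j b⁆ = 0` (`onb_sum`). -/
theorem central_of {m : Fin q → Submodule ℝ 𝔤} {d : Fin q → ℕ} {f : ∀ i, Fin (d i) → 𝔤}
    {z : n → 𝔤} (hsup : ⨆ i, m i = D.𝔪) (hf : ∀ i, IsONB D.Q (m i) (f i))
    (hz : IsONB D.Q D.𝔨.toSubmodule z)
    (hQo : ∀ i j, i ≠ j → ∀ v ∈ m i, ∀ w ∈ m j, D.Q v w = 0)
    (hT : ∀ i j k, D.TT f i j k = 0) (hG : ∀ i, D.GG f z i = 0) :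
    ∀ x ∈ D.𝔪, ∀ y : 𝔤, ⁅x, y⁆ = 0 := by
  have hfm : IsONB D.Q D.𝔪 (fun p : Σ i, Fin (d i) => f p.1 p.2) := by
    have h1 := onb_scale (q := q) (g := D.Q) (Q := D.Q) (m := m) (d := d) (f := f) hf
      (x := fun _ => 1) (fun _ => one_pos) (fun i v _ w _ => (one_mul _).symm) hQo
    rw [hsup] at h1
    simpa using h1
  have hb := D.onb_sum hz hfm
  have hpos : ∀ x : 𝔤, D.Q x x = 0 → x = 0 := by
    intro x hx
    by_contra hne
    exact (D.Q_pos x hne).ne' hx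
  have hnn : ∀ x : 𝔤, 0 ≤ D.Q x x := by
    intro x
    by_cases hx : x = 0
    · rw [hx, map_zero]
    · exact (D.Q_pos x hx).le
  have hzf : ∀ c i a, ⁅z c, f i a⁆ = 0 := by
    intro c i a
    have h1 := hG i
    unfold GG at h1
    have h2 := (Finset.sum_eq_zero_iff_of_nonneg
      (fun a _ => Finset.sum_nonneg (fun c _ => hnn _))).mp h1 a (Finset.mem_univ a)
    have h3 := (Finset.sum_eq_zero_iff_of_nonneg (fun c _ => hnn _)).mp h2 c (Finset.mem_univ c)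
    exact hpos _ h3
  have hQf : ∀ i j k a b c, D.Q ⁅f i a, f j b⁆ (f k c) = 0 := by
    intro i j k a b c
    have h1 := hT i j k
    unfold TT at h1
    have h2 := (Finset.sum_eq_zero_iff_of_nonneg
      (fun a _ => Finset.sum_nonneg (fun b _ => Finset.sum_nonneg (fun c _ => sq_nonneg _)))).mp
        h1 a (Finset.mem_univ a)
    have h3 := (Finset.sum_eq_zero_iff_of_nonneg
      (fun b _ => Finset.sum_nonneg (fun c _ => sq_nonneg _))).mp h2 b (Finset.mem_univ b)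
    have h4 := (Finset.sum_eq_zero_iff_of_nonneg (fun c _ => sq_nonneg _)).mp h3 c
      (Finset.mem_univ c)
    exact pow_eq_zero_iff (two_ne_zero) |>.mp h4
  have hff : ∀ i j a b, ⁅f i a, f j b⁆ = 0 := by
    intro i j a b
    rw [hb.exp ⁅f i a, f j b⁆ trivial, Fintype.sum_sum_type]
    simp only [Sum.elim_inl, Sum.elim_inr]
    rw [Finset.sum_eq_zero, Finset.sum_eq_zero, add_zero]
    · rintro ⟨k, c⟩ _
      rw [hQf, zero_smul]
    · intro c _
      have h1 : D.Q ⁅f i a, f j b⁆ (z c) = 0 := by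
        rw [D.Q_skew, ← lie_skew (f i a) (z c), hzf, neg_zero, map_zero, neg_zero]
      rw [h1, zero_smul]
  have hfy : ∀ (p : Σ i, Fin (d i)) (y : 𝔤), ⁅f p.1 p.2, y⁆ = 0 := by
    intro p y
    rw [hb.exp y trivial, Fintype.sum_sum_type]
    simp only [Sum.elim_inl, Sum.elim_inr]
    rw [lie_add, lie_sum, lie_sum, Finset.sum_eq_zero, Finset.sum_eq_zero, add_zero]
    · intro k _
      rw [lie_smul, hff, smul_zero]
    · intro c _
      rw [lie_smul, ← lie_skew, hzf, neg_zero, smul_zero]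
  intro x hx y
  rw [hfm.exp x hx, sum_lie]
  refine Finset.sum_eq_zero fun p _ => ?_
  rw [smul_lie, hfy, smul_zero]

end HomData

end Pool.Agent.H.MP_deabf1_gt
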