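import Pool.Agent.H.MP_deabf1_gt.L6
import Pool.Agent.H.MP_deabf1_gt.L3a
import Pool.Agent.H.MP_deabf1_gt.L3b

/-!
Invariant metrics are diagonal; scaling.
-/

namespace Pool.Agent.H.MP_deabf1_gt

open LinearMap (BilinForm)

variable {𝔤 K : Type*} [LieRing 𝔤] [LieAlgebra ℝ 𝔤] [Module.Finite ℝ 𝔤] [Group K]
  (D : HomData 𝔤 K) {q : ℕ}

namespace HomData

/-- Job L5-1. An invariant metric is diagonal. Proof: `schur_diag`, `schur_off`; `x i > 0` because
`g` and `Q` are positive on `m i ≠ ⊥`. -/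
theorem metric_diag {m : Fin q → Submodule ℝ 𝔤} (hm : D.Decomp m) {g : BilinForm ℝ 𝔤}
    (hg : D.IsMetric g) :
    ∃ x : Fin q → ℝ, (∀ i, 0 < x i) ∧ (∀ i, ∀ v ∈ m i, ∀ w ∈ m i, g v w = x i * D.Q v w) ∧
      ∀ i j, i ≠ j → ∀ v ∈ m i, ∀ w ∈ m j, g v w = 0 := by
  have h1 : ∀ i, ∃ a : ℝ, ∀ x ∈ m i, ∀ y ∈ m i, g x y = a * D.Q x y := fun i =>
    D.schur_diag (hm.irr i) hg.symm hg.inv
  choose x hx using h1
  refine ⟨x, ?_, hx, fun i j hij => D.schur_off (hm.irr i) (hm.irr j) (hm.inequiv i j hij) hg.inv⟩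
  intro i
  obtain ⟨v, hv, hv0⟩ := Submodule.exists_mem_ne_zero_of_ne_bot (hm.irr i).ne
  have hvm : v ∈ D.𝔪 := by
    rw [← hm.sup]
    exact (le_iSup m i) hv
  have h2 := hg.pos v hvm hv0
  rw [hx i v hv v hv] at h2
  exact pos_of_mul_pos_left h2 (D.Q_pos v hv0).le

/-- Job L5-2. A metric is determined by its eigenvalues. Proof: both forms agree on `𝔨` (zero, also by
symmetry in the second argument) and on the `m i`, which together span `𝔤` (`onb_sum`, `hm.sup`). -/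
theorem metric_ext {m : Fin q → Submodule ℝ 𝔤} (hm : D.Decomp m) {g g' : BilinForm ℝ 𝔤}
    (hg : D.IsMetric g) (hg' : D.IsMetric g') {x : Fin q → ℝ}
    (h1 : ∀ i, ∀ v ∈ m i, ∀ w ∈ m i, g v w = x i * D.Q v w)
    (h2 : ∀ i, ∀ v ∈ m i, ∀ w ∈ m i, g' v w = x i * D.Q v w) : g = g' := by
  have hf : ∀ i, ∃ e : Fin (Module.finrank ℝ (m i)) → 𝔤, IsONB D.Q (m i) e := fun i =>
    onb_exists D.Q_symm (m i) (fun x _ hx => D.Q_pos x hx)
  choose f hf using hf
  obtain ⟨z, hz⟩ := onb_exists D.Q_symm D.𝔨.toSubmodule (fun x _ hx => D.Q_pos x hx)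
  have hQo : ∀ i j, i ≠ j → ∀ v ∈ m i, ∀ w ∈ m j, D.Q v w = 0 := fun i j hij =>
    D.schur_off (hm.irr i) (hm.irr j) (hm.inequiv i j hij) D.Q_Ad
  have hgo : ∀ i j, i ≠ j → ∀ v ∈ m i, ∀ w ∈ m j, g v w = 0 := fun i j hij =>
    D.schur_off (hm.irr i) (hm.irr j) (hm.inequiv i j hij) hg.inv
  have hgo' : ∀ i j, i ≠ j → ∀ v ∈ m i, ∀ w ∈ m j, g' v w = 0 := fun i j hij =>
    D.schur_off (hm.irr i) (hm.irr j) (hm.inequiv i j hij) hg'.inv
  apply LinearMap.ext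
  intro w
  apply LinearMap.ext
  intro v
  rw [D.l6_expand hm.sup hf hz hQo v]
  rw [map_add, map_add, map_sum, map_sum, map_sum, map_sum]
  congr 1
  · apply Finset.sum_congr rfl
    intro c _
    rw [map_smul, map_smul, hg.symm w, hg'.symm w, hg.ker _ (hz.mem c), hg'.ker _ (hz.mem c)]
  · apply Finset.sum_congr rfl
    rintro ⟨k, c⟩ _
    rw [map_smul, map_smul, D.l6_gapply hm.sup hf hz hQo hg h1 hgo w ((hf k).mem c),
      D.l6_gapply hm.sup hf hz hQo hg' h2 hgo' w ((hf k).mem c)]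

/-- Job L5-3. Scaling. Proof: `IsMetric`: clear. `IsEinstein`: use the basis `c^(-1/2) • e`. -/
theorem einstein_smul {g : BilinForm ℝ 𝔤} {lam c : ℝ} (hc : 0 < c) (hg : D.IsMetric g)
    (hE : D.IsEinstein g lam) : D.IsMetric (c • g) ∧ D.IsEinstein (c • g) (lam / c) := by
  have hcg : ∀ x y, (c • g) x y = c * g x y := by
    intro x y
    rw [LinearMap.smul_apply, LinearMap.smul_apply, smul_eq_mul]
  have hcs : c * ((Real.sqrt c)⁻¹ * (Real.sqrt c)⁻¹) = 1 := by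
    rw [← mul_inv, Real.mul_self_sqrt hc.le, mul_inv_cancel₀ hc.ne']
  refine ⟨⟨?_, ?_, ?_, ?_⟩, ?_⟩
  · intro x y
    rw [hcg, hcg, hg.symm]
  · intro z hz y
    rw [hcg, hg.ker z hz, mul_zero]
  · intro x hx hx0
    rw [hcg]
    exact mul_pos hc (hg.pos x hx hx0)
  · intro h x y
    rw [hcg, hcg, hg.inv]
  · obtain ⟨n, e, he, hric⟩ := hE
    refine ⟨n, fun i => (Real.sqrt c)⁻¹ • e i, ⟨?_, ?_, ?_⟩, ?_⟩
    · intro i
      exact D.𝔪.smul_mem _ (he.mem i)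
    · intro i j
      rw [hcg, map_smul, map_smul, LinearMap.smul_apply, smul_eq_mul, smul_eq_mul, ← he.orth i j]
      linear_combination (g (e i) (e j)) * hcs
    · intro x hx
      conv_lhs => rw [he.exp x hx]
      apply Finset.sum_congr rfl
      intro i _
      rw [hcg, map_smul, smul_eq_mul, smul_smul]
      congr 1
      linear_combination (-(g x (e i))) * hcs
    · intro x hx
      have h1 := hric x hx
      have h2 : ∑ i, (c • g) ⁅x, (Real.sqrt c)⁻¹ • e i⁆ ⁅x, (Real.sqrt c)⁻¹ • e i⁆ =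
          ∑ i, g ⁅x, e i⁆ ⁅x, e i⁆ := by
        apply Finset.sum_congr rfl
        intro i _
        rw [hcg, lie_smul, map_smul, map_smul, LinearMap.smul_apply, smul_eq_mul, smul_eq_mul]
        linear_combination (g ⁅x, e i⁆ ⁅x, e i⁆) * hcs
      have h3 : ∑ i, ∑ j, (c • g) ⁅(Real.sqrt c)⁻¹ • e i, (Real.sqrt c)⁻¹ • e j⁆ x ^ 2 =
          ∑ i, ∑ j, g ⁅e i, e j⁆ x ^ 2 := by
        apply Finset.sum_congr rfl
        intro i _
        apply Finset.sum_congr rfl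
        intro j _
        rw [hcg, smul_lie, lie_smul, map_smul, map_smul, LinearMap.smul_apply, LinearMap.smul_apply,
          smul_eq_mul, smul_eq_mul]
        have h4 : c * ((Real.sqrt c)⁻¹ * ((Real.sqrt c)⁻¹ * g ⁅e i, e j⁆ x)) = g ⁅e i, e j⁆ x := by
          linear_combination (g ⁅e i, e j⁆ x) * hcs
        rw [h4]
      rw [h2, h3, h1, hcg]
      field_simp

end HomData

end Pool.Agent.H.MP_deabf1_gt
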