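import Pool.Agent.H.MP_deabf1_gt.PDefs

/-!
Finiteness of the set of solutions of the Einstein equations with one or two unknowns; the sign of
the Einstein constant.
-/

namespace Pool.Agent.H.MP_deabf1_gt

open Polynomial

/-- Job QG-1. One unknown. Proof: the set is a subsingleton. -/
theorem core1 (T : Fin 1 → Fin 1 → Fin 1 → ℝ) (γ : Fin 1 → ℝ) (d : Fin 1 → ℕ) :
    {u : Fin 1 → ℝ | (∀ i, 0 < u i) ∧ u 0 = 1 ∧
      ∃ lam : ℝ, lam ≠ 0 ∧ ∀ i, eqL T γ u i = d i * lam}.Finite := by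
  refine Set.Subsingleton.finite ?_
  rintro u ⟨-, hu, -⟩ v ⟨-, hv, -⟩
  funext i
  have hi : i = 0 := Subsingleton.elim _ _
  rw [hi, hu, hv]

/-- Coefficients of a polynomial of degree three. -/
theorem qg_coeff (a b c e : ℝ) :
    (C a * X ^ 3 - C b * X ^ 2 + C c * X - C e : ℝ[X]).coeff 3 = a ∧
    (C a * X ^ 3 - C b * X ^ 2 + C c * X - C e : ℝ[X]).coeff 1 = c ∧
    (C a * X ^ 3 - C b * X ^ 2 + C c * X - C e : ℝ[X]).coeff 0 = -e := by
  refine ⟨?_, ?_, ?_⟩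
  · simp [coeff_X, coeff_C, coeff_X_pow]
  · simp [coeff_X, coeff_C, coeff_X_pow]
  · simp [coeff_X, coeff_C, coeff_X_pow]

/-- Job QG-2. Two unknowns.

Proof. With `u = ![1, s]`, symmetry gives (write `A0 = γ 0 + 1 / 4 * T 0 0 0 + T 0 0 1`,
`A1 = γ 1 + 1 / 4 * T 1 1 1 + T 0 1 1`, `p = 1 / 4 * T 0 0 1`, `r = 1 / 4 * T 0 1 1`)
`eqL 0 = A0 - 2 p / s + r s ^ 2` and `eqL 1 = A1 s - 2 r s ^ 2 + p / s`. The equations imply
`d 1 * eqL 0 = d 0 * eqL 1`, i.e. `s` is a root of the polynomial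
`r (d 1 + 2 d 0) X ^ 3 - d 0 A1 X ^ 2 + d 1 A0 X - p (2 d 1 + d 0)`. If this polynomial is zero, then
`r = 0`, `A1 = 0`, `A0 = 0`, `p = 0`, so `eqL 0 = 0`, contradiction to `lam ≠ 0`. Otherwise it has finitely
many roots, and `u` is determined by `u 1`. -/
theorem core2 {T : Fin 2 → Fin 2 → Fin 2 → ℝ} (hT : Sym T) {γ : Fin 2 → ℝ} {d : Fin 2 → ℕ}
    (hd : ∀ i, 0 < d i) :
    {u : Fin 2 → ℝ | (∀ i, 0 < u i) ∧ u 0 = 1 ∧
      ∃ lam : ℝ, lam ≠ 0 ∧ ∀ i, eqL T γ u i = d i * lam}.Finite := by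
  classical
  have hd0 : (0 : ℝ) < d 0 := Nat.cast_pos.2 (hd 0)
  have hd1 : (0 : ℝ) < d 1 := Nat.cast_pos.2 (hd 1)
  have t010 : T 0 1 0 = T 0 0 1 := hT.2 0 1 0
  have t100 : T 1 0 0 = T 0 0 1 := by rw [hT.1 1 0 0, hT.2 0 1 0]
  have t101 : T 1 0 1 = T 0 1 1 := hT.1 1 0 1
  have t110 : T 1 1 0 = T 0 1 1 := by rw [hT.2 1 1 0, hT.1 1 0 1]
  set A0 : ℝ := γ 0 + 1 / 4 * T 0 0 0 + T 0 0 1 with hA0
  set A1 : ℝ := γ 1 + 1 / 4 * T 1 1 1 + T 0 1 1 with hA1
  set p : ℝ := 1 / 4 * T 0 0 1 with hp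
  set r : ℝ := 1 / 4 * T 0 1 1 with hr
  have e0 : ∀ u : Fin 2 → ℝ, 0 < u 1 → u 0 = 1 →
      eqL T γ u 0 = A0 - 2 * p / u 1 + r * u 1 ^ 2 := by
    intro u hu1 hu0
    unfold eqL
    simp only [Fin.sum_univ_two, Fin.isValue, hu0, t010]
    rw [hA0, hp, hr]
    have := hu1.ne'
    field_simp
    ring
  have e1 : ∀ u : Fin 2 → ℝ, 0 < u 1 → u 0 = 1 →
      eqL T γ u 1 = A1 * u 1 - 2 * r * u 1 ^ 2 + p / u 1 := by
    intro u hu1 hu0
    unfold eqL
    simp only [Fin.sum_univ_two, Fin.isValue, hu0, t100, t101, t110]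
    rw [hA1, hp, hr]
    have := hu1.ne'
    field_simp
    ring
  set P : ℝ[X] := C (r * (d 1 + 2 * d 0)) * X ^ 3 - C (d 0 * A1) * X ^ 2 + C (d 1 * A0) * X -
    C (p * (2 * d 1 + d 0)) with hP
  have hroot : ∀ u : Fin 2 → ℝ, 0 < u 1 → u 0 = 1 →
      (∃ lam : ℝ, lam ≠ 0 ∧ ∀ i, eqL T γ u i = d i * lam) → P.IsRoot (u 1) := by
    rintro u hu1 hu0 ⟨lam, -, hE⟩
    have f0 := hE 0
    have f1 := hE 1
    rw [e0 u hu1 hu0] at f0
    rw [e1 u hu1 hu0] at f1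
    have hu1' := hu1.ne'
    have f2 : d 1 * (A0 - 2 * p / u 1 + r * u 1 ^ 2) =
        d 0 * (A1 * u 1 - 2 * r * u 1 ^ 2 + p / u 1) := by
      rw [f0, f1]; ring
    have f3 : (d 1 * (A0 - 2 * p / u 1 + r * u 1 ^ 2)) * u 1 =
        (d 0 * (A1 * u 1 - 2 * r * u 1 ^ 2 + p / u 1)) * u 1 := by rw [f2]
    have f4 : p / u 1 * u 1 = p := div_mul_cancel₀ _ hu1'
    have f5 : 2 * p / u 1 = 2 * (p / u 1) := by ring
    rw [f5] at f3
    rw [IsRoot.def, hP]
    simp only [eval_sub, eval_add, eval_mul, eval_C, eval_pow, eval_X]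
    linear_combination f3 + (2 * (d 1 : ℝ) + d 0) * f4
  by_cases hP0 : P = 0
  · obtain ⟨c3, c1, c0⟩ := qg_coeff (r * (d 1 + 2 * d 0)) (d 0 * A1) (d 1 * A0)
      (p * (2 * d 1 + d 0))
    rw [← hP] at c3 c1 c0
    rw [hP0, coeff_zero] at c3 c1 c0
    have hr0 : r = 0 := by
      rcases mul_eq_zero.1 c3.symm with h | h
      · exact h
      · exfalso; linarith
    have hA00 : A0 = 0 := by
      rcases mul_eq_zero.1 c1.symm with h | h
      · exfalso; linarith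
      · exact h
    have hp0 : p = 0 := by
      rcases mul_eq_zero.1 (neg_eq_zero.1 c0.symm) with h | h
      · exact h
      · exfalso; linarith
    refine Set.Finite.subset Set.finite_empty ?_
    rintro u ⟨hu, hu0, lam, hlam, hE⟩
    exfalso
    have f0 := hE 0
    rw [e0 u (hu 1) hu0, hr0, hA00, hp0] at f0
    have f1 : (d 0 : ℝ) * lam = 0 := by rw [← f0]; ring
    rcases mul_eq_zero.1 f1 with h | h
    · exact hd0.ne' h
    · exact hlam h
  · refine Set.Finite.subset ((P.roots.toFinset.finite_toSet).image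
      (fun x : ℝ => (![1, x] : Fin 2 → ℝ))) ?_
    rintro u ⟨hu, hu0, hE⟩
    refine ⟨u 1, ?_, ?_⟩
    · rw [Finset.mem_coe, Multiset.mem_toFinset, mem_roots hP0]
      exact hroot u (hu 1) hu0 hE
    · funext i
      fin_cases i
      · simp [hu0]
      · simp

/-- The term with the largest eigenvalue is positive. -/
theorem qg_term {a b c : ℝ} (ha : 0 < a) (hb : a ≤ b) (hc : a ≤ c) :
    0 < 2 * a + b * c / a - a * c / b - a * b / c := by
  have hb0 : 0 < b := lt_of_lt_of_le ha hb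
  have hc0 : 0 < c := lt_of_lt_of_le ha hc
  have e1 : 2 * a + b * c / a - a * c / b - a * b / c =
      ((a * c + b * (c - a)) * (a * b + c * (b - a))) / (a * b * c) := by
    field_simp
    ring
  rw [e1]
  have e2 : 0 ≤ b * (c - a) := mul_nonneg hb0.le (sub_nonneg.2 hc)
  have e3 : 0 ≤ c * (b - a) := mul_nonneg hc0.le (sub_nonneg.2 hb)
  have e4 : 0 < a * c := mul_pos ha hc0
  have e5 : 0 < a * b := mul_pos ha hb0
  exact div_pos (mul_pos (by linarith) (by linarith)) (by positivity)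

/-- Job QG-3. The Einstein constant is positive or everything is zero.

Proof. Let `Bad` be the set of the `i` with `γ i ≠ 0` or `T i j k ≠ 0` for some `j`, `k`. If it is not
empty choose `i ∈ Bad` with `u i` minimal. With `x = 1 / u`,
`eqL T γ u i = γ i * u i + 1 / 4 * ∑ j, ∑ k, T i j k * (u i * (x i ^ 2 - (x j - x k) ^ 2) / (x j * x k))`
(`field_simp; ring`, termwise). If `T i j k ≠ 0` then `j, k ∈ Bad` by symmetry, so `x j, x k ≤ x i` and
`|x j - x k| < x i`: the term is positive. So `eqL T γ u i > 0`, but `d i * lam ≤ 0`. -/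
theorem lam_pos {ι : Type*} [Fintype ι] {T : ι → ι → ι → ℝ} (hT : Sym T)
    (hT0 : ∀ i j k, 0 ≤ T i j k) {γ : ι → ℝ} (hγ : ∀ i, 0 ≤ γ i) {d : ι → ℕ} {u : ι → ℝ}
    (hu : ∀ i, 0 < u i) {lam : ℝ} (hlam : lam ≤ 0) (hE : ∀ i, eqL T γ u i = d i * lam) (i : ι) :
    γ i = 0 ∧ ∀ j k, T i j k = 0 := by
  classical
  by_contra hne
  obtain ⟨i0, hi0, hmin⟩ := Finset.exists_min_image
    (Finset.univ.filter fun i => ¬ (γ i = 0 ∧ ∀ j k, T i j k = 0)) u ⟨i, by simpa using hne⟩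
  have hi0' : ¬ (γ i0 = 0 ∧ ∀ j k, T i0 j k = 0) := (Finset.mem_filter.1 hi0).2
  have hpos : ∀ j k, T i0 j k ≠ 0 → 0 < T i0 j k *
      (2 * u i0 + u j * u k / u i0 - u i0 * u k / u j - u i0 * u j / u k) := by
    intro j k hjk
    have hj : u i0 ≤ u j := by
      refine hmin j (Finset.mem_filter.2 ⟨Finset.mem_univ _, fun h => ?_⟩)
      have := h.2 i0 k
      rw [hT.1 j i0 k] at this
      exact hjk this
    have hk : u i0 ≤ u k := by
      refine hmin k (Finset.mem_filter.2 ⟨Finset.mem_univ _, fun h => ?_⟩)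
      have := h.2 i0 j
      rw [hT.1 k i0 j, hT.2 i0 k j] at this
      exact hjk this
    refine mul_pos (lt_of_le_of_ne (hT0 _ _ _) (Ne.symm hjk)) ?_
    exact qg_term (hu i0) hj hk
  have hnn : ∀ j k, 0 ≤ T i0 j k *
      (2 * u i0 + u j * u k / u i0 - u i0 * u k / u j - u i0 * u j / u k) := by
    intro j k
    by_cases h : T i0 j k = 0
    · rw [h, zero_mul]
    · exact (hpos j k h).le
  have hsum : 0 ≤ ∑ j, ∑ k, T i0 j k *
      (2 * u i0 + u j * u k / u i0 - u i0 * u k / u j - u i0 * u j / u k) :=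
    Finset.sum_nonneg fun j _ => Finset.sum_nonneg fun k _ => hnn j k
  have hE0 := hE i0
  have hneg : (d i0 : ℝ) * lam ≤ 0 := mul_nonpos_of_nonneg_of_nonpos (Nat.cast_nonneg _) hlam
  have hkey : 0 < eqL T γ u i0 := by
    unfold eqL
    by_cases hγ0 : γ i0 = 0
    · have hex : ∃ j k, T i0 j k ≠ 0 := by
        by_contra hc
        push Not at hc
        exact hi0' ⟨hγ0, hc⟩
      obtain ⟨j, k, hjk⟩ := hex
      have h1 : 0 < ∑ j, ∑ k, T i0 j k *
          (2 * u i0 + u j * u k / u i0 - u i0 * u k / u j - u i0 * u j / u k) := by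
        refine Finset.sum_pos' (fun j _ => Finset.sum_nonneg fun k _ => hnn j k)
          ⟨j, Finset.mem_univ _, ?_⟩
        exact Finset.sum_pos' (fun k _ => hnn j k) ⟨k, Finset.mem_univ _, hpos j k hjk⟩
      rw [hγ0, zero_mul, zero_add]
      exact mul_pos (by norm_num) h1
    · have h2 : 0 < γ i0 * u i0 := mul_pos (lt_of_le_of_ne (hγ i0) (Ne.symm hγ0)) (hu i0)
      have h3 : 0 ≤ 1 / 4 * ∑ j, ∑ k, T i0 j k *
          (2 * u i0 + u j * u k / u i0 - u i0 * u k / u j - u i0 * u j / u k) :=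
        mul_nonneg (by norm_num) hsum
      linarith
  rw [hE0] at hkey
  linarith

end Pool.Agent.H.MP_deabf1_gt
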