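import Pool.Agent.H.MP_deabf1_gt.QF
import Pool.Agent.H.MP_deabf1_gt.QG

/-!
Finiteness of the set of solutions with at most three different values.
-/

namespace Pool.Agent.H.MP_deabf1_gt

private theorem qh_comm {α β ι : Type*} [Fintype α] [Fintype β] [Fintype ι] (g : α → β → ι → ℝ) :
    ∑ b, ∑ c, ∑ i, g b c i = ∑ i, ∑ b, ∑ c, g b c i :=
  calc ∑ b, ∑ c, ∑ i, g b c i = ∑ b, ∑ i, ∑ c, g b c i :=
        Finset.sum_congr rfl fun _ _ => Finset.sum_comm
    _ = ∑ i, ∑ b, ∑ c, g b c i := Finset.sum_comm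

/-- Job QH-1. Sums over blocks. If `u = y ∘ π` then the sum of the equations over the fibre of `a` is the
equation with index `a` for the sums of the coefficients over the fibres. Proof: unfold; in the sum over
`i` with `π i = a` all terms depend only on `π i, π j, π k` apart from the coefficient; group the sums
over `j`, `k` by fibres (`Finset.sum_fiberwise` or `Finset.sum_comm` with indicator functions). -/
theorem eqL_block {q r : ℕ} (π : Fin q → Fin r) (T : Fin q → Fin q → Fin q → ℝ) (γ : Fin q → ℝ)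
    (y : Fin r → ℝ) (a : Fin r) :
    eqL (fun a b c => ∑ i, ∑ j, ∑ k, if π i = a ∧ π j = b ∧ π k = c then T i j k else 0)
      (fun a => ∑ i, if π i = a then γ i else 0) y a =
    ∑ i, if π i = a then eqL T γ (y ∘ π) i else 0 := by
  unfold eqL
  generalize hF : (fun a b c : Fin r => 2 * y a + y b * y c / y a - y a * y c / y b -
    y a * y b / y c) = F
  have hF' : ∀ a b c : Fin r, 2 * y a + y b * y c / y a - y a * y c / y b -
    y a * y b / y c = F a b c := by
    intro a b c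
    rw [← hF]
  have key : ∀ i j k, ∑ b, ∑ c, (if π i = a ∧ π j = b ∧ π k = c then T i j k else 0) * F a b c =
      if π i = a then T i j k * F a (π j) (π k) else 0 := by
    intro i j k
    rw [Finset.sum_eq_single (π j), Finset.sum_eq_single (π k)]
    · by_cases h : π i = a
      · rw [if_pos ⟨h, rfl, rfl⟩, if_pos h]
      · rw [if_neg (fun h' => h h'.1), if_neg h, zero_mul]
    · intro c _ hc
      rw [if_neg (fun h' => hc h'.2.2.symm), zero_mul]
    · intro h
      exact absurd (Finset.mem_univ _) h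
    · intro b _ hb
      refine Finset.sum_eq_zero fun c _ => ?_
      rw [if_neg (fun h' => hb h'.2.1.symm), zero_mul]
    · intro h
      exact absurd (Finset.mem_univ _) h
  have h1 : ∑ b, ∑ c, (∑ i, ∑ j, ∑ k, if π i = a ∧ π j = b ∧ π k = c then T i j k else 0) *
      F a b c = ∑ i, ∑ j, ∑ k, if π i = a then T i j k * F a (π j) (π k) else 0 := by
    simp_rw [Finset.sum_mul]
    rw [qh_comm]
    refine Finset.sum_congr rfl fun i _ => ?_
    rw [qh_comm]
    refine Finset.sum_congr rfl fun j _ => ?_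
    rw [qh_comm]
    refine Finset.sum_congr rfl fun k _ => ?_
    exact key i j k
  simp only [Function.comp_apply, hF']
  rw [h1, Finset.sum_mul, Finset.mul_sum, ← Finset.sum_add_distrib]
  refine Finset.sum_congr rfl fun i _ => ?_
  by_cases h : π i = a
  · simp only [h, if_true]
  · simp only [h, if_false]
    simp

private theorem qh_sym {q r : ℕ} (π : Fin q → Fin r) {T : Fin q → Fin q → Fin q → ℝ} (hT : Sym T) :
    Sym (fun a b c => ∑ i, ∑ j, ∑ k, if π i = a ∧ π j = b ∧ π k = c then T i j k else 0) := by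
  refine ⟨fun a b c => ?_, fun a b c => ?_⟩
  · change ∑ i, ∑ j, ∑ k, (if π i = a ∧ π j = b ∧ π k = c then T i j k else 0) =
      ∑ i, ∑ j, ∑ k, if π i = b ∧ π j = a ∧ π k = c then T i j k else 0
    rw [Finset.sum_comm]
    refine Finset.sum_congr rfl fun i _ => Finset.sum_congr rfl fun j _ =>
      Finset.sum_congr rfl fun k _ => ?_
    rw [hT.1 j i k]
    refine if_congr ?_ rfl rfl
    tauto
  · change ∑ i, ∑ j, ∑ k, (if π i = a ∧ π j = b ∧ π k = c then T i j k else 0) =
      ∑ i, ∑ j, ∑ k, if π i = a ∧ π j = c ∧ π k = b then T i j k else 0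
    refine Finset.sum_congr rfl fun i _ => ?_
    rw [Finset.sum_comm]
    refine Finset.sum_congr rfl fun j _ => Finset.sum_congr rfl fun k _ => ?_
    rw [hT.2 i k j]
    refine if_congr ?_ rfl rfl
    tauto

private theorem qh_core (r : ℕ) (hr : r < 3) {T : Fin (r + 1) → Fin (r + 1) → Fin (r + 1) → ℝ}
    (hT : Sym T) (hT0 : ∀ i j k, 0 ≤ T i j k) {γ : Fin (r + 1) → ℝ} (hγ : ∀ i, 0 ≤ γ i)
    {d : Fin (r + 1) → ℕ} (hd : ∀ i, 0 < d i) :
    {u : Fin (r + 1) → ℝ | (∀ i, 0 < u i) ∧ u 0 = 1 ∧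
      ∃ lam : ℝ, lam ≠ 0 ∧ ∀ i, eqL T γ u i = d i * lam}.Finite := by
  rcases r with _ | _ | _ | r
  · exact core1 T γ d
  · exact core2 hT hd
  · exact core3 hT hT0 hγ hd
  · omega

private theorem qh_enum {q : ℕ} (u : Fin (q + 1) → ℝ) (S : Finset ℝ) (hS : S.card ≤ 3)
    (hu : ∀ i, u i ∈ S) :
    ∃ (r : ℕ) (π : Fin (q + 1) → Fin (r + 1)) (y : Fin (r + 1) → ℝ), r < 3 ∧
      Function.Surjective π ∧ y 0 = u 0 ∧ y ∘ π = u := by
  classical
  have hV : (Finset.univ.image u).card ≤ 3 := by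
    refine (Finset.card_le_card ?_).trans hS
    intro v hv
    obtain ⟨i, -, rfl⟩ := Finset.mem_image.1 hv
    exact hu i
  have hmem : ∀ i, u i ∈ Finset.univ.image u := fun i => Finset.mem_image_of_mem u (Finset.mem_univ i)
  have hpos : 0 < (Finset.univ.image u).card := Finset.card_pos.2 ⟨_, hmem 0⟩
  obtain ⟨r, hr⟩ : ∃ r, (Finset.univ.image u).card = r + 1 := ⟨_, (Nat.succ_pred_eq_of_pos hpos).symm⟩
  let e0 : (Finset.univ.image u : Finset ℝ) ≃ Fin (r + 1) := Finset.equivFinOfCardEq hr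
  let e : (Finset.univ.image u : Finset ℝ) ≃ Fin (r + 1) :=
    e0.trans (Equiv.swap (e0 ⟨u 0, hmem 0⟩) 0)
  have he : e ⟨u 0, hmem 0⟩ = 0 := by
    change Equiv.swap (e0 ⟨u 0, hmem 0⟩) 0 (e0 ⟨u 0, hmem 0⟩) = 0
    rw [Equiv.swap_apply_left]
  refine ⟨r, fun i => e ⟨u i, hmem i⟩, fun a => ((e.symm a : (Finset.univ.image u : Finset ℝ)) : ℝ),
    by omega, ?_, ?_, ?_⟩
  · intro a
    obtain ⟨i, -, hi⟩ := Finset.mem_image.1 (e.symm a).2
    refine ⟨i, ?_⟩
    change e ⟨u i, hmem i⟩ = a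
    rw [← Equiv.eq_symm_apply]
    exact Subtype.ext hi
  · change ((e.symm 0 : (Finset.univ.image u : Finset ℝ)) : ℝ) = u 0
    rw [← he, Equiv.symm_apply_apply]
  · funext i
    change ((e.symm (e ⟨u i, hmem i⟩) : (Finset.univ.image u : Finset ℝ)) : ℝ) = u i
    rw [Equiv.symm_apply_apply]

/-- Job QH-2.

Proof. For `u` in the set let `V = Finset.univ.image u`, of cardinality `r + 1` with `r < 3` (it is
contained in the given set, and contains `u 0 = 1`). There is an enumeration `y : Fin (r + 1) → ℝ` of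
`V`, injective with `y 0 = 1`, and `π : Fin (q + 1) → Fin (r + 1)` with `u = y ∘ π`, surjective. By
`eqL_block` the vector `y` is in the set of `core1`, `core2` or `core3` (`r = 0, 1, 2`) for the block sums
`T'`, `γ'` and `d' a = ∑ i, if π i = a then d i else 0`; these satisfy the hypotheses (symmetric,
nonnegative, `0 < d' a` because `π` is surjective). So the set is contained in the union over `r < 3` and
all `π : Fin (q + 1) → Fin (r + 1)` surjective of the images of finite sets under `y ↦ y ∘ π`. -/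
theorem core_all {q : ℕ} {T : Fin (q + 1) → Fin (q + 1) → Fin (q + 1) → ℝ} (hT : Sym T)
    (hT0 : ∀ i j k, 0 ≤ T i j k) {γ : Fin (q + 1) → ℝ} (hγ : ∀ i, 0 ≤ γ i)
    {d : Fin (q + 1) → ℕ} (hd : ∀ i, 0 < d i) :
    {u : Fin (q + 1) → ℝ | (∀ i, 0 < u i) ∧ u 0 = 1 ∧
      (∃ S : Finset ℝ, S.card ≤ 3 ∧ ∀ i, u i ∈ S) ∧
      ∃ lam : ℝ, lam ≠ 0 ∧ ∀ i, eqL T γ u i = d i * lam}.Finite := by
  classical
  have hfin : (⋃ r : Fin 3, ⋃ π : {π : Fin (q + 1) → Fin (r + 1) // Function.Surjective π},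
      (fun y : Fin ((r : ℕ) + 1) → ℝ => y ∘ π.1) '' {y : Fin ((r : ℕ) + 1) → ℝ | (∀ i, 0 < y i) ∧
        y 0 = 1 ∧ ∃ lam : ℝ, lam ≠ 0 ∧ ∀ a,
          eqL (fun a b c => ∑ i, ∑ j, ∑ k, if π.1 i = a ∧ π.1 j = b ∧ π.1 k = c then T i j k else 0)
            (fun a => ∑ i, if π.1 i = a then γ i else 0) y a =
            ((∑ i, if π.1 i = a then d i else 0 : ℕ) : ℝ) * lam}).Finite := by
    refine Set.finite_iUnion fun r => Set.finite_iUnion fun π => Set.Finite.image _ ?_
    refine qh_core r r.2 (qh_sym π.1 hT) ?_ ?_ ?_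
    · intro a b c
      refine Finset.sum_nonneg fun i _ => Finset.sum_nonneg fun j _ => Finset.sum_nonneg fun k _ => ?_
      split_ifs
      · exact hT0 i j k
      · exact le_rfl
    · intro a
      refine Finset.sum_nonneg fun i _ => ?_
      split_ifs
      · exact hγ i
      · exact le_rfl
    · intro a
      obtain ⟨i, hi⟩ := π.2 a
      refine Finset.sum_pos' (fun _ _ => Nat.zero_le _) ⟨i, Finset.mem_univ i, ?_⟩
      rw [if_pos hi]
      exact hd i
  refine hfin.subset ?_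
  rintro u ⟨hu, hu0, ⟨S, hS, huS⟩, lam, hlam, hE⟩
  obtain ⟨r, π, y, hr, hπ, hy0, hyπ⟩ := qh_enum u S hS huS
  refine Set.mem_iUnion.2 ⟨⟨r, hr⟩, Set.mem_iUnion.2 ⟨⟨π, hπ⟩, y, ⟨?_, ?_, lam, hlam, ?_⟩, hyπ⟩⟩
  · intro a
    obtain ⟨i, rfl⟩ := hπ a
    have h1 : y (π i) = u i := congrFun hyπ i
    rw [h1]
    exact hu i
  · rw [← hu0]
    exact hy0
  · intro a
    rw [eqL_block, hyπ]
    change (∑ i, if π i = a then eqL T γ u i else 0) =
      ((∑ i, if π i = a then d i else 0 : ℕ) : ℝ) * lam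
    rw [Nat.cast_sum, Finset.sum_mul]
    refine Finset.sum_congr rfl fun i _ => ?_
    split_ifs with h
    · exact hE i
    · simp

end Pool.Agent.H.MP_deabf1_gt
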