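import Pool.Agent.H.MP_deabf1_gt.L6
import Pool.Agent.H.MP_deabf1_gt.L7
import Pool.Agent.H.MP_deabf1_gt.L8
import Pool.Agent.H.MP_deabf1_gt.QH

/-!
Finiteness of the number of invariant Einstein metrics with at most three eigenvalues.
-/

namespace Pool.Agent.H.MP_deabf1_gt

open LinearMap (BilinForm)

variable {𝔤 K : Type*} [LieRing 𝔤] [LieAlgebra ℝ 𝔤] [Module.Finite ℝ 𝔤] [Group K]
  (D : HomData 𝔤 K) {q : ℕ}

namespace HomData

/-- Job L5-4. The main theorem.

Proof. `q ≥ 1` since `𝔪 ≠ ⊥`. Choose `Q`-orthonormal bases `f i` of the `m i` (`onb_exists`,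
`d i = finrank > 0`) and `z` of `𝔨`; `Q` is orthogonal between the `m i` by `schur_off`. Let `𝒮` be the set of
the forms `g` which are metrics, Einstein for some `lam`, satisfy the condition on the eigenvalues, and
have eigenvalue 1 on `m 0`. It is finite: the map `g ↦ 1 / x` is injective on it (`metric_ext`) and its
values are in the finite set of `core_all` for `T = TT f`, `γ = GG f z` (`einstein_eq`; `lam ≠ 0` because
otherwise `lam_pos` and `central_of` contradict `hflat`; the values of `u i = 1 / x i` are in the set of the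
inverses of the elements of `S`, or there are at most three indices). For a general `g` with eigenvalue
`x 0` on `m 0` take `c = 1 / x 0` (`einstein_smul`). -/
theorem finite_einstein {m : Fin q → Submodule ℝ 𝔤} (hm : D.Decomp m)
    (hflat : ∃ x ∈ D.𝔪, ∃ y : 𝔤, ⁅x, y⁆ ≠ 0) :
    ∃ F : Finset (BilinForm ℝ 𝔤), ∀ (g : BilinForm ℝ 𝔤) (lam : ℝ), D.IsMetric g →
      D.IsEinstein g lam →
      (q ≤ 3 ∨ ∃ S : Finset ℝ, S.card ≤ 3 ∧ ∀ i, ∃ a ∈ S, ∀ x ∈ m i, g x x = a * D.Q x x) →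
      ∃ c : ℝ, 0 < c ∧ c • g ∈ F := by
  classical
  obtain ⟨p, rfl⟩ : ∃ p, q = p + 1 := by
    rcases Nat.eq_zero_or_pos q with h0 | h0
    · exfalso
      subst h0
      obtain ⟨x, hx, y, hxy⟩ := hflat
      rw [← hm.sup, iSup_of_empty, Submodule.mem_bot] at hx
      rw [hx, zero_lie] at hxy
      exact hxy rfl
    · exact ⟨q - 1, by omega⟩
  choose f hf using fun i => onb_exists (g := D.Q) D.Q_symm (m i) (fun x _ hx => D.Q_pos x hx)
  obtain ⟨z, hz⟩ := onb_exists (g := D.Q) D.Q_symm D.𝔨.toSubmodule (fun x _ hx => D.Q_pos x hx)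
  have hQo : ∀ i j, i ≠ j → ∀ v ∈ m i, ∀ w ∈ m j, D.Q v w = 0 := fun i j hij =>
    D.schur_off (hm.irr i) (hm.irr j) (hm.inequiv i j hij) D.Q_Ad
  have hne : ∀ i, ∃ v ∈ m i, v ≠ 0 := fun i => (Submodule.ne_bot_iff _).1 (hm.irr i).ne
  have hd : ∀ i, 0 < Module.finrank ℝ (m i) := by
    intro i
    rw [Nat.pos_iff_ne_zero]
    intro h0
    exact (hm.irr i).ne (Submodule.finrank_eq_zero.1 h0)
  have hU := core_all (D.TT_sym f) (D.TT_nonneg f) (D.GG_nonneg f z) hd
  set U := {u : Fin (p + 1) → ℝ | (∀ i, 0 < u i) ∧ u 0 = 1 ∧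
      (∃ S : Finset ℝ, S.card ≤ 3 ∧ ∀ i, u i ∈ S) ∧
      ∃ lam : ℝ, lam ≠ 0 ∧ ∀ i, eqL (D.TT f) (D.GG f z) u i = Module.finrank ℝ (m i) * lam}
    with hUdef
  have hfin : (⋃ u ∈ U, {g : BilinForm ℝ 𝔤 | D.IsMetric g ∧
      ∀ i, ∀ v ∈ m i, ∀ w ∈ m i, g v w = 1 / u i * D.Q v w}).Finite := by
    refine Set.Finite.biUnion hU fun u _ => Set.Subsingleton.finite ?_
    rintro g ⟨hg, h1⟩ g' ⟨hg', h2⟩
    exact D.metric_ext hm hg hg' h1 h2
  refine ⟨hfin.toFinset, ?_⟩
  intro g lam hg hE hS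
  obtain ⟨x, hx, hgd, hgo⟩ := D.metric_diag hm hg
  have hc : 0 < 1 / x 0 := one_div_pos.2 (hx 0)
  refine ⟨1 / x 0, hc, ?_⟩
  set c := 1 / x 0 with hcdef
  obtain ⟨hg', hE'⟩ := D.einstein_smul hc hg hE
  have hx' : ∀ i, 0 < c * x i := fun i => mul_pos hc (hx i)
  have hgd' : ∀ i, ∀ v ∈ m i, ∀ w ∈ m i, (c • g) v w = c * x i * D.Q v w := by
    intro i v hv w hw
    rw [LinearMap.smul_apply, LinearMap.smul_apply, smul_eq_mul, hgd i v hv w hw, mul_assoc]
  have hgo' : ∀ i j, i ≠ j → ∀ v ∈ m i, ∀ w ∈ m j, (c • g) v w = 0 := by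
    intro i j hij v hv w hw
    rw [LinearMap.smul_apply, LinearMap.smul_apply, smul_eq_mul, hgo i j hij v hv w hw, mul_zero]
  have hEq := D.einstein_eq hm.sup hf hz hQo hg' hx' hgd' hgo' hE'
  have hlam : lam / c ≠ 0 := by
    intro h0
    have h1 := lam_pos (D.TT_sym f) (D.TT_nonneg f) (D.GG_nonneg f z)
      (fun i => one_div_pos.2 (hx' i)) h0.le hEq
    obtain ⟨y, hy, y', hyy⟩ := hflat
    exact hyy (D.central_of hm.sup hf hz hQo (fun i => (h1 i).2) (fun i => (h1 i).1) y hy y')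
  rw [Set.Finite.mem_toFinset]
  refine Set.mem_iUnion₂.2 ⟨fun j => 1 / (c * x j), ?_, hg', ?_⟩
  · refine ⟨fun i => one_div_pos.2 (hx' i), ?_, ?_, lam / c, hlam, hEq⟩
    · show 1 / (c * x 0) = 1
      rw [hcdef, one_div_mul_cancel (hx 0).ne', one_div_one]
    · rcases hS with h3 | ⟨S, hS3, hSm⟩
      · refine ⟨Finset.univ.image (fun j => 1 / (c * x j)), ?_, ?_⟩
        · refine Finset.card_image_le.trans ?_
          rw [Finset.card_univ, Fintype.card_fin]
          exact h3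
        · intro i
          exact Finset.mem_image_of_mem _ (Finset.mem_univ i)
      · refine ⟨S.image (fun a => 1 / (c * a)), Finset.card_image_le.trans hS3, ?_⟩
        intro i
        obtain ⟨a, ha, hav⟩ := hSm i
        obtain ⟨v, hv, hv0⟩ := hne i
        have h1 := hav v hv
        rw [hgd i v hv v hv] at h1
        have h2 : x i = a := mul_right_cancel₀ (D.Q_pos v hv0).ne' h1
        rw [Finset.mem_image]
        refine ⟨a, ha, ?_⟩
        show 1 / (c * a) = 1 / (c * x i)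
        rw [h2]
  · intro i v hv w hw
    rw [hgd' i v hv w hw, one_div_one_div]

end HomData

end Pool.Agent.H.MP_deabf1_gt
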