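import Pool.Agent.H.MP_deabf1_gt.L4

/-!
The Einstein equations in terms of the structure constants.
-/

namespace Pool.Agent.H.MP_deabf1_gt

open LinearMap (BilinForm)

variable {𝔤 K : Type*} [LieRing 𝔤] [LieAlgebra ℝ 𝔤] [Module.Finite ℝ 𝔤] [Group K]
  (D : HomData 𝔤 K) {q : ℕ} {n : Type*} [Fintype n] [DecidableEq n]

namespace HomData

theorem l6_Qonb {m : Fin q → Submodule ℝ 𝔤} {d : Fin q → ℕ} {f : ∀ i, Fin (d i) → 𝔤}
    (hsup : ⨆ i, m i = D.𝔪) (hf : ∀ i, IsONB D.Q (m i) (f i))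
    (hQo : ∀ i j, i ≠ j → ∀ v ∈ m i, ∀ w ∈ m j, D.Q v w = 0) :
    IsONB D.Q D.𝔪 (fun p : Σ i, Fin (d i) => f p.1 p.2) := by
  have h := onb_scale (g := D.Q) (Q := D.Q) (m := m) hf (x := fun _ => 1) (fun _ => one_pos)
    (fun i v _ w _ => (one_mul _).symm) hQo
  simp only [Real.sqrt_one, inv_one, one_smul] at h
  rw [hsup] at h
  exact h

theorem l6_mem {m : Fin q → Submodule ℝ 𝔤} (hsup : ⨆ i, m i = D.𝔪) {i : Fin q} {v : 𝔤}
    (hv : v ∈ m i) : v ∈ D.𝔪 := by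
  rw [← hsup]
  exact (le_iSup m i) hv

theorem l6_expand {m : Fin q → Submodule ℝ 𝔤} {d : Fin q → ℕ} {f : ∀ i, Fin (d i) → 𝔤}
    {z : n → 𝔤} (hsup : ⨆ i, m i = D.𝔪) (hf : ∀ i, IsONB D.Q (m i) (f i))
    (hz : IsONB D.Q D.𝔨.toSubmodule z)
    (hQo : ∀ i j, i ≠ j → ∀ v ∈ m i, ∀ w ∈ m j, D.Q v w = 0) (w : 𝔤) :
    w = ∑ c, D.Q w (z c) • z c + ∑ p : Σ i, Fin (d i), D.Q w (f p.1 p.2) • f p.1 p.2 := by
  have h := (D.onb_sum hz (D.l6_Qonb hsup hf hQo)).exp w Submodule.mem_top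
  rw [Fintype.sum_sum_type] at h
  simpa using h

theorem l6_gapply {m : Fin q → Submodule ℝ 𝔤} {d : Fin q → ℕ} {f : ∀ i, Fin (d i) → 𝔤}
    {z : n → 𝔤} (hsup : ⨆ i, m i = D.𝔪) (hf : ∀ i, IsONB D.Q (m i) (f i))
    (hz : IsONB D.Q D.𝔨.toSubmodule z)
    (hQo : ∀ i j, i ≠ j → ∀ v ∈ m i, ∀ w ∈ m j, D.Q v w = 0)
    {g : BilinForm ℝ 𝔤} (hg : D.IsMetric g) {x : Fin q → ℝ}
    (hgd : ∀ i, ∀ v ∈ m i, ∀ w ∈ m i, g v w = x i * D.Q v w)
    (hgo : ∀ i j, i ≠ j → ∀ v ∈ m i, ∀ w ∈ m j, g v w = 0)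
    (w : 𝔤) {i : Fin q} {v : 𝔤} (hv : v ∈ m i) : g w v = x i * D.Q w v := by
  have h1 := D.l6_expand hsup hf hz hQo w
  have h2 : ∀ p : Σ i, Fin (d i), g (f p.1 p.2) v = x i * D.Q (f p.1 p.2) v := by
    rintro ⟨k, c⟩
    by_cases hk : k = i
    · subst hk
      exact hgd k _ ((hf k).mem c) v hv
    · rw [hgo k i hk _ ((hf k).mem c) v hv, hQo k i hk _ ((hf k).mem c) v hv, mul_zero]
  have h3 : D.Q w v = ∑ p : Σ i, Fin (d i), D.Q w (f p.1 p.2) * D.Q (f p.1 p.2) v := by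
    have h4 := onb_parseval (D.l6_Qonb hsup hf hQo) (D.l6_mem hsup hv) w
    rw [D.Q_symm w v, h4]
    apply Finset.sum_congr rfl
    intro p _
    rw [D.Q_symm v, D.Q_symm _ w, mul_comm]
  have h5 : g w v = ∑ p : Σ i, Fin (d i), D.Q w (f p.1 p.2) * g (f p.1 p.2) v := by
    conv_lhs => rw [h1]
    rw [map_add, LinearMap.add_apply, map_sum, map_sum, LinearMap.sum_apply, LinearMap.sum_apply]
    have h6 : ∑ c, (g (D.Q w (z c) • z c)) v = 0 := by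
      apply Finset.sum_eq_zero
      intro c _
      rw [map_smul, LinearMap.smul_apply, hg.ker _ (hz.mem c), smul_zero]
    rw [h6, zero_add]
    apply Finset.sum_congr rfl
    intro p _
    rw [map_smul, LinearMap.smul_apply, smul_eq_mul]
  rw [h5, h3, Finset.mul_sum]
  apply Finset.sum_congr rfl
  intro p _
  rw [h2 p]
  ring

theorem l6_gself {m : Fin q → Submodule ℝ 𝔤} {d : Fin q → ℕ} {f : ∀ i, Fin (d i) → 𝔤}
    {z : n → 𝔤} (hsup : ⨆ i, m i = D.𝔪) (hf : ∀ i, IsONB D.Q (m i) (f i))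
    (hz : IsONB D.Q D.𝔨.toSubmodule z)
    (hQo : ∀ i j, i ≠ j → ∀ v ∈ m i, ∀ w ∈ m j, D.Q v w = 0)
    {g : BilinForm ℝ 𝔤} (hg : D.IsMetric g) {x : Fin q → ℝ}
    (hgd : ∀ i, ∀ v ∈ m i, ∀ w ∈ m i, g v w = x i * D.Q v w)
    (hgo : ∀ i j, i ≠ j → ∀ v ∈ m i, ∀ w ∈ m j, g v w = 0) (w : 𝔤) :
    g w w = ∑ p : Σ i, Fin (d i), x p.1 * D.Q w (f p.1 p.2) ^ 2 := by
  have h1 := D.l6_expand hsup hf hz hQo w
  have h5 : g w w = ∑ p : Σ i, Fin (d i), D.Q w (f p.1 p.2) * g w (f p.1 p.2) := by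
    have h0 : g w w = g w (∑ c, D.Q w (z c) • z c +
        ∑ p : Σ i, Fin (d i), D.Q w (f p.1 p.2) • f p.1 p.2) := congrArg (g w) h1
    rw [h0, map_add, map_sum, map_sum]
    have h6 : ∑ c, (g w) (D.Q w (z c) • z c) = 0 := by
      apply Finset.sum_eq_zero
      intro c _
      rw [map_smul, hg.symm, hg.ker _ (hz.mem c), smul_zero]
    rw [h6, zero_add]
    apply Finset.sum_congr rfl
    intro p _
    rw [map_smul, smul_eq_mul]
  rw [h5]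
  apply Finset.sum_congr rfl
  rintro ⟨k, c⟩ _
  rw [D.l6_gapply hsup hf hz hQo hg hgd hgo w ((hf k).mem c)]
  ring

theorem l6_sum1 {d : Fin q → ℕ} (f : ∀ i, Fin (d i) → 𝔤) (c : Fin q → Fin q → ℝ) (i : Fin q) :
    ∑ a, ∑ p : Σ i, Fin (d i), ∑ p' : Σ i, Fin (d i),
      c p.1 p'.1 * D.Q ⁅f i a, f p.1 p.2⁆ (f p'.1 p'.2) ^ 2 = ∑ j, ∑ k, c j k * D.TT f i j k := by
  simp only [Fintype.sum_sigma, TT, Finset.mul_sum]
  rw [Finset.sum_comm]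
  apply Finset.sum_congr rfl
  intro j _
  have h1 : ∀ a, ∑ b, ∑ k, ∑ e, c j k * D.Q ⁅f i a, f j b⁆ (f k e) ^ 2 =
      ∑ k, ∑ b, ∑ e, c j k * D.Q ⁅f i a, f j b⁆ (f k e) ^ 2 := by
    intro a
    exact Finset.sum_comm
  rw [Finset.sum_congr rfl (fun a _ => h1 a), Finset.sum_comm]

theorem l6_sum2 {d : Fin q → ℕ} (f : ∀ i, Fin (d i) → 𝔤) (c : Fin q → Fin q → ℝ) (i : Fin q) :
    ∑ a, ∑ p : Σ i, Fin (d i), ∑ p' : Σ i, Fin (d i),
      c p.1 p'.1 * D.Q ⁅f p.1 p.2, f p'.1 p'.2⁆ (f i a) ^ 2 = ∑ j, ∑ k, c j k * D.TT f j k i := by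
  simp only [Fintype.sum_sigma, TT, Finset.mul_sum]
  rw [Finset.sum_comm]
  apply Finset.sum_congr rfl
  intro j _
  have h1 : ∀ a, ∑ b, ∑ k, ∑ e, c j k * D.Q ⁅f j b, f k e⁆ (f i a) ^ 2 =
      ∑ k, ∑ b, ∑ e, c j k * D.Q ⁅f j b, f k e⁆ (f i a) ^ 2 := by
    intro a
    exact Finset.sum_comm
  rw [Finset.sum_congr rfl (fun a _ => h1 a), Finset.sum_comm]
  apply Finset.sum_congr rfl
  intro k _
  rw [Finset.sum_comm]
  apply Finset.sum_congr rfl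
  intro b _
  exact Finset.sum_comm

/-- Job L4-2. The Einstein equations.

Proof. Write `x i` for the eigenvalues. By `onb_indep`, `onb_indep2` the sums in `IsEinstein` can be computed
with the `g`-orthonormal basis `(x j)^(-1/2) • f j b` of `𝔪` (`onb_scale`). For `v ∈ m i`:
`∑ g ⁅v, e⁆ ⁅v, e⁆ = ∑ j, ∑ b, (x j)⁻¹ * g ⁅v, f j b⁆ ⁅v, f j b⁆`, and for `w : 𝔤`
`g w w = ∑ k, ∑ c, x k * Q w (f k c) ^ 2` (write `w = z + w'` with `z ∈ 𝔨`, `w' ∈ 𝔪` by `onb_sum`; `g` vanishes on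
`𝔨`; expand `w'` in the `Q`-orthonormal basis `f` of `𝔪`, i.e. `onb_scale` with `x = 1`). Further
`∑ g ⁅e, e'⁆ v ^ 2 = ∑ j, ∑ b, ∑ k, ∑ c, (x j)⁻¹ (x k)⁻¹ (x i) ^ 2 Q ⁅f j b, f k c⁆ v ^ 2` (`g w v = x i * Q w v`
for `w : 𝔤`, `v ∈ m i`), and `killing_𝔪`. Sum the equation over `v = f i a`, `a : Fin (d i)`:
`lam * x i * d i = 1/2 (2 GG i + ∑ jk T i j k) - 1/2 ∑ jk T i j k x k / x j + 1/4 ∑ jk T i j k x i ^ 2 / (x j x k)`.
Divide by `x i` and symmetrize the middle sum in `j`, `k`; with `u = 1 / x` this is `eqL T γ u i = d i * lam`. -/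
theorem einstein_eq {m : Fin q → Submodule ℝ 𝔤} {d : Fin q → ℕ} {f : ∀ i, Fin (d i) → 𝔤}
    {z : n → 𝔤} (hsup : ⨆ i, m i = D.𝔪) (hf : ∀ i, IsONB D.Q (m i) (f i))
    (hz : IsONB D.Q D.𝔨.toSubmodule z)
    (hQo : ∀ i j, i ≠ j → ∀ v ∈ m i, ∀ w ∈ m j, D.Q v w = 0)
    {g : BilinForm ℝ 𝔤} (hg : D.IsMetric g) {x : Fin q → ℝ} (hx : ∀ i, 0 < x i)
    (hgd : ∀ i, ∀ v ∈ m i, ∀ w ∈ m i, g v w = x i * D.Q v w)
    (hgo : ∀ i j, i ≠ j → ∀ v ∈ m i, ∀ w ∈ m j, g v w = 0)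
    {lam : ℝ} (hE : D.IsEinstein g lam) (i : Fin q) :
    eqL (D.TT f) (D.GG f z) (fun j => 1 / x j) i = d i * lam := by
  have hxi := hx i
  have hxn : ∀ j, x j ≠ 0 := fun j => (hx j).ne'
  obtain ⟨n0, e, he, hric⟩ := hE
  have hQf := D.l6_Qonb hsup hf hQo
  have hgf := onb_scale hf hx hgd hgo
  rw [hsup] at hgf
  have hsq : ∀ j, (Real.sqrt (x j))⁻¹ * (Real.sqrt (x j))⁻¹ = (x j)⁻¹ := by
    intro j
    rw [← mul_inv, Real.mul_self_sqrt (hx j).le]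
  -- the equation for one vector
  have key : ∀ a : Fin (d i),
      -(1 / 2) * (∑ p : Σ i, Fin (d i), ∑ p' : Σ i, Fin (d i),
        ((x p.1)⁻¹ * x p'.1) * D.Q ⁅f i a, f p.1 p.2⁆ (f p'.1 p'.2) ^ 2) +
      1 / 2 * (2 * ∑ c, D.Q ⁅z c, f i a⁆ ⁅z c, f i a⁆ +
        ∑ p : Σ i, Fin (d i), ∑ p' : Σ i, Fin (d i),
          1 * D.Q ⁅f i a, f p.1 p.2⁆ (f p'.1 p'.2) ^ 2) +
      1 / 4 * (∑ p : Σ i, Fin (d i), ∑ p' : Σ i, Fin (d i),
        ((x p.1)⁻¹ * (x p'.1)⁻¹ * x i ^ 2) * D.Q ⁅f p.1 p.2, f p'.1 p'.2⁆ (f i a) ^ 2) =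
      lam * x i := by
    intro a
    have hva : f i a ∈ m i := (hf i).mem a
    have hv : f i a ∈ D.𝔪 := D.l6_mem hsup hva
    have h1 := hric (f i a) hv
    have h2 : ∑ k, g ⁅f i a, e k⁆ ⁅f i a, e k⁆ =
        ∑ p : Σ i, Fin (d i), ∑ p' : Σ i, Fin (d i),
          ((x p.1)⁻¹ * x p'.1) * D.Q ⁅f i a, f p.1 p.2⁆ (f p'.1 p'.2) ^ 2 := by
      have h3 := onb_indep hg.symm he hgf
        (g.compl₁₂ (LieAlgebra.ad ℝ 𝔤 (f i a)) (LieAlgebra.ad ℝ 𝔤 (f i a)))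
      simp only [LinearMap.compl₁₂_apply, LieAlgebra.ad_apply] at h3
      rw [h3]
      apply Finset.sum_congr rfl
      intro p _
      rw [lie_smul, map_smul, map_smul, LinearMap.smul_apply, smul_eq_mul, smul_eq_mul,
        ← mul_assoc, hsq, D.l6_gself hsup hf hz hQo hg hgd hgo, Finset.mul_sum]
      apply Finset.sum_congr rfl
      intro p' _
      ring
    have h4 : ∑ k, ∑ l, g ⁅e k, e l⁆ (f i a) ^ 2 =
        ∑ p : Σ i, Fin (d i), ∑ p' : Σ i, Fin (d i),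
          ((x p.1)⁻¹ * (x p'.1)⁻¹ * x i ^ 2) * D.Q ⁅f p.1 p.2, f p'.1 p'.2⁆ (f i a) ^ 2 := by
      have h5 := onb_indep2 hg.symm he hgf
        (LinearMap.mk₂ ℝ (fun y y' => g ⁅y, y'⁆ (f i a))
          (by intro y y' w; rw [add_lie, map_add, LinearMap.add_apply])
          (by intro c y w; rw [smul_lie, map_smul, LinearMap.smul_apply])
          (by intro y w w'; rw [lie_add, map_add, LinearMap.add_apply])
          (by intro c y w; rw [lie_smul, map_smul, LinearMap.smul_apply]))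
      simp only [LinearMap.mk₂_apply] at h5
      rw [h5]
      apply Finset.sum_congr rfl
      intro p _
      apply Finset.sum_congr rfl
      intro p' _
      rw [smul_lie, lie_smul, map_smul, map_smul, LinearMap.smul_apply, LinearMap.smul_apply,
        smul_eq_mul, smul_eq_mul, D.l6_gapply hsup hf hz hQo hg hgd hgo _ hva, ← hsq p.1,
        ← hsq p'.1]
      ring
    have h6 := D.killing_𝔪 hz hQf hv
    have h7 : g (f i a) (f i a) = x i := by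
      rw [hgd i _ hva _ hva, (hf i).orth a a, if_pos rfl, mul_one]
    rw [h2, h4, h7] at h1
    have h8 : ∑ p : Σ i, Fin (d i), ∑ p' : Σ i, Fin (d i),
          1 * D.Q ⁅f i a, f p.1 p.2⁆ (f p'.1 p'.2) ^ 2 =
        ∑ p : Σ i, Fin (d i), ∑ p' : Σ i, Fin (d i),
          D.Q ⁅f i a, f p.1 p.2⁆ (f p'.1 p'.2) ^ 2 := by
      simp only [one_mul]
    rw [h8, ← h6]
    linarith
  have hsum := Finset.sum_congr (rfl : (Finset.univ : Finset (Fin (d i))) = Finset.univ)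
    (fun a _ => key a)
  rw [Finset.sum_add_distrib, Finset.sum_add_distrib, ← Finset.mul_sum, ← Finset.mul_sum,
    ← Finset.mul_sum, Finset.sum_add_distrib, ← Finset.mul_sum,
    D.l6_sum1 f (fun j k => (x j)⁻¹ * x k) i, D.l6_sum1 f (fun _ _ => 1) i,
    D.l6_sum2 f (fun j k => (x j)⁻¹ * (x k)⁻¹ * x i ^ 2) i, Finset.sum_const, Finset.card_univ,
    Fintype.card_fin, nsmul_eq_mul] at hsum
  have hGG : ∑ a, ∑ c, D.Q ⁅z c, f i a⁆ ⁅z c, f i a⁆ = D.GG f z i := rfl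
  rw [hGG] at hsum
  have hT := D.TT_sym f
  have hc : ∀ j k, D.TT f j k i = D.TT f i j k := by
    intro j k
    rw [hT.2 j k i, hT.1 j i k]
  simp only [hc, one_mul] at hsum
  have hswap : ∑ j, ∑ k, (x j)⁻¹ * x k * D.TT f i j k = ∑ j, ∑ k, (x k)⁻¹ * x j * D.TT f i j k := by
    rw [Finset.sum_comm]
    apply Finset.sum_congr rfl
    intro j _
    apply Finset.sum_congr rfl
    intro k _
    rw [hT.2 i k j]
  have hfin : eqL (D.TT f) (D.GG f z) (fun j => 1 / x j) i =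
      (x i)⁻¹ * (-(1 / 2) * (1 / 2 * (∑ j, ∑ k, (x j)⁻¹ * x k * D.TT f i j k +
        ∑ j, ∑ k, (x k)⁻¹ * x j * D.TT f i j k)) +
        1 / 2 * (2 * D.GG f z i + ∑ j, ∑ k, D.TT f i j k) +
        1 / 4 * ∑ j, ∑ k, (x j)⁻¹ * (x k)⁻¹ * x i ^ 2 * D.TT f i j k) := by
    unfold eqL
    simp only [mul_add, Finset.mul_sum, ← Finset.sum_add_distrib]
    have : ∀ j k, 1 / 4 * (D.TT f i j k * (2 * (1 / x i) + 1 / x j * (1 / x k) / (1 / x i) -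
        1 / x i * (1 / x k) / (1 / x j) - 1 / x i * (1 / x j) / (1 / x k))) =
        (x i)⁻¹ * (-(1 / 2) * (1 / 2 * ((x j)⁻¹ * x k * D.TT f i j k))) +
        (x i)⁻¹ * (-(1 / 2) * (1 / 2 * ((x k)⁻¹ * x j * D.TT f i j k))) +
        (x i)⁻¹ * (1 / 2 * D.TT f i j k) +
        (x i)⁻¹ * (1 / 4 * ((x j)⁻¹ * (x k)⁻¹ * x i ^ 2 * D.TT f i j k)) := by
      intro j k
      have h1 := hxn i
      have h2 := hxn j
      have h3 := hxn k
      field_simp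
      ring
    simp only [this]
    have h9 : D.GG f z i * (1 / x i) = (x i)⁻¹ * (1 / 2 * (2 * D.GG f z i)) := by ring
    rw [h9]
    simp only [Finset.sum_add_distrib]
    ring
  rw [hfin, ← hswap]
  have h10 : (x i)⁻¹ * (lam * x i * (d i : ℝ)) = d i * lam := by
    have h1 := hxn i
    field_simp
  rw [← h10]
  congr 1
  rw [show lam * x i * (d i : ℝ) = (d i : ℝ) * (lam * x i) by ring, ← hsum]
  ring

end HomData

end Pool.Agent.H.MP_deabf1_gt
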