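import Pool.Agent.H.MP_deabf1_gt.PDefs

/-!
Common zeros of polynomials in two variables. The value of `p : ℂ[X][X]` at `(s, t)` is
`p.evalEval s t` (`Polynomial.evalEval`): `s` is substituted for the inner variable, `t` for the
outer one.
-/

namespace Pool.Agent.H.MP_deabf1_gt

open Polynomial

/-- The case of degree zero in the outer variable. -/
theorem p1_const {a : ℂ[X]} {G : ℂ[X][X]} (hirr : Irreducible (C a : ℂ[X][X])) {Z : Set (ℂ × ℂ)}
    (hZ : Z.Infinite) (h1 : ∀ z ∈ Z, (C a : ℂ[X][X]).evalEval z.1 z.2 = 0)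
    (h2 : ∀ z ∈ Z, G.evalEval z.1 z.2 = 0) : (C a : ℂ[X][X]) ∣ G := by
  have ha : Irreducible a := by
    refine ⟨fun hu => hirr.not_isUnit (isUnit_C.2 hu), fun b c hbc => ?_⟩
    rcases hirr.isUnit_or_isUnit (show (C a : ℂ[X][X]) = C b * C c by rw [hbc, C_mul]) with h | h
    · exact Or.inl (isUnit_C.1 h)
    · exact Or.inr (isUnit_C.1 h)
  have hdeg : a.degree ≠ 0 := by
    intro h0
    exact ha.not_isUnit (isUnit_iff_degree_eq_zero.2 h0)
  obtain ⟨s0, hs0⟩ := IsAlgClosed.exists_root a hdeg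
  have hass : Associated (X - C s0) a :=
    (irreducible_X_sub_C s0).associated_of_dvd ha (dvd_iff_isRoot.2 hs0)
  have hs : ∀ z ∈ Z, z.1 = s0 := by
    intro z hz
    have h3 := h1 z hz
    rw [evalEval_C] at h3
    obtain ⟨q, hq⟩ := hass.dvd'
    have h4 := congrArg (fun r : ℂ[X] => r.eval z.1) hq
    simp only [eval_sub, eval_X, eval_C, eval_mul, h3, zero_mul] at h4
    exact sub_eq_zero.1 h4
  have hinj : Set.InjOn (fun z : ℂ × ℂ => z.2) Z := by
    intro z hz z' hz' he
    exact Prod.ext ((hs z hz).trans (hs z' hz').symm) he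
  have hinf : (Prod.snd '' Z).Infinite := hZ.image hinj
  have hG : G.map (evalRingHom s0) = 0 := by
    apply Polynomial.eq_zero_of_infinite_isRoot
    refine hinf.mono ?_
    rintro _ ⟨z, hz, rfl⟩
    show (G.map (evalRingHom s0)).eval z.2 = 0
    rw [map_evalRingHom_eval, ← hs z hz]
    exact h2 z hz
  rw [C_dvd_iff_dvd_coeff]
  intro i
  rw [← hass.dvd_iff_dvd_left, dvd_iff_isRoot]
  show (G.coeff i).eval s0 = 0
  have h3 := congrArg (fun r : ℂ[X] => r.coeff i) hG
  simp only [coeff_map, coe_evalRingHom, coeff_zero] at h3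
  exact h3

/-- A polynomial which is not zero at `s` as a polynomial in the outer variable. -/
theorem p1_prim {h : ℂ[X][X]} (hp : h.IsPrimitive) (s : ℂ) : h.map (evalRingHom s) ≠ 0 := by
  intro h0
  have h1 : (C (X - C s) : ℂ[X][X]) ∣ h := by
    rw [C_dvd_iff_dvd_coeff]
    intro i
    rw [dvd_iff_isRoot]
    show (h.coeff i).eval s = 0
    have h3 := congrArg (fun r : ℂ[X] => r.coeff i) h0
    simp only [coeff_map, coe_evalRingHom, coeff_zero] at h3
    exact h3
  exact (irreducible_X_sub_C s).not_isUnit (hp _ h1)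

/-- Clearing denominators. -/
theorem p1_clear (K : Type) [Field K] [Algebra ℂ[X] K] [IsFractionRing ℂ[X] K] (g : K[X]) :
    ∃ (r : ℂ[X]) (g' : ℂ[X][X]), r ≠ 0 ∧
    g'.map (algebraMap ℂ[X] K) = C (algebraMap ℂ[X] K r) * g := by
  obtain ⟨b, hb, hb'⟩ := IsLocalization.integerNormalization_spec (nonZeroDivisors ℂ[X]) g
  refine ⟨b, _, nonZeroDivisors.ne_zero hb, hb'.trans ?_⟩
  rw [Algebra.smul_def, Polynomial.algebraMap_apply]

/-- The resultant. -/
theorem p1_bezout (K : Type) [Field K] [Algebra ℂ[X] K] [IsFractionRing ℂ[X] K] {h G : ℂ[X][X]} (hirr : Irreducible h) (hp : h.IsPrimitive) (hG : ¬ h ∣ G) :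
    ∃ (r : ℂ[X]) (a b : ℂ[X][X]), r ≠ 0 ∧ a * h + b * G = C r := by
  have h1 : Irreducible (h.map (algebraMap ℂ[X] K)) :=
    hp.irreducible_iff_irreducible_map_fraction_map.1 hirr
  have h2 : ¬ h.map (algebraMap ℂ[X] K) ∣ G.map (algebraMap ℂ[X] K) := fun h3 =>
    hG (hp.dvd_of_fraction_map_dvd_fraction_map h3)
  obtain ⟨a, b, hab⟩ := (Irreducible.coprime_iff_not_dvd h1).2 h2
  obtain ⟨ra, a', hra, ha'⟩ := p1_clear K a
  obtain ⟨rb, b', hrb, hb'⟩ := p1_clear K b
  refine ⟨ra * rb, C rb * a', C ra * b', mul_ne_zero hra hrb, ?_⟩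
  apply map_injective (algebraMap ℂ[X] K) (IsFractionRing.injective _ _)
  rw [Polynomial.map_add, Polynomial.map_mul, Polynomial.map_mul, Polynomial.map_mul,
    Polynomial.map_mul, map_C, map_C, map_C, ha', hb', map_mul, C_mul]
  linear_combination (C (algebraMap ℂ[X] K ra) * C (algebraMap ℂ[X] K rb)) * hab

/-- Job P1-1. An irreducible polynomial `h` divides each polynomial `G` vanishing at infinitely many
zeros of `h`.

Proof. Case `h.natDegree = 0`: `h = C a`, `a` irreducible in `ℂ[X]`, so `a` has degree 1 and a single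
root `s0`; all `z ∈ Z` have `z.1 = s0`, so infinitely many `t` are roots of `G.eval₂`-at-`s0`, i.e. of
`G.map (evalRingHom s0)` (`evalEval s t p = (p.map (evalRingHom s)).eval t`), which is therefore zero,
so all coefficients of `G` vanish at `s0` and are divisible by `a` (associated to `X - C s0`).
Case `h.natDegree > 0`: suppose `¬ h ∣ G`. `h` is primitive (irreducible of positive degree), so by
Gauss (`Polynomial.IsPrimitive.irreducible_iff_irreducible_map_fraction_map`,
`Polynomial.IsPrimitive.dvd_iff_fraction_map_dvd_fraction_map` or similar; Mathlib file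
`RingTheory/Polynomial/GaussLemma.lean`) the image of `h` in `K[X]`, `K = FractionRing ℂ[X]`, is
irreducible and does not divide the image of `G`, so they are coprime in `K[X]`: `a h + b G = 1`.
Clear denominators: `a' h + b' G = C r` with `r ≠ 0` in `ℂ[X]`. So all common zeros `(s, t)` have
`r.eval s = 0`: finitely many `s`; and for each `s` only finitely many `t`, because
`h.map (evalRingHom s) ≠ 0` (otherwise `C (X - C s) ∣ h`, impossible for an irreducible `h` of positive
degree). So the common zeros are finite in number. -/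
theorem p_dvd_of_infinite {h G : ℂ[X][X]} (hirr : Irreducible h) {Z : Set (ℂ × ℂ)}
    (hZ : Z.Infinite) (h1 : ∀ z ∈ Z, h.evalEval z.1 z.2 = 0)
    (h2 : ∀ z ∈ Z, G.evalEval z.1 z.2 = 0) : h ∣ G := by
  by_cases hdeg : h.natDegree = 0
  · obtain ⟨a, rfl⟩ : ∃ a, h = C a := ⟨_, eq_C_of_natDegree_eq_zero hdeg⟩
    exact p1_const hirr hZ h1 h2
  · by_contra hG
    have hp : h.IsPrimitive := hirr.isPrimitive hdeg
    obtain ⟨r, a, b, hr, hab⟩ := p1_bezout (FractionRing ℂ[X]) hirr hp hG
    have h3 : ∀ z ∈ Z, r.eval z.1 = 0 := by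
      intro z hz
      have h4 := congrArg (fun q : ℂ[X][X] => q.evalEval z.1 z.2) hab
      simp only [evalEval_add, evalEval_mul, evalEval_C, h1 z hz, h2 z hz, mul_zero,
        add_zero] at h4
      exact h4.symm
    apply hZ
    have hfin : (⋃ s ∈ {s : ℂ | r.IsRoot s}, (fun t : ℂ => (s, t)) ''
        {t : ℂ | (h.map (evalRingHom s)).IsRoot t}).Finite := by
      refine Set.Finite.biUnion ?_ ?_
      · by_contra hinf
        exact hr (Polynomial.eq_zero_of_infinite_isRoot r hinf)
      · intro s _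
        refine Set.Finite.image _ ?_
        by_contra hinf
        exact p1_prim hp s (Polynomial.eq_zero_of_infinite_isRoot _ hinf)
    refine hfin.subset ?_
    intro z hz
    simp only [Set.mem_iUnion]
    refine ⟨z.1, h3 z hz, z.2, ?_, rfl⟩
    show (h.map (evalRingHom z.1)).eval z.2 = 0
    rw [map_evalRingHom_eval]
    exact h1 z hz

end Pool.Agent.H.MP_deabf1_gt
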