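import Pool.Agent.H.MP_deabf1_gt.PDefs

/-!
Irreducible factors and unbounded sets of zeros.
-/

namespace Pool.Agent.H.MP_deabf1_gt

open Polynomial

/-- Job P2-1. Proof: `F` is associated to a finite product of irreducible polynomials
(`WfDvdMonoid.exists_factors` or `UniqueFactorizationMonoid.factors`), so each `z ∈ Z` is a zero of one
of the finitely many factors (`evalEval` is multiplicative: `Polynomial.evalEvalRingHom`); a finite
union of finite sets is finite (`Set.Infinite` of a finite union). -/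
theorem p_exists_factor {F : ℂ[X][X]} (hF : F ≠ 0) {Z : Set (ℂ × ℂ)} (hZ : Z.Infinite)
    (h1 : ∀ z ∈ Z, F.evalEval z.1 z.2 = 0) :
    ∃ h : ℂ[X][X], Irreducible h ∧ h ∣ F ∧ {z ∈ Z | h.evalEval z.1 z.2 = 0}.Infinite := by
  classical
  obtain ⟨f, hf, u, hu⟩ := WfDvdMonoid.exists_factors F hF
  by_contra hcon
  push Not at hcon
  have hsub : Z ⊆ ⋃ b ∈ f.toFinset, {z ∈ Z | b.evalEval z.1 z.2 = 0} := by
    intro z hz
    have h2 : evalEvalRingHom z.1 z.2 F = 0 := h1 z hz
    rw [← hu, map_mul] at h2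
    have hunit : evalEvalRingHom z.1 z.2 (u : ℂ[X][X]) ≠ 0 :=
      ((u.isUnit).map (evalEvalRingHom z.1 z.2)).ne_zero
    have h3 : evalEvalRingHom z.1 z.2 f.prod = 0 := by
      rcases mul_eq_zero.1 h2 with h | h
      · exact h
      · exact absurd h hunit
    rw [map_multiset_prod, Multiset.prod_eq_zero_iff, Multiset.mem_map] at h3
    obtain ⟨b, hb, hb0⟩ := h3
    simp only [Set.mem_iUnion]
    exact ⟨b, Multiset.mem_toFinset.2 hb, hz, hb0⟩
  apply hZ
  refine Set.Finite.subset ?_ hsub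
  refine Set.Finite.biUnion (Finset.finite_toSet _) ?_
  intro b hb
  have hbf : b ∈ f := Multiset.mem_toFinset.1 hb
  have hdvd : b ∣ F := (Multiset.dvd_prod hbf).trans ⟨u, hu.symm⟩
  have h4 := hcon b (hf b hbf) hdvd
  simpa using h4

/-- Job P2-2. The zeros of `h` with nonzero coordinates are unbounded.

Proof. Case `h.natDegree = 0`: `h = C a`, and `a.eval s0 = 0`, so `(s0, t)` is a zero for all `t`: take
`t` with large norm. Case `h.natDegree > 0`: the constant coefficient `h.coeff 0` is not zero, since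
otherwise `X ∣ h`, so `h` would be associated to `X` (irreducible) and `h.evalEval s0 t0 = 0` would imply
`t0 = 0`. The leading coefficient is not zero. Choose `s` with `R < ‖s‖`, `s ≠ 0`, outside of the finitely
many roots of `h.coeff 0` and of `h.leadingCoeff`. The polynomial `h.map (evalRingHom s)` has positive
degree and nonzero constant coefficient, so it has a root `t` (`IsAlgClosed.exists_root`) and `t ≠ 0`. -/
theorem p_unbounded {h : ℂ[X][X]} (hirr : Irreducible h) {s0 t0 : ℂ} (hs : s0 ≠ 0) (ht : t0 ≠ 0)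
    (h0 : h.evalEval s0 t0 = 0) (R : ℝ) :
    ∃ s t : ℂ, s ≠ 0 ∧ t ≠ 0 ∧ h.evalEval s t = 0 ∧ (R < ‖s‖ ∨ R < ‖t‖) := by
  classical
  by_cases hdeg : h.natDegree = 0
  · have hC : h = C (h.coeff 0) := eq_C_of_natDegree_eq_zero hdeg
    have h1 : ∀ t : ℂ, h.evalEval s0 t = 0 := by
      intro t
      rw [hC] at h0 ⊢
      simpa [evalEval] using h0
    have hpos : (0 : ℝ) < |R| + 1 := by positivity
    refine ⟨s0, ((|R| + 1 : ℝ) : ℂ), hs, ?_, h1 _, Or.inr ?_⟩
    · exact_mod_cast hpos.ne'
    · rw [Complex.norm_real, Real.norm_eq_abs, abs_of_pos hpos]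
      linarith [le_abs_self R]
  · have hc0 : h.coeff 0 ≠ 0 := by
      intro hc
      obtain ⟨g, hg⟩ := X_dvd_iff.2 hc
      have h2 : evalEvalRingHom s0 t0 h = 0 := h0
      rcases hirr.isUnit_or_isUnit hg with hu | hu
      · exact not_isUnit_X hu
      · have h3 : evalEvalRingHom s0 t0 g ≠ 0 := (hu.map (evalEvalRingHom s0 t0)).ne_zero
        rw [hg, map_mul] at h2
        rcases mul_eq_zero.1 h2 with h | h
        · apply ht
          have h4 : evalEvalRingHom s0 t0 (X : ℂ[X][X]) = t0 := by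
            simp [evalEvalRingHom]
          rw [h4] at h
          exact h
        · exact h3 h
    have hl : h.leadingCoeff ≠ 0 := leadingCoeff_ne_zero.2 hirr.ne_zero
    obtain ⟨N, hN⟩ := exists_nat_gt (max R 0)
    have hinf : ((fun n : ℕ => (n : ℂ)) '' Set.Ioi N).Infinite :=
      (Set.Ioi_infinite N).image (Nat.cast_injective.injOn)
    have hfin : {x : ℂ | (h.coeff 0 * h.leadingCoeff).IsRoot x}.Finite :=
      finite_setOf_isRoot (mul_ne_zero hc0 hl)
    obtain ⟨s, ⟨n, hn, rfl⟩, hs2⟩ := (hinf.diff hfin).nonempty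
    have hns : max R 0 < (n : ℝ) := hN.trans (by exact_mod_cast hn)
    have hs3 : eval (n : ℂ) (h.coeff 0) ≠ 0 ∧ eval (n : ℂ) h.leadingCoeff ≠ 0 := by
      have h5 : ¬ (eval (n : ℂ) (h.coeff 0 * h.leadingCoeff) = 0) := hs2
      rw [eval_mul] at h5
      exact ⟨left_ne_zero_of_mul h5, right_ne_zero_of_mul h5⟩
    have hdeg2 : (h.map (evalRingHom (n : ℂ))).natDegree = h.natDegree :=
      natDegree_map_of_leadingCoeff_ne_zero _ hs3.2
    have hdeg3 : (h.map (evalRingHom (n : ℂ))).degree ≠ 0 := by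
      intro h6
      apply hdeg
      rw [← hdeg2]
      exact natDegree_eq_of_degree_eq_some h6
    obtain ⟨t, ht2⟩ := IsAlgClosed.exists_root _ hdeg3
    refine ⟨(n : ℂ), t, ?_, ?_, ?_, Or.inl ?_⟩
    · have h7 : (0 : ℝ) < (n : ℝ) := (le_max_right R 0).trans_lt hns
      exact_mod_cast h7.ne'
    · rintro rfl
      apply hs3.1
      have h8 : eval 0 (h.map (evalRingHom (n : ℂ))) = 0 := ht2
      rw [← coeff_zero_eq_eval_zero, coeff_map] at h8
      exact h8
    · have h8 : eval t (h.map (evalRingHom (n : ℂ))) = 0 := ht2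
      rwa [map_evalRingHom_eval] at h8
    · rw [Complex.norm_natCast]
      exact (le_max_left R 0).trans_lt hns

end Pool.Agent.H.MP_deabf1_gt
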