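import Pool.Agent.H.MP_deabf1_gt.PDefs

/-!
The implicit function theorem for the zeros of a polynomial.
-/

namespace Pool.Agent.H.MP_deabf1_gt

open Polynomial Filter Topology

/-- The evaluation of a polynomial in two variables is smooth. -/
theorem p3_contDiff (h : ℂ[X][X]) :
    ContDiff ℂ 1 (fun p : ℂ × ℂ => h.evalEval p.1 p.2) := by
  induction h using Polynomial.induction_on' with
  | add p q hp hq =>
    have e : (fun z : ℂ × ℂ => (p + q).evalEval z.1 z.2) =
        fun z : ℂ × ℂ => p.evalEval z.1 z.2 + q.evalEval z.1 z.2 := by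
      funext z
      exact evalEval_add _ _ _ _
    rw [e]
    exact hp.add hq
  | monomial n a =>
    have e : (fun z : ℂ × ℂ => (monomial n a).evalEval z.1 z.2) =
        fun z : ℂ × ℂ => a.eval z.1 * z.2 ^ n := by
      funext z
      simp [evalEval]
    rw [e]
    have h1 : ContDiff ℂ 1 (fun s : ℂ => a.eval s) := by
      have h2 := Polynomial.contDiff_aeval (R := ℂ) (𝕜 := ℂ) a 1
      simpa using h2
    exact (h1.comp contDiff_fst).mul (contDiff_snd.pow n)

theorem p3_deriv (h : ℂ[X][X]) (s0 t0 : ℂ) :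
    HasDerivAt (fun t : ℂ => h.evalEval s0 t) ((derivative h).evalEval s0 t0) t0 := by
  have h1 := (h.map (evalRingHom s0)).hasDerivAt t0
  rw [derivative_map] at h1
  simp only [map_evalRingHom_eval] at h1
  exact h1

/-- Job P3-1. Near a zero at which the derivative with respect to the outer variable does not vanish,
the zeros contain the graph of a differentiable function.

Proof. The map `Ψ (s, t) = (s, h.evalEval s t)` of `ℂ × ℂ` is smooth (`ContDiff`; `evalEval` is a
polynomial function: write `h` as a sum, or induction) with derivative at `(s0, t0)` equal to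
`(x, y) ↦ (x, α x + β y)`, `β = (derivative h).evalEval s0 t0 ≠ 0`, an isomorphism. Inverse function
theorem (`ContDiffAt.toOpenPartialHomeomorph`, `ContDiffAt.to_localInverse` in
`Analysis/Calculus/InverseFunctionTheorem/ContDiff.lean`): let `Φ` be the local inverse, `ContDiffAt ℂ 1`
at `Ψ (s0, t0) = (s0, 0)`, hence differentiable near `(s0, 0)`; put `τ s = (Φ (s, 0)).2`. -/
theorem p_ift {h : ℂ[X][X]} {s0 t0 : ℂ} (h0 : h.evalEval s0 t0 = 0)
    (h1 : (derivative h).evalEval s0 t0 ≠ 0) :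
    ∃ τ : ℂ → ℂ, τ s0 = t0 ∧ ∀ᶠ s in 𝓝 s0, DifferentiableAt ℂ τ s ∧ h.evalEval s (τ s) = 0 := by
  set f : ℂ × ℂ → ℂ := fun p => h.evalEval p.1 p.2 with hf
  have hcd : ContDiffAt ℂ 1 f (s0, t0) := (p3_contDiff h).contDiffAt
  have hfd : HasFDerivAt f (fderiv ℂ f (s0, t0)) (s0, t0) :=
    (hcd.differentiableAt one_ne_zero).hasFDerivAt
  have hinr : (fderiv ℂ f (s0, t0) ∘L ContinuousLinearMap.inr ℂ ℂ ℂ) 1 =
      (derivative h).evalEval s0 t0 := by
    have h2 : HasDerivAt (fun t : ℂ => ((s0, t) : ℂ × ℂ)) ((0, 1) : ℂ × ℂ) t0 :=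
      (hasDerivAt_const t0 s0).prodMk (hasDerivAt_id t0)
    have h3 : HasDerivAt (f ∘ fun t : ℂ => ((s0, t) : ℂ × ℂ))
        (fderiv ℂ f (s0, t0) ((0, 1) : ℂ × ℂ)) t0 :=
      HasFDerivAt.comp_hasDerivAt t0 hfd h2
    exact h3.unique (p3_deriv h s0 t0)
  have hinv : (fderiv ℂ f (s0, t0) ∘L ContinuousLinearMap.inr ℂ ℂ ℂ).IsInvertible := by
    refine ⟨ContinuousLinearEquiv.unitsEquivAut ℂ (Units.mk0 _ h1), ?_⟩
    apply ContinuousLinearMap.ext_ring
    rw [hinr]
    simp
  refine ⟨hcd.implicitFunction one_ne_zero hinv, hcd.implicitFunction_apply_self one_ne_zero hinv, ?_⟩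
  have h4 := hcd.eventually_apply_implicitFunction one_ne_zero hinv
  have h5 := (hcd.contDiffAt_implicitFunction one_ne_zero hinv).eventually (by simp)
  filter_upwards [h4, h5] with s h6 h7
  refine ⟨h7.differentiableAt one_ne_zero, ?_⟩
  have h8 : f (s0, t0) = 0 := h0
  rw [h8] at h6
  exact h6

end Pool.Agent.H.MP_deabf1_gt
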