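import Pool.Agent.H.MP_deabf1_gt.P1
import Pool.Agent.H.MP_deabf1_gt.P3

/-!
Differentiable paths in the set of zeros of an irreducible polynomial.
-/

namespace Pool.Agent.H.MP_deabf1_gt

open Polynomial Filter Topology

/-- Job P4-1. An irreducible polynomial with infinitely many zeros in `Z` has a nonconstant
differentiable path of zeros starting at a point of `Z`.

Proof. Case `derivative h = 0`: `h = C a` (characteristic 0, `Polynomial.natDegree_eq_zero_of_derivative_eq_zero`),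
so for a point `z ∈ Z` all `(z.1, t)` are zeros: `σ w = z.1`, `τ w = z.2 + w`, `r = ‖z.2‖`.
Case `derivative h ≠ 0`: not all `z ∈ Z` satisfy `(derivative h).evalEval z.1 z.2 = 0`, since otherwise
`h ∣ derivative h` by `p_dvd_of_infinite`, impossible by degrees. For such a `z` use `p_ift`: `σ w = z.1 + w`,
`τ w = τ₀ (z.1 + w)`; `τ` is continuous at 0 so `τ w ≠ 0` for small `w`. -/
theorem p_path {h : ℂ[X][X]} (hirr : Irreducible h) {Z : Set (ℂ × ℂ)} (hZ : Z.Infinite)
    (h1 : ∀ z ∈ Z, h.evalEval z.1 z.2 = 0) (h0 : ∀ z ∈ Z, z.1 ≠ 0 ∧ z.2 ≠ 0) :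
    ∃ z ∈ Z, ∃ (σ τ : ℂ → ℂ) (r : ℝ), 0 < r ∧ σ 0 = z.1 ∧ τ 0 = z.2 ∧
      (∀ w ∈ Metric.ball (0 : ℂ) r, DifferentiableAt ℂ σ w ∧ DifferentiableAt ℂ τ w ∧ σ w ≠ 0 ∧
        τ w ≠ 0 ∧ h.evalEval (σ w) (τ w) = 0) ∧
      Set.InjOn (fun w => (σ w, τ w)) (Metric.ball (0 : ℂ) r) := by
  by_cases hd : derivative h = 0
  · have hdeg : h.natDegree = 0 := Polynomial.derivative_eq_zero.1 hd
    obtain ⟨z, hz⟩ := hZ.nonempty
    obtain ⟨a, rfl⟩ : ∃ a : ℂ[X], h = C a := ⟨h.coeff 0, Polynomial.eq_C_of_natDegree_eq_zero hdeg⟩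
    have hev : ∀ s t : ℂ, (C a : ℂ[X][X]).evalEval s t = a.eval s := by
      intro s t
      simp [Polynomial.evalEval]
    have ha : a.eval z.1 = 0 := by
      rw [← hev z.1 z.2]
      exact h1 z hz
    refine ⟨z, hz, fun _ => z.1, fun w => z.2 + w, ‖z.2‖, norm_pos_iff.2 (h0 z hz).2, rfl,
      add_zero _, ?_, ?_⟩
    · intro w hw
      refine ⟨differentiableAt_const _, (differentiableAt_const _).add differentiableAt_id,
        (h0 z hz).1, ?_, ?_⟩
      · intro h2
        have h3 : w = -z.2 := by linear_combination h2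
        rw [Metric.mem_ball, dist_zero_right, h3, norm_neg] at hw
        exact lt_irrefl _ hw
      · rw [hev]
        exact ha
    · intro w _ w' _ hww
      have h4 : z.2 + w = z.2 + w' := congrArg Prod.snd hww
      exact add_left_cancel h4
  · obtain ⟨z, hz, hz'⟩ : ∃ z ∈ Z, (derivative h).evalEval z.1 z.2 ≠ 0 := by
      by_contra hcon
      push Not at hcon
      have h2 : h ∣ derivative h := p_dvd_of_infinite hirr hZ h1 hcon
      have h3 := Polynomial.degree_le_of_dvd h2 hd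
      exact absurd (Polynomial.degree_derivative_lt hirr.ne_zero) (not_lt.2 h3)
    obtain ⟨τ₀, hτ0, hτ⟩ := p_ift (h1 z hz) hz'
    have hcont : ContinuousAt τ₀ z.1 := hτ.self_of_nhds.1.continuousAt
    have hne : ∀ᶠ s in 𝓝 z.1, τ₀ s ≠ 0 := hcont.eventually_ne (by rw [hτ0]; exact (h0 z hz).2)
    have hne' : ∀ᶠ s in 𝓝 z.1, s ≠ 0 := continuousAt_id.eventually_ne (h0 z hz).1
    have htend : Tendsto (fun w : ℂ => z.1 + w) (𝓝 0) (𝓝 z.1) := by
      have h5 : Continuous (fun w : ℂ => z.1 + w) := by fun_prop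
      have h6 := h5.tendsto 0
      simpa using h6
    have hall := htend.eventually (hτ.and (hne.and hne'))
    obtain ⟨r, hr, hball⟩ := Metric.eventually_nhds_iff_ball.1 hall
    refine ⟨z, hz, fun w => z.1 + w, fun w => τ₀ (z.1 + w), r, hr, add_zero _, ?_, ?_, ?_⟩
    · change τ₀ (z.1 + 0) = z.2
      rw [add_zero, hτ0]
    · intro w hw
      obtain ⟨⟨h7, h8⟩, h9, h10⟩ := hball w hw
      have h11 : DifferentiableAt ℂ (fun w : ℂ => z.1 + w) w :=
        (differentiableAt_const _).add differentiableAt_id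
      exact ⟨h11, h7.comp w h11, h10, h9, h8⟩
    · intro w _ w' _ hww
      have h4 : z.1 + w = z.1 + w' := congrArg Prod.fst hww
      exact add_left_cancel h4

end Pool.Agent.H.MP_deabf1_gt
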