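import Pool.Agent.H.MP_deabf1_gt.PDefs

/-!
A function which is constant along the zeros.
-/

namespace Pool.Agent.H.MP_deabf1_gt

open Polynomial Filter Topology

variable {ι : Type*} [Fintype ι]

/-- Job P5-1. The value of `pol`. Proof: `evalEval` is a ring homomorphism
(`Polynomial.evalEvalRingHom`, or unfold `evalEval` and `simp`). -/
theorem evalEval_pol (A B : ι → ℕ) (c : ι → ℂ) (s t : ℂ) :
    (pol A B c).evalEval s t = ev A B c s t := by
  unfold pol ev Polynomial.evalEval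
  rw [eval_finsetSum, eval_finsetSum]
  refine Finset.sum_congr rfl fun j _ => ?_
  simp only [eval_mul, eval_C, eval_pow, eval_X]
  ring

/-- Job P5-2. If the exponents are different and `pol A B c = 0` then `c = 0`.
Proof: the coefficient `((pol A B c).coeff (B j)).coeff (A j)` is `c j`. -/
theorem pol_eq_zero {A B : ι → ℕ} (hAB : Function.Injective fun j => (A j, B j)) {c : ι → ℂ}
    (h : pol A B c = 0) (j : ι) : c j = 0 := by
  classical
  have h1 : ((pol A B c).coeff (B j)).coeff (A j) = c j := by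
    unfold pol
    rw [finsetSum_coeff, finsetSum_coeff, Finset.sum_eq_single j]
    · rw [coeff_C_mul, coeff_X_pow, if_pos rfl, mul_one, coeff_C_mul, coeff_X_pow, if_pos rfl,
        mul_one]
    · intro k _ hk
      rw [coeff_C_mul, coeff_X_pow]
      by_cases hB : B j = B k
      · rw [if_pos hB, mul_one, coeff_C_mul, coeff_X_pow]
        have hA : A j ≠ A k := by
          intro hA
          exact hk (hAB (by simp only [hA, hB]))
        rw [if_neg hA, mul_zero]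
      · rw [if_neg hB, mul_zero, coeff_zero]
    · intro hj
      exact absurd (Finset.mem_univ j) hj
  rw [← h1, h]
  simp

/-- The derivative of `ev` along a path. -/
theorem p5_ev (A B : ι → ℕ) (c : ι → ℂ) {σ τ : ℂ → ℂ} {w σ' τ' : ℂ}
    (h1 : HasDerivAt σ σ' w) (h2 : HasDerivAt τ τ' w) (h3 : σ w ≠ 0) (h4 : τ w ≠ 0) :
    HasDerivAt (fun w => ev A B c (σ w) (τ w))
      ((ev A B (fun j => ((A j : ℂ) - 1) * c j) (σ w) (τ w) + ev A B c (σ w) (τ w)) * (σ' / σ w) +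
        (ev A B (fun j => ((B j : ℂ) - 1) * c j) (σ w) (τ w) + ev A B c (σ w) (τ w)) *
          (τ' / τ w)) w := by
  have key : ∀ j ∈ (Finset.univ : Finset ι), HasDerivAt
      (fun w => c j * (σ w ^ A j * τ w ^ B j))
      (c j * (σ w ^ A j * τ w ^ B j) * ((A j : ℂ) * (σ' / σ w) + (B j : ℂ) * (τ' / τ w))) w := by
    intro j _
    have e1 := ((h1.pow (A j)).mul (h2.pow (B j))).const_mul (c j)
    refine e1.congr_deriv ?_
    have e2 : (A j : ℂ) * σ w ^ (A j - 1) = A j * (σ w ^ A j / σ w) := by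
      rcases Nat.eq_zero_or_pos (A j) with h | h
      · rw [h]; simp
      · rw [eq_comm, mul_div_assoc', div_eq_iff h3, mul_assoc, ← pow_succ, Nat.sub_add_cancel h]
    have e3 : (B j : ℂ) * τ w ^ (B j - 1) = B j * (τ w ^ B j / τ w) := by
      rcases Nat.eq_zero_or_pos (B j) with h | h
      · rw [h]; simp
      · rw [eq_comm, mul_div_assoc', div_eq_iff h4, mul_assoc, ← pow_succ, Nat.sub_add_cancel h]
    simp only [Pi.pow_apply]
    rw [e2, e3]
    ring
  have e4 := HasDerivAt.fun_sum key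
  refine e4.congr_deriv ?_
  unfold ev
  rw [← Finset.sum_add_distrib, ← Finset.sum_add_distrib, Finset.sum_mul, Finset.sum_mul,
    ← Finset.sum_add_distrib]
  refine Finset.sum_congr rfl fun j _ => ?_
  ring

/-- Job P5-3. Along a path the derivative of `S = ev A B c σ τ / (σ τ)` is
`(E₂ σ' / σ + E₃ τ' / τ) / (σ τ)` with `E₂ = ev A B ((A - 1) c) σ τ` and `E₃ = ev A B ((B - 1) c) σ τ`.
Proof: `HasDerivAt` rules; the derivative of `s ^ a * t ^ b` is `s ^ a * t ^ b * (a * s' / s + b * t' / t)`. -/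
theorem hasDerivAt_S (A B : ι → ℕ) (c : ι → ℂ) {σ τ : ℂ → ℂ} {w σ' τ' : ℂ}
    (h1 : HasDerivAt σ σ' w) (h2 : HasDerivAt τ τ' w) (h3 : σ w ≠ 0) (h4 : τ w ≠ 0) :
    HasDerivAt (fun w => ev A B c (σ w) (τ w) / (σ w * τ w))
      ((ev A B (fun j => ((A j : ℂ) - 1) * c j) (σ w) (τ w) * (σ' / σ w) +
        ev A B (fun j => ((B j : ℂ) - 1) * c j) (σ w) (τ w) * (τ' / τ w)) / (σ w * τ w)) w := by
  have e1 := (p5_ev A B c h1 h2 h3 h4).div (h1.mul h2) (mul_ne_zero h3 h4)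
  refine e1.congr_deriv ?_
  generalize ev A B (fun j => ((A j : ℂ) - 1) * c j) (σ w) (τ w) = E2
  generalize ev A B (fun j => ((B j : ℂ) - 1) * c j) (σ w) (τ w) = E3
  simp only [Pi.mul_apply]
  generalize ev A B c (σ w) (τ w) = E
  field_simp
  ring

/-- Job P5-4. `E ^ n / (s ^ (n + d₂) * t ^ (n + d₃))` is constant along a path in the set of solutions.

Proof. Put `S w = E / (σ τ)`; `S' = (E / n) (d₂ σ' / σ + d₃ τ' / τ) / (σ τ) = (S / n) (d₂ σ' / σ + d₃ τ' / τ)`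
by `hasDerivAt_S`; so `S ^ n / (σ ^ d₂ * τ ^ d₃)` has derivative `0` on the ball, which is convex and open
(`IsOpen.is_const_of_deriv_eq_zero` or `Convex.is_const_of_fderivWithin_eq_zero`); multiply by
`(σ τ) ^ n`. The constant is the value at `0`. -/
theorem p_const (A B : ι → ℕ) (c : ι → ℂ) {n d2 d3 : ℕ} (hn : 0 < n) {σ τ : ℂ → ℂ} {r : ℝ}
    (hr : 0 < r)
    (h1 : ∀ w ∈ Metric.ball (0 : ℂ) r, DifferentiableAt ℂ σ w ∧ DifferentiableAt ℂ τ w ∧ σ w ≠ 0 ∧
        τ w ≠ 0)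
    (h2 : ∀ w ∈ Metric.ball (0 : ℂ) r, n * ev A B (fun j => ((A j : ℂ) - 1) * c j) (σ w) (τ w) =
      d2 * ev A B c (σ w) (τ w))
    (h3 : ∀ w ∈ Metric.ball (0 : ℂ) r, n * ev A B (fun j => ((B j : ℂ) - 1) * c j) (σ w) (τ w) =
      d3 * ev A B c (σ w) (τ w)) :
    ∃ κ : ℂ, ∀ w ∈ Metric.ball (0 : ℂ) r,
      ev A B c (σ w) (τ w) ^ n = κ * (σ w ^ (n + d2) * τ w ^ (n + d3)) := by
  have hn' : (n : ℂ) ≠ 0 := Nat.cast_ne_zero.2 hn.ne'
  have key : ∀ w ∈ Metric.ball (0 : ℂ) r, HasDerivAt (fun w => (ev A B c (σ w) (τ w) /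
      (σ w * τ w)) ^ n / (σ w ^ d2 * τ w ^ d3)) 0 w := by
    intro w hw
    obtain ⟨a1, a2, a3, a4⟩ := h1 w hw
    have b1 := a1.hasDerivAt
    have b2 := a2.hasDerivAt
    have b3 := hasDerivAt_S A B c b1 b2 a3 a4
    have c2 := h2 w hw
    have c3 := h3 w hw
    have d2' : ev A B (fun j => ((A j : ℂ) - 1) * c j) (σ w) (τ w) =
        d2 * ev A B c (σ w) (τ w) / n := by
      rw [eq_div_iff hn', mul_comm]; exact c2
    have d3' : ev A B (fun j => ((B j : ℂ) - 1) * c j) (σ w) (τ w) =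
        d3 * ev A B c (σ w) (τ w) / n := by
      rw [eq_div_iff hn', mul_comm]; exact c3
    rw [d2', d3'] at b3
    have b4 := p5_ev (ι := Unit) (fun _ => d2) (fun _ => d3) (fun _ => 1) b1 b2 a3 a4
    have hev : ∀ w, ev (ι := Unit) (fun _ => d2) (fun _ => d3) (fun _ => 1) (σ w) (τ w) =
        σ w ^ d2 * τ w ^ d3 := by
      intro w
      simp [ev]
    have hev2 : ev (ι := Unit) (fun _ => d2) (fun _ => d3)
        (fun j => (((fun _ => d2) j : ℕ) - 1 : ℂ) * (fun _ => (1 : ℂ)) j) (σ w) (τ w) =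
        ((d2 : ℂ) - 1) * (σ w ^ d2 * τ w ^ d3) := by
      simp [ev]
    have hev3 : ev (ι := Unit) (fun _ => d2) (fun _ => d3)
        (fun j => (((fun _ => d3) j : ℕ) - 1 : ℂ) * (fun _ => (1 : ℂ)) j) (σ w) (τ w) =
        ((d3 : ℂ) - 1) * (σ w ^ d2 * τ w ^ d3) := by
      simp [ev]
    simp only [hev] at b4
    rw [hev2, hev3] at b4
    have hne : σ w ^ d2 * τ w ^ d3 ≠ 0 := mul_ne_zero (pow_ne_zero _ a3) (pow_ne_zero _ a4)
    have b5 := (b3.pow n).div b4 hne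
    refine b5.congr_deriv ?_
    rw [div_eq_zero_iff]
    left
    have hpow : (n : ℂ) * (ev A B c (σ w) (τ w) / (σ w * τ w)) ^ (n - 1) *
        (ev A B c (σ w) (τ w) / (σ w * τ w)) =
        n * (ev A B c (σ w) (τ w) / (σ w * τ w)) ^ n := by
      rw [mul_assoc, ← pow_succ, Nat.sub_add_cancel hn]
    simp only [Pi.pow_apply]
    generalize hS : ev A B c (σ w) (τ w) / (σ w * τ w) = S at *
    have hE : ev A B c (σ w) (τ w) = S * (σ w * τ w) := by
      rw [← hS, div_mul_cancel₀ _ (mul_ne_zero a3 a4)]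
    rw [hE]
    have e1 : (↑d2 * (S * (σ w * τ w)) / ↑n * (deriv σ w / σ w) +
        ↑d3 * (S * (σ w * τ w)) / ↑n * (deriv τ w / τ w)) / (σ w * τ w) =
        S * ((d2 * (deriv σ w / σ w) + d3 * (deriv τ w / τ w)) / n) := by
      field_simp
    rw [e1]
    have e2 : (n : ℂ) * S ^ (n - 1) *
        (S * ((d2 * (deriv σ w / σ w) + d3 * (deriv τ w / τ w)) / n)) =
        S ^ n * (d2 * (deriv σ w / σ w) + d3 * (deriv τ w / τ w)) := by
      rw [← mul_assoc, hpow]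
      field_simp
    rw [e2]
    ring
  have hconst : ∀ w ∈ Metric.ball (0 : ℂ) r, (ev A B c (σ w) (τ w) / (σ w * τ w)) ^ n /
      (σ w ^ d2 * τ w ^ d3) = (ev A B c (σ 0) (τ 0) / (σ 0 * τ 0)) ^ n /
      (σ 0 ^ d2 * τ 0 ^ d3) := by
    intro w hw
    exact Metric.isOpen_ball.is_const_of_deriv_eq_zero (convex_ball (0 : ℂ) r).isPreconnected
      (fun z hz => (key z hz).differentiableAt.differentiableWithinAt)
      (fun z hz => (key z hz).deriv) hw (Metric.mem_ball_self hr)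
  refine ⟨(ev A B c (σ 0) (τ 0) / (σ 0 * τ 0)) ^ n / (σ 0 ^ d2 * τ 0 ^ d3), ?_⟩
  intro w hw
  obtain ⟨-, -, a3, a4⟩ := h1 w hw
  rw [← hconst w hw]
  have hne : σ w ^ d2 * τ w ^ d3 ≠ 0 := mul_ne_zero (pow_ne_zero _ a3) (pow_ne_zero _ a4)
  have hne2 : (σ w * τ w) ^ n ≠ 0 := pow_ne_zero _ (mul_ne_zero a3 a4)
  rw [div_pow, div_div, eq_comm, div_mul_eq_mul_div, div_eq_iff (mul_ne_zero hne2 hne)]
  rw [pow_add, pow_add, mul_pow]
  ring

end Pool.Agent.H.MP_deabf1_gt
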