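import Pool.Agent.H.MP_deabf1_gt.P1
import Pool.Agent.H.MP_deabf1_gt.P2
import Pool.Agent.H.MP_deabf1_gt.P4
import Pool.Agent.H.MP_deabf1_gt.P5

/-!
If the equations have infinitely many solutions then they have unbounded solutions with a constant
normalized value.
-/

namespace Pool.Agent.H.MP_deabf1_gt

open Polynomial Filter Topology

variable {ι : Type*} [Fintype ι]

theorem p6_F (A B : ι → ℕ) (a c : ι → ℂ) (n d s t : ℂ) :
    (pol A B (fun j => (n * a j - d) * c j)).evalEval s t =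
      n * ev A B (fun j => a j * c j) s t - d * ev A B c s t := by
  rw [evalEval_pol]
  unfold ev
  rw [Finset.mul_sum, Finset.mul_sum, ← Finset.sum_sub_distrib]
  refine Finset.sum_congr rfl fun j _ => ?_
  ring

theorem p6_dvd {h p : ℂ[X][X]} (hd : h ∣ p) {s t : ℂ} (h0 : h.evalEval s t = 0) :
    p.evalEval s t = 0 := by
  obtain ⟨q, rfl⟩ := hd
  rw [evalEval_mul, h0, zero_mul]

theorem p6_ne (a : ℕ) {n d : ℕ} (h2 : 0 < d) (h2n : d < n) :
    (n : ℂ) * ((a : ℂ) - 1) - d ≠ 0 := by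
  intro h
  have h1 : (((n : ℤ) * ((a : ℤ) - 1) - d : ℤ) : ℂ) = 0 := by
    push_cast
    exact h
  have h3 : (n : ℤ) * ((a : ℤ) - 1) - d = 0 := by exact_mod_cast h1
  have h4 : (0 : ℤ) < d := by exact_mod_cast h2
  have h5 : (d : ℤ) < n := by exact_mod_cast h2n
  rcases le_or_gt ((a : ℤ) - 1) 0 with h6 | h6
  · nlinarith
  · nlinarith

theorem p6_N (A B : ι → ℕ) (c : ι → ℂ) (κ : ℂ) (n a b : ℕ) (s t : ℂ) :
    (pol A B c ^ n - C (C κ * X ^ a) * X ^ b).evalEval s t =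
      ev A B c s t ^ n - κ * (s ^ a * t ^ b) := by
  rw [evalEval_sub, evalEval_pow, evalEval_pol, evalEval_mul, evalEval_C, evalEval_pow, evalEval_X,
    eval_mul, eval_C, eval_pow, eval_X, mul_assoc]

/-- Job P6-1.

Proof. Let `E = pol A B c`, `F = pol A B (fun j => (n * (A j - 1) - d2) * c j)`,
`G = pol A B (fun j => (n * (B j - 1) - d3) * c j)`. Then `F ≠ 0`: otherwise all `c j = 0` by `pol_eq_zero`
(`n * (A j - 1) - d2 ≠ 0` in `ℂ`, because the integer `d2` is not a multiple of `n`: `0 < d2 < n`), so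
`ev A B c = 0`, but the set `Z` in `hinf` is not empty. All points of `Z` are zeros of `F` and `G`. By
`p_exists_factor` there is an irreducible `h ∣ F` with infinitely many zeros in `Z`; `h ∣ G` by
`p_dvd_of_infinite`. Take a path (`p_path`, for the set of the zeros of `h` in `Z`) and `κ` from `p_const`;
at `w = 0` the value of `E` is not zero so `κ ≠ 0`. The polynomial
`N = E ^ n - C (C κ) * (C X ^ (n + d2) * X ^ (n + d3))` vanishes at the infinitely many points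
`(σ w, τ w)` (the ball is infinite and the path injective), so `h ∣ N` by `p_dvd_of_infinite`. Now
`p_unbounded` gives zeros of `h`, hence of `F`, `G`, `N`. -/
theorem curve (A B : ι → ℕ) (hAB : Function.Injective fun j => (A j, B j)) (c : ι → ℂ)
    {n d2 d3 : ℕ} (h2 : 0 < d2) (h2n : d2 < n)
    (hinf : {z : ℂ × ℂ | z.1 ≠ 0 ∧ z.2 ≠ 0 ∧ ev A B c z.1 z.2 ≠ 0 ∧
      n * ev A B (fun j => ((A j : ℂ) - 1) * c j) z.1 z.2 = d2 * ev A B c z.1 z.2 ∧
      n * ev A B (fun j => ((B j : ℂ) - 1) * c j) z.1 z.2 = d3 * ev A B c z.1 z.2}.Infinite) :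
    ∃ κ : ℂ, κ ≠ 0 ∧ ∀ R : ℝ, ∃ s t : ℂ, s ≠ 0 ∧ t ≠ 0 ∧
      n * ev A B (fun j => ((A j : ℂ) - 1) * c j) s t = d2 * ev A B c s t ∧
      n * ev A B (fun j => ((B j : ℂ) - 1) * c j) s t = d3 * ev A B c s t ∧
      ev A B c s t ^ n = κ * (s ^ (n + d2) * t ^ (n + d3)) ∧ (R < ‖s‖ ∨ R < ‖t‖) := by
  have hn : 0 < n := lt_trans h2 h2n
  obtain ⟨F, hF⟩ : ∃ F, F = pol A B (fun j => ((n : ℂ) * ((A j : ℂ) - 1) - d2) * c j) := ⟨_, rfl⟩
  obtain ⟨G, hG⟩ : ∃ G, G = pol A B (fun j => ((n : ℂ) * ((B j : ℂ) - 1) - d3) * c j) := ⟨_, rfl⟩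
  have hFe : ∀ s t : ℂ, F.evalEval s t = 0 ↔
      n * ev A B (fun j => ((A j : ℂ) - 1) * c j) s t = d2 * ev A B c s t := by
    intro s t
    rw [hF, p6_F A B (fun j => (A j : ℂ) - 1), sub_eq_zero]
  have hGe : ∀ s t : ℂ, G.evalEval s t = 0 ↔
      n * ev A B (fun j => ((B j : ℂ) - 1) * c j) s t = d3 * ev A B c s t := by
    intro s t
    rw [hG, p6_F A B (fun j => (B j : ℂ) - 1), sub_eq_zero]
  have hF0 : F ≠ 0 := by
    intro h0
    obtain ⟨z, hz⟩ := hinf.nonempty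
    apply hz.2.2.1
    have hc : ∀ j, c j = 0 := by
      intro j
      have h3 := pol_eq_zero hAB (hF ▸ h0) j
      exact (mul_eq_zero.1 h3).resolve_left (p6_ne (A j) h2 h2n)
    unfold ev
    refine Finset.sum_eq_zero fun j _ => ?_
    rw [hc j, zero_mul]
  obtain ⟨h, hirr, hhF, hinf'⟩ := p_exists_factor hF0 hinf fun z hz => (hFe _ _).2 hz.2.2.2.1
  have hhG : h ∣ G := p_dvd_of_infinite hirr hinf' (fun z hz => hz.2)
    fun z hz => (hGe _ _).2 hz.1.2.2.2.2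
  obtain ⟨z, hz, σ, τ, r, hr, hσ0, hτ0, hpath, hinj⟩ := p_path hirr hinf' (fun z hz => hz.2)
    fun z hz => ⟨hz.1.1, hz.1.2.1⟩
  obtain ⟨κ, hκ⟩ := p_const A B c hn hr
    (fun w hw => ⟨(hpath w hw).1, (hpath w hw).2.1, (hpath w hw).2.2.1, (hpath w hw).2.2.2.1⟩)
    (fun w hw => (hFe _ _).1 (p6_dvd hhF (hpath w hw).2.2.2.2))
    (fun w hw => (hGe _ _).1 (p6_dvd hhG (hpath w hw).2.2.2.2))
  have hN : h ∣ pol A B c ^ n - C (C κ * X ^ (n + d2)) * X ^ (n + d3) := by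
    have hball : (Metric.ball (0 : ℂ) r).Infinite :=
      infinite_of_mem_nhds 0 (Metric.ball_mem_nhds 0 hr)
    refine p_dvd_of_infinite hirr (hball.image hinj) ?_ ?_
    · rintro _ ⟨w, hw, rfl⟩
      exact (hpath w hw).2.2.2.2
    · rintro _ ⟨w, hw, rfl⟩
      rw [p6_N, sub_eq_zero]
      exact hκ w hw
  refine ⟨κ, ?_, ?_⟩
  · rintro rfl
    have h3 := hκ 0 (Metric.mem_ball_self hr)
    rw [zero_mul, hσ0, hτ0] at h3
    exact hz.1.2.2.1 ((pow_eq_zero_iff hn.ne').1 h3)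
  · intro R
    obtain ⟨s, t, hs, ht, hst, hR⟩ := p_unbounded hirr hz.1.1 hz.1.2.1 hz.2 R
    refine ⟨s, t, hs, ht, (hFe _ _).1 (p6_dvd hhF hst), (hGe _ _).1 (p6_dvd hhG hst), ?_, hR⟩
    have h3 := p6_dvd hN hst
    rw [p6_N, sub_eq_zero] at h3
    exact h3

end Pool.Agent.H.MP_deabf1_gt
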