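import Pool.Agent.H.MP_deabf1_gt.PDefs

/-!
Comparison of powers of a sequence tending to zero.
-/

namespace Pool.Agent.H.MP_deabf1_gt

open Filter Topology

theorem q_contra {ε K : ℝ} (hε : 0 < ε) {p a : ℕ} (ha : 0 < a) {x : ℕ → ℝ} (hx : ∀ m, 0 < x m)
    (hx0 : Tendsto x atTop (𝓝 0)) (h : ∀ᶠ m in atTop, ε * x m ^ p ≤ K * x m ^ (p + a)) : False := by
  have h1 : Tendsto (fun m => K * x m ^ a) atTop (𝓝 (K * 0 ^ a)) := (hx0.pow a).const_mul K
  rw [zero_pow ha.ne', mul_zero] at h1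
  have h2 : ∀ᶠ m in atTop, K * x m ^ a < ε := h1.eventually (gt_mem_nhds hε)
  obtain ⟨m, h3, h4⟩ := (h.and h2).exists
  have h5 : 0 < x m ^ p := pow_pos (hx m) p
  have h6 : K * x m ^ (p + a) = x m ^ p * (K * x m ^ a) := by rw [pow_add]; ring
  rw [h6] at h3
  have h7 : x m ^ p * (K * x m ^ a) < x m ^ p * ε := mul_lt_mul_of_pos_left h4 h5
  linarith

end Pool.Agent.H.MP_deabf1_gt
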