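import Pool.Agent.H.MP_deabf1_gt.Q0

/-!
Asymptotics of the solutions of the Einstein equations with three unknowns `1, s, t`.
-/

namespace Pool.Agent.H.MP_deabf1_gt

open Filter Topology

/-- Job QA. The case `s → 0`, `t / s → ρ ≠ 0`.

Proof. `E3 * t`: `B13 + C s + B23 s² = t (d3 lam - A3 t + 2 B31 t² + 2 B32 t (t / s) + C (t / s + s t))`,
the bracket is bounded (`lam` is bounded by `hl`, `‖s‖, ‖t‖ ≤ 1`) so in the limit `B13 = 0`.
`(E1 + E2 + 2 E3) * s`: `B12 = s * (bounded)`: indeed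
`A1 + A2 s + 2 A3 t - B12 / s - B21 s² - 3 B31 t² - 3 B32 t (t / s) - 2 C (t / s + s t) = (d1 + d2 + 2 d3) lam`,
so `B12 = 0`. Now `E2 + E3` (with `B12 = B13 = 0`):
`A2 s + A3 t - 2 B21 s² - 2 B31 t² - B23 s (s / t) - B32 t (t / s) - 2 C s t = (d2 + d3) lam`
and `s / t → ρ⁻¹` is bounded, so `‖lam‖ ≤ M ‖s‖` eventually, and `‖t‖ ≥ (‖ρ‖ / 2) ‖s‖` eventually. By `hl`,
`κ (‖ρ‖ / 2) ^ d3 * ‖s‖ ^ (d2 + d3) ≤ M ^ n * ‖s‖ ^ (d2 + d3 + d1)`; `q_contra`. -/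
theorem q_escA {A1 A2 A3 B12 B13 B21 B23 B31 B32 C : ℂ} {d1 d2 d3 : ℕ} (h1 : 0 < d1)
    (h2 : 0 < d2) {κ : ℝ} (hκ : 0 < κ) {s t lam : ℕ → ℂ} (hs : ∀ m, s m ≠ 0)
    (ht : ∀ m, t m ≠ 0) (hs1 : ∀ m, ‖s m‖ ≤ 1) (hts : ∀ m, ‖t m‖ ≤ ‖s m‖)
    (hs0 : Tendsto s atTop (𝓝 0)) {ρ : ℂ} (hρ : ρ ≠ 0)
    (hr : Tendsto (fun m => t m / s m) atTop (𝓝 ρ))
    (E1 : ∀ m, A1 - 2 * B12 / s m - 2 * B13 / t m + B21 * s m ^ 2 + B31 * t m ^ 2 -
      C * (s m / t m + t m / s m - s m * t m) = d1 * lam m)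
    (E2 : ∀ m, A2 * s m - 2 * B21 * s m ^ 2 - 2 * B23 * s m ^ 2 / t m + B12 / s m +
      B32 * t m ^ 2 / s m - C * (s m / t m + s m * t m - t m / s m) = d2 * lam m)
    (E3 : ∀ m, A3 * t m - 2 * B31 * t m ^ 2 - 2 * B32 * t m ^ 2 / s m + B13 / t m +
      B23 * s m ^ 2 / t m - C * (t m / s m + s m * t m - s m / t m) = d3 * lam m)
    (hl : ∀ m, ‖lam m‖ ^ (d1 + d2 + d3) = κ * (‖s m‖ ^ d2 * ‖t m‖ ^ d3)) : False := by
  have ht0 : Tendsto t atTop (𝓝 0) := by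
    refine squeeze_zero_norm hts ?_
    simpa using hs0.norm
  have hl1 : ∀ m, ‖lam m‖ ≤ 1 + κ := by
    intro m
    by_contra hc
    push Not at hc
    have e1 : 1 ≤ ‖lam m‖ := by linarith
    have e2 : ‖lam m‖ ≤ ‖lam m‖ ^ (d1 + d2 + d3) := le_self_pow₀ e1 (by omega)
    have e3 : ‖s m‖ ^ d2 * ‖t m‖ ^ d3 ≤ 1 := by
      refine mul_le_one₀ (pow_le_one₀ (norm_nonneg _) (hs1 m)) (by positivity) ?_
      exact pow_le_one₀ (norm_nonneg _) ((hts m).trans (hs1 m))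
    have e4 : κ * (‖s m‖ ^ d2 * ‖t m‖ ^ d3) ≤ κ * 1 := mul_le_mul_of_nonneg_left e3 hκ.le
    rw [hl m] at e2
    linarith
  have hlt : Tendsto (fun m => lam m * t m) atTop (𝓝 0) := by
    refine squeeze_zero_norm (a := fun m => (1 + κ) * ‖t m‖) (fun m => ?_) ?_
    · rw [norm_mul]
      exact mul_le_mul_of_nonneg_right (hl1 m) (norm_nonneg _)
    · simpa using (ht0.norm).const_mul (1 + κ)
  have hls : Tendsto (fun m => lam m * s m) atTop (𝓝 0) := by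
    refine squeeze_zero_norm (a := fun m => (1 + κ) * ‖s m‖) (fun m => ?_) ?_
    · rw [norm_mul]
      exact mul_le_mul_of_nonneg_right (hl1 m) (norm_nonneg _)
    · simpa using (hs0.norm).const_mul (1 + κ)
  have hr' : Tendsto (fun m => s m / t m) atTop (𝓝 ρ⁻¹) := by
    have e1 := hr.inv₀ hρ
    refine e1.congr fun m => ?_
    rw [inv_div]
  -- the coefficient `B13` vanishes
  have hB13 : B13 = 0 := by
    have e1 : ∀ m, B13 = d3 * (lam m * t m) - A3 * t m ^ 2 + 2 * B31 * t m ^ 3 +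
        2 * B32 * (t m ^ 2 * (t m / s m)) - B23 * s m ^ 2 +
        C * (t m * (t m / s m) + s m * t m ^ 2 - s m) := by
      intro m
      have e2 := E3 m
      have e3 : B13 = (B13 / t m) * t m := by rw [div_mul_cancel₀ _ (ht m)]
      have e4 : B13 / t m = d3 * lam m - (A3 * t m - 2 * B31 * t m ^ 2 -
        2 * B32 * t m ^ 2 / s m + B23 * s m ^ 2 / t m -
        C * (t m / s m + s m * t m - s m / t m)) := by
        rw [← e2]; ring
      rw [e3, e4]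
      have e5 := hs m
      have e6 := ht m
      field_simp
      ring
    have e7 : Tendsto (fun m => d3 * (lam m * t m) - A3 * t m ^ 2 + 2 * B31 * t m ^ 3 +
        2 * B32 * (t m ^ 2 * (t m / s m)) - B23 * s m ^ 2 +
        C * (t m * (t m / s m) + s m * t m ^ 2 - s m)) atTop
        (𝓝 (d3 * 0 - A3 * 0 ^ 2 + 2 * B31 * 0 ^ 3 + 2 * B32 * (0 ^ 2 * ρ) - B23 * 0 ^ 2 +
          C * (0 * ρ + 0 * 0 ^ 2 - 0))) :=
      (((((hlt.const_mul _).sub ((ht0.pow 2).const_mul _)).add ((ht0.pow 3).const_mul _)).add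
        (((ht0.pow 2).mul hr).const_mul _)).sub ((hs0.pow 2).const_mul _)).add
        ((((ht0.mul hr).add (hs0.mul (ht0.pow 2))).sub hs0).const_mul _)
    have e8 : Tendsto (fun _ : ℕ => B13) atTop (𝓝 (d3 * 0 - A3 * 0 ^ 2 + 2 * B31 * 0 ^ 3 +
        2 * B32 * (0 ^ 2 * ρ) - B23 * 0 ^ 2 + C * (0 * ρ + 0 * 0 ^ 2 - 0))) :=
      e7.congr fun m => (e1 m).symm
    have e9 := tendsto_nhds_unique tendsto_const_nhds e8
    rw [e9]
    ring
  have hB12 : B12 = 0 := by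
    have e1 : ∀ m, 2 * B12 = A1 * s m + B21 * s m ^ 3 + B31 * (t m ^ 2 * s m) -
        C * (s m * (s m / t m) + t m - s m ^ 2 * t m) - d1 * (lam m * s m) := by
      intro m
      have e2 := E1 m
      rw [hB13] at e2
      have e3 : 2 * B12 = (2 * B12 / s m) * s m := by rw [div_mul_cancel₀ _ (hs m)]
      have e4 : 2 * B12 / s m = A1 + B21 * s m ^ 2 + B31 * t m ^ 2 -
        C * (s m / t m + t m / s m - s m * t m) - d1 * lam m := by
        rw [← e2]; ring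
      rw [e3, e4]
      have e5 := hs m
      have e6 := ht m
      field_simp
    have e7 : Tendsto (fun m => A1 * s m + B21 * s m ^ 3 + B31 * (t m ^ 2 * s m) -
        C * (s m * (s m / t m) + t m - s m ^ 2 * t m) - d1 * (lam m * s m)) atTop
        (𝓝 (A1 * 0 + B21 * 0 ^ 3 + B31 * (0 ^ 2 * 0) - C * (0 * ρ⁻¹ + 0 - 0 ^ 2 * 0) -
          d1 * 0)) :=
      ((((hs0.const_mul _).add ((hs0.pow 3).const_mul _)).add
        (((ht0.pow 2).mul hs0).const_mul _)).sub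
        ((((hs0.mul hr').add ht0).sub ((hs0.pow 2).mul ht0)).const_mul _)).sub
        (hls.const_mul _)
    have e8 : Tendsto (fun _ : ℕ => 2 * B12) atTop (𝓝 (A1 * 0 + B21 * 0 ^ 3 +
        B31 * (0 ^ 2 * 0) - C * (0 * ρ⁻¹ + 0 - 0 ^ 2 * 0) - d1 * 0)) :=
      e7.congr fun m => (e1 m).symm
    have e9 := tendsto_nhds_unique tendsto_const_nhds e8
    have e10 : 2 * B12 = 0 := by rw [e9]; ring
    simpa using e10
  -- `lam / s` converges
  have hd : ((d2 : ℂ) + d3) ≠ 0 := by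
    have : ((d2 + d3 : ℕ) : ℂ) ≠ 0 := Nat.cast_ne_zero.2 (by omega)
    push_cast at this
    exact this
  have hls' : ∀ m, lam m / s m = (A2 + A3 * (t m / s m) - 2 * B21 * s m -
      2 * B31 * (t m * (t m / s m)) - B23 * (s m / t m) - B32 * (t m / s m) ^ 2 -
      2 * C * t m) / (d2 + d3) := by
    intro m
    have e2 := E2 m
    have e3 := E3 m
    rw [hB12] at e2
    rw [hB13] at e3
    have e5 := hs m
    have e6 := ht m
    have e7 : (d2 + d3) * lam m = (A2 * s m - 2 * B21 * s m ^ 2 - 2 * B23 * s m ^ 2 / t m +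
        0 / s m + B32 * t m ^ 2 / s m - C * (s m / t m + s m * t m - t m / s m)) +
        (A3 * t m - 2 * B31 * t m ^ 2 - 2 * B32 * t m ^ 2 / s m + 0 / t m +
        B23 * s m ^ 2 / t m - C * (t m / s m + s m * t m - s m / t m)) := by
      rw [e2, e3]; ring
    rw [div_eq_div_iff e5 hd]
    rw [mul_comm (lam m), e7]
    field_simp
    ring
  obtain ⟨L, hL⟩ : ∃ L : ℂ, Tendsto (fun m => lam m / s m) atTop (𝓝 L) := by
    refine ⟨(A2 + A3 * ρ - 2 * B21 * 0 - 2 * B31 * (0 * ρ) - B23 * ρ⁻¹ - B32 * ρ ^ 2 -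
      2 * C * 0) / (d2 + d3), ?_⟩
    have e1 : Tendsto (fun m => (A2 + A3 * (t m / s m) - 2 * B21 * s m -
      2 * B31 * (t m * (t m / s m)) - B23 * (s m / t m) - B32 * (t m / s m) ^ 2 -
      2 * C * t m) / (d2 + d3)) atTop (𝓝 ((A2 + A3 * ρ - 2 * B21 * 0 - 2 * B31 * (0 * ρ) -
      B23 * ρ⁻¹ - B32 * ρ ^ 2 - 2 * C * 0) / (d2 + d3))) :=
      (((((((hr.const_mul _).const_add _).sub (hs0.const_mul _)).sub
        ((ht0.mul hr).const_mul _)).sub (hr'.const_mul _)).sub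
        ((hr.pow 2).const_mul _)).sub (ht0.const_mul _)).div_const _
    exact e1.congr fun m => (hls' m).symm
  have hM : ∀ᶠ m in atTop, ‖lam m / s m‖ < ‖L‖ + 1 :=
    hL.norm.eventually (gt_mem_nhds (lt_add_one _))
  have hR : ∀ᶠ m in atTop, ‖ρ‖ / 2 < ‖t m / s m‖ :=
    hr.norm.eventually (lt_mem_nhds (half_lt_self (norm_pos_iff.2 hρ)))
  have hρ' : 0 < ‖ρ‖ := norm_pos_iff.2 hρ
  refine q_contra (ε := κ * (‖ρ‖ / 2) ^ d3) (K := (‖L‖ + 1) ^ (d1 + d2 + d3)) (by positivity)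
    (p := d2 + d3) (a := d1) h1 (x := fun m => ‖s m‖) (fun m => norm_pos_iff.2 (hs m))
    (by simpa using hs0.norm) ?_
  filter_upwards [hM, hR] with m e1 e2
  have e3 : ‖t m‖ = ‖t m / s m‖ * ‖s m‖ := by
    rw [norm_div, div_mul_cancel₀ _ (norm_ne_zero_iff.2 (hs m))]
  have e4 : ‖lam m‖ = ‖lam m / s m‖ * ‖s m‖ := by
    rw [norm_div, div_mul_cancel₀ _ (norm_ne_zero_iff.2 (hs m))]
  have e5 := hl m
  rw [e3, e4] at e5
  have e6 : κ * (‖ρ‖ / 2) ^ d3 * ‖s m‖ ^ (d2 + d3) ≤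
      κ * (‖s m‖ ^ d2 * (‖t m / s m‖ * ‖s m‖) ^ d3) := by
    rw [mul_pow, pow_add]
    have e7 : (‖ρ‖ / 2) ^ d3 ≤ ‖t m / s m‖ ^ d3 := pow_le_pow_left₀ (by positivity) e2.le _
    calc κ * (‖ρ‖ / 2) ^ d3 * (‖s m‖ ^ d2 * ‖s m‖ ^ d3)
        = (‖ρ‖ / 2) ^ d3 * (κ * (‖s m‖ ^ d2 * ‖s m‖ ^ d3)) := by ring
      _ ≤ ‖t m / s m‖ ^ d3 * (κ * (‖s m‖ ^ d2 * ‖s m‖ ^ d3)) :=
        mul_le_mul_of_nonneg_right e7 (by positivity)
      _ = _ := by ring
  refine e6.trans ?_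
  rw [← e5, mul_pow]
  have e8 : d2 + d3 + d1 = d1 + d2 + d3 := by ring
  rw [e8]
  exact mul_le_mul_of_nonneg_right (pow_le_pow_left₀ (norm_nonneg _) e1.le _) (by positivity)

end Pool.Agent.H.MP_deabf1_gt
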