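import Pool.Agent.H.MP_deabf1_gt.Q0

/-!
Asymptotics of the solutions of the Einstein equations with three unknowns `1, s, t`.
-/

namespace Pool.Agent.H.MP_deabf1_gt

open Filter Topology

theorem qb_lam {κ : ℝ} {d2 n : ℕ} (h2 : 0 < d2) {s : ℕ → ℂ} {lam : ℕ → ℂ}
    (hs0 : Tendsto s atTop (𝓝 0)) (hl : ∀ m, ‖lam m‖ ^ n ≤ κ * ‖s m‖ ^ d2) :
    Tendsto lam atTop (𝓝 0) := by
  rw [tendsto_zero_iff_norm_tendsto_zero]
  have h3 : Tendsto (fun m => κ * ‖s m‖ ^ d2) atTop (𝓝 (κ * ‖(0 : ℂ)‖ ^ d2)) :=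
    ((hs0.norm).pow d2).const_mul κ
  rw [norm_zero, zero_pow h2.ne', mul_zero] at h3
  rw [Metric.tendsto_atTop] at h3 ⊢
  intro ε hε
  obtain ⟨N, hN⟩ := h3 (ε ^ n) (pow_pos hε n)
  refine ⟨N, fun m hm => ?_⟩
  have h4 := hN m hm
  rw [Real.dist_eq, sub_zero] at h4 ⊢
  have h5 : ‖lam m‖ ^ n < ε ^ n := lt_of_le_of_lt (hl m) (lt_of_le_of_lt (le_abs_self _) h4)
  rw [abs_of_nonneg (norm_nonneg _)]
  exact lt_of_pow_lt_pow_left₀ n hε.le h5

theorem qb_key {s t r lam : ℕ → ℂ} (hs : Tendsto s atTop (𝓝 0)) (ht : Tendsto t atTop (𝓝 0))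
    (hr : Tendsto r atTop (𝓝 0)) (hl : Tendsto lam atTop (𝓝 0))
    {F : ℂ × ℂ × ℂ × ℂ → ℂ} (hF : Continuous F) {c : ℂ}
    (hc : ∀ m, c = F (s m, t m, r m, lam m)) : c = F (0, 0, 0, 0) := by
  have h1 : Tendsto (fun m => (s m, t m, r m, lam m)) atTop (𝓝 ((0 : ℂ), (0 : ℂ), (0 : ℂ), (0 : ℂ))) :=
    hs.prodMk_nhds (ht.prodMk_nhds (hr.prodMk_nhds hl))
  have h2 : Tendsto (fun m => F (s m, t m, r m, lam m)) atTop (𝓝 (F (0, 0, 0, 0))) :=
    (hF.tendsto _).comp h1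
  have h3 : Tendsto (fun _ : ℕ => c) atTop (𝓝 (F (0, 0, 0, 0))) := h2.congr (fun m => (hc m).symm)
  exact tendsto_nhds_unique tendsto_const_nhds h3

/-- Job QB. The case `s → 0`, `t / s → 0`.

Proof. As in `q_escA`, `B13 = 0` and `B12 = 0`. The limit of
`A1 + A2 s + 2 A3 t - B21 s² - 3 B31 t² - 3 B32 t (t / s) - 2 C (t / s + s t) = (d1 + d2 + 2 d3) lam`
(here `lam → 0` by `hl`) is `A1 = 0`, so `C = 0`. `E1` is `B21 s² + B31 t² = d1 lam`, so `lam / s → 0`. `E2`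
multiplied by `t / s²` is `(t / s) (A2 - 2 B21 s + B32 (t / s)² - d2 lam / s) = 2 B23`, so `B23 = 0`; then
`A2 - 2 B21 s + B32 (t / s)² = d2 lam / s`, so `A2 = 0` and `B21 = 0`. Now `E1` is `B31 t² = d1 lam`, so
`‖lam‖ ≤ M ‖t‖²` with `M > 0` and by `hl` and `‖t‖ ≤ ‖s‖`,
`κ * ‖t‖ ^ (d2 + d3) ≤ M ^ n * ‖t‖ ^ (2 n)`, `n = d1 + d2 + d3`; `q_contra` with `a = 2 n - (d2 + d3)`. -/
theorem q_escA0 {A1 A2 A3 B12 B13 B21 B23 B31 B32 C : ℂ} (hA1 : A1 = 0 → B12 = 0 ∧ B13 = 0 ∧ C = 0)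
    (hA2 : A2 = 0 → B21 = 0 ∧ B23 = 0 ∧ C = 0) {d1 d2 d3 : ℕ} (h1 : 0 < d1)
    (h2 : 0 < d2) {κ : ℝ} (hκ : 0 < κ) {s t lam : ℕ → ℂ} (hs : ∀ m, s m ≠ 0)
    (ht : ∀ m, t m ≠ 0) (hs1 : ∀ m, ‖s m‖ ≤ 1) (hts : ∀ m, ‖t m‖ ≤ ‖s m‖)
    (hs0 : Tendsto s atTop (𝓝 0)) (hr : Tendsto (fun m => t m / s m) atTop (𝓝 0))
    (E1 : ∀ m, A1 - 2 * B12 / s m - 2 * B13 / t m + B21 * s m ^ 2 + B31 * t m ^ 2 -
      C * (s m / t m + t m / s m - s m * t m) = d1 * lam m)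
    (E2 : ∀ m, A2 * s m - 2 * B21 * s m ^ 2 - 2 * B23 * s m ^ 2 / t m + B12 / s m +
      B32 * t m ^ 2 / s m - C * (s m / t m + s m * t m - t m / s m) = d2 * lam m)
    (E3 : ∀ m, A3 * t m - 2 * B31 * t m ^ 2 - 2 * B32 * t m ^ 2 / s m + B13 / t m +
      B23 * s m ^ 2 / t m - C * (t m / s m + s m * t m - s m / t m) = d3 * lam m)
    (hl : ∀ m, ‖lam m‖ ^ (d1 + d2 + d3) = κ * (‖s m‖ ^ d2 * ‖t m‖ ^ d3)) : False := by
  have hn : 0 < d1 + d2 + d3 := by omega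
  have ht1 : ∀ m, ‖t m‖ ≤ 1 := fun m => (hts m).trans (hs1 m)
  have ht0 : Tendsto t atTop (𝓝 0) :=
    squeeze_zero_norm hts (by simpa using hs0.norm)
  have hlam : Tendsto lam atTop (𝓝 0) := by
    refine qb_lam (κ := κ) (n := d1 + d2 + d3) h2 hs0 (fun m => ?_)
    rw [hl m]
    refine mul_le_mul_of_nonneg_left ?_ hκ.le
    exact mul_le_of_le_one_right (pow_nonneg (norm_nonneg _) _)
      (pow_le_one₀ (norm_nonneg _) (ht1 m))
  set r : ℕ → ℂ := fun m => t m / s m with hrdef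
  have htr : ∀ m, t m = r m * s m := fun m => by
    rw [hrdef]; field_simp [hs m]
  have hr0 : ∀ m, r m ≠ 0 := fun m => div_ne_zero (ht m) (hs m)
  clear_value r
  have hB13 : B13 = 0 := by
    have h3 := qb_key hs0 ht0 hr hlam
      (F := fun p => d3 * p.2.2.2 * p.2.1 - A3 * p.2.1 ^ 2 + 2 * B31 * p.2.1 ^ 3 +
        2 * B32 * p.2.2.1 * p.2.1 ^ 2 - B23 * p.1 ^ 2 +
        C * (p.2.2.1 * p.2.1 + p.1 * p.2.1 ^ 2 - p.1)) (by fun_prop) (c := B13) (fun m => by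
        have h4 := E3 m
        have h5 := hs m
        have h6 := hr0 m
        rw [htr m] at h4 ⊢
        simp only []
        rw [← h4]
        field_simp
        ring)
    simpa using h3
  have hS : ∀ m, A1 + A2 * s m + 2 * A3 * t m - B12 / s m - B21 * s m ^ 2 - 3 * B31 * t m ^ 2 -
      3 * B32 * (t m * r m) - 2 * C * (r m + s m * t m) = (d1 + d2 + 2 * d3) * lam m := by
    intro m
    have h4 := E1 m
    have h5 := E2 m
    have h6 := E3 m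
    have e : ((d1 : ℂ) + d2 + 2 * d3) * lam m = d1 * lam m + d2 * lam m + 2 * (d3 * lam m) := by
      ring
    rw [e, ← h4, ← h5, ← h6, htr m]
    have h7 := hs m
    have h8 := hr0 m
    field_simp
    ring
  have hB12 : B12 = 0 := by
    have h3 := qb_key hs0 ht0 hr hlam
      (F := fun p => A1 * p.1 + A2 * p.1 ^ 2 + 2 * A3 * p.2.1 * p.1 - B21 * p.1 ^ 3 -
        3 * B31 * p.2.1 ^ 2 * p.1 - 3 * B32 * p.2.1 ^ 2 - 2 * C * (p.2.1 + p.1 ^ 2 * p.2.1) -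
        (d1 + d2 + 2 * d3) * p.2.2.2 * p.1) (by fun_prop) (c := B12) (fun m => by
        have h4 := hS m
        have h5 := hs m
        have h6 := hr0 m
        simp only []
        rw [← h4, htr m]
        field_simp
        ring)
    simpa using h3
  have hA10 : A1 = 0 := by
    have h3 := qb_key hs0 ht0 hr hlam
      (F := fun p => (d1 + d2 + 2 * d3) * p.2.2.2 - A2 * p.1 - 2 * A3 * p.2.1 + B21 * p.1 ^ 2 +
        3 * B31 * p.2.1 ^ 2 + 3 * B32 * (p.2.1 * p.2.2.1) +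
        2 * C * (p.2.2.1 + p.1 * p.2.1)) (by fun_prop) (c := A1) (fun m => by
        have h4 := hS m
        simp only []
        rw [← h4, hB12]
        ring)
    simpa using h3
  obtain ⟨-, -, hC⟩ := hA1 hA10
  have hd1 : (d1 : ℂ) ≠ 0 := by exact_mod_cast h1.ne'
  have hE1 : ∀ m, B21 * s m ^ 2 + B31 * t m ^ 2 = d1 * lam m := by
    intro m
    rw [← E1 m, hA10, hB12, hB13, hC]
    ring
  have hls : ∀ m, lam m = s m * ((B21 * s m + B31 * t m * r m) / d1) := by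
    intro m
    have h4 := hE1 m
    have h5 : lam m = (B21 * s m ^ 2 + B31 * t m ^ 2) / d1 := by
      rw [h4]; field_simp
    rw [h5, htr m]
    field_simp
  have hB23 : B23 = 0 := by
    have h3 := qb_key hs0 ht0 hr hlam
      (F := fun p => (A2 * p.2.2.1 - 2 * B21 * p.2.2.1 * p.1 + B32 * p.2.2.1 ^ 3 -
        d2 * ((B21 * p.1 + B31 * p.2.1 * p.2.2.1) / d1) * p.2.2.1) / 2)
        (by fun_prop) (c := B23) (fun m => by
        have h4 := E2 m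
        rw [hls m, hB12, hC, htr m] at h4
        simp only []
        rw [htr m]
        have h5 := hs m
        have h6 := hr0 m
        field_simp at h4 ⊢
        apply mul_left_cancel₀ (pow_ne_zero 2 h5)
        linear_combination (-1 : ℂ) * h4)
    simpa using h3
  have hA20 : A2 = 0 := by
    have h3 := qb_key hs0 ht0 hr hlam
      (F := fun p => 2 * B21 * p.1 - B32 * p.2.2.1 ^ 2 +
        d2 * ((B21 * p.1 + B31 * p.2.1 * p.2.2.1) / d1))
        (by fun_prop) (c := A2) (fun m => by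
        have h4 := E2 m
        rw [hls m, hB12, hC, hB23, htr m] at h4
        simp only []
        rw [htr m]
        have h5 := hs m
        have h6 := hr0 m
        field_simp at h4 ⊢
        apply mul_left_cancel₀ (mul_ne_zero (pow_ne_zero 2 h5) h6)
        linear_combination h4)
    simpa using h3
  obtain ⟨hB21, -, -⟩ := hA2 hA20
  have hlt : ∀ m, ‖lam m‖ ≤ (‖B31 / d1‖ + 1) * ‖t m‖ ^ 2 := by
    intro m
    have h4 := hE1 m
    rw [hB21] at h4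
    have h5 : lam m = B31 / d1 * t m ^ 2 := by
      field_simp
      rw [mul_comm, ← h4]
      ring
    rw [h5, norm_mul, norm_pow]
    refine mul_le_mul_of_nonneg_right ?_ (pow_nonneg (norm_nonneg _) _)
    linarith
  refine q_contra (ε := κ) (K := (‖B31 / d1‖ + 1) ^ (d1 + d2 + d3)) hκ (p := d2 + d3)
    (a := 2 * d1 + d2 + d3) (by omega) (x := fun m => ‖t m‖) (fun m => norm_pos_iff.2 (ht m))
    (by simpa using ht0.norm) (Eventually.of_forall fun m => ?_)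
  have h4 : κ * ‖t m‖ ^ (d2 + d3) ≤ κ * (‖s m‖ ^ d2 * ‖t m‖ ^ d3) := by
    rw [pow_add]
    refine mul_le_mul_of_nonneg_left ?_ hκ.le
    exact mul_le_mul_of_nonneg_right (pow_le_pow_left₀ (norm_nonneg _) (hts m) _)
      (pow_nonneg (norm_nonneg _) _)
  have h5 : ‖lam m‖ ^ (d1 + d2 + d3) ≤ ((‖B31 / d1‖ + 1) * ‖t m‖ ^ 2) ^ (d1 + d2 + d3) :=
    pow_le_pow_left₀ (norm_nonneg _) (hlt m) _
  rw [hl m, mul_pow, ← pow_mul] at h5
  have h6 : 2 * (d1 + d2 + d3) = d2 + d3 + (2 * d1 + d2 + d3) := by ring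
  rw [h6] at h5
  exact h4.trans h5

end Pool.Agent.H.MP_deabf1_gt
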