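import Pool.Agent.H.MP_deabf1_gt.Q0

/-!
Asymptotics of the solutions of the Einstein equations with three unknowns `1, s, t`.
-/

namespace Pool.Agent.H.MP_deabf1_gt

open Filter Topology

/-- Job QC. The case `s → a ≠ 0`, `t → 0`.

Proof. All of `s`, `1 / s`, `t`, `t / s`, `lam` are bounded. `E1 * t` in the limit: `2 B13 + C a = 0`.
`E2 * t / s` in the limit: `C + 2 B23 a = 0`. Hence `B13 + C x + B23 x² = B23 (x - a)²` for all `x`
(substitute `C = - 2 B23 a`, `B13 = B23 a²`). `E2 * t / s` says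
`2 B23 (s - a) = t * (A2 - 2 B21 s + B12 / s² + B32 (t / s)² - C (t - t / s²) - d2 lam / s)`
(as `C = - 2 B23 a`), so `‖B23 (s - a)‖ ≤ M ‖t‖`; hence `‖B23 (s - a)²‖ ≤ M' ‖t‖²` (clear if `B23 = 0`).
`E3` is `A3 t - 2 B31 t² - 2 B32 t² / s - C (t / s + s t) + B23 (s - a)² / t = d3 lam`, so
`‖lam‖ ≤ M'' ‖t‖` eventually. By `hl` and `‖s‖ ≥ ‖a‖ / 2`,
`κ (‖a‖ / 2) ^ d2 * ‖t‖ ^ d3 ≤ M'' ^ n * ‖t‖ ^ (d3 + (d1 + d2))`; `q_contra`. -/
theorem q_escB {A1 A2 A3 B12 B13 B21 B23 B31 B32 C : ℂ} {d1 d2 d3 : ℕ} (h1 : 0 < d1)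
    (h3 : 0 < d3) {κ : ℝ} (hκ : 0 < κ) {s t lam : ℕ → ℂ} (hs : ∀ m, s m ≠ 0)
    (ht : ∀ m, t m ≠ 0) (hs1 : ∀ m, ‖s m‖ ≤ 1) (hts : ∀ m, ‖t m‖ ≤ ‖s m‖)
    {a : ℂ} (ha : a ≠ 0) (hsa : Tendsto s atTop (𝓝 a)) (ht0 : Tendsto t atTop (𝓝 0))
    (E1 : ∀ m, A1 - 2 * B12 / s m - 2 * B13 / t m + B21 * s m ^ 2 + B31 * t m ^ 2 -
      C * (s m / t m + t m / s m - s m * t m) = d1 * lam m)
    (E2 : ∀ m, A2 * s m - 2 * B21 * s m ^ 2 - 2 * B23 * s m ^ 2 / t m + B12 / s m +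
      B32 * t m ^ 2 / s m - C * (s m / t m + s m * t m - t m / s m) = d2 * lam m)
    (E3 : ∀ m, A3 * t m - 2 * B31 * t m ^ 2 - 2 * B32 * t m ^ 2 / s m + B13 / t m +
      B23 * s m ^ 2 / t m - C * (t m / s m + s m * t m - s m / t m) = d3 * lam m)
    (hl : ∀ m, ‖lam m‖ ^ (d1 + d2 + d3) = κ * (‖s m‖ ^ d2 * ‖t m‖ ^ d3)) : False := by
  have hn : d1 + d2 + d3 ≠ 0 := by omega
  have hnR : (0 : ℝ) < (((d1 + d2 + d3 : ℕ) : ℝ))⁻¹ := by
    apply inv_pos.2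
    exact_mod_cast Nat.pos_of_ne_zero hn
  -- `lam` tends to zero
  have hlam0 : Tendsto (fun m => ‖lam m‖) atTop (𝓝 0) := by
    have e : ∀ m, (κ * (‖s m‖ ^ d2 * ‖t m‖ ^ d3)) ^ (((d1 + d2 + d3 : ℕ) : ℝ))⁻¹ =
        ‖lam m‖ := by
      intro m
      rw [← hl m]
      exact Real.pow_rpow_inv_natCast (norm_nonneg _) hn
    have h0 : Tendsto (fun m => κ * (‖s m‖ ^ d2 * ‖t m‖ ^ d3)) atTop
        (𝓝 (κ * (‖a‖ ^ d2 * ‖(0 : ℂ)‖ ^ d3))) :=
      ((hsa.norm.pow d2).mul (ht0.norm.pow d3)).const_mul κ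
    rw [norm_zero, zero_pow h3.ne', mul_zero, mul_zero] at h0
    have h4 := h0.rpow_const (p := (((d1 + d2 + d3 : ℕ) : ℝ))⁻¹) (Or.inr hnR.le)
    rw [Real.zero_rpow hnR.ne'] at h4
    exact h4.congr e
  have hlam : Tendsto lam atTop (𝓝 0) := tendsto_zero_iff_norm_tendsto_zero.2 hlam0
  have hp : Tendsto (fun m => (s m, t m, lam m)) atTop (𝓝 (a, 0, 0)) :=
    hsa.prodMk_nhds (ht0.prodMk_nhds hlam)
  -- the limit of the first equation
  have hC1 : 2 * B13 + C * a = 0 := by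
    have hc : ContinuousAt (fun x : ℂ × ℂ × ℂ => A1 * x.2.1 - 2 * B12 * (x.2.1 / x.1) - 2 * B13 +
        B21 * x.1 ^ 2 * x.2.1 + B31 * x.2.1 ^ 3 - C * (x.1 + x.2.1 ^ 2 / x.1 - x.1 * x.2.1 ^ 2) -
        d1 * x.2.2 * x.2.1) (a, 0, 0) := by
      have : (a, (0 : ℂ), (0 : ℂ)).1 ≠ 0 := ha
      fun_prop (disch := assumption)
    have h4 := hc.tendsto.comp hp
    have h5 : ∀ m, ((fun x : ℂ × ℂ × ℂ => A1 * x.2.1 - 2 * B12 * (x.2.1 / x.1) - 2 * B13 +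
        B21 * x.1 ^ 2 * x.2.1 + B31 * x.2.1 ^ 3 - C * (x.1 + x.2.1 ^ 2 / x.1 - x.1 * x.2.1 ^ 2) -
        d1 * x.2.2 * x.2.1) ∘ fun m => (s m, t m, lam m)) m = 0 := by
      intro m
      have h6 := E1 m
      have h7 := hs m
      have h8 := ht m
      simp only [Function.comp]
      rw [mul_assoc (d1 : ℂ), mul_comm (lam m), ← mul_assoc, mul_comm (d1 : ℂ), mul_assoc (t m),
        ← h6]
      field_simp
      ring
    have h9 := tendsto_nhds_unique h4 (tendsto_const_nhds.congr fun m => (h5 m).symm)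
    simp only [mul_zero, zero_div, sub_zero, zero_sub, ne_eq, OfNat.ofNat_ne_zero,
      not_false_eq_true, zero_pow, add_zero] at h9
    linear_combination -h9
  -- the function `R`
  have hC2 : C + 2 * B23 * a = 0 := by
    have hc : ContinuousAt (fun x : ℂ × ℂ × ℂ => A2 * x.2.1 - 2 * B21 * x.1 * x.2.1 -
        2 * B23 * x.1 + B12 * x.2.1 / x.1 ^ 2 + B32 * x.2.1 ^ 3 / x.1 ^ 2 -
        C * (1 + x.2.1 ^ 2 - x.2.1 ^ 2 / x.1 ^ 2) - d2 * x.2.2 * x.2.1 / x.1) (a, 0, 0) := by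
      have : (a, (0 : ℂ), (0 : ℂ)).1 ≠ 0 := ha
      have : (a, (0 : ℂ), (0 : ℂ)).1 ^ 2 ≠ 0 := pow_ne_zero 2 ha
      fun_prop (disch := assumption)
    have h4 := hc.tendsto.comp hp
    have h5 : ∀ m, ((fun x : ℂ × ℂ × ℂ => A2 * x.2.1 - 2 * B21 * x.1 * x.2.1 -
        2 * B23 * x.1 + B12 * x.2.1 / x.1 ^ 2 + B32 * x.2.1 ^ 3 / x.1 ^ 2 -
        C * (1 + x.2.1 ^ 2 - x.2.1 ^ 2 / x.1 ^ 2) - d2 * x.2.2 * x.2.1 / x.1) ∘
        fun m => (s m, t m, lam m)) m = 0 := by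
      intro m
      have h6 := E2 m
      have h7 := hs m
      have h8 := ht m
      simp only [Function.comp]
      rw [← h6]
      field_simp
      ring
    have h9 := tendsto_nhds_unique h4 (tendsto_const_nhds.congr fun m => (h5 m).symm)
    simp only [mul_zero, zero_div, sub_zero, zero_sub, ne_eq, OfNat.ofNat_ne_zero,
      not_false_eq_true, zero_pow, add_zero, mul_one] at h9
    linear_combination -h9
  have hCe : C = -(2 * B23 * a) := by linear_combination hC2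
  have hBe : B13 = B23 * a ^ 2 := by
    have h4 : 2 * B13 = 2 * (B23 * a ^ 2) := by rw [hCe] at hC1; linear_combination hC1
    exact mul_left_cancel₀ two_ne_zero h4
  obtain ⟨R, hR⟩ : ∃ R : ℂ × ℂ × ℂ → ℂ, R = fun x => A2 - 2 * B21 * x.1 + B12 / x.1 ^ 2 +
    B32 * x.2.1 ^ 2 / x.1 ^ 2 - C * (x.2.1 - x.2.1 / x.1 ^ 2) - d2 * x.2.2 / x.1 := ⟨_, rfl⟩
  have hRc : ContinuousAt R (a, 0, 0) := by
    rw [hR]
    have : (a, (0 : ℂ), (0 : ℂ)).1 ≠ 0 := ha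
    have : (a, (0 : ℂ), (0 : ℂ)).1 ^ 2 ≠ 0 := pow_ne_zero 2 ha
    fun_prop (disch := assumption)
  have hRe : ∀ m, 2 * B23 * (s m - a) = t m * R (s m, t m, lam m) := by
    intro m
    have h6 := E2 m
    have h7 := hs m
    have h8 := ht m
    rw [hR]
    simp only
    rw [← h6]
    have h9 : t m * (A2 - 2 * B21 * s m + B12 / s m ^ 2 + B32 * t m ^ 2 / s m ^ 2 -
        C * (t m - t m / s m ^ 2) - (A2 * s m - 2 * B21 * s m ^ 2 - 2 * B23 * s m ^ 2 / t m +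
        B12 / s m + B32 * t m ^ 2 / s m - C * (s m / t m + s m * t m - t m / s m)) / s m) =
        2 * B23 * s m + C := by
      field_simp
      ring
    rw [h9, hCe]
    ring
  obtain ⟨S, hS⟩ : ∃ S : ℂ × ℂ × ℂ → ℂ, S = fun x => A3 - 2 * B31 * x.2.1 -
    2 * B32 * (x.2.1 / x.1) - C * (1 / x.1 + x.1) + R x ^ 2 / (4 * B23) := ⟨_, rfl⟩
  have hSc : ContinuousAt S (a, 0, 0) := by
    rw [hS]
    have : (a, (0 : ℂ), (0 : ℂ)).1 ≠ 0 := ha
    have h4 : ContinuousAt (fun x : ℂ × ℂ × ℂ => A3 - 2 * B31 * x.2.1 -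
        2 * B32 * (x.2.1 / x.1) - C * (1 / x.1 + x.1)) (a, 0, 0) := by
      fun_prop (disch := assumption)
    exact h4.add ((hRc.pow 2).div_const _)
  have hSe : ∀ m, (d3 : ℂ) * lam m = t m * S (s m, t m, lam m) := by
    intro m
    have h6 := E3 m
    have h7 := hs m
    have h8 := ht m
    have h9 : (B13 + B23 * s m ^ 2 + C * s m) / t m =
        t m * (R (s m, t m, lam m) ^ 2 / (4 * B23)) := by
      have h10 : B13 + B23 * s m ^ 2 + C * s m = B23 * (s m - a) ^ 2 := by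
        rw [hCe, hBe]
        ring
      rw [h10]
      by_cases hB : B23 = 0
      · rw [hB]
        simp
      · have h11 := hRe m
        rw [div_eq_iff h8]
        field_simp
        linear_combination (2 * B23 * (s m - a) + t m * R (s m, t m, lam m)) * h11
    rw [← h6, hS]
    simp only
    rw [mul_add, ← h9]
    field_simp
    ring
  have hSt : Tendsto (fun m => ‖S (s m, t m, lam m)‖) atTop (𝓝 ‖S (a, 0, 0)‖) :=
    (hSc.tendsto.comp hp).norm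
  have hSb : ∀ᶠ m in atTop, ‖S (s m, t m, lam m)‖ < ‖S (a, 0, 0)‖ + 1 :=
    hSt.eventually (gt_mem_nhds (by linarith))
  have hsb : ∀ᶠ m in atTop, ‖a‖ / 2 < ‖s m‖ :=
    hsa.norm.eventually (lt_mem_nhds (by
      have := norm_pos_iff.2 ha
      linarith))
  have hapos : 0 < ‖a‖ := norm_pos_iff.2 ha
  refine q_contra (ε := κ * (‖a‖ / 2) ^ d2) (K := (‖S (a, 0, 0)‖ + 1) ^ (d1 + d2 + d3))
    (by positivity) (p := d3) (a := d1 + d2) (by omega) (x := fun m => ‖t m‖)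
    (fun m => norm_pos_iff.2 (ht m)) (by simpa using ht0.norm) ?_
  filter_upwards [hSb, hsb] with m hm1 hm2
  have h10 : ‖lam m‖ ≤ (‖S (a, 0, 0)‖ + 1) * ‖t m‖ := by
    have h11 := congrArg norm (hSe m)
    rw [norm_mul, norm_mul, Complex.norm_natCast] at h11
    have h12 : (1 : ℝ) ≤ d3 := by exact_mod_cast h3
    have h13 : ‖lam m‖ ≤ d3 * ‖lam m‖ := le_mul_of_one_le_left (norm_nonneg _) h12
    calc ‖lam m‖ ≤ d3 * ‖lam m‖ := h13
      _ = ‖t m‖ * ‖S (s m, t m, lam m)‖ := h11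
      _ ≤ ‖t m‖ * (‖S (a, 0, 0)‖ + 1) := mul_le_mul_of_nonneg_left hm1.le (norm_nonneg _)
      _ = _ := mul_comm _ _
  have h14 : ‖lam m‖ ^ (d1 + d2 + d3) ≤ ((‖S (a, 0, 0)‖ + 1) * ‖t m‖) ^ (d1 + d2 + d3) :=
    pow_le_pow_left₀ (norm_nonneg _) h10 _
  rw [hl m, mul_pow] at h14
  have h15 : (‖a‖ / 2) ^ d2 ≤ ‖s m‖ ^ d2 := pow_le_pow_left₀ (by positivity) hm2.le _
  have h16 : d3 + (d1 + d2) = d1 + d2 + d3 := by ring
  rw [h16]
  refine le_trans ?_ h14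
  rw [mul_assoc]
  exact mul_le_mul_of_nonneg_left (mul_le_mul_of_nonneg_right h15 (by positivity)) hκ.le

end Pool.Agent.H.MP_deabf1_gt
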