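import Pool.Agent.H.MP_deabf1_gt.QA
import Pool.Agent.H.MP_deabf1_gt.QB
import Pool.Agent.H.MP_deabf1_gt.QC

/-!
Asymptotics of the solutions of the Einstein equations with three unknowns `1, s, t`.
-/

namespace Pool.Agent.H.MP_deabf1_gt

open Filter Topology

/-- Job QD. There is no sequence of solutions with `‖t‖ ≤ ‖s‖ ≤ 1` and `t → 0`.

Proof. Pass to a subsequence on which `s → a` and `t / s → ρ` (`tendsto_subseq_of_bounded`; all hypotheses
are inherited by subsequences). If `a ≠ 0` use `q_escB`; if `a = 0` use `q_escA` or `q_escA0`. -/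
theorem q_escape {A1 A2 A3 B12 B13 B21 B23 B31 B32 C : ℂ} (hA1 : A1 = 0 → B12 = 0 ∧ B13 = 0 ∧ C = 0)
    (hA2 : A2 = 0 → B21 = 0 ∧ B23 = 0 ∧ C = 0) {d1 d2 d3 : ℕ} (h1 : 0 < d1)
    (h2 : 0 < d2) (h3 : 0 < d3) {κ : ℝ} (hκ : 0 < κ) {s t lam : ℕ → ℂ} (hs : ∀ m, s m ≠ 0)
    (ht : ∀ m, t m ≠ 0) (hs1 : ∀ m, ‖s m‖ ≤ 1) (hts : ∀ m, ‖t m‖ ≤ ‖s m‖)
    (ht0 : Tendsto t atTop (𝓝 0))
    (E1 : ∀ m, A1 - 2 * B12 / s m - 2 * B13 / t m + B21 * s m ^ 2 + B31 * t m ^ 2 -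
      C * (s m / t m + t m / s m - s m * t m) = d1 * lam m)
    (E2 : ∀ m, A2 * s m - 2 * B21 * s m ^ 2 - 2 * B23 * s m ^ 2 / t m + B12 / s m +
      B32 * t m ^ 2 / s m - C * (s m / t m + s m * t m - t m / s m) = d2 * lam m)
    (E3 : ∀ m, A3 * t m - 2 * B31 * t m ^ 2 - 2 * B32 * t m ^ 2 / s m + B13 / t m +
      B23 * s m ^ 2 / t m - C * (t m / s m + s m * t m - s m / t m) = d3 * lam m)
    (hl : ∀ m, ‖lam m‖ ^ (d1 + d2 + d3) = κ * (‖s m‖ ^ d2 * ‖t m‖ ^ d3)) : False := by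
  have hq1 : ∀ m, ‖t m / s m‖ ≤ 1 := by
    intro m
    rw [norm_div]
    exact div_le_one_of_le₀ (hts m) (norm_nonneg _)
  obtain ⟨a, -, φ, hφ, hφa⟩ := tendsto_subseq_of_bounded (s := Metric.closedBall (0 : ℂ) 1)
    Metric.isBounded_closedBall (x := s) (fun m => by
      rw [mem_closedBall_zero_iff]
      exact hs1 m)
  obtain ⟨ρ, -, ψ, hψ, hψρ⟩ := tendsto_subseq_of_bounded (s := Metric.closedBall (0 : ℂ) 1)
    Metric.isBounded_closedBall (x := fun m => t (φ m) / s (φ m)) (fun m => by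
      rw [mem_closedBall_zero_iff]
      exact hq1 (φ m))
  have hχ : Tendsto (fun m => φ (ψ m)) atTop atTop :=
    hφ.tendsto_atTop.comp hψ.tendsto_atTop
  have hsa : Tendsto (fun m => s (φ (ψ m))) atTop (𝓝 a) := hφa.comp hψ.tendsto_atTop
  have ht0' : Tendsto (fun m => t (φ (ψ m))) atTop (𝓝 0) := ht0.comp hχ
  have hρ' : Tendsto (fun m => t (φ (ψ m)) / s (φ (ψ m))) atTop (𝓝 ρ) := hψρ
  by_cases ha : a = 0
  · subst ha
    by_cases hρ : ρ = 0
    · subst hρ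
      exact q_escA0 (s := fun m => s (φ (ψ m))) (t := fun m => t (φ (ψ m)))
        (lam := fun m => lam (φ (ψ m))) hA1 hA2 h1 h2 hκ (fun m => hs _) (fun m => ht _)
        (fun m => hs1 _) (fun m => hts _) hsa hρ' (fun m => E1 _) (fun m => E2 _) (fun m => E3 _)
        (fun m => hl _)
    · exact q_escA (s := fun m => s (φ (ψ m))) (t := fun m => t (φ (ψ m)))
        (lam := fun m => lam (φ (ψ m))) h1 h2 hκ (fun m => hs _) (fun m => ht _)
        (fun m => hs1 _) (fun m => hts _) hsa hρ hρ' (fun m => E1 _) (fun m => E2 _)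
        (fun m => E3 _) (fun m => hl _)
  · exact q_escB (s := fun m => s (φ (ψ m))) (t := fun m => t (φ (ψ m)))
        (lam := fun m => lam (φ (ψ m))) h1 h3 hκ (fun m => hs _) (fun m => ht _)
        (fun m => hs1 _) (fun m => hts _) ha hsa ht0' (fun m => E1 _) (fun m => E2 _)
        (fun m => E3 _) (fun m => hl _)

end Pool.Agent.H.MP_deabf1_gt
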