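import Pool.Agent.H.MP_deabf1_gt.PDefs

/-!
The Einstein equations for three unknowns in explicit form; scaling and permutations.
-/

namespace Pool.Agent.H.MP_deabf1_gt

open Filter Topology

/-- Job QE-1. The three equations in explicit form. Proof: unfold, `Fin.sum_univ_three`, rewrite all
values of `T` with the symmetry, `field_simp`, `ring`. -/
theorem eqL_explicit {T : Fin 3 → Fin 3 → Fin 3 → ℂ} (hT : Sym T) (γ : Fin 3 → ℂ) {a b c : ℂ}
    (ha : a ≠ 0) (hb : b ≠ 0) (hc : c ≠ 0) :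
    eqL T γ ![a, b, c] 0 =
      (γ 0 + 1 / 4 * T 0 0 0 + T 0 0 1 + T 0 0 2 + T 0 1 2) * a - 2 * (1 / 4 * T 0 0 1) * a ^ 2 / b -
        2 * (1 / 4 * T 0 0 2) * a ^ 2 / c + 1 / 4 * T 0 1 1 * b ^ 2 / a +
        1 / 4 * T 0 2 2 * c ^ 2 / a - 1 / 2 * T 0 1 2 * (a * b / c + a * c / b - b * c / a) ∧
    eqL T γ ![a, b, c] 1 =
      (γ 1 + 1 / 4 * T 1 1 1 + T 0 1 1 + T 1 1 2 + T 0 1 2) * b - 2 * (1 / 4 * T 0 1 1) * b ^ 2 / a -
        2 * (1 / 4 * T 1 1 2) * b ^ 2 / c + 1 / 4 * T 0 0 1 * a ^ 2 / b +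
        1 / 4 * T 1 2 2 * c ^ 2 / b - 1 / 2 * T 0 1 2 * (a * b / c + b * c / a - a * c / b) ∧
    eqL T γ ![a, b, c] 2 =
      (γ 2 + 1 / 4 * T 2 2 2 + T 0 2 2 + T 1 2 2 + T 0 1 2) * c - 2 * (1 / 4 * T 0 2 2) * c ^ 2 / a -
        2 * (1 / 4 * T 1 2 2) * c ^ 2 / b + 1 / 4 * T 0 0 2 * a ^ 2 / c +
        1 / 4 * T 1 1 2 * b ^ 2 / c - 1 / 2 * T 0 1 2 * (a * c / b + b * c / a - a * b / c) := by
  obtain ⟨h1, h2⟩ := hT
  have e010 : T 0 1 0 = T 0 0 1 := h2 0 1 0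
  have e020 : T 0 2 0 = T 0 0 2 := h2 0 2 0
  have e021 : T 0 2 1 = T 0 1 2 := h2 0 2 1
  have e100 : T 1 0 0 = T 0 0 1 := (h1 1 0 0).trans e010
  have e101 : T 1 0 1 = T 0 1 1 := h1 1 0 1
  have e102 : T 1 0 2 = T 0 1 2 := h1 1 0 2
  have e110 : T 1 1 0 = T 0 1 1 := (h2 1 1 0).trans e101
  have e120 : T 1 2 0 = T 0 1 2 := (h2 1 2 0).trans e102
  have e121 : T 1 2 1 = T 1 1 2 := h2 1 2 1
  have e200 : T 2 0 0 = T 0 0 2 := (h1 2 0 0).trans e020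
  have e201 : T 2 0 1 = T 0 1 2 := (h1 2 0 1).trans e021
  have e202 : T 2 0 2 = T 0 2 2 := h1 2 0 2
  have e210 : T 2 1 0 = T 0 1 2 := (h2 2 1 0).trans e201
  have e211 : T 2 1 1 = T 1 1 2 := (h1 2 1 1).trans e121
  have e212 : T 2 1 2 = T 1 2 2 := h1 2 1 2
  have e220 : T 2 2 0 = T 0 2 2 := (h2 2 2 0).trans e202
  have e221 : T 2 2 1 = T 1 2 2 := (h2 2 2 1).trans e212
  have v0 : (![a, b, c] : Fin 3 → ℂ) 0 = a := rfl
  have v1 : (![a, b, c] : Fin 3 → ℂ) 1 = b := rfl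
  have v2 : (![a, b, c] : Fin 3 → ℂ) 2 = c := rfl
  refine ⟨?_, ?_, ?_⟩
  · unfold eqL
    simp only [Fin.sum_univ_three, v0, v1, v2, e010, e020, e021]
    field_simp
    ring
  · unfold eqL
    simp only [Fin.sum_univ_three, v0, v1, v2, e100, e101, e102, e110, e120, e121]
    field_simp
    ring
  · unfold eqL
    simp only [Fin.sum_univ_three, v0, v1, v2, e200, e201, e202, e210, e211, e212, e220, e221]
    field_simp
    ring

/-- Job QE-2. Scaling. Proof: unfold; each term is homogeneous of degree 1. -/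
theorem eqL_smul {ι 𝕜 : Type*} [Fintype ι] [Field 𝕜] (T : ι → ι → ι → 𝕜) (γ u : ι → 𝕜) {a : 𝕜}
    (ha : a ≠ 0) (i : ι) : eqL T γ (fun j => a * u j) i = a * eqL T γ u i := by
  have hdiv : ∀ x y z : 𝕜, (a * x) * (a * y) / (a * z) = a * (x * y / z) := by
    intro x y z
    rw [show (a * x) * (a * y) = a * (a * (x * y)) by ring, mul_div_mul_left _ _ ha, mul_div_assoc]
  unfold eqL
  simp only [hdiv]
  rw [mul_add, Finset.mul_sum, Finset.mul_sum, Finset.mul_sum]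
  congr 1
  · ring
  · refine Finset.sum_congr rfl fun j _ => ?_
    rw [Finset.mul_sum, Finset.mul_sum, Finset.mul_sum]
    refine Finset.sum_congr rfl fun k _ => ?_
    ring

/-- Job QE-3. Permutation of the indices. Proof: unfold; reindex the sums (`Equiv.sum_comp`). -/
theorem eqL_perm {ι 𝕜 : Type*} [Fintype ι] [Field 𝕜] (T : ι → ι → ι → 𝕜) (γ u : ι → 𝕜)
    (σ : Equiv.Perm ι) (i : ι) :
    eqL (fun i j k => T (σ i) (σ j) (σ k)) (γ ∘ σ) (u ∘ σ) i = eqL T γ u (σ i) := by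
  unfold eqL
  simp only [Function.comp_apply]
  congr 2
  refine Eq.trans ?_ (Equiv.sum_comp σ (fun j => ∑ k, T (σ i) j k *
    (2 * u (σ i) + u j * u k / u (σ i) - u (σ i) * u k / u j - u (σ i) * u j / u k)))
  refine Finset.sum_congr rfl fun j _ => ?_
  exact Equiv.sum_comp σ (fun k => T (σ i) (σ j) k *
    (2 * u (σ i) + u (σ j) * u k / u (σ i) - u (σ i) * u k / u (σ j) - u (σ i) * u (σ j) / u k))

end Pool.Agent.H.MP_deabf1_gt
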