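import Pool.Agent.H.MP_deabf1_gt.QI
import Pool.Agent.H.MP_deabf1_gt.P6

/-!
Finiteness of the set of solutions of the Einstein equations with two or three unknowns.
-/

namespace Pool.Agent.H.MP_deabf1_gt

open Filter Topology Polynomial

/-- The exponents of the monomials of `s * t * S(1, s, t)`. -/
def expA : Fin 12 → ℕ := ![1, 2, 1, 0, 1, 3, 3, 1, 0, 2, 2, 0]

def expB : Fin 12 → ℕ := ![1, 1, 2, 1, 0, 1, 0, 3, 3, 0, 2, 2]

/-- The coefficients of the monomials of `s * t * S(1, s, t)`. -/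
noncomputable def coef (T : Fin 3 → Fin 3 → Fin 3 → ℝ) (γ : Fin 3 → ℝ) : Fin 12 → ℂ :=
  ![((γ 0 + 1 / 4 * T 0 0 0 + T 0 0 1 + T 0 0 2 + T 0 1 2 : ℝ) : ℂ),
    ((γ 1 + 1 / 4 * T 1 1 1 + T 0 1 1 + T 1 1 2 + T 0 1 2 : ℝ) : ℂ),
    ((γ 2 + 1 / 4 * T 2 2 2 + T 0 2 2 + T 1 2 2 + T 0 1 2 : ℝ) : ℂ),
    ((-(1 / 4 * T 0 0 1) : ℝ) : ℂ), ((-(1 / 4 * T 0 0 2) : ℝ) : ℂ), ((-(1 / 4 * T 0 1 1) : ℝ) : ℂ),
    ((-(1 / 4 * T 1 1 2) : ℝ) : ℂ), ((-(1 / 4 * T 0 2 2) : ℝ) : ℂ), ((-(1 / 4 * T 1 2 2) : ℝ) : ℂ),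
    ((-(1 / 2 * T 0 1 2) : ℝ) : ℂ), ((-(1 / 2 * T 0 1 2) : ℝ) : ℂ), ((-(1 / 2 * T 0 1 2) : ℝ) : ℂ)]

/-- Job QF-1. Proof: `decide`, or cases. -/
theorem exp_inj : Function.Injective fun j => (expA j, expB j) := by
  decide

/-- Job QF-2. The relation between `ev` and the equations `eqL` at `![1, s, t]`. Proof: `eqL_explicit`,
`Fin.sum_univ_succ`, unfold, `field_simp`, `ring`. -/
theorem ev_eqL {T : Fin 3 → Fin 3 → Fin 3 → ℝ} (hT : Sym T) (γ : Fin 3 → ℝ) {s t : ℂ}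
    (hs : s ≠ 0) (ht : t ≠ 0) :
    ev expA expB (coef T γ) s t = s * t *
      (eqL (fun i j k => (T i j k : ℂ)) (fun i => (γ i : ℂ)) ![1, s, t] 0 +
        eqL (fun i j k => (T i j k : ℂ)) (fun i => (γ i : ℂ)) ![1, s, t] 1 +
        eqL (fun i j k => (T i j k : ℂ)) (fun i => (γ i : ℂ)) ![1, s, t] 2) ∧
    ev expA expB (fun j => ((expA j : ℂ) - 1) * coef T γ j) s t = s * t *
      eqL (fun i j k => (T i j k : ℂ)) (fun i => (γ i : ℂ)) ![1, s, t] 1 ∧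
    ev expA expB (fun j => ((expB j : ℂ) - 1) * coef T γ j) s t = s * t *
      eqL (fun i j k => (T i j k : ℂ)) (fun i => (γ i : ℂ)) ![1, s, t] 2 := by
  have hTc : Sym (fun i j k => (T i j k : ℂ)) :=
    ⟨fun i j k => by simp only [hT.1 i j k], fun i j k => by simp only [hT.2 i j k]⟩
  obtain ⟨h0, h1, h2⟩ := eqL_explicit hTc (fun i => (γ i : ℂ)) (one_ne_zero : (1 : ℂ) ≠ 0) hs ht
  rw [h0, h1, h2]
  refine ⟨?_, ?_, ?_⟩
  · simp only [ev, Fin.sum_univ_succ, Fin.sum_univ_zero, expA, expB, coef]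
    simp
    field_simp
    ring
  · simp only [ev, Fin.sum_univ_succ, Fin.sum_univ_zero, expA, expB, coef]
    simp
    field_simp
    ring
  · simp only [ev, Fin.sum_univ_succ, Fin.sum_univ_zero, expA, expB, coef]
    simp
    field_simp
    ring

theorem qf_cast {T : Fin 3 → Fin 3 → Fin 3 → ℝ} {γ : Fin 3 → ℝ} (u : Fin 3 → ℝ) (i : Fin 3) :
    eqL (fun i j k => (T i j k : ℂ)) (fun i => (γ i : ℂ)) (fun i => (u i : ℂ)) i =
      ((eqL T γ u i : ℝ) : ℂ) := by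
  unfold eqL
  push_cast
  rfl

/-- The algebra of one solution. -/
theorem qf_solve {n d0 d1 d2 E e0 e1 e2 st : ℂ} (hn : n ≠ 0) (hst : st ≠ 0)
    (hnd : n = d0 + d1 + d2) (hE : E = st * (e0 + e1 + e2)) (h1 : n * (st * e1) = d1 * E)
    (h2 : n * (st * e2) = d2 * E) :
    e0 = d0 * (E / (n * st)) ∧ e1 = d1 * (E / (n * st)) ∧ e2 = d2 * (E / (n * st)) := by
  have hnst : n * st ≠ 0 := mul_ne_zero hn hst
  have g1 : e1 = d1 * (E / (n * st)) := by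
    rw [mul_div_assoc', eq_div_iff hnst, ← h1]
    ring
  have g2 : e2 = d2 * (E / (n * st)) := by
    rw [mul_div_assoc', eq_div_iff hnst, ← h2]
    ring
  refine ⟨?_, g1, g2⟩
  rw [mul_div_assoc', eq_div_iff hnst]
  have g3 : e0 * (n * st) = n * E - n * (st * e1) - n * (st * e2) := by
    rw [hE]
    ring
  rw [g3, h1, h2, hnd]
  ring

theorem qf_lam {n : ℕ} (hn : 0 < n) {a b : ℕ} {κ E s t : ℂ} (hs : s ≠ 0) (ht : t ≠ 0)
    (h : E ^ n = κ * (s ^ (n + a) * t ^ (n + b))) :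
    ‖E / ((n : ℂ) * (s * t))‖ ^ n = ‖κ‖ / (n : ℝ) ^ n * (‖s‖ ^ a * ‖t‖ ^ b) := by
  rw [← norm_pow, div_pow, h, norm_div, norm_mul, norm_mul, norm_pow, norm_pow, norm_pow, norm_mul,
    norm_mul, Complex.norm_natCast]
  have h1 : ‖s‖ ≠ 0 := norm_ne_zero_iff.2 hs
  have h2 : ‖t‖ ≠ 0 := norm_ne_zero_iff.2 ht
  have h3 : (n : ℝ) ≠ 0 := Nat.cast_ne_zero.2 hn.ne'
  rw [mul_pow, mul_pow, pow_add, pow_add]
  field_simp

/-- Job QF-3. Finitely many solutions with three unknowns.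

Proof. Suppose the set is infinite. Its image in `ℂ × ℂ` (real numbers as complex numbers; injective)
is contained in the set of the hypothesis of `curve`, with `n = d 0 + d 1 + d 2`, `d2 = d 1`, `d3 = d 2`: at
such a point `eqL i = d i * lam` also over `ℂ` (`eqL` commutes with the cast, `push_cast`), so by `ev_eqL`
`E = s t n lam ≠ 0`, `E₂ = s t (d 1) lam`, `E₃ = s t (d 2) lam`. By `curve` there are `κ ≠ 0` and for every
`m : ℕ` a solution `(s, t)` with `R = m + 1`. Put `u m = ![1, s, t]` and `lam m = E / (n s t)`. Then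
`eqL 1 = E₂ / (s t) = d 1 * lam`, `eqL 2 = d 2 * lam` and `eqL 0 = E / (s t) - eqL 1 - eqL 2 = d 0 * lam`.
From `E ^ n = κ (s ^ (n + d 1) * t ^ (n + d 2))`: `lam ^ n = κ / n ^ n * s ^ d 1 * t ^ d 2`; take norms (the
constant is `‖κ‖ / n ^ n > 0`). `m * ‖1‖ < ‖s‖` or `m * ‖1‖ < ‖t‖`. `no_escape` gives a contradiction. -/
theorem core3 {T : Fin 3 → Fin 3 → Fin 3 → ℝ} (hT : Sym T) (hT0 : ∀ i j k, 0 ≤ T i j k)
    {γ : Fin 3 → ℝ} (hγ : ∀ i, 0 ≤ γ i) {d : Fin 3 → ℕ} (hd : ∀ i, 0 < d i) :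
    {u : Fin 3 → ℝ | (∀ i, 0 < u i) ∧ u 0 = 1 ∧
      ∃ lam : ℝ, lam ≠ 0 ∧ ∀ i, eqL T γ u i = d i * lam}.Finite := by
  by_contra hfin
  have hinf : {u : Fin 3 → ℝ | (∀ i, 0 < u i) ∧ u 0 = 1 ∧
      ∃ lam : ℝ, lam ≠ 0 ∧ ∀ i, eqL T γ u i = d i * lam}.Infinite := hfin
  have hinj : Set.InjOn (fun u : Fin 3 → ℝ => ((u 1 : ℂ), (u 2 : ℂ)))
      {u : Fin 3 → ℝ | (∀ i, 0 < u i) ∧ u 0 = 1 ∧
      ∃ lam : ℝ, lam ≠ 0 ∧ ∀ i, eqL T γ u i = d i * lam} := by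
    intro u hu v hv huv
    simp only [Prod.mk.injEq, Complex.ofReal_inj] at huv
    funext i
    fin_cases i
    · exact hu.2.1.trans hv.2.1.symm
    · exact huv.1
    · exact huv.2
  have hn : 0 < d 0 + d 1 + d 2 := by have := hd 0; omega
  have hnC : ((d 0 + d 1 + d 2 : ℕ) : ℂ) ≠ 0 := Nat.cast_ne_zero.2 hn.ne'
  obtain ⟨κ, hκ, hcur⟩ := curve (n := d 0 + d 1 + d 2) (d2 := d 1) (d3 := d 2) expA expB exp_inj
    (coef T γ) (hd 1) (by have := hd 0; omega) (by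
      refine (hinf.image hinj).mono ?_
      rintro _ ⟨u, ⟨hpos, hu0, lam, hlam, hsol⟩, rfl⟩
      have hs : (u 1 : ℂ) ≠ 0 := Complex.ofReal_ne_zero.2 (hpos 1).ne'
      have ht : (u 2 : ℂ) ≠ 0 := Complex.ofReal_ne_zero.2 (hpos 2).ne'
      have hvec : (![1, (u 1 : ℂ), (u 2 : ℂ)] : Fin 3 → ℂ) = fun i => (u i : ℂ) := by
        funext i
        fin_cases i
        · simp [hu0]
        · rfl
        · rfl
      obtain ⟨h0, h1, h2⟩ := ev_eqL hT γ hs ht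
      rw [hvec, qf_cast, qf_cast, qf_cast, hsol 0, hsol 1, hsol 2] at h0
      rw [hvec, qf_cast, hsol 1] at h1
      rw [hvec, qf_cast, hsol 2] at h2
      have h3 : ev expA expB (coef T γ) (u 1 : ℂ) (u 2 : ℂ) =
          (u 1 : ℂ) * (u 2 : ℂ) * (((d 0 + d 1 + d 2 : ℕ) : ℂ) * (lam : ℂ)) := by
        rw [h0]
        push_cast
        ring
      refine ⟨hs, ht, ?_, ?_, ?_⟩
      · simp only
        rw [h3]
        exact mul_ne_zero (mul_ne_zero hs ht) (mul_ne_zero hnC (Complex.ofReal_ne_zero.2 hlam))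
      · simp only
        rw [h3, h1]
        push_cast
        ring
      · simp only
        rw [h3, h2]
        push_cast
        ring)
  choose s t hs ht hA hB hpow hR using fun m : ℕ => hcur (m : ℝ)
  have hκ' : 0 < ‖κ‖ / ((d 0 + d 1 + d 2 : ℕ) : ℝ) ^ (d 0 + d 1 + d 2) :=
    div_pos (norm_pos_iff.2 hκ) (pow_pos (Nat.cast_pos.2 hn) _)
  refine no_escape (u := fun m => ![1, s m, t m])
    (lam := fun m => ev expA expB (coef T γ) (s m) (t m) /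
      (((d 0 + d 1 + d 2 : ℕ) : ℂ) * (s m * t m))) hT hT0 hγ hd hκ' ?_ ?_ ?_ ?_
  · intro m i
    fin_cases i
    · exact one_ne_zero
    · exact hs m
    · exact ht m
  · intro m
    obtain ⟨h0, h1, h2⟩ := ev_eqL hT γ (hs m) (ht m)
    have g1 := hA m
    have g2 := hB m
    rw [h1] at g1
    rw [h2] at g2
    obtain ⟨k0, k1, k2⟩ := qf_solve (d0 := (d 0 : ℂ)) hnC (mul_ne_zero (hs m) (ht m))
      (by push_cast; ring) h0 g1 g2
    intro i
    fin_cases i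
    · exact k0
    · exact k1
    · exact k2
  · intro m
    have h1 := qf_lam hn (hs m) (ht m) (hpow m)
    simp only [Matrix.cons_val_zero, Matrix.cons_val_one, Matrix.cons_val, norm_one, one_pow, one_mul]
    exact h1
  · intro m
    rcases hR m with h | h
    · exact ⟨0, 1, by simpa using h⟩
    · exact ⟨0, 2, by simpa using h⟩

end Pool.Agent.H.MP_deabf1_gt
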