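import Pool.Agent.H.MP_deabf1_gt.QD
import Pool.Agent.H.MP_deabf1_gt.QE

/-!
The Einstein equations for three unknowns have no unbounded family of complex solutions.
-/

namespace Pool.Agent.H.MP_deabf1_gt

open Filter Topology

theorem qi_sort (f : Fin 3 → ℝ) : ∃ σ : Equiv.Perm (Fin 3), f (σ 2) ≤ f (σ 1) ∧ f (σ 1) ≤ f (σ 0) := by
  have h := Tuple.monotone_sort (fun i => -f i)
  refine ⟨Tuple.sort (fun i => -f i), ?_, ?_⟩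
  · have h1 := h (show (1 : Fin 3) ≤ 2 by decide)
    simp only [Function.comp_apply] at h1
    linarith
  · have h1 := h (show (0 : Fin 3) ≤ 1 by decide)
    simp only [Function.comp_apply] at h1
    linarith

theorem qi_sub (σ : ℕ → Equiv.Perm (Fin 3)) : ∃ (τ : Equiv.Perm (Fin 3)) (φ : ℕ → ℕ),
    StrictMono φ ∧ ∀ m, σ (φ m) = τ := by
  obtain ⟨τ, hτ⟩ := Finite.exists_infinite_fiber σ
  have h1 : (σ ⁻¹' {τ}).Infinite := Set.infinite_coe_iff.1 hτ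
  have h2 : ∃ᶠ m in atTop, σ m = τ := Nat.frequently_atTop_iff_infinite.2 h1
  obtain ⟨φ, hφ, hφ'⟩ := Filter.extraction_of_frequently_atTop h2
  exact ⟨τ, φ, hφ, hφ'⟩

/-- Job QI-1. There is no unbounded sequence of solutions with
`‖lam‖ ^ n = κ * ∏ ‖u i‖ ^ d i`, `n = ∑ d i`.

Proof. For each `m` some permutation `σ` satisfies `‖u m (σ 2)‖ ≤ ‖u m (σ 1)‖ ≤ ‖u m (σ 0)‖` (sorting; three
real numbers, six cases, or `Tuple.sort`). There are finitely many permutations, so one `σ` works for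
infinitely many `m`, i.e. on a subsequence `φ` (`Filter.extraction_of_frequently_atTop` and
`Filter.frequently_...`/pigeonhole, `Set.Infinite`). Put `s m = u (σ 1) / u (σ 0)`,
`t m = u (σ 2) / u (σ 0)`, `lam' = lam / u (σ 0)` (all at `φ m`). By `eqL_perm` and `eqL_smul` (factor
`1 / u (σ 0)`) the vector `![1, s, t]` solves the equations for `T ∘ σ`, `γ ∘ σ`, `d ∘ σ`; write them with
`eqL_explicit`. `‖t‖ → 0` because `φ m * min ‖u i‖ < max ‖u j‖`, so `φ m * ‖t m‖ < 1`. `hl` is homogeneous: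
`‖lam'‖ ^ n = κ * ‖s‖ ^ d (σ 1) * ‖t‖ ^ d (σ 2)` (`∏` over `Fin 3` reindexed by `σ`). Apply `q_escape` with
`A1 = γ' 0 + 1 / 4 * T' 0 0 0 + T' 0 0 1 + T' 0 0 2 + T' 0 1 2`, `B12 = 1 / 4 * T' 0 0 1`,
`B13 = 1 / 4 * T' 0 0 2`, `C = 1 / 2 * T' 0 1 2`, etc.; `hA1`: a sum of nonnegative reals which is zero has
zero terms (cast from `ℝ`); same for `hA2`. -/
theorem no_escape {T : Fin 3 → Fin 3 → Fin 3 → ℝ} (hT : Sym T) (hT0 : ∀ i j k, 0 ≤ T i j k)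
    {γ : Fin 3 → ℝ} (hγ : ∀ i, 0 ≤ γ i) {d : Fin 3 → ℕ} (hd : ∀ i, 0 < d i) {κ : ℝ} (hκ : 0 < κ)
    {u : ℕ → Fin 3 → ℂ} {lam : ℕ → ℂ} (hu : ∀ m i, u m i ≠ 0)
    (hE : ∀ m i, eqL (fun i j k => (T i j k : ℂ)) (fun i => (γ i : ℂ)) (u m) i = d i * lam m)
    (hl : ∀ m, ‖lam m‖ ^ (d 0 + d 1 + d 2) =
      κ * (‖u m 0‖ ^ d 0 * ‖u m 1‖ ^ d 1 * ‖u m 2‖ ^ d 2))
    (hesc : ∀ m : ℕ, ∃ i j, (m : ℝ) * ‖u m i‖ < ‖u m j‖) : False := by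
  choose σ hσ1 hσ2 using fun m => qi_sort (fun i => ‖u m i‖)
  obtain ⟨τ, φ, hφ, hφτ⟩ := qi_sub σ
  have o1 : ∀ m, ‖u (φ m) (τ 2)‖ ≤ ‖u (φ m) (τ 1)‖ := by
    intro m
    have h := hσ1 (φ m)
    rw [hφτ] at h
    exact h
  have o2 : ∀ m, ‖u (φ m) (τ 1)‖ ≤ ‖u (φ m) (τ 0)‖ := by
    intro m
    have h := hσ2 (φ m)
    rw [hφτ] at h
    exact h
  have p0 : ∀ m, 0 < ‖u (φ m) (τ 0)‖ := fun m => norm_pos_iff.2 (hu _ _)
  have omax : ∀ m i, ‖u (φ m) i‖ ≤ ‖u (φ m) (τ 0)‖ := by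
    intro m i
    obtain ⟨j, rfl⟩ := τ.surjective i
    fin_cases j
    · exact le_rfl
    · exact o2 m
    · exact (o1 m).trans (o2 m)
  have omin : ∀ m i, ‖u (φ m) (τ 2)‖ ≤ ‖u (φ m) i‖ := by
    intro m i
    obtain ⟨j, rfl⟩ := τ.surjective i
    fin_cases j
    · exact (o1 m).trans (o2 m)
    · exact o1 m
    · exact le_rfl
  -- the symmetric tensor with permuted indices
  have hT' : Sym (fun i j k => ((T (τ i) (τ j) (τ k) : ℝ) : ℂ)) := by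
    constructor
    · intro i j k
      change ((T (τ i) (τ j) (τ k) : ℝ) : ℂ) = ((T (τ j) (τ i) (τ k) : ℝ) : ℂ)
      rw [hT.1]
    · intro i j k
      change ((T (τ i) (τ j) (τ k) : ℝ) : ℂ) = ((T (τ i) (τ k) (τ j) : ℝ) : ℂ)
      rw [hT.2]
  have hs0 : ∀ m, u (φ m) (τ 1) / u (φ m) (τ 0) ≠ 0 := fun m => div_ne_zero (hu _ _) (hu _ _)
  have ht0 : ∀ m, u (φ m) (τ 2) / u (φ m) (τ 0) ≠ 0 := fun m => div_ne_zero (hu _ _) (hu _ _)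
  have hEq : ∀ m i, eqL (fun i j k => ((T (τ i) (τ j) (τ k) : ℝ) : ℂ))
      (fun i => ((γ (τ i) : ℝ) : ℂ))
      ![1, u (φ m) (τ 1) / u (φ m) (τ 0), u (φ m) (τ 2) / u (φ m) (τ 0)] i =
        d (τ i) * (lam (φ m) / u (φ m) (τ 0)) := by
    intro m i
    have h1 := eqL_smul (fun i j k => ((T (τ i) (τ j) (τ k) : ℝ) : ℂ))
      (fun i => ((γ (τ i) : ℝ) : ℂ)) (u (φ m) ∘ τ) (inv_ne_zero (hu (φ m) (τ 0))) i
    have h2 := eqL_perm (fun i j k => ((T i j k : ℝ) : ℂ)) (fun i => ((γ i : ℝ) : ℂ)) (u (φ m)) τ i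
    have h3 : (fun j => (u (φ m) (τ 0))⁻¹ * (u (φ m) ∘ τ) j) =
        ![1, u (φ m) (τ 1) / u (φ m) (τ 0), u (φ m) (τ 2) / u (φ m) (τ 0)] := by
      funext j
      fin_cases j
      · exact inv_mul_cancel₀ (hu _ _)
      · change (u (φ m) (τ 0))⁻¹ * u (φ m) (τ 1) = u (φ m) (τ 1) / u (φ m) (τ 0)
        rw [div_eq_inv_mul]
      · change (u (φ m) (τ 0))⁻¹ * u (φ m) (τ 2) = u (φ m) (τ 2) / u (φ m) (τ 0)
        rw [div_eq_inv_mul]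
    have h4 : eqL (fun i j k => ((T (τ i) (τ j) (τ k) : ℝ) : ℂ))
        (fun i => ((γ (τ i) : ℝ) : ℂ)) (u (φ m) ∘ τ) i =
        eqL (fun i j k => ((T i j k : ℝ) : ℂ)) (fun i => ((γ i : ℝ) : ℂ)) (u (φ m)) (τ i) := h2
    rw [← h3, h1, h4, hE]
    rw [div_eq_inv_mul]
    ring
  have hex := fun m => eqL_explicit hT' (fun i => ((γ (τ i) : ℝ) : ℂ)) one_ne_zero (hs0 m) (ht0 m)
  have hn : d 0 + d 1 + d 2 = d (τ 0) + d (τ 1) + d (τ 2) := by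
    have h1 := Equiv.sum_comp τ d
    rw [Fin.sum_univ_three, Fin.sum_univ_three] at h1
    exact h1.symm
  have hprod : ∀ m, ‖u (φ m) 0‖ ^ d 0 * ‖u (φ m) 1‖ ^ d 1 * ‖u (φ m) 2‖ ^ d 2 =
      ‖u (φ m) (τ 0)‖ ^ d (τ 0) * ‖u (φ m) (τ 1)‖ ^ d (τ 1) * ‖u (φ m) (τ 2)‖ ^ d (τ 2) := by
    intro m
    have h1 := Equiv.prod_comp τ (fun i => ‖u (φ m) i‖ ^ d i)
    rw [Fin.prod_univ_three, Fin.prod_univ_three] at h1
    exact h1.symm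
  refine q_escape (d1 := d (τ 0)) (d2 := d (τ 1)) (d3 := d (τ 2)) (κ := κ)
    (A1 := (γ (τ 0) : ℂ) + 1 / 4 * (T (τ 0) (τ 0) (τ 0) : ℂ) + (T (τ 0) (τ 0) (τ 1) : ℂ) +
      (T (τ 0) (τ 0) (τ 2) : ℂ) + (T (τ 0) (τ 1) (τ 2) : ℂ))
    (A2 := (γ (τ 1) : ℂ) + 1 / 4 * (T (τ 1) (τ 1) (τ 1) : ℂ) + (T (τ 0) (τ 1) (τ 1) : ℂ) +
      (T (τ 1) (τ 1) (τ 2) : ℂ) + (T (τ 0) (τ 1) (τ 2) : ℂ))
    (A3 := (γ (τ 2) : ℂ) + 1 / 4 * (T (τ 2) (τ 2) (τ 2) : ℂ) + (T (τ 0) (τ 2) (τ 2) : ℂ) +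
      (T (τ 1) (τ 2) (τ 2) : ℂ) + (T (τ 0) (τ 1) (τ 2) : ℂ))
    (B12 := 1 / 4 * (T (τ 0) (τ 0) (τ 1) : ℂ)) (B13 := 1 / 4 * (T (τ 0) (τ 0) (τ 2) : ℂ))
    (B21 := 1 / 4 * (T (τ 0) (τ 1) (τ 1) : ℂ)) (B23 := 1 / 4 * (T (τ 1) (τ 1) (τ 2) : ℂ))
    (B31 := 1 / 4 * (T (τ 0) (τ 2) (τ 2) : ℂ)) (B32 := 1 / 4 * (T (τ 1) (τ 2) (τ 2) : ℂ))
    (C := 1 / 2 * (T (τ 0) (τ 1) (τ 2) : ℂ))
    (s := fun m => u (φ m) (τ 1) / u (φ m) (τ 0)) (t := fun m => u (φ m) (τ 2) / u (φ m) (τ 0))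
    (lam := fun m => lam (φ m) / u (φ m) (τ 0))
    ?_ ?_ (hd _) (hd _) (hd _) hκ hs0 ht0 ?_ ?_ ?_ ?_ ?_ ?_ ?_
  · intro h
    have h1 : γ (τ 0) + 1 / 4 * T (τ 0) (τ 0) (τ 0) + T (τ 0) (τ 0) (τ 1) + T (τ 0) (τ 0) (τ 2) +
        T (τ 0) (τ 1) (τ 2) = 0 := by
      apply Complex.ofReal_injective
      push_cast
      exact h
    have g0 := hγ (τ 0)
    have g1 := hT0 (τ 0) (τ 0) (τ 0)
    have g2 := hT0 (τ 0) (τ 0) (τ 1)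
    have g3 := hT0 (τ 0) (τ 0) (τ 2)
    have g4 := hT0 (τ 0) (τ 1) (τ 2)
    have k1 : T (τ 0) (τ 0) (τ 1) = 0 := by linarith
    have k2 : T (τ 0) (τ 0) (τ 2) = 0 := by linarith
    have k3 : T (τ 0) (τ 1) (τ 2) = 0 := by linarith
    rw [k1, k2, k3]
    simp
  · intro h
    have h1 : γ (τ 1) + 1 / 4 * T (τ 1) (τ 1) (τ 1) + T (τ 0) (τ 1) (τ 1) + T (τ 1) (τ 1) (τ 2) +
        T (τ 0) (τ 1) (τ 2) = 0 := by
      apply Complex.ofReal_injective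
      push_cast
      exact h
    have g0 := hγ (τ 1)
    have g1 := hT0 (τ 1) (τ 1) (τ 1)
    have g2 := hT0 (τ 0) (τ 1) (τ 1)
    have g3 := hT0 (τ 1) (τ 1) (τ 2)
    have g4 := hT0 (τ 0) (τ 1) (τ 2)
    have k1 : T (τ 0) (τ 1) (τ 1) = 0 := by linarith
    have k2 : T (τ 1) (τ 1) (τ 2) = 0 := by linarith
    have k3 : T (τ 0) (τ 1) (τ 2) = 0 := by linarith
    rw [k1, k2, k3]
    simp
  · intro m
    rw [norm_div]
    exact div_le_one_of_le₀ (o2 m) (norm_nonneg _)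
  · intro m
    rw [norm_div, norm_div]
    exact div_le_div_of_nonneg_right (o1 m) (norm_nonneg _)
  · have hb : ∀ m : ℕ, 0 < m → ‖u (φ m) (τ 2) / u (φ m) (τ 0)‖ ≤ 1 / (m : ℝ) := by
      intro m hm
      have hm' : (m : ℝ) ≤ (φ m : ℝ) := by exact_mod_cast hφ.id_le m
      obtain ⟨i, j, hij⟩ := hesc (φ m)
      have e1 : (m : ℝ) * ‖u (φ m) (τ 2)‖ ≤ (φ m : ℝ) * ‖u (φ m) i‖ :=
        mul_le_mul hm' (omin m i) (norm_nonneg _) (Nat.cast_nonneg _)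
      have e2 : (m : ℝ) * ‖u (φ m) (τ 2)‖ ≤ ‖u (φ m) (τ 0)‖ :=
        e1.trans (hij.le.trans (omax m j))
      have hm0 : (0 : ℝ) < m := by exact_mod_cast hm
      rw [norm_div, div_le_div_iff₀ (p0 m) hm0]
      linarith
    exact squeeze_zero_norm' ((eventually_gt_atTop 0).mono hb)
      tendsto_one_div_atTop_nhds_zero_nat
  · intro m
    have h1 := (hex m).1
    rw [hEq m 0] at h1
    rw [h1]
    ring
  · intro m
    have h1 := (hex m).2.1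
    rw [hEq m 1] at h1
    rw [h1]
    ring
  · intro m
    have h1 := (hex m).2.2
    rw [hEq m 2] at h1
    rw [h1]
    ring
  · intro m
    have h1 := hl (φ m)
    rw [hprod, hn] at h1
    rw [norm_div, norm_div, norm_div, div_pow, h1, div_pow, div_pow]
    have h2 := (p0 m).ne'
    rw [pow_add, pow_add]
    field_simp

end Pool.Agent.H.MP_deabf1_gt
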