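import Mathlib

/-!
Places of a field with values in the complex numbers.
-/

namespace Pool.Agent.H.MP_deabf1_gt

/-- A place of the field `K` with values in `ℂ ∪ {∞}` which is trivial on `ℝ`; `Lim a c` says that
`c` is the (finite) value of `a`. -/
structure Pl (K : Type*) [Field K] [Algebra ℝ K] where
  /-- `c` is the value of `a` -/
  Lim : K → ℂ → Prop
  add : ∀ {a b c d}, Lim a c → Lim b d → Lim (a + b) (c + d)
  mul : ∀ {a b c d}, Lim a c → Lim b d → Lim (a * b) (c * d)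
  cst : ∀ r : ℝ, Lim (algebraMap ℝ K r) r
  uniq : ∀ {a c d}, Lim a c → Lim a d → c = d
  dich : ∀ a, (∃ c, Lim a c) ∨ Lim a⁻¹ 0

namespace Pl

variable {K : Type*} [Field K] [Algebra ℝ K] (P : Pl K) {a b c : K} {z w : ℂ}

/-- `a` is infinitesimal. -/
def I (a : K) : Prop := P.Lim a 0

/-- `a` is bounded. -/
def B (a : K) : Prop := ∃ c, P.Lim a c

omit P in
theorem _root_.Pool.Agent.H.MP_deabf1_gt.charZero_of_real (K : Type*) [Field K] [Algebra ℝ K] :
    CharZero K :=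
  charZero_of_injective_algebraMap (algebraMap ℝ K).injective

theorem lim_zero : P.Lim 0 0 := by
  have h := P.cst 0
  simpa using h

theorem lim_one : P.Lim 1 1 := by
  have h := P.cst 1
  simpa using h

theorem lim_neg (h : P.Lim a z) : P.Lim (-a) (-z) := by
  have h1 := P.mul (P.cst (-1)) h
  simpa using h1

theorem lim_sub (h : P.Lim a z) (h' : P.Lim b w) : P.Lim (a - b) (z - w) := by
  rw [sub_eq_add_neg, sub_eq_add_neg]
  exact P.add h (P.lim_neg h')

theorem lim_pow (h : P.Lim a z) (n : ℕ) : P.Lim (a ^ n) (z ^ n) := by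
  induction n with
  | zero => simpa using P.lim_one
  | succ n ih =>
    rw [pow_succ, pow_succ]
    exact P.mul ih h

theorem lim_sum {ι : Type*} (s : Finset ι) {f : ι → K} {g : ι → ℂ} (h : ∀ i ∈ s, P.Lim (f i) (g i)) :
    P.Lim (∑ i ∈ s, f i) (∑ i ∈ s, g i) := by
  classical
  induction s using Finset.induction_on with
  | empty => simpa using P.lim_zero
  | insert i s hi ih =>
    rw [Finset.sum_insert hi, Finset.sum_insert hi]
    exact P.add (h i (Finset.mem_insert_self i s))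
      (ih fun j hj => h j (Finset.mem_insert_of_mem hj))

theorem lim_inv (h : P.Lim a z) (hz : z ≠ 0) : P.Lim a⁻¹ z⁻¹ := by
  have ha : a ≠ 0 := by
    rintro rfl
    exact hz (P.uniq h P.lim_zero)
  rcases P.dich a⁻¹ with ⟨w, hw⟩ | hw
  · have h1 := P.mul h hw
    rw [mul_inv_cancel₀ ha] at h1
    have h2 := P.uniq h1 P.lim_one
    rw [eq_inv_of_mul_eq_one_right h2] at hw
    exact hw
  · rw [inv_inv] at hw
    exact absurd (P.uniq h hw) hz

theorem lim_div (h : P.Lim a z) (h' : P.Lim b w) (hw : w ≠ 0) : P.Lim (a / b) (z / w) := by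
  rw [div_eq_mul_inv, div_eq_mul_inv]
  exact P.mul h (P.lim_inv h' hw)

variable {P}

theorem I.B (h : P.I a) : P.B a := ⟨0, h⟩

theorem B.add (h : P.B a) (h' : P.B b) : P.B (a + b) := by
  obtain ⟨z, hz⟩ := h
  obtain ⟨w, hw⟩ := h'
  exact ⟨_, P.add hz hw⟩

theorem B.mul (h : P.B a) (h' : P.B b) : P.B (a * b) := by
  obtain ⟨z, hz⟩ := h
  obtain ⟨w, hw⟩ := h'
  exact ⟨_, P.mul hz hw⟩

theorem B.neg (h : P.B a) : P.B (-a) := by
  obtain ⟨z, hz⟩ := h
  exact ⟨_, P.lim_neg hz⟩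

theorem B.sub (h : P.B a) (h' : P.B b) : P.B (a - b) := by
  rw [sub_eq_add_neg]
  exact h.add h'.neg

theorem B.pow (h : P.B a) (n : ℕ) : P.B (a ^ n) := by
  obtain ⟨z, hz⟩ := h
  exact ⟨_, P.lim_pow hz n⟩

theorem B.sum {ι : Type*} {s : Finset ι} {f : ι → K} (h : ∀ i ∈ s, P.B (f i)) :
    P.B (∑ i ∈ s, f i) := by
  classical
  have h1 : ∀ i, ∃ z, i ∈ s → P.Lim (f i) z := by
    intro i
    by_cases hi : i ∈ s
    · obtain ⟨z, hz⟩ := h i hi
      exact ⟨z, fun _ => hz⟩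
    · exact ⟨0, fun hi' => absurd hi' hi⟩
  choose g hg using h1
  exact ⟨_, P.lim_sum s hg⟩

theorem B.cst (r : ℝ) : P.B (algebraMap ℝ K r) := ⟨_, P.cst r⟩

theorem B.zero : P.B (0 : K) := ⟨_, P.lim_zero⟩

theorem B.one : P.B (1 : K) := ⟨_, P.lim_one⟩

theorem B.nat (n : ℕ) : P.B (n : K) := by
  have h := P.cst n
  rw [map_natCast] at h
  exact ⟨_, h⟩

theorem B.ofNat (n : ℕ) [n.AtLeastTwo] : P.B (OfNat.ofNat n : K) := by
  have h : P.B ((OfNat.ofNat n : ℕ) : K) := B.nat _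
  simpa using h

theorem I.zero : P.I (0 : K) := P.lim_zero

theorem I.add (h : P.I a) (h' : P.I b) : P.I (a + b) := by
  have h1 := P.add h h'
  rwa [add_zero] at h1

theorem I.neg (h : P.I a) : P.I (-a) := by
  have h1 := P.lim_neg h
  rwa [neg_zero] at h1

theorem I.sub (h : P.I a) (h' : P.I b) : P.I (a - b) := by
  rw [sub_eq_add_neg]
  exact h.add h'.neg

theorem I.mul (h : P.I a) (h' : P.B b) : P.I (a * b) := by
  obtain ⟨w, hw⟩ := h'
  have h1 := P.mul h hw
  rwa [zero_mul] at h1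

theorem B.mulI (h : P.B a) (h' : P.I b) : P.I (a * b) := by
  rw [mul_comm]
  exact h'.mul h

theorem I.sum {ι : Type*} {s : Finset ι} {f : ι → K} (h : ∀ i ∈ s, P.I (f i)) :
    P.I (∑ i ∈ s, f i) := by
  have h1 := P.lim_sum s (g := fun _ => 0) h
  rwa [Finset.sum_const_zero] at h1

theorem I.pow (h : P.I a) {n : ℕ} (hn : n ≠ 0) : P.I (a ^ n) := by
  have h1 := P.lim_pow h n
  rwa [zero_pow hn] at h1

theorem one_not_I : ¬ P.I (1 : K) := fun h => one_ne_zero (P.uniq P.lim_one h)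

theorem cst_not_I {r : ℝ} (hr : r ≠ 0) : ¬ P.I (algebraMap ℝ K r) := fun h =>
  hr (by exact_mod_cast P.uniq (P.cst r) h)

theorem inv_B (h : ¬ P.I a) : P.B a⁻¹ := by
  rcases P.dich a⁻¹ with hw | hw
  · exact hw
  · rw [inv_inv] at hw
    exact absurd hw h

theorem inv_I (h : ¬ P.B a) : P.I a⁻¹ := by
  rcases P.dich a with hw | hw
  · exact absurd hw h
  · exact hw

theorem ne_of_not_I (h : ¬ P.I a) : a ≠ 0 := by
  rintro rfl
  exact h I.zero

theorem ne_of_not_B (h : ¬ P.B a) : a ≠ 0 := by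
  rintro rfl
  exact h B.zero

/-- If `a * b = c`, `a` is infinitesimal and `c` is not, then `b` is not bounded. -/
theorem not_B_of (h : P.I a) (hc : ¬ P.I (a * b)) : ¬ P.B b := fun hb => hc (h.mul hb)

theorem not_B_inv (h : P.I a) (ha : a ≠ 0) : ¬ P.B a⁻¹ := by
  apply not_B_of h
  rw [mul_inv_cancel₀ ha]
  exact one_not_I

theorem not_I_inv (h : P.B a) (ha : a ≠ 0) : ¬ P.I a⁻¹ := by
  intro h1
  have h2 := h.mulI h1
  rw [mul_inv_cancel₀ ha] at h2
  exact one_not_I h2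

/-- If `a * b` is infinitesimal and `a` is not, then `b` is infinitesimal. -/
theorem I.of_mul (h : P.I (a * b)) (ha : ¬ P.I a) : P.I b := by
  have h1 := (inv_B ha).mulI h
  rwa [inv_mul_cancel_left₀ (ne_of_not_I ha)] at h1

/-- If `a * b` is bounded and `a` is not infinitesimal, then `b` is bounded. -/
theorem B.of_mul (h : P.B (a * b)) (ha : ¬ P.I a) : P.B b := by
  have h1 := (inv_B ha).mul h
  rwa [inv_mul_cancel_left₀ (ne_of_not_I ha)] at h1

/-- If `a * b` is bounded and `a` is not bounded, then `b` is infinitesimal. -/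
theorem B.of_mul_not_B (h : P.B (a * b)) (ha : ¬ P.B a) : P.I b := by
  have h1 := (inv_I ha).mul h
  rwa [inv_mul_cancel_left₀ (ne_of_not_B ha)] at h1

theorem lim_ne (h : P.Lim a z) (hz : z ≠ 0) : ¬ P.I a := fun h1 => hz (P.uniq h h1)

theorem exists_lim (h : P.B a) (h' : ¬ P.I a) : ∃ z, z ≠ 0 ∧ P.Lim a z := by
  obtain ⟨z, hz⟩ := h
  refine ⟨z, ?_, hz⟩
  rintro rfl
  exact h' hz

theorem not_B_add (h : ¬ P.B a) (h' : P.B b) : ¬ P.B (a + b) := by
  intro h1
  apply h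
  have h2 := h1.sub h'
  rwa [add_sub_cancel_right] at h2

theorem not_I_add (h : ¬ P.I a) (h' : P.I b) : ¬ P.I (a + b) := by
  intro h1
  apply h
  have h2 := h1.sub h'
  rwa [add_sub_cancel_right] at h2

end Pl

end Pool.Agent.H.MP_deabf1_gt
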