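import Pool.Agent.H.MP_deabf1_gt.WA

/-!
The merge lemma: one summand over several components.
-/

namespace Pool.Agent.H.MP_deabf1_gt

namespace Pl

variable {K : Type*} [Field K] [Algebra ℝ K] {P : Pl K}

/-- A bounded element of the index set: the value of `Y k * X k` is nonnegative. -/
theorem merge_zeta {ι : Type*} {s : Finset ι} {X Y : ι → K} (hY : ∀ k ∈ s, P.I (Y k))
    (hQ : ∀ k ∈ s, ¬ P.B (X k) → ∃ ζ : ℝ, 0 < ζ ∧ P.Lim (Y k * X k) ζ) :
    ∃ ζ : ι → ℝ, ∀ k ∈ s, 0 ≤ ζ k ∧ P.Lim (Y k * X k) (ζ k) ∧ (¬ P.B (X k) → 0 < ζ k) := by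
  classical
  haveI := charZero_of_real K
  have h : ∀ k, ∃ ζ : ℝ, k ∈ s → 0 ≤ ζ ∧ P.Lim (Y k * X k) ζ ∧ (¬ P.B (X k) → 0 < ζ) := by
    intro k
    by_cases hk : k ∈ s
    · by_cases hB : P.B (X k)
      · refine ⟨0, fun _ => ⟨le_rfl, ?_, fun h => absurd hB h⟩⟩
        have h1 : P.I (Y k * X k) := (hY k hk).mul hB
        rw [Complex.ofReal_zero]
        exact h1
      · obtain ⟨ζ, h0, h1⟩ := hQ k hk hB
        exact ⟨ζ, fun _ => ⟨h0.le, h1, fun _ => h0⟩⟩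
    · exact ⟨0, fun h => absurd h hk⟩
  choose ζ hζ using h
  exact ⟨ζ, hζ⟩

/-- Case 1: `x` infinite. -/
theorem merge1 {ι : Type*} {s : Finset ι} {τ : ι → ℝ} (hτ : ∀ k ∈ s, 0 < τ k) {A : K}
    (hA : P.B A) {d : ℝ} (hd : 0 < d) {X Y : ι → K} {x y : K} (hx0 : x ≠ 0)
    (hY : ∀ k ∈ s, Y k = y + algebraMap ℝ K (τ k) / 4 * x⁻¹ ^ 2)
    (hE : A * x⁻¹ - 1 / 2 * (∑ k ∈ s, algebraMap ℝ K (τ k) * X k) * x⁻¹ ^ 2
      + algebraMap ℝ K d * x * y = algebraMap ℝ K d)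
    (hQ : ∀ k ∈ s, ¬ P.B (X k) → P.I (Y k) ∧ ∃ ζ : ℝ, 0 < ζ ∧ P.Lim (Y k * X k) ζ)
    (hx : ¬ P.B x) :
    P.I y ∧ ∃ ζ : ℝ, 0 < ζ ∧ P.Lim (y * (algebraMap ℝ K d * x + ∑ k ∈ s, X k)) ζ := by
  classical
  haveI := charZero_of_real K
  have hu : P.I x⁻¹ := inv_I hx
  have hu2 : P.I (x⁻¹ ^ 2) := hu.pow two_ne_zero
  have h4 : ∀ k, P.I (algebraMap ℝ K (τ k) / 4 * x⁻¹ ^ 2) := by
    intro k
    have h1 : algebraMap ℝ K (τ k) / 4 = algebraMap ℝ K (τ k / 4) := by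
      rw [map_div₀, map_ofNat]
    rw [h1]
    exact (B.cst _).mulI hu2
  have hd0 : ¬ P.I (algebraMap ℝ K d) := cst_not_I hd.ne'
  have hy : P.I y := by
    by_contra hy
    have h1 : ∀ k ∈ s, P.B (X k) := by
      intro k hk
      by_contra hB
      have h2 := (hQ k hk hB).1
      rw [hY k hk] at h2
      exact not_I_add hy (h4 k) h2
    have h2 : P.B (∑ k ∈ s, algebraMap ℝ K (τ k) * X k) := B.sum fun k hk => (B.cst _).mul (h1 k hk)
    have h3 : algebraMap ℝ K d * (x * y) = algebraMap ℝ K d - A * x⁻¹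
        + algebraMap ℝ K (1 / 2) * (∑ k ∈ s, algebraMap ℝ K (τ k) * X k) * x⁻¹ ^ 2 := by
      rw [map_div₀, map_one, map_ofNat]
      linear_combination hE
    have h5 : P.B (algebraMap ℝ K d * (x * y)) := by
      rw [h3]
      exact ((B.cst _).sub (hA.mulI hu).B).add (((B.cst _).mul h2).mulI hu2).B
    have h6 : P.B (x * y) := h5.of_mul hd0
    exact hy (h6.of_mul_not_B hx)
  have hYI : ∀ k ∈ s, P.I (Y k) := by
    intro k hk
    rw [hY k hk]
    exact hy.add (h4 k)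
  obtain ⟨ζ, hζ⟩ := merge_zeta hYI (fun k hk hB => (hQ k hk hB).2)
  -- the limit of `x * y`
  have ht : ∃ t : ℝ, 0 ≤ t ∧ P.Lim (x * y) t := by
    by_cases h0 : P.I (x * y)
    · exact ⟨0, le_rfl, by simpa [I] using h0⟩
    · refine ⟨1, zero_le_one, ?_⟩
      have h1 : ¬ P.B (x * (x * y)) := by
        intro h
        exact h0 (h.of_mul_not_B hx)
      have h2 : ∀ k ∈ s, P.I (X k * x⁻¹ ^ 2) := by
        intro k hk
        have h3 : (x * (x * y) + algebraMap ℝ K (τ k / 4)) * (X k * x⁻¹ ^ 2) = Y k * X k := by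
          rw [hY k hk, map_div₀, map_ofNat]
          field_simp
        have h5 : ¬ P.B (x * (x * y) + algebraMap ℝ K (τ k / 4)) := not_B_add h1 (B.cst _)
        have h6 : P.B (Y k * X k) := ⟨_, (hζ k hk).2.1⟩
        rw [← h3] at h6
        exact h6.of_mul_not_B h5
      have h3 : P.I ((∑ k ∈ s, algebraMap ℝ K (τ k) * X k) * x⁻¹ ^ 2) := by
        rw [Finset.sum_mul]
        apply I.sum
        intro k hk
        rw [mul_assoc]
        exact (B.cst _).mulI (h2 k hk)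
      have h5 : algebraMap ℝ K d * (x * y - 1) = -(A * x⁻¹)
          + algebraMap ℝ K (1 / 2) * ((∑ k ∈ s, algebraMap ℝ K (τ k) * X k) * x⁻¹ ^ 2) := by
        rw [map_div₀, map_one, map_ofNat]
        linear_combination hE
      have h6 : P.I (algebraMap ℝ K d * (x * y - 1)) := by
        rw [h5]
        exact (hA.mulI hu).neg.add ((B.cst _).mulI h3)
      have h7 : P.I (x * y - 1) := h6.of_mul hd0
      have h8 := P.add h7 P.lim_one
      rw [sub_add_cancel, zero_add] at h8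
      simpa using h8
  obtain ⟨t, ht0, ht⟩ := ht
  refine ⟨hy, 1 / 2 * (d * t + d + 2 * ∑ k ∈ s, ζ k), ?_, ?_⟩
  · have h1 : 0 ≤ ∑ k ∈ s, ζ k := Finset.sum_nonneg fun k hk => (hζ k hk).1
    have h2 : 0 ≤ d * t := mul_nonneg hd.le ht0
    linarith
  · have h1 : y * (algebraMap ℝ K d * x + ∑ k ∈ s, X k) = algebraMap ℝ K (1 / 2) *
        (algebraMap ℝ K d * (x * y) + algebraMap ℝ K d - A * x⁻¹
          + algebraMap ℝ K 2 * ∑ k ∈ s, Y k * X k) := by
      have h2 : ∑ k ∈ s, Y k * X k = y * ∑ k ∈ s, X k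
          + 1 / 4 * (∑ k ∈ s, algebraMap ℝ K (τ k) * X k) * x⁻¹ ^ 2 := by
        rw [Finset.mul_sum, Finset.mul_sum, Finset.sum_mul, ← Finset.sum_add_distrib]
        apply Finset.sum_congr rfl
        intro k hk
        rw [hY k hk]
        ring
      rw [h2, map_div₀, map_one, map_ofNat]
      linear_combination (1 / 2 : K) * hE
    rw [h1]
    have h3 := P.mul (P.cst (1 / 2)) (P.add (P.lim_sub (P.add (P.mul (P.cst d) ht) (P.cst d))
      (hA.mulI hu)) (P.mul (P.cst 2) (P.lim_sum s (fun k hk => (hζ k hk).2.1))))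
    have h4 : ((1 / 2 : ℝ) : ℂ) * (((d : ℝ) : ℂ) * (t : ℂ) + (d : ℂ) - 0 + ((2 : ℝ) : ℂ)
        * ∑ k ∈ s, ((ζ k : ℝ) : ℂ)) = ((1 / 2 * (d * t + d + 2 * ∑ k ∈ s, ζ k) : ℝ) : ℂ) := by
      push_cast
      ring
    rw [← h4]
    exact h3

/-- Several components with the same parameter. -/
theorem merge_same {ι : Type*} {s : Finset ι} {X : ι → K} {η : K} (hη : P.I η)
    (hQ : ∀ k ∈ s, ¬ P.B (X k) → ∃ ζ : ℝ, 0 < ζ ∧ P.Lim (η * X k) ζ)
    (hB : P.B (∑ k ∈ s, X k)) : ∀ k ∈ s, P.B (X k) := by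
  obtain ⟨ζ, hζ⟩ := merge_zeta (s := s) (X := X) (Y := fun _ => η) (fun _ _ => hη) hQ
  have h1 : P.Lim (η * ∑ k ∈ s, X k) ((∑ k ∈ s, ζ k : ℝ) : ℂ) := by
    rw [Finset.mul_sum]
    push_cast
    exact P.lim_sum s (fun k hk => (hζ k hk).2.1)
  have h2 : P.I (η * ∑ k ∈ s, X k) := hη.mul hB
  have h3 : ∑ k ∈ s, ζ k = 0 := by exact_mod_cast P.uniq h1 h2
  intro k hk
  by_contra h4
  have h5 := (hζ k hk).2.2 h4
  have h6 := (Finset.sum_eq_zero_iff_of_nonneg (fun k hk => (hζ k hk).1)).1 h3 k hk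
  linarith

/-- Case 2: `x` has a nonzero limit. -/
theorem merge2 {ι : Type*} {s : Finset ι} {τ : ι → ℝ} (hτ : ∀ k ∈ s, 0 < τ k) {A : K}
    (hA : P.B A) {d : ℝ} (hd : 0 < d) {X Y : ι → K} {x y : K}
    (hY : ∀ k ∈ s, Y k = y + algebraMap ℝ K (τ k) / 4 * x⁻¹ ^ 2)
    (hE : A * x⁻¹ - 1 / 2 * (∑ k ∈ s, algebraMap ℝ K (τ k) * X k) * x⁻¹ ^ 2
      + algebraMap ℝ K d * x * y = algebraMap ℝ K d)
    (hQ : ∀ k ∈ s, ¬ P.B (X k) → P.I (Y k) ∧ ∃ ζ : ℝ, 0 < ζ ∧ P.Lim (Y k * X k) ζ)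
    (hQ2 : ∀ k ∈ s, ¬ P.B (Y k) → P.I (X k)) (hx : P.B x) (hx0 : ¬ P.I x) :
    (∀ k ∈ s, P.B (X k)) ∧ P.B y := by
  classical
  haveI := charZero_of_real K
  have hx1 : x ≠ 0 := ne_of_not_I hx0
  have hu : P.B x⁻¹ := inv_B hx0
  have hu0 : ¬ P.I x⁻¹ := not_I_inv hx hx1
  have hu2 : P.B (x⁻¹ ^ 2) := hu.pow 2
  obtain ⟨u2, hu2n, hu2l⟩ : ∃ z, z ≠ 0 ∧ P.Lim (x⁻¹ ^ 2) z := by
    obtain ⟨z, hz, hzl⟩ := exists_lim hu hu0
    exact ⟨z ^ 2, pow_ne_zero _ hz, P.lim_pow hzl 2⟩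
  have h4 : ∀ k, P.B (algebraMap ℝ K (τ k) / 4 * x⁻¹ ^ 2) := by
    intro k
    have h1 : algebraMap ℝ K (τ k) / 4 = algebraMap ℝ K (τ k / 4) := by
      rw [map_div₀, map_ofNat]
    rw [h1]
    exact (B.cst _).mul hu2
  have hd0 : ¬ P.I (algebraMap ℝ K d) := cst_not_I hd.ne'
  have hyB : P.B y := by
    by_contra hy
    have h1 : ∀ k ∈ s, P.B (X k) := by
      intro k hk
      refine (hQ2 k hk ?_).B
      rw [hY k hk]
      exact not_B_add hy (h4 k)
    have h2 : P.B (∑ k ∈ s, algebraMap ℝ K (τ k) * X k) := B.sum fun k hk => (B.cst _).mul (h1 k hk)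
    have h3 : (algebraMap ℝ K d * x) * y = algebraMap ℝ K d - A * x⁻¹
        + algebraMap ℝ K (1 / 2) * (∑ k ∈ s, algebraMap ℝ K (τ k) * X k) * x⁻¹ ^ 2 := by
      rw [map_div₀, map_one, map_ofNat]
      linear_combination hE
    have h5 : P.B ((algebraMap ℝ K d * x) * y) := by
      rw [h3]
      exact ((B.cst _).sub (hA.mul hu)).add (((B.cst _).mul h2).mul hu2)
    refine hy (h5.of_mul ?_)
    intro h6
    exact hx0 (h6.of_mul hd0)
  refine ⟨?_, hyB⟩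
  by_contra hne
  push Not at hne
  obtain ⟨k0, hk0, hk0B⟩ := hne
  -- the unbounded components
  set S := s.filter fun k => ¬ P.B (X k) with hS
  have hτS : ∀ k ∈ S, τ k = τ k0 := by
    intro k hk
    rw [hS, Finset.mem_filter] at hk
    have h1 := (hQ k hk.1 hk.2).1
    have h2 := (hQ k0 hk0 hk0B).1
    rw [hY k hk.1] at h1
    rw [hY k0 hk0] at h2
    have h3 := h1.sub h2
    have h5 : y + algebraMap ℝ K (τ k) / 4 * x⁻¹ ^ 2 - (y + algebraMap ℝ K (τ k0) / 4 * x⁻¹ ^ 2)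
        = x⁻¹ ^ 2 * algebraMap ℝ K ((τ k - τ k0) / 4) := by
      rw [map_div₀, map_sub, map_ofNat]
      ring
    rw [h5] at h3
    have h6 := h3.of_mul (lim_ne hu2l hu2n)
    by_contra h7
    exact cst_not_I (r := (τ k - τ k0) / 4) (div_ne_zero (sub_ne_zero.2 h7) four_ne_zero) h6
  have hη := (hQ k0 hk0 hk0B).1
  have hYS : ∀ k ∈ S, Y k = Y k0 := by
    intro k hk
    have h1 := hτS k hk
    rw [hS, Finset.mem_filter] at hk
    rw [hY k hk.1, hY k0 hk0, h1]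
  have hsumB : P.B (∑ k ∈ s, algebraMap ℝ K (τ k) * X k) := by
    have h1 : (∑ k ∈ s, algebraMap ℝ K (τ k) * X k) = algebraMap ℝ K 2 * x ^ 2 *
        (A * x⁻¹ + algebraMap ℝ K d * x * y - algebraMap ℝ K d) := by
      have h2 : x⁻¹ ^ 2 * x ^ 2 = 1 := by
        rw [← mul_pow, inv_mul_cancel₀ hx1, one_pow]
      rw [map_ofNat]
      linear_combination (-2 * x ^ 2) * hE + (-(∑ k ∈ s, algebraMap ℝ K (τ k) * X k)) * h2
    rw [h1]
    exact ((B.cst _).mul (hx.pow 2)).mul (((hA.mul hu).add (((B.cst _).mul hx).mul hyB)).sub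
      (B.cst _))
  have hSB : P.B (∑ k ∈ S, X k) := by
    have h1 : ∑ k ∈ s, algebraMap ℝ K (τ k) * X k = algebraMap ℝ K (τ k0) * ∑ k ∈ S, X k
        + ∑ k ∈ s.filter (fun k => ¬ ¬ P.B (X k)), algebraMap ℝ K (τ k) * X k := by
      rw [← Finset.sum_filter_add_sum_filter_not s (fun k => ¬ P.B (X k)), Finset.mul_sum]
      congr 1
      apply Finset.sum_congr rfl
      intro k hk
      rw [hτS k hk]
    have h2 : P.B (∑ k ∈ s.filter (fun k => ¬ ¬ P.B (X k)), algebraMap ℝ K (τ k) * X k) := by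
      apply B.sum
      intro k hk
      rw [Finset.mem_filter, not_not] at hk
      exact (B.cst _).mul hk.2
    have h3 := hsumB.sub h2
    rw [h1, add_sub_cancel_right] at h3
    exact h3.of_mul (cst_not_I (hτ k0 hk0).ne')
  have hfin := merge_same hη (s := S) (X := X) (by
    intro k hk hB
    have h1 := hYS k hk
    rw [hS, Finset.mem_filter] at hk
    obtain ⟨ζ, h0, h2⟩ := (hQ k hk.1 hk.2).2
    rw [h1] at h2
    exact ⟨ζ, h0, h2⟩) hSB
  exact hk0B (hfin k0 (by rw [hS, Finset.mem_filter]; exact ⟨hk0, hk0B⟩))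

/-- Case 3: `x` is infinitesimal. -/
theorem merge3 {ι : Type*} {s : Finset ι} {τ : ι → ℝ} (hτ : ∀ k ∈ s, 0 < τ k) {A : K}
    (hA : P.B A) {d : ℝ} (hd : 0 < d) {X Y : ι → K} {x y : K} (hx0 : x ≠ 0)
    (hY : ∀ k ∈ s, Y k = y + algebraMap ℝ K (τ k) / 4 * x⁻¹ ^ 2)
    (hE : A * x⁻¹ - 1 / 2 * (∑ k ∈ s, algebraMap ℝ K (τ k) * X k) * x⁻¹ ^ 2
      + algebraMap ℝ K d * x * y = algebraMap ℝ K d)
    (hQ : ∀ k ∈ s, ¬ P.B (X k) → P.I (Y k) ∧ ∃ ζ : ℝ, 0 < ζ ∧ P.Lim (Y k * X k) ζ)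
    (hQ2 : ∀ k ∈ s, ¬ P.B (Y k) → P.I (X k)) (hx : P.I x) :
    (∀ k ∈ s, P.B (X k)) ∧ P.I (∑ k ∈ s, X k) := by
  classical
  haveI := charZero_of_real K
  have hx2 : P.I (x ^ 2) := hx.pow two_ne_zero
  -- if `x ^ 2 * Y k` is not infinitesimal then `Y k` is not bounded
  have hYb : ∀ k ∈ s, ¬ P.I (x ^ 2 * Y k) → P.I (X k) := by
    intro k hk h
    exact hQ2 k hk (not_B_of hx2 h)
  have hYe : ∀ k ∈ s, x ^ 2 * Y k = x ^ 2 * y + algebraMap ℝ K (τ k / 4) := by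
    intro k hk
    rw [hY k hk, map_div₀, map_ofNat]
    field_simp
  by_cases hφ : P.B (x ^ 2 * y)
  · -- the sum with the weights is infinitesimal
    have hsum : P.I (∑ k ∈ s, algebraMap ℝ K (τ k) * X k) := by
      have h1 : (∑ k ∈ s, algebraMap ℝ K (τ k) * X k) = x * (algebraMap ℝ K 2 *
          (A + algebraMap ℝ K d * (x ^ 2 * y) - algebraMap ℝ K d * x)) := by
        have h2 : x⁻¹ ^ 2 * x ^ 2 = 1 := by
          rw [← mul_pow, inv_mul_cancel₀ hx0, one_pow]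
        have h3 : x⁻¹ * x = 1 := inv_mul_cancel₀ hx0
        rw [map_ofNat]
        linear_combination (-2 * x ^ 2) * hE + (-(∑ k ∈ s, algebraMap ℝ K (τ k) * X k)) * h2
          + 2 * A * x * h3
      rw [h1]
      exact hx.mul ((B.cst _).mul ((hA.add ((B.cst _).mul hφ)).sub ((B.cst _).mul hx.B)))
    -- the components with the critical value of `τ`
    set S := s.filter fun k => P.I (x ^ 2 * Y k) with hS
    have hSn : ∀ k ∈ s.filter (fun k => ¬ P.I (x ^ 2 * Y k)), P.I (X k) := by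
      intro k hk
      rw [Finset.mem_filter] at hk
      exact hYb k hk.1 hk.2
    have hsplit : ∑ k ∈ s, X k = ∑ k ∈ S, X k + ∑ k ∈ s.filter (fun k => ¬ P.I (x ^ 2 * Y k)), X k :=
      (Finset.sum_filter_add_sum_filter_not s (fun k => P.I (x ^ 2 * Y k)) X).symm
    rcases S.eq_empty_or_nonempty with hS0 | ⟨k0, hk0⟩
    · constructor
      · intro k hk
        by_cases h : P.I (x ^ 2 * Y k)
        · have h1 : k ∈ S := by
            rw [hS, Finset.mem_filter]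
            exact ⟨hk, h⟩
          rw [hS0] at h1
          exact absurd h1 (Finset.notMem_empty k)
        · exact (hYb k hk h).B
      · rw [hsplit, hS0, Finset.sum_empty, zero_add]
        exact I.sum hSn
    · have hk0s : k0 ∈ s := (Finset.mem_filter.1 hk0).1
      have hτS : ∀ k ∈ S, τ k = τ k0 := by
        intro k hk
        rw [hS, Finset.mem_filter] at hk hk0
        have h1 := hk.2
        have h2 := hk0.2
        rw [hYe k hk.1] at h1
        rw [hYe k0 hk0.1] at h2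
        have h3 := h1.sub h2
        have h5 : x ^ 2 * y + algebraMap ℝ K (τ k / 4) - (x ^ 2 * y + algebraMap ℝ K (τ k0 / 4))
            = algebraMap ℝ K (τ k / 4 - τ k0 / 4) := by
          rw [map_sub]
          ring
        rw [h5] at h3
        by_contra h7
        refine cst_not_I (r := τ k / 4 - τ k0 / 4) ?_ h3
        intro h8
        apply h7
        linarith
      have hSI : P.I (∑ k ∈ S, X k) := by
        have h1 : ∑ k ∈ s, algebraMap ℝ K (τ k) * X k = algebraMap ℝ K (τ k0) * ∑ k ∈ S, X k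
            + ∑ k ∈ s.filter (fun k => ¬ P.I (x ^ 2 * Y k)), algebraMap ℝ K (τ k) * X k := by
          rw [← Finset.sum_filter_add_sum_filter_not s (fun k => P.I (x ^ 2 * Y k)), Finset.mul_sum]
          congr 1
          apply Finset.sum_congr rfl
          intro k hk
          rw [hτS k hk]
        have h2 : P.I (∑ k ∈ s.filter (fun k => ¬ P.I (x ^ 2 * Y k)), algebraMap ℝ K (τ k) * X k) :=
          I.sum fun k hk => (B.cst _).mulI (hSn k hk)
        have h3 := hsum.sub h2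
        rw [h1, add_sub_cancel_right] at h3
        exact h3.of_mul (cst_not_I (hτ k0 hk0s).ne')
      have hYS : ∀ k ∈ S, Y k = Y k0 := by
        intro k hk
        have h1 := hτS k hk
        rw [hS, Finset.mem_filter] at hk
        rw [hY k hk.1, hY k0 hk0s, h1]
      refine ⟨?_, ?_⟩
      · intro k hk
        by_cases h : P.I (x ^ 2 * Y k)
        · have hkS : k ∈ S := by
            rw [hS, Finset.mem_filter]
            exact ⟨hk, h⟩
          by_contra hB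
          have hη : P.I (Y k0) := by
            rw [← hYS k hkS]
            exact (hQ k hk hB).1
          have hfin := merge_same hη (s := S) (X := X) (by
            intro k' hk' hB'
            have h1 := hYS k' hk'
            rw [hS, Finset.mem_filter] at hk'
            obtain ⟨ζ, h0, h2⟩ := (hQ k' hk'.1 hB').2
            rw [h1] at h2
            exact ⟨ζ, h0, h2⟩) hSI.B
          exact hB (hfin k hkS)
        · exact (hYb k hk h).B
      · rw [hsplit]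
        exact hSI.add (I.sum hSn)
  · have h1 : ∀ k ∈ s, P.I (X k) := by
      intro k hk
      apply hYb k hk
      rw [hYe k hk]
      intro h
      exact not_B_add hφ (B.cst _) h.B
    exact ⟨fun k hk => (h1 k hk).B, I.sum h1⟩

/-- The merge lemma. -/
theorem merge {ι : Type*} {s : Finset ι} {τ : ι → ℝ} (hτ : ∀ k ∈ s, 0 < τ k) {A : K}
    (hA : P.B A) {d : ℝ} (hd : 0 < d) {X Y : ι → K} {x y : K} (hx0 : x ≠ 0)
    (hY : ∀ k ∈ s, Y k = y + algebraMap ℝ K (τ k) / 4 * x⁻¹ ^ 2)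
    (hE : A * x⁻¹ - 1 / 2 * (∑ k ∈ s, algebraMap ℝ K (τ k) * X k) * x⁻¹ ^ 2
      + algebraMap ℝ K d * x * y = algebraMap ℝ K d)
    (hQ : ∀ k ∈ s, ¬ P.B (X k) → P.I (Y k) ∧ ∃ ζ : ℝ, 0 < ζ ∧ P.Lim (Y k * X k) ζ)
    (hQ2 : ∀ k ∈ s, ¬ P.B (Y k) → P.I (X k)) :
    ((¬ P.B x ∨ ∃ k ∈ s, ¬ P.B (X k)) → P.I y ∧
      ∃ ζ : ℝ, 0 < ζ ∧ P.Lim (y * (algebraMap ℝ K d * x + ∑ k ∈ s, X k)) ζ) ∧
    (¬ P.B y → P.I (algebraMap ℝ K d * x + ∑ k ∈ s, X k)) := by
  by_cases hx : P.B x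
  · by_cases hxI : P.I x
    · obtain ⟨h1, h2⟩ := merge3 hτ hA hd hx0 hY hE hQ hQ2 hxI
      refine ⟨?_, fun _ => ((B.cst _).mulI hxI).add h2⟩
      rintro (h | ⟨k, hk, h⟩)
      · exact absurd hx h
      · exact absurd (h1 k hk) h
    · obtain ⟨h1, h2⟩ := merge2 hτ hA hd hY hE hQ hQ2 hx hxI
      refine ⟨?_, fun h => absurd h2 h⟩
      rintro (h | ⟨k, hk, h⟩)
      · exact absurd hx h
      · exact absurd (h1 k hk) h
  · have h1 := merge1 hτ hA hd hx0 hY hE hQ hx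
    exact ⟨fun _ => h1, fun h => absurd h1.1.B h⟩

end Pl

end Pool.Agent.H.MP_deabf1_gt
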