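import Pool.Agent.H.MP_deabf1_gt.WA

/-!
The basic blocks with two summands, and two of the four cases for three summands.
-/

namespace Pool.Agent.H.MP_deabf1_gt

namespace Pl

variable {K : Type*} [Field K] [Algebra ℝ K] {P : Pl K}

theorem lim_of_I {a b : K} {z : ℂ} (h : P.I (a - b)) (hb : P.Lim b z) : P.Lim a z := by
  have h1 := P.add h hb
  rwa [sub_add_cancel, zero_add] at h1

theorem lim_real {a : K} {z : ℂ} {r : ℝ} (h : P.Lim a z) (hz : z = (r : ℂ)) : P.Lim a r := hz ▸ h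

/-- Cramer's rule. -/
theorem cramer {a b c e p f ω t : K} {a0 b0 c0 e0 p0 f0 : ℂ} (h1 : a * ω + b * t = p)
    (h2 : c * ω + e * t = f) (ha : P.Lim a a0) (hb : P.Lim b b0) (hc : P.Lim c c0)
    (he : P.Lim e e0) (hp : P.Lim p p0) (hf : P.Lim f f0) (hdet : a0 * e0 - b0 * c0 ≠ 0) :
    P.Lim ω ((p0 * e0 - b0 * f0) / (a0 * e0 - b0 * c0)) ∧
      P.Lim t ((a0 * f0 - p0 * c0) / (a0 * e0 - b0 * c0)) := by
  have hD : P.Lim (a * e - b * c) (a0 * e0 - b0 * c0) := P.lim_sub (P.mul ha he) (P.mul hb hc)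
  have hD0 : a * e - b * c ≠ 0 := ne_of_not_I (lim_ne hD hdet)
  constructor
  · have h3 : ω = (p * e - b * f) / (a * e - b * c) := by
      rw [eq_div_iff hD0]
      linear_combination e * h1 - b * h2
    rw [h3]
    exact P.lim_div (P.lim_sub (P.mul hp he) (P.mul hb hf)) hD hdet
  · have h3 : t = (a * f - p * c) / (a * e - b * c) := by
      rw [eq_div_iff hD0]
      linear_combination a * h2 - c * h1
    rw [h3]
    exact P.lim_div (P.lim_sub (P.mul ha hf) (P.mul hp hc)) hD hdet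

/-- Two summands. -/
theorem core2 {κ : ℝ →+* K} (hκ : ∀ r : ℝ, P.Lim (κ r) r) {A1 A2 b12 b21 d1 d2 : ℝ}
    (hd1 : 0 < d1) (hd2 : 0 < d2) {ω r t : K} (hr : P.B r)
    (hu : P.B (ω * r ^ 2))
    (h1 : ω * (κ A1 * r ^ 2 - 2 * κ b12 * r ^ 3 + κ b21) + κ d1 * t = κ d1)
    (h2 : ω * (κ A2 * r - 2 * κ b21 + κ b12 * r ^ 3) + κ d2 * t * r = κ d2) :
    P.B t ∧ (P.I (ω * r ^ 2) → ∃ ζ : ℝ, 0 < ζ ∧ P.Lim (t * (κ d1 + κ d2 * r)) ζ) := by
  have := charZero_of_real K
  have hκB : ∀ r : ℝ, P.B (κ r) := fun r => ⟨_, hκ r⟩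
  have hκ0 : ∀ r : ℝ, r ≠ 0 → ¬ P.I (κ r) := fun r hr => lim_ne (hκ r) (by exact_mod_cast hr)
  have h2B : P.B (2 : K) := B.ofNat 2
  by_cases hrI : P.I r
  · have hfin : ∀ t0 : ℝ, 0 < t0 → P.Lim t t0 →
        ∃ ζ : ℝ, 0 < ζ ∧ P.Lim (t * (κ d1 + κ d2 * r)) ζ := by
      intro t0 ht0 ht
      refine ⟨t0 * d1, mul_pos ht0 hd1, ?_⟩
      have h3 := P.mul ht (P.add (hκ d1) (P.mul (hκ d2) hrI))
      refine lim_real h3 ?_
      push_cast
      ring
    by_cases hb : b21 = 0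
    · subst hb
      have h3 : κ d1 * (t - 1) = -(ω * r ^ 2 * (κ A1 - 2 * κ b12 * r)) := by
        rw [map_zero] at h1
        linear_combination h1
      have h5 : P.B (κ A1 - 2 * κ b12 * r) := (hκB _).sub ((h2B.mul (hκB _)).mul hr)
      constructor
      · have h4 : P.B (κ d1 * (t - 1)) := by
          rw [h3]
          exact (hu.mul h5).neg
        have h6 : P.B (t - 1) := h4.of_mul (hκ0 _ hd1.ne')
        have h7 := h6.add B.one
        rwa [sub_add_cancel] at h7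
      · intro hI
        have h4 : P.I (κ d1 * (t - 1)) := by
          rw [h3]
          exact (hI.mul h5).neg
        have h6 : P.I (t - 1) := h4.of_mul (hκ0 _ hd1.ne')
        apply hfin 1 one_pos
        have h7 := lim_of_I h6 P.lim_one
        simpa using h7
    · have ha : P.Lim (κ A1 * r ^ 2 - 2 * κ b12 * r ^ 3 + κ b21) b21 := by
        apply lim_of_I _ (hκ b21)
        have h3 : κ A1 * r ^ 2 - 2 * κ b12 * r ^ 3 + κ b21 - κ b21
            = r * (κ A1 * r - 2 * κ b12 * r ^ 2) := by ring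
        rw [h3]
        exact hrI.mul (((hκB _).mul hr).sub ((h2B.mul (hκB _)).mul (hr.pow 2)))
      have hc : P.Lim (κ A2 * r - 2 * κ b21 + κ b12 * r ^ 3) ((-2 * b21 : ℝ) : ℂ) := by
        apply lim_of_I _ (hκ (-2 * b21))
        have h3 : κ A2 * r - 2 * κ b21 + κ b12 * r ^ 3 - κ (-2 * b21)
            = r * (κ A2 + κ b12 * r ^ 2) := by
          rw [map_mul, map_neg, map_ofNat]
          ring
        rw [h3]
        exact hrI.mul ((hκB _).add ((hκB _).mul (hr.pow 2)))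
      have he : P.Lim (κ d2 * r) 0 := (hκB d2).mulI hrI
      have hdet : (b21 : ℂ) * 0 - (d1 : ℂ) * ((-2 * b21 : ℝ) : ℂ) ≠ 0 := by
        have h3 : (b21 : ℂ) * 0 - (d1 : ℂ) * ((-2 * b21 : ℝ) : ℂ) = ((2 * d1 * b21 : ℝ) : ℂ) := by
          push_cast
          ring
        rw [h3]
        exact_mod_cast mul_ne_zero (mul_ne_zero two_ne_zero hd1.ne') hb
      have h5 := (cramer (P := P) (ω := ω) (t := t) (p := κ d1) (f := κ d2)
        (by linear_combination h1) (by linear_combination h2) ha (hκ d1) hc he (hκ d1) (hκ d2)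
        hdet).2
      refine ⟨⟨_, h5⟩, fun _ => hfin ((2 * d1 + d2) / (2 * d1)) (by positivity)
        (lim_real h5 ?_)⟩
      have hbc : (b21 : ℂ) ≠ 0 := by exact_mod_cast hb
      have hdc : (d1 : ℂ) ≠ 0 := by exact_mod_cast hd1.ne'
      push_cast
      field_simp
      ring
  · have hrinv : P.B r⁻¹ := inv_B hrI
    have hr0 : r ≠ 0 := ne_of_not_I hrI
    have hω : ω = ω * r ^ 2 * r⁻¹ ^ 2 := by
      field_simp
    have h5 : P.B (κ A1 * r ^ 2 - 2 * κ b12 * r ^ 3 + κ b21) :=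
      (((hκB _).mul (hr.pow 2)).sub ((h2B.mul (hκB _)).mul (hr.pow 3))).add (hκB _)
    have h6 : P.B (κ A2 * r - 2 * κ b21 + κ b12 * r ^ 3) :=
      (((hκB _).mul hr).sub (h2B.mul (hκB _))).add ((hκB _).mul (hr.pow 3))
    have h3 : κ d1 * (t - 1) = -(ω * (κ A1 * r ^ 2 - 2 * κ b12 * r ^ 3 + κ b21)) := by
      linear_combination h1
    constructor
    · have hωB : P.B ω := by
        rw [hω]
        exact hu.mul (hrinv.pow 2)
      have h4 : P.B (κ d1 * (t - 1)) := by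
        rw [h3]
        exact (hωB.mul h5).neg
      have h6 : P.B (t - 1) := h4.of_mul (hκ0 _ hd1.ne')
      have h7 := h6.add B.one
      rwa [sub_add_cancel] at h7
    · intro hI
      have hωI : P.I ω := by
        rw [hω]
        exact hI.mul (hrinv.pow 2)
      refine ⟨d1 + d2, by positivity, ?_⟩
      have h7 : P.I (t * (κ d1 + κ d2 * r) - (κ d1 + κ d2)) := by
        have h8 : t * (κ d1 + κ d2 * r) - (κ d1 + κ d2) =
            -(ω * (κ A1 * r ^ 2 - 2 * κ b12 * r ^ 3 + κ b21))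
            - ω * (κ A2 * r - 2 * κ b21 + κ b12 * r ^ 3) := by
          linear_combination h1 + h2
        rw [h8]
        exact (hωI.mul h5).neg.sub (hωI.mul h6)
      refine lim_real (lim_of_I h7 (P.add (hκ d1) (hκ d2))) ?_
      push_cast
      ring

/-- Three summands, the data. -/
structure D3 (P : Pl K) (κ : ℝ →+* K) (A1 A2 A3 b12 b13 b21 b23 b31 b32 C d1 d2 d3 : ℝ)
    (ω r s t : K) : Prop where
  hκ : ∀ r : ℝ, P.Lim (κ r) r
  hA3 : 0 ≤ A3
  h21 : 0 ≤ b21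
  h31 : 0 ≤ b31
  h32 : 0 ≤ b32
  hC : 0 ≤ C
  hd1 : 0 < d1
  hd2 : 0 < d2
  hd3 : 0 < d3
  hr : P.B r
  hs : P.B s
  hr0 : r ≠ 0
  hs0 : s ≠ 0
  e1 : ω * (κ A1 * r ^ 2 * s ^ 2 - 2 * κ b12 * r ^ 3 * s ^ 2 - 2 * κ b13 * r ^ 3 * s ^ 3
    + κ b21 * s ^ 2 + κ b31 + κ C * (s - r ^ 2 * s ^ 3 - r ^ 2 * s)) + κ d1 * t = κ d1
  e2 : ω * (κ A2 * r * s ^ 2 - 2 * κ b21 * s ^ 2 - 2 * κ b23 * r * s ^ 3 + κ b12 * r ^ 3 * s ^ 2
    + κ b32 * r + κ C * (r ^ 2 * s - r ^ 2 * s ^ 3 - s)) + κ d2 * t * r = κ d2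
  e3 : ω * (κ A3 * r * s - 2 * κ b31 - 2 * κ b32 * r + κ b13 * r ^ 3 * s ^ 3 + κ b23 * r * s ^ 3
    + κ C * (r ^ 2 * s ^ 3 - r ^ 2 * s - s)) + κ d3 * t * r * s = κ d3

variable {κ : ℝ →+* K} {A1 A2 A3 b12 b13 b21 b23 b31 b32 C d1 d2 d3 : ℝ} {ω r s t : K}

/-- Case I: all comparable. -/
theorem core3_I (D : D3 P κ A1 A2 A3 b12 b13 b21 b23 b31 b32 C d1 d2 d3 ω r s t)
    (hrI : ¬ P.I r) (hsI : ¬ P.I s) :
    (P.B (ω * r ^ 2 * s ^ 2) → P.B t) ∧ (P.I (ω * r ^ 2 * s ^ 2) →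
      ∃ ζ : ℝ, 0 < ζ ∧ P.Lim (t * (κ d1 + κ d2 * r + κ d3 * r * s)) ζ) := by
  have := charZero_of_real K
  obtain ⟨hκ, hA3, h21, h31, h32, hC, hd1, hd2, hd3, hr, hs, hr0, hs0, e1, e2, e3⟩ := D
  have hκB : ∀ r : ℝ, P.B (κ r) := fun r => ⟨_, hκ r⟩
  have hκ0 : ∀ r : ℝ, r ≠ 0 → ¬ P.I (κ r) := fun r hr => lim_ne (hκ r) (by exact_mod_cast hr)
  have h2B : P.B (2 : K) := B.ofNat 2
  have hri : P.B r⁻¹ := inv_B hrI
  have hsi : P.B s⁻¹ := inv_B hsI
  have hω : ω = ω * r ^ 2 * s ^ 2 * (r⁻¹ ^ 2 * s⁻¹ ^ 2) := by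
    field_simp
  set g1 : K := κ A1 * r ^ 2 * s ^ 2 - 2 * κ b12 * r ^ 3 * s ^ 2 - 2 * κ b13 * r ^ 3 * s ^ 3
    + κ b21 * s ^ 2 + κ b31 + κ C * (s - r ^ 2 * s ^ 3 - r ^ 2 * s) with hg1
  set g2 : K := κ A2 * r * s ^ 2 - 2 * κ b21 * s ^ 2 - 2 * κ b23 * r * s ^ 3
    + κ b12 * r ^ 3 * s ^ 2 + κ b32 * r + κ C * (r ^ 2 * s - r ^ 2 * s ^ 3 - s) with hg2
  set g3 : K := κ A3 * r * s - 2 * κ b31 - 2 * κ b32 * r + κ b13 * r ^ 3 * s ^ 3
    + κ b23 * r * s ^ 3 + κ C * (r ^ 2 * s ^ 3 - r ^ 2 * s - s) with hg3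
  have g1B : P.B g1 := by
    rw [hg1]
    apply_rules (maxDepth := 500) [B.add, B.sub, B.mul, B.pow, hκB, B.one]
  have g2B : P.B g2 := by
    rw [hg2]
    apply_rules (maxDepth := 500) [B.add, B.sub, B.mul, B.pow, hκB, B.one]
  have g3B : P.B g3 := by
    rw [hg3]
    apply_rules (maxDepth := 500) [B.add, B.sub, B.mul, B.pow, hκB, B.one]
  have h3 : κ d1 * (t - 1) = -(ω * g1) := by
    linear_combination e1
  constructor
  · intro hu
    have hωB : P.B ω := by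
      rw [hω]
      exact hu.mul ((hri.pow 2).mul (hsi.pow 2))
    have h4 : P.B (κ d1 * (t - 1)) := by
      rw [h3]
      exact (hωB.mul g1B).neg
    have h6 : P.B (t - 1) := h4.of_mul (hκ0 _ hd1.ne')
    have h7 := h6.add B.one
    rwa [sub_add_cancel] at h7
  · intro hI
    have hωI : P.I ω := by
      rw [hω]
      exact hI.mul ((hri.pow 2).mul (hsi.pow 2))
    refine ⟨d1 + d2 + d3, by positivity, ?_⟩
    have h7 : P.I (t * (κ d1 + κ d2 * r + κ d3 * r * s) - (κ d1 + κ d2 + κ d3)) := by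
      have h8 : t * (κ d1 + κ d2 * r + κ d3 * r * s) - (κ d1 + κ d2 + κ d3) =
          -(ω * g1) - ω * g2 - ω * g3 := by
        linear_combination e1 + e2 + e3
      rw [h8]
      exact ((hωI.mul g1B).neg.sub (hωI.mul g2B)).sub (hωI.mul g3B)
    refine lim_real (lim_of_I h7 (P.add (P.add (hκ d1) (hκ d2)) (hκ d3))) ?_
    push_cast
    ring

/-- Case IV: `r` and `s` infinitesimal. -/
theorem core3_IV (D : D3 P κ A1 A2 A3 b12 b13 b21 b23 b31 b32 C d1 d2 d3 ω r s t)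
    (hrI : P.I r) (hsI : P.I s) :
    (P.B (ω * r ^ 2 * s ^ 2) → P.B t) ∧ (P.I (ω * r ^ 2 * s ^ 2) →
      ∃ ζ : ℝ, 0 < ζ ∧ P.Lim (t * (κ d1 + κ d2 * r + κ d3 * r * s)) ζ) := by
  have := charZero_of_real K
  obtain ⟨hκ, hA3, h21, h31, h32, hC, hd1, hd2, hd3, hr, hs, hr0, hs0, e1, e2, e3⟩ := D
  have hκB : ∀ r : ℝ, P.B (κ r) := fun r => ⟨_, hκ r⟩
  have hκ0 : ∀ r : ℝ, r ≠ 0 → ¬ P.I (κ r) := fun r hr => lim_ne (hκ r) (by exact_mod_cast hr)
  have h2B : P.B (2 : K) := B.ofNat 2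
  have hd1c : (d1 : ℂ) ≠ 0 := by exact_mod_cast hd1.ne'
  have hfin : ∀ t0 : ℝ, 0 < t0 → P.Lim t t0 →
      ∃ ζ : ℝ, 0 < ζ ∧ P.Lim (t * (κ d1 + κ d2 * r + κ d3 * r * s)) ζ := by
    intro t0 ht0 ht
    refine ⟨t0 * d1, mul_pos ht0 hd1, ?_⟩
    have h3 := P.mul ht (P.add (P.add (hκ d1) (P.mul (hκ d2) hrI))
      (P.mul (P.mul (hκ d3) hrI) hsI))
    refine lim_real h3 ?_
    push_cast
    ring
  have hfin' : ∀ t0 : ℝ, 0 < t0 → P.Lim t t0 → (P.B (ω * r ^ 2 * s ^ 2) → P.B t) ∧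
      (P.I (ω * r ^ 2 * s ^ 2) →
        ∃ ζ : ℝ, 0 < ζ ∧ P.Lim (t * (κ d1 + κ d2 * r + κ d3 * r * s)) ζ) :=
    fun t0 h0 ht => ⟨fun _ => ⟨_, ht⟩, fun _ => hfin t0 h0 ht⟩
  rcases h31.eq_or_lt with hb31 | hb31
  · subst hb31
    rw [map_zero] at e1 e3
    rcases hC.eq_or_lt with hC0 | hC0
    · subst hC0
      rw [map_zero] at e1 e2 e3
      rcases h21.eq_or_lt with hb21 | hb21
      · -- `b21 = 0`
        subst hb21
        rw [map_zero] at e1 e2
        have h3 : κ d1 * (t - 1) =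
            -(ω * r ^ 2 * s ^ 2 * (κ A1 - 2 * κ b12 * r - 2 * κ b13 * r * s)) := by
          linear_combination e1
        have h5 : P.B (κ A1 - 2 * κ b12 * r - 2 * κ b13 * r * s) := by
          apply_rules (maxDepth := 500) [B.add, B.sub, B.mul, B.pow, hκB, B.one]
        constructor
        · intro hu
          have h4 : P.B (κ d1 * (t - 1)) := by
            rw [h3]
            exact (hu.mul h5).neg
          have h6 : P.B (t - 1) := h4.of_mul (hκ0 _ hd1.ne')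
          have h7 := h6.add B.one
          rwa [sub_add_cancel] at h7
        · intro hI
          have h4 : P.I (κ d1 * (t - 1)) := by
            rw [h3]
            exact (hI.mul h5).neg
          have h6 : P.I (t - 1) := h4.of_mul (hκ0 _ hd1.ne')
          apply hfin 1 one_pos
          have h7 := lim_of_I h6 P.lim_one
          simpa using h7
      · -- `b21 > 0`, unknowns `ω * s ^ 2` and `t`
        have ha : P.Lim (κ A1 * r ^ 2 - 2 * κ b12 * r ^ 3 - 2 * κ b13 * r ^ 3 * s + κ b21) b21 := by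
          apply lim_of_I _ (hκ b21)
          have h3 : κ A1 * r ^ 2 - 2 * κ b12 * r ^ 3 - 2 * κ b13 * r ^ 3 * s + κ b21 - κ b21
              = r * (κ A1 * r - 2 * κ b12 * r ^ 2 - 2 * κ b13 * r ^ 2 * s) := by ring
          rw [h3]
          apply hrI.mul
          apply_rules (maxDepth := 500) [B.add, B.sub, B.mul, B.pow, hκB, B.one]
        have hc' : P.Lim (κ A2 * r - 2 * κ b21 - 2 * κ b23 * r * s + κ b12 * r ^ 3)
            ((-2 * b21 : ℝ) : ℂ) := by
          apply lim_of_I _ (hκ (-2 * b21))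
          have h3 : κ A2 * r - 2 * κ b21 - 2 * κ b23 * r * s + κ b12 * r ^ 3 - κ (-2 * b21)
              = r * (κ A2 - 2 * κ b23 * s + κ b12 * r ^ 2) := by
            rw [map_mul, map_neg, map_ofNat]
            ring
          rw [h3]
          apply hrI.mul
          apply_rules (maxDepth := 500) [B.add, B.sub, B.mul, B.pow, hκB, B.one]
        have hbc : (b21 : ℂ) ≠ 0 := by exact_mod_cast hb21.ne'
        rcases h32.eq_or_lt with hb32 | hb32
        · subst hb32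
          rw [map_zero] at e2 e3
          have he : P.Lim (κ d2 * r) 0 := (hκB d2).mulI hrI
          have hdet : (b21 : ℂ) * 0 - (d1 : ℂ) * ((-2 * b21 : ℝ) : ℂ) ≠ 0 := by
            have h3 : (b21 : ℂ) * 0 - (d1 : ℂ) * ((-2 * b21 : ℝ) : ℂ) = 2 * d1 * b21 := by
              push_cast
              ring
            rw [h3]
            exact mul_ne_zero (mul_ne_zero two_ne_zero hd1c) hbc
          have h5 := (cramer (P := P) (ω := ω * s ^ 2) (t := t) (p := κ d1) (f := κ d2)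
            (by linear_combination e1) (by linear_combination e2) ha (hκ d1) hc' he (hκ d1)
            (hκ d2) hdet).2
          refine hfin' ((2 * d1 + d2) / (2 * d1)) (by positivity) (lim_real h5 ?_)
          push_cast
          field_simp
          ring
        · have hm : P.Lim (κ A3 * s - 2 * κ b32 + κ b13 * r ^ 2 * s ^ 3 + κ b23 * s ^ 3)
              ((-2 * b32 : ℝ) : ℂ) := by
            apply lim_of_I _ (hκ (-2 * b32))
            have h3 : κ A3 * s - 2 * κ b32 + κ b13 * r ^ 2 * s ^ 3 + κ b23 * s ^ 3 - κ (-2 * b32)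
                = s * (κ A3 + κ b13 * r ^ 2 * s ^ 2 + κ b23 * s ^ 2) := by
              rw [map_mul, map_neg, map_ofNat]
              ring
            rw [h3]
            apply hsI.mul
            apply_rules (maxDepth := 500) [B.add, B.sub, B.mul, B.pow, hκB, B.one]
          set m : K := κ A3 * s - 2 * κ b32 + κ b13 * r ^ 2 * s ^ 3 + κ b23 * s ^ 3 with hmdef
          have hc := P.mul hc' hm
          have he : P.Lim (m * (κ d2 * r) - κ b32 * (κ d3 * r * s)) 0 := by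
            have h3 : m * (κ d2 * r) - κ b32 * (κ d3 * r * s)
                = r * (m * κ d2 - κ b32 * κ d3 * s) := by ring
            rw [h3]
            have hmB : P.B m := ⟨_, hm⟩
            apply hrI.mul
            apply_rules (maxDepth := 500) [B.add, B.sub, B.mul, B.pow, hκB, B.one]
          have hf : P.Lim (m * κ d2 - κ b32 * κ d3)
              (((-2 * b32 : ℝ) : ℂ) * (d2 : ℂ) - (b32 : ℂ) * (d3 : ℂ)) :=
            P.lim_sub (P.mul hm (hκ d2)) (P.mul (hκ b32) (hκ d3))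
          have hb32c : (b32 : ℂ) ≠ 0 := by exact_mod_cast hb32.ne'
          have hdet : (b21 : ℂ) * 0 - (d1 : ℂ) * (((-2 * b21 : ℝ) : ℂ) * ((-2 * b32 : ℝ) : ℂ))
              ≠ 0 := by
            have h3 : (b21 : ℂ) * 0 - (d1 : ℂ) * (((-2 * b21 : ℝ) : ℂ) * ((-2 * b32 : ℝ) : ℂ))
                = -4 * d1 * b21 * b32 := by
              push_cast
              ring
            rw [h3]
            exact mul_ne_zero (mul_ne_zero (mul_ne_zero (by norm_num) hd1c) hbc) hb32c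
          have h5 := (cramer (P := P) (ω := ω * s ^ 2) (t := t) (p := κ d1)
            (f := m * κ d2 - κ b32 * κ d3)
            (by linear_combination e1) (by
              rw [hmdef]
              linear_combination (κ A3 * s - 2 * κ b32 + κ b13 * r ^ 2 * s ^ 3 + κ b23 * s ^ 3) * e2
                - κ b32 * e3) ha (hκ d1) hc he (hκ d1) hf hdet).2
          refine hfin' ((4 * d1 + 2 * d2 + d3) / (4 * d1)) (by positivity) (lim_real h5 ?_)
          rw [div_eq_iff hdet]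
          push_cast
          field_simp
          ring
    · -- `C > 0`, unknowns `ω * s` and `t`
      have ha : P.Lim (κ A1 * r ^ 2 * s - 2 * κ b12 * r ^ 3 * s - 2 * κ b13 * r ^ 3 * s ^ 2
          + κ b21 * s + κ C * (1 - r ^ 2 * s ^ 2 - r ^ 2)) C := by
        apply lim_of_I _ (hκ C)
        have h3 : κ A1 * r ^ 2 * s - 2 * κ b12 * r ^ 3 * s - 2 * κ b13 * r ^ 3 * s ^ 2
            + κ b21 * s + κ C * (1 - r ^ 2 * s ^ 2 - r ^ 2) - κ C
            = r * (κ A1 * r * s - 2 * κ b12 * r ^ 2 * s - 2 * κ b13 * r ^ 2 * s ^ 2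
            - κ C * (r * s ^ 2 + r)) + s * κ b21 := by ring
        rw [h3]
        refine (hrI.mul ?_).add (hsI.mul (hκB _))
        apply_rules (maxDepth := 500) [B.add, B.sub, B.mul, B.pow, hκB, B.one]
      have hc : P.Lim (κ A3 * r + κ b13 * r ^ 3 * s ^ 2 + κ b23 * r * s ^ 2
          + κ C * (r ^ 2 * s ^ 2 - r ^ 2 - 1) + 2 * (κ A2 * r * s - 2 * κ b21 * s
          - 2 * κ b23 * r * s ^ 2 + κ b12 * r ^ 3 * s + κ C * (r ^ 2 - r ^ 2 * s ^ 2 - 1)))
          ((-3 * C : ℝ) : ℂ) := by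
        apply lim_of_I _ (hκ (-3 * C))
        have h3 : κ A3 * r + κ b13 * r ^ 3 * s ^ 2 + κ b23 * r * s ^ 2
            + κ C * (r ^ 2 * s ^ 2 - r ^ 2 - 1) + 2 * (κ A2 * r * s - 2 * κ b21 * s
            - 2 * κ b23 * r * s ^ 2 + κ b12 * r ^ 3 * s + κ C * (r ^ 2 - r ^ 2 * s ^ 2 - 1))
            - κ (-3 * C)
            = r * (κ A3 + κ b13 * r ^ 2 * s ^ 2 + κ b23 * s ^ 2 + κ C * (r * s ^ 2 - r)
              + 2 * (κ A2 * s - 2 * κ b23 * s ^ 2 + κ b12 * r ^ 2 * s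
              + κ C * (r - r * s ^ 2))) + s * (2 * (2 * κ b21)) * (0 - 1) := by
          rw [map_mul, map_neg, map_ofNat]
          ring
        rw [h3]
        refine (hrI.mul ?_).add ((hsI.mul (h2B.mul (h2B.mul (hκB _)))).mul (B.zero.sub B.one))
        apply_rules (maxDepth := 500) [B.add, B.sub, B.mul, B.pow, hκB, B.one]
      have he : P.Lim (κ d3 * r * s + 2 * (κ d2 * r)) 0 := by
        have h3 : κ d3 * r * s + 2 * (κ d2 * r) = r * (κ d3 * s + 2 * κ d2) := by ring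
        rw [h3]
        apply hrI.mul
        apply_rules (maxDepth := 500) [B.add, B.sub, B.mul, B.pow, hκB, B.one]
      have hf : P.Lim (κ (2 * d2 + d3)) ((2 * d2 + d3 : ℝ) : ℂ) := hκ _
      have hCc : (C : ℂ) ≠ 0 := by exact_mod_cast hC0.ne'
      have hdet : (C : ℂ) * 0 - (d1 : ℂ) * ((-3 * C : ℝ) : ℂ) ≠ 0 := by
        have h3 : (C : ℂ) * 0 - (d1 : ℂ) * ((-3 * C : ℝ) : ℂ) = 3 * d1 * C := by
          push_cast
          ring
        rw [h3]
        exact mul_ne_zero (mul_ne_zero (by norm_num) hd1c) hCc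
      have h5 := (cramer (P := P) (ω := ω * s) (t := t) (p := κ d1) (f := κ (2 * d2 + d3))
        (by linear_combination e1) (by
          rw [map_add, map_mul, map_ofNat]
          linear_combination 2 * e2 + e3) ha (hκ d1) hc he (hκ d1) hf hdet).2
      refine hfin' ((3 * d1 + (2 * d2 + d3)) / (3 * d1)) (by positivity) (lim_real h5 ?_)
      push_cast
      field_simp
      ring
  · -- `b31 > 0`: contradiction
    exfalso
    have ha : P.Lim (κ A1 * r ^ 2 * s ^ 2 - 2 * κ b12 * r ^ 3 * s ^ 2 - 2 * κ b13 * r ^ 3 * s ^ 3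
        + κ b21 * s ^ 2 + κ b31 + κ C * (s - r ^ 2 * s ^ 3 - r ^ 2 * s)) b31 := by
      apply lim_of_I _ (hκ b31)
      have h3 : κ A1 * r ^ 2 * s ^ 2 - 2 * κ b12 * r ^ 3 * s ^ 2 - 2 * κ b13 * r ^ 3 * s ^ 3
        + κ b21 * s ^ 2 + κ b31 + κ C * (s - r ^ 2 * s ^ 3 - r ^ 2 * s) - κ b31
          = s * (κ A1 * r ^ 2 * s - 2 * κ b12 * r ^ 3 * s - 2 * κ b13 * r ^ 3 * s ^ 2
        + κ b21 * s + κ C * (1 - r ^ 2 * s ^ 2 - r ^ 2)) := by ring
      rw [h3]
      apply hsI.mul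
      have h1B : P.B (1 : K) := B.one
      apply_rules (maxDepth := 500) [B.add, B.sub, B.mul, B.pow, hκB, B.one]
    have hc : P.Lim (κ A3 * r * s - 2 * κ b31 - 2 * κ b32 * r + κ b13 * r ^ 3 * s ^ 3
        + κ b23 * r * s ^ 3 + κ C * (r ^ 2 * s ^ 3 - r ^ 2 * s - s)) ((-2 * b31 : ℝ) : ℂ) := by
      apply lim_of_I _ (hκ (-2 * b31))
      have h3 : κ A3 * r * s - 2 * κ b31 - 2 * κ b32 * r + κ b13 * r ^ 3 * s ^ 3
          + κ b23 * r * s ^ 3 + κ C * (r ^ 2 * s ^ 3 - r ^ 2 * s - s) - κ (-2 * b31)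
          = r * (κ A3 * s - 2 * κ b32 + κ b13 * r ^ 2 * s ^ 3
          + κ b23 * s ^ 3 + κ C * (r * s ^ 3 - r * s)) + s * κ C * (0 - 1) := by
        rw [map_mul, map_neg, map_ofNat]
        ring
      rw [h3]
      refine (hrI.mul ?_).add ((hsI.mul (hκB _)).mul (B.zero.sub B.one))
      apply_rules (maxDepth := 500) [B.add, B.sub, B.mul, B.pow, hκB, B.one]
    have he : P.Lim (κ d3 * r * s) 0 := ((hκB d3).mulI hrI).mul hs
    have hbc : (b31 : ℂ) ≠ 0 := by exact_mod_cast hb31.ne'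
    have hdet : (b31 : ℂ) * 0 - (d1 : ℂ) * ((-2 * b31 : ℝ) : ℂ) ≠ 0 := by
      have h3 : (b31 : ℂ) * 0 - (d1 : ℂ) * ((-2 * b31 : ℝ) : ℂ) = 2 * d1 * b31 := by
        push_cast
        ring
      rw [h3]
      exact mul_ne_zero (mul_ne_zero two_ne_zero hd1c) hbc
    have h5 := cramer (P := P) (ω := ω) (t := t) (p := κ d1) (f := κ d3)
      (by linear_combination e1) (by linear_combination e3) ha (hκ d1) hc he (hκ d1)
      (hκ d3) hdet
    have hωB : P.B ω := ⟨_, h5.1⟩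
    have htB : P.B t := ⟨_, h5.2⟩
    have h6 : P.I (κ d2) := by
      rw [← e2]
      have h3 : ω * (κ A2 * r * s ^ 2 - 2 * κ b21 * s ^ 2 - 2 * κ b23 * r * s ^ 3
          + κ b12 * r ^ 3 * s ^ 2 + κ b32 * r + κ C * (r ^ 2 * s - r ^ 2 * s ^ 3 - s))
          + κ d2 * t * r
          = r * (ω * (κ A2 * s ^ 2 - 2 * κ b23 * s ^ 3
          + κ b12 * r ^ 2 * s ^ 2 + κ b32 + κ C * (r * s - r * s ^ 3)) + κ d2 * t)
          - s * (ω * (2 * κ b21 * s + κ C)) := by ring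
      rw [h3]
      refine (hrI.mul ?_).sub (hsI.mul ?_)
      · apply_rules (maxDepth := 500) [B.add, B.sub, B.mul, B.pow, hκB, B.one]
      · apply_rules (maxDepth := 500) [B.add, B.sub, B.mul, B.pow, hκB, B.one]
    exact hκ0 d2 hd2.ne' h6

end Pl

end Pool.Agent.H.MP_deabf1_gt
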