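import Pool.Agent.H.MP_deabf1_gt.WC

/-!
The basic blocks with three summands: the two remaining cases.
-/

namespace Pool.Agent.H.MP_deabf1_gt

namespace Pl

variable {K : Type*} [Field K] [Algebra ℝ K] {P : Pl K}

/-- A quadratic form is a quadratic form in its own derivatives. -/
theorem quad_real {a b c : ℝ} (ha : 0 ≤ a) (hb : 0 ≤ b) :
    ∃ α β γ : ℝ, 4 * α * a ^ 2 + 2 * β * a * c + γ * c ^ 2 = a ∧
      4 * α * a * c + β * (4 * a * b + c ^ 2) + 4 * γ * c * b = c ∧
      α * c ^ 2 + 2 * β * c * b + 4 * γ * b ^ 2 = b := by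
  by_cases hΔ : 4 * a * b - c ^ 2 = 0
  · by_cases ha0 : a = 0
    · subst ha0
      have hc : c = 0 := by
        have h1 : c ^ 2 = 0 := by linarith
        exact pow_eq_zero_iff two_ne_zero |>.1 h1
      subst hc
      by_cases hb0 : b = 0
      · subst hb0
        exact ⟨0, 0, 0, by norm_num, by norm_num, by norm_num⟩
      · refine ⟨0, 0, 1 / (4 * b), by norm_num, by norm_num, ?_⟩
        field_simp
        ring
    · refine ⟨1 / (4 * a), 0, 0, ?_, ?_, ?_⟩
      · field_simp
        ring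
      · field_simp
        ring
      · have h1 : b = c ^ 2 / (4 * a) := by
          rw [eq_div_iff (by positivity)]
          linarith
        rw [h1]
        field_simp
        ring
  · obtain ⟨D, hD⟩ : ∃ D, D = 4 * a * b - c ^ 2 := ⟨_, rfl⟩
    rw [← hD] at hΔ
    refine ⟨b / D, -c / D, a / D, ?_, ?_, ?_⟩
    · field_simp
      rw [hD]
      ring
    · field_simp
      rw [hD]
      ring
    · field_simp
      rw [hD]
      ring

theorem quad_K (κ : ℝ →+* K) {a b c : ℝ} (ha : 0 ≤ a) (hb : 0 ≤ b) :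
    ∃ α β γ : ℝ, ∀ v w : K, κ a * v ^ 2 + κ c * v * w + κ b * w ^ 2 =
      κ α * (2 * κ a * v + κ c * w) ^ 2 + κ β * ((2 * κ a * v + κ c * w) * (κ c * v + 2 * κ b * w))
        + κ γ * (κ c * v + 2 * κ b * w) ^ 2 := by
  obtain ⟨α, β, γ, h1, h2, h3⟩ := quad_real (c := c) ha hb
  refine ⟨α, β, γ, fun v w => ?_⟩
  have h1' := congrArg κ h1
  have h2' := congrArg κ h2
  have h3' := congrArg κ h3
  simp only [map_add, map_mul, map_pow, map_ofNat] at h1' h2' h3'
  linear_combination (-(v ^ 2)) * h1' - (v * w) * h2' - w ^ 2 * h3'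

variable {κ : ℝ →+* K} {A1 A2 A3 b12 b13 b21 b23 b31 b32 C d1 d2 d3 : ℝ} {ω r s t : K}

theorem quad_prod {a b δ δ' : K} (hω : ω ≠ 0) :
    ω⁻¹ * ((ω * r * a + δ) * (ω * r * b + δ')) =
      ω * r ^ 2 * (a * b) + r * (a * δ' + b * δ) + ω⁻¹ * (δ * δ') := by
  field_simp
  ring

/-- Case III: `r` infinitesimal, `s` not. -/
theorem core3_III (D : D3 P κ A1 A2 A3 b12 b13 b21 b23 b31 b32 C d1 d2 d3 ω r s t)
    (hrI : P.I r) (hsI : ¬ P.I s) :
    (P.B (ω * r ^ 2 * s ^ 2) → P.B t) ∧ (P.I (ω * r ^ 2 * s ^ 2) →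
      ∃ ζ : ℝ, 0 < ζ ∧ P.Lim (t * (κ d1 + κ d2 * r + κ d3 * r * s)) ζ) := by
  have := charZero_of_real K
  obtain ⟨hκ, hA3, h21, h31, h32, hC, hd1, hd2, hd3, hr, hs, hr0, hs0, e1, e2, e3⟩ := D
  have hκB : ∀ r : ℝ, P.B (κ r) := fun r => ⟨_, hκ r⟩
  have hκ0 : ∀ r : ℝ, r ≠ 0 → ¬ P.I (κ r) := fun r hr => lim_ne (hκ r) (by exact_mod_cast hr)
  have h2B : P.B (2 : K) := B.ofNat 2
  have hd1c : (d1 : ℂ) ≠ 0 := by exact_mod_cast hd1.ne'
  have hsi : P.B s⁻¹ := inv_B hsI
  have hfin : ∀ t0 : ℝ, 0 < t0 → P.Lim t t0 →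
      ∃ ζ : ℝ, 0 < ζ ∧ P.Lim (t * (κ d1 + κ d2 * r + κ d3 * r * s)) ζ := by
    intro t0 ht0 ht
    refine ⟨t0 * d1, mul_pos ht0 hd1, ?_⟩
    have h3 := P.mul ht (P.add (P.add (hκ d1) (P.mul (hκ d2) hrI))
      ((hκB d3).mulI hrI |>.mul hs))
    refine lim_real h3 ?_
    push_cast
    ring
  obtain ⟨α, β, γ, hq⟩ := quad_K κ (c := C) h21 h31
  have hq1 := hq s 1
  set u : K := ω * r ^ 2 * s ^ 2 with hu
  have hur : ω * r ^ 2 = u * s⁻¹ ^ 2 := by
    rw [hu]
    field_simp
  set g1 : K := κ A1 - 2 * κ b12 * r - 2 * κ b13 * r * s - κ C * (s + s⁻¹) with hg1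
  set g2 : K := κ A2 * s ^ 2 - 2 * κ b23 * s ^ 3 + κ b12 * r ^ 2 * s ^ 2 + κ b32
    + κ C * (r * s - r * s ^ 3) with hg2
  set g3 : K := κ A3 * s - 2 * κ b32 + κ b13 * r ^ 2 * s ^ 3 + κ b23 * s ^ 3
    + κ C * (r * s ^ 3 - r * s) with hg3
  have g1B : P.B g1 := by
    rw [hg1]
    apply_rules (maxDepth := 500) [B.add, B.sub, B.mul, B.pow, hκB, B.one]
  have g2B : P.B g2 := by
    rw [hg2]
    apply_rules (maxDepth := 500) [B.add, B.sub, B.mul, B.pow, hκB, B.one]
  have g3B : P.B g3 := by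
    rw [hg3]
    apply_rules (maxDepth := 500) [B.add, B.sub, B.mul, B.pow, hκB, B.one]
  set H : K := ω * (κ b21 * s ^ 2 + κ C * s + κ b31) with hH
  have E1 : H + u * g1 + κ d1 * t = κ d1 := by
    rw [hH, hu, hg1]
    have h1 : s * s⁻¹ = 1 := mul_inv_cancel₀ hs0
    linear_combination e1 - ω * r ^ 2 * s * κ C * h1
  have E2 : ω * s * (2 * κ b21 * s + κ C * 1) = ω * r * g2 + κ d2 * (t * r - 1) := by
    rw [hg2]
    linear_combination (-1 : K) * e2
  have E3 : ω * (κ C * s + 2 * κ b31 * 1) = ω * r * g3 + κ d3 * (t * r * s - 1) := by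
    rw [hg3]
    linear_combination (-1 : K) * e3
  have E23 : 2 * H = ω * r * (g2 + g3) + κ d2 * (t * r - 1) + κ d3 * (t * r * s - 1) := by
    rw [hH]
    linear_combination E2 + E3
  -- `H` in terms of the derivatives
  have hHq : ω ≠ 0 → H = κ α * s⁻¹ ^ 2 * (ω⁻¹ * ((ω * r * g2 + κ d2 * (t * r - 1)) *
      (ω * r * g2 + κ d2 * (t * r - 1))))
      + κ β * s⁻¹ * (ω⁻¹ * ((ω * r * g2 + κ d2 * (t * r - 1)) *
      (ω * r * g3 + κ d3 * (t * r * s - 1))))
      + κ γ * (ω⁻¹ * ((ω * r * g3 + κ d3 * (t * r * s - 1)) *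
      (ω * r * g3 + κ d3 * (t * r * s - 1)))) := by
    intro hω
    rw [← E2, ← E3, hH]
    have h1 : κ b21 * s ^ 2 + κ C * s + κ b31 = κ b21 * s ^ 2 + κ C * s * 1 + κ b31 * 1 ^ 2 := by
      ring
    rw [h1, hq1]
    field_simp
  constructor
  · intro huB
    by_contra htB
    have hti : P.I t⁻¹ := inv_I htB
    have ht0 : t ≠ 0 := ne_of_not_B htB
    have h1 : (ω * r * t⁻¹) * (g2 + g3) = -(κ (2 * d1)) + (-(r * (κ d2 + κ d3 * s))
        + t⁻¹ * (κ d2 + κ d3 + 2 * κ d1 - 2 * (u * g1))) := by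
      have h2 : t * t⁻¹ = 1 := mul_inv_cancel₀ ht0
      rw [map_mul, map_ofNat]
      linear_combination (-t⁻¹) * E23 + 2 * t⁻¹ * E1
        - (2 * κ d1 + r * (κ d2 + κ d3 * s)) * h2
    have h2 : ¬ P.I ((ω * r * t⁻¹) * (g2 + g3)) := by
      rw [h1]
      apply not_I_add
      · intro h3
        have h4 := h3.neg
        rw [neg_neg] at h4
        exact hκ0 (2 * d1) (by positivity) h4
      · refine (hrI.mul ((hκB _).add ((hκB _).mul hs))).neg.add (hti.mul ?_)
        exact (((hκB _).add (hκB _)).add (h2B.mul (hκB _))).sub (h2B.mul (huB.mul g1B))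
    have h3 : ¬ P.I (ω * r * t⁻¹) := fun h => h2 (h.mul (g2B.add g3B))
    have hσ : P.B (ω * r * t⁻¹)⁻¹ := inv_B h3
    have hω0 : ω ≠ 0 := by
      rintro rfl
      rw [zero_mul, zero_mul] at h3
      exact h3 I.zero
    have hωi : ω⁻¹ = (ω * r * t⁻¹)⁻¹ * r * t⁻¹ := by
      field_simp
    have hωB : P.B ω⁻¹ := by
      rw [hωi]
      exact (hσ.mul hr).mul hti.B
    have htr : t * r = (ω * r * t⁻¹)⁻¹ * (u * s⁻¹ ^ 2) := by
      rw [← hur]
      field_simp
    have htrB : P.B (t * r) := by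
      rw [htr]
      exact hσ.mul (huB.mul (hsi.pow 2))
    have hur' : P.B (ω * r ^ 2) := by
      rw [hur]
      exact huB.mul (hsi.pow 2)
    have δ2 : P.B (κ d2 * (t * r - 1)) := (hκB _).mul (htrB.sub B.one)
    have δ3 : P.B (κ d3 * (t * r * s - 1)) := (hκB _).mul ((htrB.mul hs).sub B.one)
    have hHB : P.B H := by
      rw [hHq hω0, quad_prod hω0, quad_prod hω0, quad_prod hω0]
      apply_rules (maxDepth := 500) [B.add, B.mul, B.pow, hκB]
    apply htB
    have h5 : κ d1 * t = κ d1 - H - u * g1 := by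
      linear_combination E1
    have h6 : P.B (κ d1 * t) := by
      rw [h5]
      exact ((hκB _).sub hHB).sub (huB.mul g1B)
    exact h6.of_mul (hκ0 _ hd1.ne')
  · intro huI
    -- `t` is bounded: this is the first part
    have htB : P.B t := by
      by_contra htB
      have hti : P.I t⁻¹ := inv_I htB
      have ht0 : t ≠ 0 := ne_of_not_B htB
      have h1 : (ω * r * t⁻¹) * (g2 + g3) = -(κ (2 * d1)) + (-(r * (κ d2 + κ d3 * s))
          + t⁻¹ * (κ d2 + κ d3 + 2 * κ d1 - 2 * (u * g1))) := by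
        have h2 : t * t⁻¹ = 1 := mul_inv_cancel₀ ht0
        rw [map_mul, map_ofNat]
        linear_combination (-t⁻¹) * E23 + 2 * t⁻¹ * E1
          - (2 * κ d1 + r * (κ d2 + κ d3 * s)) * h2
      have h2 : ¬ P.I ((ω * r * t⁻¹) * (g2 + g3)) := by
        rw [h1]
        apply not_I_add
        · intro h3
          have h4 := h3.neg
          rw [neg_neg] at h4
          exact hκ0 (2 * d1) (by positivity) h4
        · refine (hrI.mul ((hκB _).add ((hκB _).mul hs))).neg.add (hti.mul ?_)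
          exact (((hκB _).add (hκB _)).add (h2B.mul (hκB _))).sub (h2B.mul (huI.B.mul g1B))
      have h3 : ¬ P.I (ω * r * t⁻¹) := fun h => h2 (h.mul (g2B.add g3B))
      have hσ : P.B (ω * r * t⁻¹)⁻¹ := inv_B h3
      have hω0 : ω ≠ 0 := by
        rintro rfl
        rw [zero_mul, zero_mul] at h3
        exact h3 I.zero
      have hωi : ω⁻¹ = (ω * r * t⁻¹)⁻¹ * r * t⁻¹ := by
        field_simp
      have hωB : P.B ω⁻¹ := by
        rw [hωi]
        exact (hσ.mul hr).mul hti.B
      have htr : t * r = (ω * r * t⁻¹)⁻¹ * (u * s⁻¹ ^ 2) := by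
        rw [← hur]
        field_simp
      have htrB : P.B (t * r) := by
        rw [htr]
        exact hσ.mul (huI.B.mul (hsi.pow 2))
      have hur' : P.B (ω * r ^ 2) := by
        rw [hur]
        exact huI.B.mul (hsi.pow 2)
      have δ2 : P.B (κ d2 * (t * r - 1)) := (hκB _).mul (htrB.sub B.one)
      have δ3 : P.B (κ d3 * (t * r * s - 1)) := (hκB _).mul ((htrB.mul hs).sub B.one)
      have hHB : P.B H := by
        rw [hHq hω0, quad_prod hω0, quad_prod hω0, quad_prod hω0]
        apply_rules (maxDepth := 500) [B.add, B.mul, B.pow, hκB]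
      apply htB
      have h5 : κ d1 * t = κ d1 - H - u * g1 := by
        linear_combination E1
      have h6 : P.B (κ d1 * t) := by
        rw [h5]
        exact ((hκB _).sub hHB).sub (huI.B.mul g1B)
      exact h6.of_mul (hκ0 _ hd1.ne')
    have htrI : P.I (t * r) := htB.mulI hrI
    have hur' : P.I (ω * r ^ 2) := by
      rw [hur]
      exact huI.mul (hsi.pow 2)
    by_cases hωr : P.I (ω * r)
    · -- `x₂` infinite
      apply hfin ((2 * d1 + (d2 + d3)) / (2 * d1)) (by positivity)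
      have h1 : κ (2 * d1) * t - κ (2 * d1 + (d2 + d3)) = -(ω * r * (g2 + g3))
          - (t * r) * (κ d2 + κ d3 * s) - 2 * (u * g1) := by
        rw [map_add, map_add, map_mul, map_ofNat]
        linear_combination (-1 : K) * E23 + 2 * E1
      have h2 : P.I (κ (2 * d1) * t - κ (2 * d1 + (d2 + d3))) := by
        rw [h1]
        exact ((hωr.mul (g2B.add g3B)).neg.sub (htrI.mul ((hκB _).add ((hκB _).mul hs)))).sub
          (h2B.mulI (huI.mul g1B))
      have h3 := lim_of_I h2 (hκ _)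
      have h2d : ((2 * d1 : ℝ) : ℂ) ≠ 0 := by
        exact_mod_cast (by positivity : (2 * d1 : ℝ) ≠ 0)
      have h4 := P.lim_div h3 (hκ (2 * d1)) h2d
      have h5 : κ (2 * d1) ≠ 0 := ne_of_not_I (hκ0 _ (by positivity))
      rw [mul_div_cancel_left₀ _ h5] at h4
      refine lim_real h4 ?_
      push_cast
      ring
    · -- `x₂` bounded
      have hω0 : ω ≠ 0 := by
        rintro rfl
        rw [zero_mul] at hωr
        exact hωr I.zero
      have hωi : ω⁻¹ = r * (ω * r)⁻¹ := by
        field_simp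
      have hωI : P.I ω⁻¹ := by
        rw [hωi]
        exact hrI.mul (inv_B hωr)
      have δ2 : P.B (κ d2 * (t * r - 1)) := (hκB _).mul (htrI.B.sub B.one)
      have δ3 : P.B (κ d3 * (t * r * s - 1)) := (hκB _).mul ((htrI.B.mul hs).sub B.one)
      have hprod : ∀ {a b δ δ' : K}, P.B a → P.B b → P.B δ → P.B δ' →
          P.I (ω⁻¹ * ((ω * r * a + δ) * (ω * r * b + δ'))) := by
        intro a b δ δ' ha hb hδ hδ'
        rw [quad_prod hω0]
        exact ((hur'.mul (ha.mul hb)).add (hrI.mul ((ha.mul hδ').add (hb.mul hδ)))).add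
          (hωI.mul (hδ.mul hδ'))
      have hHI : P.I H := by
        rw [hHq hω0]
        exact ((((hκB _).mul (hsi.pow 2)).mulI (hprod g2B g2B δ2 δ2)).add
          (((hκB _).mul hsi).mulI (hprod g2B g3B δ2 δ3))).add
          ((hκB _).mulI (hprod g3B g3B δ3 δ3))
      apply hfin 1 one_pos
      have h5 : κ d1 * (t - 1) = -H - u * g1 := by
        linear_combination E1
      have h6 : P.I (κ d1 * (t - 1)) := by
        rw [h5]
        exact hHI.neg.sub (huI.mul g1B)
      have h7 := lim_of_I (h6.of_mul (hκ0 _ hd1.ne')) P.lim_one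
      simpa using h7

/-- Case II: `s` infinitesimal, `r` not. -/
theorem core3_II (D : D3 P κ A1 A2 A3 b12 b13 b21 b23 b31 b32 C d1 d2 d3 ω r s t)
    (hrI : ¬ P.I r) (hsI : P.I s) :
    (P.I (ω * r ^ 2 * s ^ 2) → P.I (ω * r ^ 2 * s ^ 2 * t) ∧
      ∃ ζ : ℝ, 0 < ζ ∧ P.Lim (t * (κ d1 + κ d2 * r + κ d3 * r * s)) ζ) ∧
    (P.B (ω * r ^ 2 * s ^ 2) → ¬ P.I (ω * r ^ 2 * s ^ 2) → ¬ P.B t →
      P.I (κ d1 + κ d2 * r + κ d3 * r * s)) := by
  have := charZero_of_real K
  obtain ⟨hκ, hA3, h21, h31, h32, hC, hd1, hd2, hd3, hr, hs, hr0, hs0, e1, e2, e3⟩ := D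
  have hκB : ∀ r : ℝ, P.B (κ r) := fun r => ⟨_, hκ r⟩
  have hκ0 : ∀ r : ℝ, r ≠ 0 → ¬ P.I (κ r) := fun r hr => lim_ne (hκ r) (by exact_mod_cast hr)
  have h2B : P.B (2 : K) := B.ofNat 2
  have h1B : P.B (1 : K) := B.one
  have hri : P.B r⁻¹ := inv_B hrI
  set u : K := ω * r ^ 2 * s ^ 2 with hu
  have hw : ω * s ^ 2 = u * r⁻¹ ^ 2 := by
    rw [hu]
    field_simp
  set w : K := ω * s ^ 2 with hwd
  set v : K := ω * s with hv
  have hvs : v * s = w := by
    rw [hv, hwd]
    ring
  set g1 : K := κ A1 * r ^ 2 - 2 * κ b12 * r ^ 3 - 2 * κ b13 * r ^ 3 * s + κ b21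
    - κ C * r ^ 2 * s with hg1
  set g2 : K := κ A2 * r - 2 * κ b21 - 2 * κ b23 * r * s + κ b12 * r ^ 3
    - κ C * r ^ 2 * s with hg2
  set g3 : K := κ A3 * r + κ b13 * r ^ 3 * s ^ 2 + κ b23 * r * s ^ 2
    + κ C * (r ^ 2 * s ^ 2 - r ^ 2 - 1) with hg3
  have g1B : P.B g1 := by
    rw [hg1]
    apply_rules (maxDepth := 500) [B.add, B.sub, B.mul, B.pow, hκB, B.one]
  have g2B : P.B g2 := by
    rw [hg2]
    apply_rules (maxDepth := 500) [B.add, B.sub, B.mul, B.pow, hκB, B.one]
  have g3B : P.B g3 := by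
    rw [hg3]
    apply_rules (maxDepth := 500) [B.add, B.sub, B.mul, B.pow, hκB, B.one]
  have E1 : ω * κ b31 + v * (κ C * (1 - r ^ 2)) + w * g1 + κ d1 * t = κ d1 := by
    rw [hv, hwd, hg1]
    linear_combination e1
  have E2 : ω * κ b32 * r - v * (κ C * (1 - r ^ 2)) + w * g2 + κ d2 * t * r = κ d2 := by
    rw [hv, hwd, hg2]
    linear_combination e2
  have E3 : -2 * ω * (κ b31 + κ b32 * r) + v * g3 + κ d3 * t * r * s = κ d3 := by
    rw [hv, hg3]
    linear_combination e3
  have hCB : P.B (κ C * (1 - r ^ 2)) := (hκB _).mul (h1B.sub (hr.pow 2))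
  have huw : u = w * r ^ 2 := by
    rw [hu, hwd]
    ring
  by_cases hvI : P.I v
  · have hwI : P.I w := by
      rw [← hvs]
      exact hvI.mul hs
    have hts : P.I (t * s) := by
      have h1 : κ d1 * (t * s) = s * κ d1 - v * κ b31 - s * v * (κ C * (1 - r ^ 2)) - w * (s * g1)
          := by
        rw [hv]
        rw [hv] at E1
        linear_combination s * E1
      have h2 : P.I (κ d1 * (t * s)) := by
        rw [h1]
        exact (((hsI.mul (hκB _)).sub (hvI.mul (hκB _))).sub ((hs.mulI hvI).mul hCB)).sub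
          (hwI.mul (hs.mul g1B))
      exact h2.of_mul (hκ0 _ hd1.ne')
    refine ⟨fun _ => ⟨?_, (2 * d1 + 2 * d2 + d3) / 2, by positivity, ?_⟩, ?_⟩
    · have h1 : u * t = v * (r ^ 2 * (t * s)) := by
        rw [hu, hv]
        ring
      rw [h1]
      exact hvI.mul ((hr.pow 2).mulI hts).B
    · have h1 : t * (κ d1 + κ d2 * r + κ d3 * r * s) - κ ((2 * d1 + 2 * d2 + d3) / 2) =
          κ (1 / 2) * (-(v * g3) - 2 * (w * (g1 + g2)) + κ d3 * (r * (t * s))) := by
        rw [map_div₀, map_div₀, map_add, map_add, map_mul, map_mul, map_ofNat, map_one]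
        linear_combination (1 / 2 : K) * E3 + E1 + E2
      refine lim_of_I ?_ (hκ _)
      rw [h1]
      exact (hκB _).mulI (((hvI.mul g3B).neg.sub (h2B.mulI (hwI.mul (g1B.add g2B)))).add
        ((hκB _).mulI (hr.mulI hts)))
    · intro _ hun _
      exfalso
      apply hun
      rw [huw]
      exact hwI.mul (hr.pow 2)
  · have hω0 : ω ≠ 0 := by
      rintro rfl
      rw [zero_mul] at hv
      exact hvI (hv ▸ I.zero)
    have hωi : ω⁻¹ = s * v⁻¹ := by
      rw [hv]
      field_simp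
    have hωI : P.I ω⁻¹ := by
      rw [hωi]
      exact hsI.mul (inv_B hvI)
    by_cases hb : b31 = 0 ∧ b32 = 0
    · obtain ⟨hb1, hb2⟩ := hb
      subst hb1 hb2
      rw [map_zero] at E1 E2 E3
      have E12 : t * (κ d1 + κ d2 * r) = κ d1 + κ d2 - w * (g1 + g2) := by
        linear_combination E1 + E2
      constructor
      · intro huI
        have hwI : P.I w := by
          rw [hw]
          exact huI.mul (hri.pow 2)
        have hts : P.I (t * s) := by
          have h1 : κ d1 * (t * s) = s * κ d1 - w * (κ C * (1 - r ^ 2)) - w * (s * g1) := by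
            rw [← hvs]
            rw [← hvs] at E1
            linear_combination s * E1
          have h2 : P.I (κ d1 * (t * s)) := by
            rw [h1]
            exact ((hsI.mul (hκB _)).sub (hwI.mul hCB)).sub (hwI.mul (hs.mul g1B))
          exact h2.of_mul (hκ0 _ hd1.ne')
        have htB : P.B t := by
          by_contra htB
          have hε : P.I (κ d1 + κ d2 * r) := by
            have h1 : P.B (t * (κ d1 + κ d2 * r)) := by
              rw [E12]
              exact ((hκB _).add (hκB _)).sub (hwI.mul (g1B.add g2B)).B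
            exact h1.of_mul_not_B htB
          have hvB : ¬ P.B v := by
            intro hvB
            have h1 : κ d1 * t = κ d1 - v * (κ C * (1 - r ^ 2)) - w * g1 := by
              linear_combination E1
            have h2 : P.B (κ d1 * t) := by
              rw [h1]
              exact ((hκB _).sub (hvB.mul hCB)).sub (hwI.mul g1B).B
            exact htB (h2.of_mul (hκ0 _ hd1.ne'))
          have hg3I : P.I g3 := by
            have h1 : v * g3 = κ d3 - κ d3 * (r * (t * s)) := by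
              linear_combination E3
            have h2 : P.B (v * g3) := by
              rw [h1]
              exact (hκB _).sub ((hκB _).mul (hr.mulI hts).B)
            exact h2.of_mul_not_B hvB
          -- the limit of `r`
          obtain ⟨r0, hr0l⟩ := hr
          have h1 : P.Lim (κ d1 + κ d2 * r) (d1 + d2 * r0) := P.add (hκ _) (P.mul (hκ _) hr0l)
          have h2 : (d1 : ℂ) + d2 * r0 = 0 := P.uniq h1 hε
          have hd2c : (d2 : ℂ) ≠ 0 := by exact_mod_cast hd2.ne'
          have h3 : r0 = ((-(d1 / d2) : ℝ) : ℂ) := by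
            push_cast
            field_simp
            linear_combination h2
          have hs2 : P.Lim (s ^ 2) 0 := hsI.pow two_ne_zero
          have h4 : P.Lim g3 ((A3 : ℂ) * r0 + (b13 : ℂ) * r0 ^ 3 * 0 + (b23 : ℂ) * r0 * 0
              + (C : ℂ) * (r0 ^ 2 * 0 - r0 ^ 2 - 1)) := by
            rw [hg3]
            exact P.add (P.add (P.add (P.mul (hκ _) hr0l) (P.mul (P.mul (hκ _)
              (P.lim_pow hr0l 3)) hs2)) (P.mul (P.mul (hκ _) hr0l) hs2))
              (P.mul (hκ _) (P.lim_sub (P.lim_sub (P.mul (P.lim_pow hr0l 2) hs2)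
              (P.lim_pow hr0l 2)) P.lim_one))
          have h5 := P.uniq h4 hg3I
          rw [h3] at h5
          have h6 : A3 * (d1 / d2) + C * ((d1 / d2) ^ 2 + 1) = 0 := by
            have h7 : ((A3 * (d1 / d2) + C * ((d1 / d2) ^ 2 + 1) : ℝ) : ℂ) = 0 := by
              push_cast
              push_cast at h5
              linear_combination (-1 : ℂ) * h5
            exact_mod_cast h7
          have h7 : 0 ≤ A3 * (d1 / d2) := mul_nonneg hA3 (div_nonneg hd1.le hd2.le)
          have h8 : 0 ≤ C * ((d1 / d2) ^ 2 + 1) := mul_nonneg hC (by positivity)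
          have h9 : C * ((d1 / d2) ^ 2 + 1) = 0 := by linarith
          have hC0 : C = 0 := by
            rcases mul_eq_zero.1 h9 with h | h
            · exact h
            · exfalso
              have h10 : 0 < (d1 / d2) ^ 2 + 1 := by positivity
              linarith
          subst hC0
          rw [map_zero] at E1
          have h1 : κ d1 * t = κ d1 - w * g1 := by
            linear_combination E1
          have h2 : P.B (κ d1 * t) := by
            rw [h1]
            exact (hκB _).sub (hwI.mul g1B).B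
          exact htB (h2.of_mul (hκ0 _ hd1.ne'))
        refine ⟨huI.mul htB, d1 + d2, by positivity, ?_⟩
        have h1 : t * (κ d1 + κ d2 * r + κ d3 * r * s) - κ (d1 + d2) =
            -(w * (g1 + g2)) + κ d3 * (r * (t * s)) := by
          rw [map_add]
          linear_combination E12
        refine lim_of_I ?_ (hκ _)
        rw [h1]
        exact (hwI.mul (g1B.add g2B)).neg.add ((hκB _).mulI (hr.mulI hts))
      · intro huB _ htB
        have hwB : P.B w := by
          rw [hw]
          exact huB.mul (hri.pow 2)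
        have h1 : P.B (t * (κ d1 + κ d2 * r)) := by
          rw [E12]
          exact ((hκB _).add (hκB _)).sub (hwB.mul (g1B.add g2B))
        exact (h1.of_mul_not_B htB).add (((hκB _).mul hr).mulI hsI)
    · -- the leading coefficients
      set θ : K := t * ω⁻¹ with hθ
      have hωω : ω * ω⁻¹ = 1 := mul_inv_cancel₀ hω0
      have hvω : v * ω⁻¹ = s := by
        rw [hv]
        linear_combination s * hωω
      have hwω : w * ω⁻¹ = s ^ 2 := by
        rw [hwd]
        linear_combination s ^ 2 * hωω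
      have h1 : P.I (κ b31 + κ d1 * θ) := by
        have h2 : κ b31 + κ d1 * θ = ω⁻¹ * κ d1 - s * (κ C * (1 - r ^ 2)) - s * (s * g1) := by
          rw [hθ]
          linear_combination ω⁻¹ * E1 - κ b31 * hωω - (κ C * (1 - r ^ 2)) * hvω - g1 * hwω
        rw [h2]
        exact ((hωI.mul (hκB _)).sub (hsI.mul hCB)).sub (hsI.mul (hs.mul g1B))
      have h2 : P.I (κ b32 + κ d2 * θ) := by
        have h3 : r * (κ b32 + κ d2 * θ) = ω⁻¹ * κ d2 + s * (κ C * (1 - r ^ 2)) - s * (s * g2) := by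
          rw [hθ]
          linear_combination ω⁻¹ * E2 - κ b32 * r * hωω + (κ C * (1 - r ^ 2)) * hvω - g2 * hwω
        have h4 : P.I (r * (κ b32 + κ d2 * θ)) := by
          rw [h3]
          exact ((hωI.mul (hκB _)).add (hsI.mul hCB)).sub (hsI.mul (hs.mul g2B))
        exact h4.of_mul hrI
      have hbd : b31 * d2 = b32 * d1 := by
        have h3 : κ (b31 * d2 - b32 * d1) = κ d2 * (κ b31 + κ d1 * θ)
            - κ d1 * (κ b32 + κ d2 * θ) := by
          rw [map_sub, map_mul, map_mul]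
          ring
        have h4 : P.I (κ (b31 * d2 - b32 * d1)) := by
          rw [h3]
          exact ((hκB _).mulI h1).sub ((hκB _).mulI h2)
        by_contra hne
        exact hκ0 _ (sub_ne_zero.2 hne) h4
      have hθB : P.B θ := by
        have h3 : P.B (κ d1 * θ) := by
          have h4 := h1.B.sub (hκB b31)
          rwa [add_sub_cancel_left] at h4
        exact h3.of_mul (hκ0 _ hd1.ne')
      set β : ℝ := b31 / d1 with hβ
      have hb31 : b31 = β * d1 := by
        rw [hβ]
        field_simp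
      have hb32 : b32 = β * d2 := by
        rw [hβ]
        field_simp
        linarith
      have hβ0 : β ≠ 0 := by
        intro h0
        apply hb
        rw [hb31, hb32, h0]
        exact ⟨zero_mul _, zero_mul _⟩
      have hε : P.I (κ d1 + κ d2 * r) := by
        have h3 : κ (2 * β) * (κ d1 + κ d2 * r) = s * g3 + κ d3 * (θ * (r * s)) - ω⁻¹ * κ d3 := by
          have h4 : κ b31 = κ β * κ d1 := by rw [hb31, map_mul]
          have h5 : κ b32 = κ β * κ d2 := by rw [hb32, map_mul]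
          rw [hθ, map_mul, map_ofNat]
          linear_combination (-ω⁻¹) * E3 + g3 * hvω - 2 * (κ b31 + κ b32 * r) * hωω
            - 2 * h4 - 2 * r * h5
        have h4 : P.I (κ (2 * β) * (κ d1 + κ d2 * r)) := by
          rw [h3]
          exact ((hsI.mul g3B).add ((hκB _).mulI (hθB.mulI (hr.mulI hsI)))).sub
            (hωI.mul (hκB _))
        exact h4.of_mul (hκ0 _ (mul_ne_zero two_ne_zero hβ0))
      constructor
      · intro huI
        exfalso
        have hwI : P.I w := by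
          rw [hw]
          exact huI.mul (hri.pow 2)
        have h4 : κ b31 = κ β * κ d1 := by rw [hb31, map_mul]
        have h5 : κ b32 = κ β * κ d2 := by rw [hb32, map_mul]
        have hvε : P.I (v * (κ d1 + κ d2 * r)) := by
          have h3 : κ (2 * β) * (v * (κ d1 + κ d2 * r)) = w * g3 + κ d3 * (r * (θ * w)) - s * κ d3
              := by
            have h6 : θ * w = t * s ^ 2 := by
              rw [hθ]
              linear_combination t * hwω
            rw [h6, map_mul, map_ofNat, ← hvs, hv]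
            rw [hv] at E3
            linear_combination (-s) * E3 - 2 * (ω * s) * h4 - 2 * (ω * s) * r * h5
          have h6 : P.I (κ (2 * β) * (v * (κ d1 + κ d2 * r))) := by
            rw [h3]
            exact ((hwI.mul g3B).add ((hκB _).mulI (hr.mulI (hθB.mulI hwI)))).sub
              (hsI.mul (hκB _))
          exact h6.of_mul (hκ0 _ (mul_ne_zero two_ne_zero hβ0))
        have h6 : P.I ((ω * κ β + t) * (κ d1 + κ d2 * r)) := by
          have h7 : κ d1 * ((ω * κ β + t) * (κ d1 + κ d2 * r)) = (κ d1 + κ d2 * r) * κ d1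
              - (v * (κ d1 + κ d2 * r)) * (κ C * (1 - r ^ 2)) - w * (g1 * (κ d1 + κ d2 * r)) := by
            linear_combination (κ d1 + κ d2 * r) * E1 - ω * (κ d1 + κ d2 * r) * h4
          have h8 : P.I (κ d1 * ((ω * κ β + t) * (κ d1 + κ d2 * r))) := by
            rw [h7]
            exact ((hε.mul (hκB _)).sub (hvε.mul hCB)).sub (hwI.mul (g1B.mul hε.B))
          exact h8.of_mul (hκ0 _ hd1.ne')
        have h7 : κ (d1 + d2) = (ω * κ β + t) * (κ d1 + κ d2 * r) + w * (g1 + g2) := by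
          rw [map_add]
          linear_combination (-1 : K) * E1 - E2 + ω * h4 + ω * r * h5
        have h8 : P.I (κ (d1 + d2)) := by
          rw [h7]
          exact h6.add (hwI.mul (g1B.add g2B))
        exact hκ0 _ (by positivity) h8
      · intro _ _ _
        exact hε.add (((hκB _).mul hr).mulI hsI)

/-- The basic block with three summands. -/
theorem core3 (D : D3 P κ A1 A2 A3 b12 b13 b21 b23 b31 b32 C d1 d2 d3 ω r s t) :
    (P.I (ω * r ^ 2 * s ^ 2) → P.I (ω * r ^ 2 * s ^ 2 * t) ∧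
      ∃ ζ : ℝ, 0 < ζ ∧ P.Lim (t * (κ d1 + κ d2 * r + κ d3 * r * s)) ζ) ∧
    (P.B (ω * r ^ 2 * s ^ 2) → ¬ P.I (ω * r ^ 2 * s ^ 2) → ¬ P.B t →
      P.I (κ d1 + κ d2 * r + κ d3 * r * s)) := by
  have key : ((P.B (ω * r ^ 2 * s ^ 2) → P.B t) ∧ (P.I (ω * r ^ 2 * s ^ 2) →
      ∃ ζ : ℝ, 0 < ζ ∧ P.Lim (t * (κ d1 + κ d2 * r + κ d3 * r * s)) ζ)) →
      (P.I (ω * r ^ 2 * s ^ 2) → P.I (ω * r ^ 2 * s ^ 2 * t) ∧
      ∃ ζ : ℝ, 0 < ζ ∧ P.Lim (t * (κ d1 + κ d2 * r + κ d3 * r * s)) ζ) ∧
      (P.B (ω * r ^ 2 * s ^ 2) → ¬ P.I (ω * r ^ 2 * s ^ 2) → ¬ P.B t →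
        P.I (κ d1 + κ d2 * r + κ d3 * r * s)) := fun h =>
    ⟨fun hI => ⟨hI.mul (h.1 hI.B), h.2 hI⟩, fun hB _ ht => absurd (h.1 hB) ht⟩
  by_cases hr : P.I r
  · by_cases hs : P.I s
    · exact key (core3_IV D hr hs)
    · exact key (core3_III D hr hs)
  · by_cases hs : P.I s
    · exact core3_II D hr hs
    · exact key (core3_I D hr hs)

end Pl

end Pool.Agent.H.MP_deabf1_gt
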