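import Pool.Agent.H.MP_deabf1_gt.WB
import Pool.Agent.H.MP_deabf1_gt.WD
import Pool.Agent.H.MP_deabf1_gt.PDefs

/-!
The Einstein equations on a set of summands, with a parameter.
-/

namespace Pool.Agent.H.MP_deabf1_gt

namespace Pl

variable {K : Type*} [Field K] [Algebra ℝ K] (P : Pl K) {ι : Type*} [DecidableEq ι]

/-- The term of the Einstein equation with index `i` belonging to the pair `j`, `k`. -/
def term (x : ι → K) (i j k : ι) : K :=
  2 * (x i)⁻¹ + x i * (x j)⁻¹ * (x k)⁻¹ - x j * (x i)⁻¹ * (x k)⁻¹ - x k * (x i)⁻¹ * (x j)⁻¹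

/-- The Einstein equations for the summands in `c`, with the parameter `y`. -/
def Sys (T : ι → ι → ι → ℝ) (γ d : ι → ℝ) (c : Finset ι) (x : ι → K) (y : K) : Prop :=
  ∀ i ∈ c, x i ≠ 0 ∧ algebraMap ℝ K (γ i) * (x i)⁻¹ +
    1 / 4 * ∑ j ∈ c, ∑ k ∈ c, algebraMap ℝ K (T i j k) * term x i j k +
    algebraMap ℝ K (d i) * x i * y = algebraMap ℝ K (d i)

/-- The behaviour of the solutions for the summands in `c` at infinity. -/
def Good (T : ι → ι → ι → ℝ) (γ d : ι → ℝ) (c : Finset ι) : Prop :=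
  ∀ (x : ι → K) (y : K), Sys T γ d c x y →
    ((∃ i ∈ c, ¬ P.B (x i)) → P.I y ∧
      ∃ ζ : ℝ, 0 < ζ ∧ P.Lim (y * ∑ i ∈ c, algebraMap ℝ K (d i) * x i) ζ) ∧
    (¬ P.B y → P.I (∑ i ∈ c, algebraMap ℝ K (d i) * x i))

variable {P}

/-- One summand. -/
theorem good1 {T : ι → ι → ι → ℝ} {γ d : ι → ℝ} {a : ι} (hd : 0 < d a) : P.Good T γ d {a} := by
  have := charZero_of_real K
  intro x y hS
  obtain ⟨hx, h1⟩ := hS a (Finset.mem_singleton_self a)
  simp only [Finset.sum_singleton] at h1 ⊢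
  have h2 := merge (P := P) (ι := ι) (s := ∅) (τ := fun _ => 1) (A := algebraMap ℝ K (γ a)
    + algebraMap ℝ K (T a a a) / 4) (d := d a) (X := fun _ => 0) (Y := fun _ => 0) (x := x a)
    (y := y) (fun _ _ => one_pos) ((B.cst _).add (by
      have h3 : algebraMap ℝ K (T a a a) / 4 = algebraMap ℝ K (T a a a / 4) := by
        rw [map_div₀, map_ofNat]
      rw [h3]
      exact B.cst _)) hd hx (by simp) (by
      rw [Finset.sum_empty]
      unfold term at h1
      have h3 : (x a)⁻¹ * x a = 1 := inv_mul_cancel₀ hx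
      linear_combination h1 + (1 / 4 * algebraMap ℝ K (T a a a) * (x a)⁻¹) * h3) (by simp) (by simp)
  rw [Finset.sum_empty, add_zero] at h2
  refine ⟨?_, h2.2⟩
  rintro ⟨i, hi, hiB⟩
  rw [Finset.mem_singleton] at hi
  subst hi
  exact h2.1 (Or.inl hiB)

theorem B_total (P : Pl K) (a b : K) :
    P.B (b * a⁻¹) ∨ P.B (a * b⁻¹) := by
  by_cases h : P.B (b * a⁻¹)
  · exact Or.inl h
  · right
    have h1 := (inv_I h).B
    rwa [mul_inv, inv_inv, mul_comm] at h1

theorem B_trans {a b c : K} (hb : b ≠ 0) (h1 : P.B (b * a⁻¹)) (h2 : P.B (c * b⁻¹)) :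
    P.B (c * a⁻¹) := by
  have h3 := h2.mul h1
  have h4 : c * b⁻¹ * (b * a⁻¹) = c * a⁻¹ := by
    field_simp
  rwa [h4] at h3

theorem not_B_of_ratio {a b : K} (ha : a ≠ 0) (h : P.B (b * a⁻¹)) (hb : ¬ P.B b) : ¬ P.B a := by
  intro h1
  apply hb
  have h2 := h.mul h1
  rwa [inv_mul_cancel_right₀ ha] at h2

/-- Two summands, ordered. -/
theorem good2' {T : ι → ι → ι → ℝ} (hT : Sym T) {γ d : ι → ℝ} {a b : ι} (hab : a ≠ b)
    (hda : 0 < d a) (hdb : 0 < d b) {x : ι → K} {y : K} (hS : Sys T γ d {a, b} x y)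
    (hr : P.B (x b * (x a)⁻¹)) :
    ((∃ i ∈ ({a, b} : Finset ι), ¬ P.B (x i)) → P.I y ∧
      ∃ ζ : ℝ, 0 < ζ ∧ P.Lim (y * ∑ i ∈ {a, b}, algebraMap ℝ K (d i) * x i) ζ) ∧
    (¬ P.B y → P.I (∑ i ∈ {a, b}, algebraMap ℝ K (d i) * x i)) := by
  have := charZero_of_real K
  obtain ⟨hxa0, ha⟩ := hS a (by simp)
  obtain ⟨hxb0, hb⟩ := hS b (by simp)
  simp only [Finset.sum_pair hab] at ha hb ⊢
  have taba : T a b a = T a a b := (hT.2 a b a)
  have tabb : T a b b = T b b a := ((hT.1 a b b).trans (hT.2 b a b))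
  have tbaa : T b a a = T a a b := ((hT.1 b a a).trans (hT.2 a b a))
  have tbab : T b a b = T b b a := (hT.2 b a b)
  obtain ⟨r, hrd⟩ : ∃ r, r = x b * (x a)⁻¹ := ⟨_, rfl⟩
  rw [← hrd] at hr
  have hr0 : r ≠ 0 := by
    rw [hrd]
    exact mul_ne_zero hxb0 (inv_ne_zero hxa0)
  obtain ⟨ω, hω⟩ : ∃ ω, ω = (x a)⁻¹ * r⁻¹ ^ 2 := ⟨_, rfl⟩
  have hω0 : ω ≠ 0 := by
    rw [hω]
    exact mul_ne_zero (inv_ne_zero hxa0) (pow_ne_zero _ (inv_ne_zero hr0))
  have hxa : x a = (ω * r ^ 2)⁻¹ := by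
    rw [hω]
    field_simp
  have hxb : x b = (ω * r)⁻¹ := by
    have h1 : x b = x a * r := by
      rw [hrd]
      field_simp
    rw [h1, hω]
    field_simp
  have haaa : term x a a a = ω * r ^ 2 := by
    unfold term
    rw [hxa]
    field_simp
    try ring
  have haab : term x a a b = 2 * (ω * r ^ 2) - ω * r ^ 3 := by
    unfold term
    rw [hxa, hxb]
    field_simp
    try ring
  have haba : term x a b a = 2 * (ω * r ^ 2) - ω * r ^ 3 := by
    unfold term
    rw [hxa, hxb]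
    field_simp
    try ring
  have habb : term x a b b = ω := by
    unfold term
    rw [hxa, hxb]
    field_simp
    try ring
  have hbaa : term x b a a = ω * r ^ 3 := by
    unfold term
    rw [hxb, hxa]
    field_simp
    try ring
  have hbab : term x b a b = 2 * (ω * r) - ω := by
    unfold term
    rw [hxb, hxa]
    field_simp
    try ring
  have hbba : term x b b a = 2 * (ω * r) - ω := by
    unfold term
    rw [hxb, hxa]
    field_simp
    try ring
  have hbbb : term x b b b = ω * r := by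
    unfold term
    rw [hxb]
    field_simp
    try ring
  simp only [taba, tabb, tbaa, tbab] at ha hb
  simp only [haaa, haab, haba, habb, hbaa, hbab, hbba, hbbb] at ha hb
  obtain ⟨t, ht⟩ : ∃ t, t = x a * y := ⟨_, rfl⟩
  obtain ⟨κ, hκ⟩ : ∃ κ : ℝ →+* K, κ = algebraMap ℝ K := ⟨_, rfl⟩
  rw [← hκ] at ha hb ⊢
  have hκl : ∀ r : ℝ, P.Lim (κ r) r := by
    rw [hκ]
    exact P.cst
  have hκB : ∀ r : ℝ, P.B (κ r) := fun r => ⟨_, hκl r⟩
  have hu : ω * r ^ 2 = (x a)⁻¹ := by
    rw [hxa, inv_inv]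
  have hxb' : x b = x a * r := by
    rw [hrd]
    field_simp
  have h := core2 (P := P) (κ := κ) hκl
    (A1 := γ a + T a a a / 4 + T a a b) (A2 := γ b + T b b b / 4 + T b b a)
    (b12 := T a a b / 4) (b21 := T b b a / 4) (d1 := d a) (d2 := d b) hda hdb (ω := ω) (r := r)
    (t := t) hr
  rw [hu] at h
  have h1 : ω * (κ (γ a + T a a a / 4 + T a a b) * r ^ 2 - 2 * κ (T a a b / 4) * r ^ 3
      + κ (T b b a / 4)) + κ (d a) * t = κ (d a) := by
    simp only [map_add, map_div₀, map_ofNat]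
    rw [hxa, inv_inv] at ha
    rw [ht, hxa]
    linear_combination ha
  have h2 : ω * (κ (γ b + T b b b / 4 + T b b a) * r - 2 * κ (T b b a / 4)
      + κ (T a a b / 4) * r ^ 3) + κ (d b) * t * r = κ (d b) := by
    simp only [map_add, map_div₀, map_ofNat]
    rw [hxb'] at hb
    rw [← hxb', hxb, inv_inv] at hb
    rw [ht]
    have h3 : (ω * r)⁻¹ = x a * r := by rw [← hxb, hxb']
    rw [h3] at hb
    linear_combination hb
  have hX : κ (d a) * x a + κ (d b) * x b = x a * (κ (d a) + κ (d b) * r) := by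
    rw [hxb']
    ring
  have hyX : y * (κ (d a) * x a + κ (d b) * x b) = t * (κ (d a) + κ (d b) * r) := by
    rw [hX, ht]
    ring
  have hXB : P.B (κ (d a) + κ (d b) * r) := (hκB _).add ((hκB _).mul hr)
  have hyt : y = (x a)⁻¹ * t := by
    rw [ht]
    field_simp
  constructor
  · rintro ⟨i, hi, hiB⟩
    have hxaB : ¬ P.B (x a) := by
      rw [Finset.mem_insert, Finset.mem_singleton] at hi
      rcases hi with rfl | rfl
      · exact hiB
      · exact not_B_of_ratio hxa0 (by rw [← hrd]; exact hr) hiB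
    have huI := inv_I hxaB
    obtain ⟨h3, h4⟩ := h huI.B h1 h2
    rw [hyX]
    refine ⟨?_, h4 huI⟩
    rw [hyt]
    exact huI.mul h3
  · intro hy
    rw [hX]
    refine I.mul ?_ hXB
    by_contra hxI
    have huB := inv_B hxI
    obtain ⟨h3, -⟩ := h huB h1 h2
    apply hy
    rw [hyt]
    exact huB.mul h3

/-- Three summands, ordered. -/
theorem good3' {T : ι → ι → ι → ℝ} (hT : Sym T) (hT0 : ∀ i j k, 0 ≤ T i j k) {γ d : ι → ℝ}
    (hγ : ∀ i, 0 ≤ γ i) {a b c : ι} (hab : a ≠ b) (hac : a ≠ c) (hbc : b ≠ c)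
    (hd : ∀ i, 0 < d i) {x : ι → K} {y : K} (hS : Sys T γ d {a, b, c} x y)
    (hr : P.B (x b * (x a)⁻¹)) (hs : P.B (x c * (x b)⁻¹)) :
    ((∃ i ∈ ({a, b, c} : Finset ι), ¬ P.B (x i)) → P.I y ∧
      ∃ ζ : ℝ, 0 < ζ ∧ P.Lim (y * ∑ i ∈ {a, b, c}, algebraMap ℝ K (d i) * x i) ζ) ∧
    (¬ P.B y → P.I (∑ i ∈ {a, b, c}, algebraMap ℝ K (d i) * x i)) := by
  have := charZero_of_real K
  obtain ⟨hxa0, ha⟩ := hS a (by simp)
  obtain ⟨hxb0, hb⟩ := hS b (by simp)
  obtain ⟨hxc0, hc⟩ := hS c (by simp)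
  have hsum : ∀ f : ι → K, ∑ i ∈ ({a, b, c} : Finset ι), f i = f a + f b + f c := by
    intro f
    rw [Finset.sum_insert (by simp [hab, hac]), Finset.sum_pair hbc]
    ring
  simp only [hsum] at ha hb hc ⊢
  have taba : T a b a = T a a b := (hT.2 a b a)
  have tabb : T a b b = T b b a := ((hT.1 a b b).trans (hT.2 b a b))
  have taca : T a c a = T a a c := (hT.2 a c a)
  have tacb : T a c b = T a b c := (hT.2 a c b)
  have tacc : T a c c = T c c a := ((hT.1 a c c).trans (hT.2 c a c))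
  have tbaa : T b a a = T a a b := ((hT.1 b a a).trans (hT.2 a b a))
  have tbab : T b a b = T b b a := (hT.2 b a b)
  have tbac : T b a c = T a b c := (hT.1 b a c)
  have tbca : T b c a = T a b c := ((hT.2 b c a).trans (hT.1 b a c))
  have tbcb : T b c b = T b b c := (hT.2 b c b)
  have tbcc : T b c c = T c c b := ((hT.1 b c c).trans (hT.2 c b c))
  have tcaa : T c a a = T a a c := ((hT.1 c a a).trans (hT.2 a c a))
  have tcab : T c a b = T a b c := ((hT.1 c a b).trans (hT.2 a c b))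
  have tcac : T c a c = T c c a := (hT.2 c a c)
  have tcba : T c b a = T a b c := (((hT.1 c b a).trans (hT.2 b c a)).trans (hT.1 b a c))
  have tcbb : T c b b = T b b c := ((hT.1 c b b).trans (hT.2 b c b))
  have tcbc : T c b c = T c c b := (hT.2 c b c)
  obtain ⟨r, hrd⟩ : ∃ r, r = x b * (x a)⁻¹ := ⟨_, rfl⟩
  obtain ⟨s, hsd⟩ : ∃ s, s = x c * (x b)⁻¹ := ⟨_, rfl⟩
  rw [← hrd] at hr
  rw [← hsd] at hs
  have hr0 : r ≠ 0 := by
    rw [hrd]
    exact mul_ne_zero hxb0 (inv_ne_zero hxa0)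
  have hs0 : s ≠ 0 := by
    rw [hsd]
    exact mul_ne_zero hxc0 (inv_ne_zero hxb0)
  obtain ⟨ω, hω⟩ : ∃ ω, ω = (x a)⁻¹ * r⁻¹ ^ 2 * s⁻¹ ^ 2 := ⟨_, rfl⟩
  have hω0 : ω ≠ 0 := by
    rw [hω]
    exact mul_ne_zero (mul_ne_zero (inv_ne_zero hxa0) (pow_ne_zero _ (inv_ne_zero hr0)))
      (pow_ne_zero _ (inv_ne_zero hs0))
  have hxb' : x b = x a * r := by
    rw [hrd]
    field_simp
  have hxc' : x c = x a * r * s := by
    rw [← hxb', hsd]
    field_simp
  have hxa : x a = (ω * r ^ 2 * s ^ 2)⁻¹ := by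
    rw [hω]
    field_simp
  have hxb : x b = (ω * r * s ^ 2)⁻¹ := by
    rw [hxb', hω]
    field_simp
  have hxc : x c = (ω * r * s)⁻¹ := by
    rw [hxc', hω]
    field_simp
  have haaa : term x a a a = ω * r ^ 2 * s ^ 2 := by
    unfold term
    rw [hxa]
    field_simp
    try ring
  have haab : term x a a b = 2 * (ω * r ^ 2 * s ^ 2) - ω * r ^ 3 * s ^ 2 := by
    unfold term
    rw [hxa, hxb]
    field_simp
    try ring
  have haac : term x a a c = 2 * (ω * r ^ 2 * s ^ 2) - ω * r ^ 3 * s ^ 3 := by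
    unfold term
    rw [hxa, hxc]
    field_simp
    try ring
  have haba : term x a b a = 2 * (ω * r ^ 2 * s ^ 2) - ω * r ^ 3 * s ^ 2 := by
    unfold term
    rw [hxa, hxb]
    field_simp
    try ring
  have habb : term x a b b = ω * s ^ 2 := by
    unfold term
    rw [hxa, hxb]
    field_simp
    try ring
  have habc : term x a b c = 2 * (ω * r ^ 2 * s ^ 2) + ω * s - ω * r ^ 2 * s - ω * r ^ 2 * s ^ 3 := by
    unfold term
    rw [hxa, hxb, hxc]
    field_simp
    try ring
  have haca : term x a c a = 2 * (ω * r ^ 2 * s ^ 2) - ω * r ^ 3 * s ^ 3 := by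
    unfold term
    rw [hxa, hxc]
    field_simp
    try ring
  have hacb : term x a c b = 2 * (ω * r ^ 2 * s ^ 2) + ω * s - ω * r ^ 2 * s ^ 3 - ω * r ^ 2 * s := by
    unfold term
    rw [hxa, hxc, hxb]
    field_simp
    try ring
  have hacc : term x a c c = ω := by
    unfold term
    rw [hxa, hxc]
    field_simp
    try ring
  have hbaa : term x b a a = ω * r ^ 3 * s ^ 2 := by
    unfold term
    rw [hxb, hxa]
    field_simp
    try ring
  have hbab : term x b a b = 2 * (ω * r * s ^ 2) - ω * s ^ 2 := by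
    unfold term
    rw [hxb, hxa]
    field_simp
    try ring
  have hbac : term x b a c = 2 * (ω * r * s ^ 2) + ω * r ^ 2 * s - ω * s - ω * r ^ 2 * s ^ 3 := by
    unfold term
    rw [hxb, hxa, hxc]
    field_simp
    try ring
  have hbba : term x b b a = 2 * (ω * r * s ^ 2) - ω * s ^ 2 := by
    unfold term
    rw [hxb, hxa]
    field_simp
    try ring
  have hbbb : term x b b b = ω * r * s ^ 2 := by
    unfold term
    rw [hxb]
    field_simp
    try ring
  have hbbc : term x b b c = 2 * (ω * r * s ^ 2) - ω * r * s ^ 3 := by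
    unfold term
    rw [hxb, hxc]
    field_simp
    try ring
  have hbca : term x b c a = 2 * (ω * r * s ^ 2) + ω * r ^ 2 * s - ω * r ^ 2 * s ^ 3 - ω * s := by
    unfold term
    rw [hxb, hxc, hxa]
    field_simp
    try ring
  have hbcb : term x b c b = 2 * (ω * r * s ^ 2) - ω * r * s ^ 3 := by
    unfold term
    rw [hxb, hxc]
    field_simp
    try ring
  have hbcc : term x b c c = ω * r := by
    unfold term
    rw [hxb, hxc]
    field_simp
    try ring
  have hcaa : term x c a a = ω * r ^ 3 * s ^ 3 := by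
    unfold term
    rw [hxc, hxa]
    field_simp
    try ring
  have hcab : term x c a b = 2 * (ω * r * s) + ω * r ^ 2 * s ^ 3 - ω * s - ω * r ^ 2 * s := by
    unfold term
    rw [hxc, hxa, hxb]
    field_simp
    try ring
  have hcac : term x c a c = 2 * (ω * r * s) - ω := by
    unfold term
    rw [hxc, hxa]
    field_simp
    try ring
  have hcba : term x c b a = 2 * (ω * r * s) + ω * r ^ 2 * s ^ 3 - ω * r ^ 2 * s - ω * s := by
    unfold term
    rw [hxc, hxb, hxa]
    field_simp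
    try ring
  have hcbb : term x c b b = ω * r * s ^ 3 := by
    unfold term
    rw [hxc, hxb]
    field_simp
    try ring
  have hcbc : term x c b c = 2 * (ω * r * s) - ω * r := by
    unfold term
    rw [hxc, hxb]
    field_simp
    try ring
  have hcca : term x c c a = 2 * (ω * r * s) - ω := by
    unfold term
    rw [hxc, hxa]
    field_simp
    try ring
  have hccb : term x c c b = 2 * (ω * r * s) - ω * r := by
    unfold term
    rw [hxc, hxb]
    field_simp
    try ring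
  have hccc : term x c c c = ω * r * s := by
    unfold term
    rw [hxc]
    field_simp
    try ring
  simp only [taba, tabb, taca, tacb, tacc, tbaa, tbab, tbac, tbca, tbcb, tbcc, tcaa, tcab, tcac, tcba, tcbb, tcbc] at ha hb hc
  simp only [haaa, haab, haac, haba, habb, habc, haca, hacb, hacc, hbaa, hbab, hbac, hbba, hbbb, hbbc, hbca, hbcb, hbcc, hcaa, hcab, hcac, hcba, hcbb, hcbc, hcca, hccb, hccc] at ha hb hc
  obtain ⟨t, ht⟩ : ∃ t, t = x a * y := ⟨_, rfl⟩
  obtain ⟨κ, hκ⟩ : ∃ κ : ℝ →+* K, κ = algebraMap ℝ K := ⟨_, rfl⟩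
  rw [← hκ] at ha hb hc ⊢
  have hκl : ∀ r : ℝ, P.Lim (κ r) r := by
    rw [hκ]
    exact P.cst
  have hκB : ∀ r : ℝ, P.B (κ r) := fun r => ⟨_, hκl r⟩
  have hu : ω * r ^ 2 * s ^ 2 = (x a)⁻¹ := by
    rw [hxa, inv_inv]
  have hD : D3 P κ (γ a + T a a a / 4 + T a a b + T a a c + T a b c)
      (γ b + T b b b / 4 + T b b a + T b b c + T a b c)
      (γ c + T c c c / 4 + T c c a + T c c b + T a b c)
      (T a a b / 4) (T a a c / 4) (T b b a / 4) (T b b c / 4) (T c c a / 4) (T c c b / 4)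
      (T a b c / 2) (d a) (d b) (d c) ω r s t := by
    have hua : (x a)⁻¹ = ω * r ^ 2 * s ^ 2 := by rw [hxa, inv_inv]
    have hub : (x b)⁻¹ = ω * r * s ^ 2 := by rw [hxb, inv_inv]
    have huc : (x c)⁻¹ = ω * r * s := by rw [hxc, inv_inv]
    rw [hua] at ha
    rw [hub, hxb'] at hb
    rw [huc, hxc'] at hc
    refine ⟨hκl, ?_, ?_, ?_, ?_, ?_, hd a, hd b, hd c, hr, hs, hr0, hs0, ?_, ?_, ?_⟩
    · have := hT0 c c c
      have := hT0 c c a
      have := hT0 c c b
      have := hT0 a b c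
      have := hγ c
      positivity
    · exact div_nonneg (hT0 _ _ _) (by norm_num)
    · exact div_nonneg (hT0 _ _ _) (by norm_num)
    · exact div_nonneg (hT0 _ _ _) (by norm_num)
    · exact div_nonneg (hT0 _ _ _) (by norm_num)
    · simp only [map_add, map_div₀, map_ofNat]
      rw [ht]
      linear_combination ha
    · simp only [map_add, map_div₀, map_ofNat]
      rw [ht]
      linear_combination hb
    · simp only [map_add, map_div₀, map_ofNat]
      rw [ht]
      linear_combination hc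
  have h := core3 hD
  rw [hu] at h
  have hX : κ (d a) * x a + κ (d b) * x b + κ (d c) * x c =
      x a * (κ (d a) + κ (d b) * r + κ (d c) * r * s) := by
    rw [hxb', hxc']
    ring
  have hyX : y * (κ (d a) * x a + κ (d b) * x b + κ (d c) * x c) =
      t * (κ (d a) + κ (d b) * r + κ (d c) * r * s) := by
    rw [hX, ht]
    ring
  have hXB : P.B (κ (d a) + κ (d b) * r + κ (d c) * r * s) :=
    ((hκB _).add ((hκB _).mul hr)).add (((hκB _).mul hr).mul hs)
  have hyt : y = (x a)⁻¹ * t := by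
    rw [ht]
    field_simp
  constructor
  · rintro ⟨i, hi, hiB⟩
    have hxaB : ¬ P.B (x a) := by
      rw [Finset.mem_insert, Finset.mem_insert, Finset.mem_singleton] at hi
      rcases hi with rfl | rfl | rfl
      · exact hiB
      · exact not_B_of_ratio hxa0 (by rw [← hrd]; exact hr) hiB
      · refine not_B_of_ratio hxa0 (B_trans hxb0 (a := x a) (b := x b) ?_ ?_) hiB
        · rw [← hrd]
          exact hr
        · rw [← hsd]
          exact hs
    have huI := inv_I hxaB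
    obtain ⟨h3, h4⟩ := h.1 huI
    rw [hyX]
    refine ⟨?_, h4⟩
    rw [hyt]
    exact h3
  · intro hy
    rw [hX]
    by_cases hxI : P.I (x a)
    · exact hxI.mul hXB
    · have huB := inv_B hxI
      by_cases huI : P.I (x a)⁻¹
      · exfalso
        apply hy
        rw [hyt]
        exact (h.1 huI).1.B
      · have hxB : P.B (x a) := by
          have h5 := inv_B huI
          rwa [inv_inv] at h5
        apply hxB.mulI
        apply h.2 huB huI
        intro htB
        apply hy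
        rw [hyt]
        exact huB.mul htB

/-- At most three summands. -/
theorem good_base {T : ι → ι → ι → ℝ} (hT : Sym T) (hT0 : ∀ i j k, 0 ≤ T i j k) {γ d : ι → ℝ}
    (hγ : ∀ i, 0 ≤ γ i) (hd : ∀ i, 0 < d i) {c : Finset ι} (hc : c.card ≤ 3) : P.Good T γ d c := by
  have h0 : c.card = 0 ∨ c.card = 1 ∨ c.card = 2 ∨ c.card = 3 := by omega
  rcases h0 with h | h | h | h
  · rw [Finset.card_eq_zero] at h
    subst h
    intro x y _
    refine ⟨?_, fun _ => ?_⟩
    · rintro ⟨i, hi, -⟩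
      exact absurd hi (Finset.notMem_empty i)
    · rw [Finset.sum_empty]
      exact I.zero
  · obtain ⟨a, rfl⟩ := Finset.card_eq_one.1 h
    exact good1 (hd a)
  · obtain ⟨a, b, hab, rfl⟩ := Finset.card_eq_two.1 h
    intro x y hS
    rcases B_total P (x a) (x b) with h1 | h1
    · exact good2' hT hab (hd a) (hd b) hS h1
    · rw [Finset.pair_comm] at hS ⊢
      exact good2' hT hab.symm (hd b) (hd a) hS h1
  · obtain ⟨a, b, c, hab, hac, hbc, rfl⟩ := Finset.card_eq_three.1 h
    intro x y hS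
    have key : ∀ a' b' c' : ι, a' ≠ b' → a' ≠ c' → b' ≠ c' →
        ({a', b', c'} : Finset ι) = {a, b, c} → P.B (x b' * (x a')⁻¹) → P.B (x c' * (x b')⁻¹) →
        ((∃ i ∈ ({a, b, c} : Finset ι), ¬ P.B (x i)) → P.I y ∧
          ∃ ζ : ℝ, 0 < ζ ∧ P.Lim (y * ∑ i ∈ {a, b, c}, algebraMap ℝ K (d i) * x i) ζ) ∧
        (¬ P.B y → P.I (∑ i ∈ {a, b, c}, algebraMap ℝ K (d i) * x i)) := by
      intro a' b' c' h1 h2 h3 h4 h5 h6
      rw [← h4] at hS ⊢
      exact good3' hT hT0 hγ h1 h2 h3 hd hS h5 h6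
    rcases B_total P (x a) (x b) with h1 | h1 <;> rcases B_total P (x b) (x c) with h2 | h2 <;>
      rcases B_total P (x a) (x c) with h3 | h3
    · exact key a b c hab hac hbc rfl h1 h2
    · exact key a b c hab hac hbc rfl h1 h2
    · exact key a c b hac hab hbc.symm (by ext; simp; tauto) h3 h2
    · exact key c a b hac.symm hbc.symm hab (by ext; simp; tauto) h3 h1
    · exact key b a c hab.symm hbc hac (by ext; simp; tauto) h1 h3
    · exact key b c a hbc hab.symm hac.symm (by ext; simp; tauto) h2 h3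
    · exact key c b a hbc.symm hac.symm hab.symm (by ext; simp; tauto) h2 h1
    · exact key c b a hbc.symm hac.symm hab.symm (by ext; simp; tauto) h2 h1

end Pl

end Pool.Agent.H.MP_deabf1_gt
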