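import Pool.Agent.H.MP_deabf1_gt.WE

/-!
Merging components under one summand.
-/

namespace Pool.Agent.H.MP_deabf1_gt

namespace Pl

variable {K : Type*} [Field K] [Algebra ℝ K] {P : Pl K} {ι : Type*} [DecidableEq ι]

theorem term_self {x : ι → K} {i : ι} (hi : x i ≠ 0) : term x i i i = (x i)⁻¹ := by
  unfold term
  field_simp
  ring

theorem term_iij {x : ι → K} {i j : ι} (hi : x i ≠ 0) :
    term x i i j = 2 * (x i)⁻¹ - x j * (x i)⁻¹ ^ 2 := by
  unfold term
  field_simp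
  ring

theorem term_iji {x : ι → K} {i j : ι} (hi : x i ≠ 0) :
    term x i j i = 2 * (x i)⁻¹ - x j * (x i)⁻¹ ^ 2 := by
  unfold term
  field_simp
  ring

theorem term_ijj {x : ι → K} {i j : ι} (hj : x j ≠ 0) :
    term x i j j = x i * (x j)⁻¹ ^ 2 := by
  unfold term
  have h : x j * (x j)⁻¹ = 1 := mul_inv_cancel₀ hj
  linear_combination (-2 * (x i)⁻¹) * h

/-- A solution for a set `c` which is closed under the structure constants inside of `C`, apart from
the summand `j`. -/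
theorem sys_child {T : ι → ι → ι → ℝ} (hT : Sym T) {γ d : ι → ℝ} (hd : ∀ i, 0 < d i)
    {C c : Finset ι} {j : ι} (hc : c ⊆ C) (hjC : j ∈ C) (hjc : j ∉ c)
    (h1 : ∀ i ∈ c, ∀ k ∈ C, k ≠ j → ∀ l ∈ C, l ≠ j → T i k l ≠ 0 → k ∈ c)
    (h2 : ∀ i ∈ c, ∀ k ∈ C, k ≠ j → T i k j = 0) {τ : ℝ} (h3 : ∀ i ∈ c, T i j j = τ * d i)
    {x : ι → K} {y : K} (hS : Sys T γ d C x y) :
    Sys T γ d c x (y + algebraMap ℝ K τ / 4 * (x j)⁻¹ ^ 2) := by
  have := charZero_of_real K
  intro i hi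
  obtain ⟨hxi, h4⟩ := hS i (hc hi)
  have hxj : x j ≠ 0 := (hS j hjC).1
  refine ⟨hxi, ?_⟩
  have h5 : ∑ k ∈ C, ∑ l ∈ C, algebraMap ℝ K (T i k l) * term x i k l =
      ∑ k ∈ c, ∑ l ∈ c, algebraMap ℝ K (T i k l) * term x i k l
        + algebraMap ℝ K (T i j j) * term x i j j := by
    have h6 : ∀ k ∈ C, k ≠ j → ∑ l ∈ C, algebraMap ℝ K (T i k l) * term x i k l =
        if k ∈ c then ∑ l ∈ c, algebraMap ℝ K (T i k l) * term x i k l else 0 := by
      intro k hk hkj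
      have h7 : ∀ l ∈ C, l ∉ c → algebraMap ℝ K (T i k l) * term x i k l = 0 := by
        intro l hl hlc
        have h8 : T i k l = 0 := by
          by_cases hlj : l = j
          · rw [hlj]
            exact h2 i hi k hk hkj
          · by_contra h9
            rw [hT.2] at h9
            exact hlc (h1 i hi l hl hlj k hk hkj h9)
        rw [h8, map_zero, zero_mul]
      split_ifs with hkc
      · exact (Finset.sum_subset hc h7).symm
      · apply Finset.sum_eq_zero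
        intro l hl
        by_cases hlj : l = j
        · rw [hlj, h2 i hi k hk hkj, map_zero, zero_mul]
        · have h8 : T i k l = 0 := by
            by_contra h9
            exact hkc (h1 i hi k hk hkj l hl hlj h9)
          rw [h8, map_zero, zero_mul]
    have h7 : ∑ l ∈ C, algebraMap ℝ K (T i j l) * term x i j l =
        algebraMap ℝ K (T i j j) * term x i j j := by
      apply Finset.sum_eq_single_of_mem j hjC
      intro l hl hlj
      rw [hT.2 i j l, h2 i hi l hl hlj, map_zero, zero_mul]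
    rw [← Finset.sum_erase_add _ _ hjC, h7]
    congr 1
    rw [Finset.sum_congr rfl (fun k hk => h6 k (Finset.mem_of_mem_erase hk)
      (Finset.ne_of_mem_erase hk)), ← Finset.sum_filter]
    congr 1
    ext k
    rw [Finset.mem_filter, Finset.mem_erase]
    constructor
    · exact fun h => h.2
    · intro h
      refine ⟨⟨?_, hc h⟩, h⟩
      rintro rfl
      exact hjc h
  rw [h5, term_ijj hxj, h3 i hi, map_mul] at h4
  linear_combination h4

/-- The equation of the summand `j` above the classes. -/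
theorem sys_top {T : ι → ι → ι → ℝ} (hT : Sym T) {γ d : ι → ℝ} {C : Finset ι} {j : ι}
    (hjC : j ∈ C) (h1 : ∀ k ∈ C, k ≠ j → ∀ l ∈ C, l ≠ j → T j k l = 0)
    {x : ι → K} {y : K} (hS : Sys T γ d C x y) :
    (algebraMap ℝ K (γ j) + algebraMap ℝ K (T j j j) / 4
      + ∑ l ∈ C.erase j, algebraMap ℝ K (T l j j)) * (x j)⁻¹
      - 1 / 2 * (∑ l ∈ C.erase j, algebraMap ℝ K (T l j j) * x l) * (x j)⁻¹ ^ 2
      + algebraMap ℝ K (d j) * x j * y = algebraMap ℝ K (d j) := by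
  have := charZero_of_real K
  obtain ⟨hxj, h4⟩ := hS j hjC
  have hT1 : ∀ l, T j j l = T l j j := fun l => by rw [hT.2 j j l, hT.1 j l j]
  have hT2 : ∀ l, T j l j = T l j j := fun l => hT.1 j l j
  have h5 : ∑ k ∈ C, ∑ l ∈ C, algebraMap ℝ K (T j k l) * term x j k l =
      algebraMap ℝ K (T j j j) * (x j)⁻¹
        + 2 * ∑ l ∈ C.erase j, algebraMap ℝ K (T l j j) * (2 * (x j)⁻¹ - x l * (x j)⁻¹ ^ 2) := by
    rw [← Finset.sum_erase_add _ _ hjC, ← Finset.sum_erase_add _ (fun l =>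
      algebraMap ℝ K (T j j l) * term x j j l) hjC, term_self hxj]
    have h6 : ∑ k ∈ C.erase j, ∑ l ∈ C, algebraMap ℝ K (T j k l) * term x j k l =
        ∑ k ∈ C.erase j, algebraMap ℝ K (T k j j) * (2 * (x j)⁻¹ - x k * (x j)⁻¹ ^ 2) := by
      apply Finset.sum_congr rfl
      intro k hk
      rw [Finset.sum_eq_single_of_mem j hjC, term_iji hxj, hT2]
      intro l hl hlj
      rw [h1 k (Finset.mem_of_mem_erase hk) (Finset.ne_of_mem_erase hk) l hl hlj, map_zero,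
        zero_mul]
    have h7 : ∑ l ∈ C.erase j, algebraMap ℝ K (T j j l) * term x j j l =
        ∑ k ∈ C.erase j, algebraMap ℝ K (T k j j) * (2 * (x j)⁻¹ - x k * (x j)⁻¹ ^ 2) := by
      apply Finset.sum_congr rfl
      intro k _
      rw [term_iij hxj, hT1]
    rw [h6, h7]
    ring
  have h8 : ∑ l ∈ C.erase j, algebraMap ℝ K (T l j j) * (2 * (x j)⁻¹ - x l * (x j)⁻¹ ^ 2) =
      2 * (∑ l ∈ C.erase j, algebraMap ℝ K (T l j j)) * (x j)⁻¹
        - (∑ l ∈ C.erase j, algebraMap ℝ K (T l j j) * x l) * (x j)⁻¹ ^ 2 := by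
    rw [Finset.mul_sum, Finset.sum_mul, Finset.sum_mul, ← Finset.sum_sub_distrib]
    apply Finset.sum_congr rfl
    intro l _
    ring
  rw [h5, h8] at h4
  linear_combination h4

/-- The merge lemma for sets of summands. -/
theorem good_merge {T : ι → ι → ι → ℝ} (hT : Sym T) {γ d : ι → ℝ} (hd : ∀ i, 0 < d i)
    {C : Finset ι} {j : ι} (hjC : j ∈ C) {cl : ι → Finset ι}
    (hcl1 : ∀ i ∈ C, i ≠ j → i ∈ cl i) (hcl2 : ∀ i ∈ C, i ≠ j → cl i ⊆ C.erase j)
    (hcl3 : ∀ i ∈ C, i ≠ j → ∀ k ∈ cl i, cl k = cl i)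
    (hgood : ∀ i ∈ C, i ≠ j → P.Good T γ d (cl i))
    (h0 : ∀ k ∈ C, k ≠ j → ∀ l ∈ C, l ≠ j → T j k l = 0)
    (h1 : ∀ i ∈ C, i ≠ j → ∀ k ∈ C, k ≠ j → ∀ l ∈ C, l ≠ j → T i k l ≠ 0 → k ∈ cl i)
    (h2 : ∀ i ∈ C, i ≠ j → 0 < T i j j)
    (h3 : ∀ i ∈ C, i ≠ j → ∀ k ∈ cl i, T k j j / d k = T i j j / d i) :
    P.Good T γ d C := by
  intro x y hS
  set s : Finset (Finset ι) := (C.erase j).image cl with hs
  have hmem : ∀ c ∈ s, ∃ i ∈ C, i ≠ j ∧ c = cl i := by
    intro c hc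
    rw [hs, Finset.mem_image] at hc
    obtain ⟨i, hi, rfl⟩ := hc
    exact ⟨i, Finset.mem_of_mem_erase hi, Finset.ne_of_mem_erase hi, rfl⟩
  -- representatives
  have hrep : ∀ c : Finset ι, ∃ τ : ℝ, c ∈ s → 0 < τ ∧ ∀ i ∈ c, T i j j = τ * d i := by
    intro c
    by_cases hc : c ∈ s
    · obtain ⟨i, hi, hij, rfl⟩ := hmem c hc
      refine ⟨T i j j / d i, fun _ => ⟨div_pos (h2 i hi hij) (hd i), ?_⟩⟩
      intro k hk
      rw [← h3 i hi hij k hk, div_mul_cancel₀ _ (hd k).ne']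
    · exact ⟨0, fun h => absurd h hc⟩
  choose τ hτ using hrep
  have hfib : ∀ c ∈ s, (C.erase j).filter (fun i => cl i = c) = c := by
    intro c hc
    obtain ⟨i, hi, hij, rfl⟩ := hmem c hc
    ext k
    rw [Finset.mem_filter]
    constructor
    · rintro ⟨hk, hkc⟩
      rw [← hkc]
      exact hcl1 k (Finset.mem_of_mem_erase hk) (Finset.ne_of_mem_erase hk)
    · intro hk
      exact ⟨hcl2 i hi hij hk, hcl3 i hi hij k hk⟩
  have hsum : ∀ g : ι → K, ∑ l ∈ C.erase j, g l = ∑ c ∈ s, ∑ l ∈ c, g l := by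
    intro g
    rw [← Finset.sum_fiberwise_of_maps_to (s := C.erase j) (t := s) (g := cl) (fun i hi =>
      Finset.mem_image_of_mem cl hi)]
    apply Finset.sum_congr rfl
    intro c hc
    rw [hfib c hc]
  have hxj : x j ≠ 0 := (hS j hjC).1
  have hE := sys_top hT hjC h0 hS
  have hEsum : ∑ l ∈ C.erase j, algebraMap ℝ K (T l j j) * x l =
      ∑ c ∈ s, algebraMap ℝ K (τ c) * ∑ i ∈ c, algebraMap ℝ K (d i) * x i := by
    rw [hsum]
    apply Finset.sum_congr rfl
    intro c hc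
    rw [Finset.mul_sum]
    apply Finset.sum_congr rfl
    intro i hi
    rw [(hτ c hc).2 i hi, map_mul, mul_assoc]
  rw [hEsum] at hE
  have hX : ∑ i ∈ C, algebraMap ℝ K (d i) * x i = algebraMap ℝ K (d j) * x j +
      ∑ c ∈ s, ∑ i ∈ c, algebraMap ℝ K (d i) * x i := by
    rw [← hsum, add_comm, Finset.sum_erase_add _ _ hjC]
  have hSys : ∀ c ∈ s, Sys T γ d c x (y + algebraMap ℝ K (τ c) / 4 * (x j)⁻¹ ^ 2) := by
    intro c hc
    obtain ⟨i, hi, hij, hci⟩ := hmem c hc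
    have hcC : c ⊆ C.erase j := hci ▸ hcl2 i hi hij
    refine sys_child hT hd (hcC.trans (Finset.erase_subset _ _)) hjC (fun h => ?_) ?_ ?_
      (hτ c hc).2 hS
    · exact (Finset.ne_of_mem_erase (hcC h)) rfl
    · intro k hk l hl hlj m hm hmj hne
      have hk' := hcC hk
      have h5 := h1 k (Finset.mem_of_mem_erase hk') (Finset.ne_of_mem_erase hk') l hl hlj m hm hmj
        hne
      rw [hci] at hk ⊢
      rwa [hcl3 i hi hij k hk] at h5
    · intro k hk l hl hlj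
      have hk' := hcC hk
      rw [hT.2 k l j, hT.1 k j l]
      exact h0 k (Finset.mem_of_mem_erase hk') (Finset.ne_of_mem_erase hk') l hl hlj
  have hgoodc : ∀ c ∈ s, P.Good T γ d c := by
    intro c hc
    obtain ⟨i, hi, hij, hci⟩ := hmem c hc
    rw [hci]
    exact hgood i hi hij
  have hA : P.B (algebraMap ℝ K (γ j) + algebraMap ℝ K (T j j j) / 4
      + ∑ l ∈ C.erase j, algebraMap ℝ K (T l j j)) := by
    refine ((B.cst _).add ?_).add (B.sum fun _ _ => B.cst _)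
    have h3 : algebraMap ℝ K (T j j j) / 4 = algebraMap ℝ K (T j j j / 4) := by
      rw [map_div₀, map_ofNat]
    rw [h3]
    exact B.cst _
  -- bounded sums
  have hXB : ∀ c ∈ s, ¬ P.B (∑ i ∈ c, algebraMap ℝ K (d i) * x i) → ∃ i ∈ c, ¬ P.B (x i) := by
    intro c _ h
    by_contra hne
    push Not at hne
    exact h (B.sum fun i hi => (B.cst _).mul (hne i hi))
  have hm := merge (P := P) (s := s) (τ := τ) (fun c hc => (hτ c hc).1) hA (hd j)
    (X := fun c => ∑ i ∈ c, algebraMap ℝ K (d i) * x i)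
    (Y := fun c => y + algebraMap ℝ K (τ c) / 4 * (x j)⁻¹ ^ 2) hxj (fun c _ => rfl) hE
    (fun c hc hB => (hgoodc c hc x _ (hSys c hc)).1 (hXB c hc hB))
    (fun c hc hB => (hgoodc c hc x _ (hSys c hc)).2 hB)
  rw [hX]
  refine ⟨?_, hm.2⟩
  rintro ⟨i, hi, hiB⟩
  apply hm.1
  by_cases hij : i = j
  · subst hij
    exact Or.inl hiB
  · right
    have hic : cl i ∈ s := by
      rw [hs]
      exact Finset.mem_image_of_mem cl (Finset.mem_erase.2 ⟨hij, hi⟩)
    refine ⟨cl i, hic, ?_⟩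
    intro hXb
    obtain ⟨h5, ζ, h6, h7⟩ := (hgoodc _ hic x _ (hSys _ hic)).1 ⟨i, hcl1 i hi hij, hiB⟩
    have h8 := h5.mul hXb
    have h9 := P.uniq h7 h8
    exact h6.ne' (by exact_mod_cast h9)

end Pl

end Pool.Agent.H.MP_deabf1_gt
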