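import Pool.Agent.H.MP_deabf1_gt.WF

/-!
Towers: all solutions of the Einstein equations are bounded.
-/

namespace Pool.Agent.H.MP_deabf1_gt

/-- The structure constants `T` belong to a tower: `f i` is the floor of the summand `i`. -/
structure Tower {ι : Type*} [Fintype ι] (T : ι → ι → ι → ℝ) (d : ι → ℝ) (f : ι → ℕ) : Prop where
  sub : ∀ i j k, f i < f k → f j < f k → T i j k = 0
  floor : ∀ n, (∀ i j, f i = n → f j = n → i = j) ∨
    ((Finset.univ.filter fun i => f i = n).card ≤ 3 ∧ ∀ i j k, f i = n → f j < n → T i j k = 0)
  con : ∀ i k l j, f i < f j → f k < f j → f l < f j → T i k l ≠ 0 → T i j j / d i = T k j j / d k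

namespace Pl

variable {K : Type*} [Field K] [Algebra ℝ K] {P : Pl K} {ι : Type*} [Fintype ι] [DecidableEq ι]

/-- The components of the lower floors. -/
theorem tower_classes {T : ι → ι → ι → ℝ} (hT : Sym T) (hT0 : ∀ i j k, 0 ≤ T i j k) {γ d : ι → ℝ}
    (hγ : ∀ i, 0 ≤ γ i) (hd : ∀ i, 0 < d i) {f : ι → ℕ} (hf : Tower T d f) (n : ℕ) :
    ∃ cl : ι → Finset ι, (∀ i, f i < n → i ∈ cl i ∧ ∀ k ∈ cl i, f k < n ∧ cl k = cl i) ∧
      (∀ i k l, f i < n → f k < n → f l < n → T i k l ≠ 0 → k ∈ cl i) ∧
      (∀ i, f i < n → P.Good T γ d (cl i)) ∧
      (∀ j, n ≤ f j → ∀ i, f i < n → ∀ k ∈ cl i, T k j j / d k = T i j j / d i) := by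
  classical
  induction n with
  | zero => exact ⟨fun _ => ∅, by simp, by simp, by simp, by simp⟩
  | succ n ih =>
    obtain ⟨cl, hcl, hcon, hgood, hconst⟩ := ih
    rcases hf.floor n with hfl | ⟨hcard, hcomm⟩
    · by_cases hJ : ∃ j, f j = n
      · obtain ⟨j, hj⟩ := hJ
        set C : Finset ι := Finset.univ.filter fun i => i = j ∨ (f i < n ∧ T i j j ≠ 0) with hC
        have hmC : ∀ i, i ∈ C ↔ i = j ∨ (f i < n ∧ T i j j ≠ 0) := by
          intro i
          rw [hC, Finset.mem_filter]
          simp
        have hlt : ∀ i, f i < n + 1 → i ≠ j → f i < n := by
          intro i hi hij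
          rcases Nat.lt_succ_iff_lt_or_eq.1 hi with h | h
          · exact h
          · exact absurd (hfl i j h hj) hij
        have hCj : ∀ i ∈ C, i ≠ j → f i < n ∧ T i j j ≠ 0 := by
          intro i hi hij
          rcases (hmC i).1 hi with h | h
          · exact absurd h hij
          · exact h
        have hjC : j ∈ C := (hmC j).2 (Or.inl rfl)
        have hClt : ∀ i ∈ C, f i < n + 1 := by
          intro i hi
          rcases (hmC i).1 hi with h | h
          · rw [h, hj]
            exact Nat.lt_succ_self n
          · exact h.1.trans (Nat.lt_succ_self n)
        have hne : ∀ i, f i < n → i ≠ j := by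
          rintro i hi rfl
          omega
        -- classes are contained in `C` or disjoint from it
        have hclC : ∀ i, f i < n → i ∈ C → ∀ k ∈ cl i, k ∈ C := by
          intro i hi hiC k hk
          have h1 := hconst j hj.ge i hi k hk
          have h2 := (hCj i hiC (hne i hi)).2
          rw [hmC]
          right
          refine ⟨((hcl i hi).2 k hk).1, ?_⟩
          intro h3
          rw [h3, zero_div] at h1
          exact h2 ((div_eq_zero_iff.1 h1.symm).resolve_right (hd i).ne')
        have hclC' : ∀ i, f i < n → i ∉ C → ∀ k ∈ cl i, k ∉ C := by
          intro i hi hiC k hk hkC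
          have h1 := (hcl i hi).2 k hk
          apply hiC
          apply hclC k h1.1 hkC
          rw [h1.2]
          exact (hcl i hi).1
        have hTj : ∀ k, f k < n → ∀ l, f l < n → T j k l = 0 := by
          intro k hk l hl
          rw [hT.1 j k l, hT.2 k j l]
          exact hf.sub k l j (by rw [hj]; exact hk) (by rw [hj]; exact hl)
        refine ⟨fun i => if i ∈ C then C else cl i, ?_, ?_, ?_, ?_⟩
        · intro i hi
          by_cases hiC : i ∈ C
          · simp only [if_pos hiC]
            refine ⟨hiC, fun k hk => ⟨hClt k hk, ?_⟩⟩
            rw [if_pos hk]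
          · have hij : i ≠ j := by
              rintro rfl
              exact hiC hjC
            have hi' := hlt i hi hij
            simp only [if_neg hiC]
            refine ⟨(hcl i hi').1, fun k hk => ⟨?_, ?_⟩⟩
            · exact ((hcl i hi').2 k hk).1.trans (Nat.lt_succ_self n)
            · rw [if_neg (hclC' i hi' hiC k hk)]
              exact ((hcl i hi').2 k hk).2
        · intro i k l hi hk hl hne0
          by_cases hij : i = j
          · subst hij
            simp only [if_pos hjC]
            by_cases hki : k = i
            · rw [hki]
              exact hjC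
            · have hk' := hlt k hk hki
              by_cases hli : l = i
              · subst hli
                rw [hmC]
                right
                refine ⟨hk', ?_⟩
                rwa [hT.1] at hne0
              · exact absurd (hTj k hk' l (hlt l hl hli)) hne0
          · have hi' := hlt i hi hij
            by_cases hkj : k = j
            · subst hkj
              by_cases hlk : l = k
              · subst hlk
                have hiC : i ∈ C := (hmC i).2 (Or.inr ⟨hi', hne0⟩)
                simp only [if_pos hiC]
                exact hjC
              · exfalso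
                rw [hT.1] at hne0
                exact hne0 (hTj i hi' l (hlt l hl hlk))
            · have hk' := hlt k hk hkj
              by_cases hlj : l = j
              · exfalso
                subst hlj
                rw [hT.2, hT.1] at hne0
                exact hne0 (hTj i hi' k hk')
              · have hl' := hlt l hl hlj
                have h1 := hcon i k l hi' hk' hl' hne0
                by_cases hiC : i ∈ C
                · simp only [if_pos hiC]
                  exact hclC i hi' hiC k h1
                · simp only [if_neg hiC]
                  exact h1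
        · intro i hi
          by_cases hiC : i ∈ C
          · simp only [if_pos hiC]
            refine good_merge hT hd hjC (cl := cl) ?_ ?_ ?_ ?_ ?_ ?_ ?_ ?_
            · intro i hi hij
              exact (hcl i (hCj i hi hij).1).1
            · intro i hi hij k hk
              have h1 := (hCj i hi hij).1
              rw [Finset.mem_erase]
              exact ⟨hne k ((hcl i h1).2 k hk).1, hclC i h1 hi k hk⟩
            · intro i hi hij k hk
              exact ((hcl i (hCj i hi hij).1).2 k hk).2
            · intro i hi hij
              exact hgood i (hCj i hi hij).1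
            · intro k hk hkj l hl hlj
              exact hTj k (hCj k hk hkj).1 l (hCj l hl hlj).1
            · intro i hi hij k hk hkj l hl hlj hne0
              exact hcon i k l (hCj i hi hij).1 (hCj k hk hkj).1 (hCj l hl hlj).1 hne0
            · intro i hi hij
              exact lt_of_le_of_ne (hT0 _ _ _) (Ne.symm (hCj i hi hij).2)
            · intro i hi hij k hk
              exact hconst j hj.ge i (hCj i hi hij).1 k hk
          · have hij : i ≠ j := by
              rintro rfl
              exact hiC hjC
            simp only [if_neg hiC]
            exact hgood i (hlt i hi hij)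
        · intro j' hj' i hi k hk
          have hjj' : f j < f j' := by omega
          by_cases hiC : i ∈ C
          · simp only [if_pos hiC] at hk
            have key : ∀ k ∈ C, T k j' j' / d k = T j j' j' / d j := by
              intro k hk
              by_cases hkj : k = j
              · rw [hkj]
              · have h1 := hCj k hk hkj
                exact hf.con k j j j' (by omega) hjj' hjj' h1.2
            rw [key k hk, key i hiC]
          · have hij : i ≠ j := by
              rintro rfl
              exact hiC hjC
            simp only [if_neg hiC] at hk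
            exact hconst j' (by omega) i (hlt i hi hij) k hk
      · -- the floor is empty
        push Not at hJ
        have hlt : ∀ i, f i < n + 1 → f i < n := fun i hi =>
          lt_of_le_of_ne (Nat.lt_succ_iff.1 hi) (hJ i)
        refine ⟨cl, ?_, ?_, ?_, ?_⟩
        · intro i hi
          refine ⟨(hcl i (hlt i hi)).1, fun k hk => ⟨?_, ((hcl i (hlt i hi)).2 k hk).2⟩⟩
          exact ((hcl i (hlt i hi)).2 k hk).1.trans (Nat.lt_succ_self n)
        · intro i k l hi hk hl hne0
          exact hcon i k l (hlt i hi) (hlt k hk) (hlt l hl) hne0
        · intro i hi
          exact hgood i (hlt i hi)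
        · intro j hj i hi k hk
          exact hconst j (by omega) i (hlt i hi) k hk
    · -- a block
      have hr : ∀ i k, f i = n → f k < n → ∀ l, T i k l = 0 := fun i k hi hk l => hcomm i k l hi hk
      let r : ι → ι → Prop := fun i k => f i = n ∧ f k = n ∧ ∃ l, f l = n ∧ T i k l ≠ 0
      set cl' : ι → Finset ι := fun i => Finset.univ.filter fun k => f k = n ∧ Relation.EqvGen r i k
        with hcl'
      have hmcl' : ∀ i k, k ∈ cl' i ↔ f k = n ∧ Relation.EqvGen r i k := by
        intro i k
        rw [hcl', Finset.mem_filter]
        simp
      have hcl'eq : ∀ i k, k ∈ cl' i → cl' k = cl' i := by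
        intro i k hk
        have h1 := ((hmcl' i k).1 hk).2
        ext l
        rw [hmcl', hmcl']
        constructor
        · rintro ⟨h2, h3⟩
          exact ⟨h2, h1.trans _ _ _ h3⟩
        · rintro ⟨h2, h3⟩
          exact ⟨h2, (h1.symm _ _).trans _ _ _ h3⟩
      refine ⟨fun i => if f i = n then cl' i else cl i, ?_, ?_, ?_, ?_⟩
      · intro i hi
        by_cases hin : f i = n
        · simp only [if_pos hin]
          refine ⟨(hmcl' i i).2 ⟨hin, Relation.EqvGen.refl i⟩, fun k hk => ?_⟩
          have h1 := ((hmcl' i k).1 hk).1
          rw [if_pos h1]
          exact ⟨by omega, hcl'eq i k hk⟩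
        · have hi' : f i < n := by omega
          simp only [if_neg hin]
          refine ⟨(hcl i hi').1, fun k hk => ?_⟩
          have h1 := (hcl i hi').2 k hk
          rw [if_neg h1.1.ne]
          exact ⟨by omega, h1.2⟩
      · intro i k l hi hk hl hne0
        by_cases hin : f i = n
        · simp only [if_pos hin]
          have hkn : f k = n := by
            by_contra h
            exact hne0 (hr i k hin (by omega) l)
          have hln : f l = n := by
            by_contra h
            rw [hT.2] at hne0
            exact hne0 (hr i l hin (by omega) k)
          exact (hmcl' i k).2 ⟨hkn, Relation.EqvGen.rel i k ⟨hin, hkn, l, hln, hne0⟩⟩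
        · have hi' : f i < n := by omega
          simp only [if_neg hin]
          have hkn : f k < n := by
            by_contra h
            rw [hT.1] at hne0
            exact hne0 (hr k i (by omega) hi' l)
          have hln : f l < n := by
            by_contra h
            rw [hT.2, hT.1] at hne0
            exact hne0 (hr l i (by omega) hi' k)
          exact hcon i k l hi' hkn hln hne0
      · intro i hi
        by_cases hin : f i = n
        · simp only [if_pos hin]
          refine good_base hT hT0 hγ hd (le_trans (Finset.card_le_card ?_) hcard)
          intro k hk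
          rw [Finset.mem_filter]
          exact ⟨Finset.mem_univ k, ((hmcl' i k).1 hk).1⟩
        · simp only [if_neg hin]
          exact hgood i (by omega)
      · intro j hj i hi k hk
        by_cases hin : f i = n
        · simp only [if_pos hin] at hk
          have key : ∀ i k, Relation.EqvGen r i k → T i j j / d i = T k j j / d k := by
            intro i k h
            induction h with
            | rel i k h =>
              obtain ⟨h1, h2, l, h3, h4⟩ := h
              exact hf.con i k l j (by omega) (by omega) (by omega) h4
            | refl i => rfl
            | symm i k _ ih => exact ih.symm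
            | trans i k l _ _ ih1 ih2 => exact ih1.trans ih2
          exact (key i k ((hmcl' i k).1 hk).2).symm
        · simp only [if_neg hin] at hk
          exact hconst j (by omega) i (by omega) k hk

/-- All solutions of the Einstein equations of a tower are bounded. -/
theorem tower_bounded (P : Pl K) {T : ι → ι → ι → ℝ} (hT : Sym T) (hT0 : ∀ i j k, 0 ≤ T i j k)
    {γ d : ι → ℝ} (hγ : ∀ i, 0 ≤ γ i) (hd : ∀ i, 0 < d i) {f : ι → ℕ} (hf : Tower T d f)
    {x : ι → K} (hS : Sys T γ d Finset.univ x 0) (i : ι) : P.B (x i) := by
  classical
  obtain ⟨n, hn⟩ : ∃ n, ∀ i, f i < n :=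
    ⟨Finset.univ.sup f + 1, fun i => Nat.lt_succ_of_le (Finset.le_sup (Finset.mem_univ i))⟩
  obtain ⟨cl, hcl, hcon, hgood, -⟩ := tower_classes (P := P) hT hT0 hγ hd hf n
  have hS' : Sys T γ d (cl i) x 0 := by
    intro k hk
    obtain ⟨hxk, h1⟩ := hS k (Finset.mem_univ k)
    refine ⟨hxk, ?_⟩
    have hki := ((hcl i (hn i)).2 k hk).2
    have h2 : ∑ j, ∑ l, algebraMap ℝ K (T k j l) * term x k j l =
        ∑ j ∈ cl i, ∑ l ∈ cl i, algebraMap ℝ K (T k j l) * term x k j l := by
      rw [← Finset.sum_subset (Finset.subset_univ (cl i))]
      · apply Finset.sum_congr rfl
        intro j _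
        rw [← Finset.sum_subset (Finset.subset_univ (cl i))]
        intro l _ hl
        have h3 : T k j l = 0 := by
          by_contra h4
          rw [hT.2] at h4
          have h5 := hcon k l j (hn k) (hn l) (hn j) h4
          rw [hki] at h5
          exact hl h5
        rw [h3, map_zero, zero_mul]
      · intro j _ hj
        apply Finset.sum_eq_zero
        intro l _
        have h3 : T k j l = 0 := by
          by_contra h4
          have h5 := hcon k j l (hn k) (hn j) (hn l) h4
          rw [hki] at h5
          exact hj h5
        rw [h3, map_zero, zero_mul]
    rw [h2] at h1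
    exact h1
  by_contra hB
  obtain ⟨-, ζ, hζ, hl⟩ := (hgood i (hn i) x 0 hS').1 ⟨i, (hcl i (hn i)).1, hB⟩
  rw [zero_mul] at hl
  exact hζ.ne' (by exact_mod_cast P.uniq hl P.lim_zero)

end Pl

end Pool.Agent.H.MP_deabf1_gt
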