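import Pool.Agent.H.MP_deabf1_gt.WA

/-!
Sequences of complex numbers along an ultrafilter; bounded polynomial functions.
-/

namespace Pool.Agent.H.MP_deabf1_gt

open Filter Topology

/-- The field of germs of complex sequences along an ultrafilter. -/
noncomputable abbrev Gm (F : Ultrafilter ℕ) : Type := Germ (F : Filter ℕ) ℂ

/-- Sequences to germs. -/
noncomputable def toGm (F : Ultrafilter ℕ) : (ℕ → ℂ) →+* Gm F := Germ.coeRingHom (F : Filter ℕ)

noncomputable instance gmAlg (F : Ultrafilter ℕ) : Algebra ℝ (Gm F) :=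
  ((toGm F).comp ((Pi.constRingHom ℕ ℂ).comp Complex.ofRealHom)).toAlgebra

theorem toGm_surj (F : Ultrafilter ℕ) (a : Gm F) : ∃ g, toGm F g = a := by
  induction a using Filter.Germ.inductionOn with
  | _ g => exact ⟨g, rfl⟩

theorem toGm_eq {F : Ultrafilter ℕ} {g h : ℕ → ℂ} (hgh : toGm F g = toGm F h) :
    g =ᶠ[(F : Filter ℕ)] h := Germ.coe_eq.1 hgh

theorem toGm_inv (F : Ultrafilter ℕ) (g : ℕ → ℂ) : toGm F g⁻¹ = (toGm F g)⁻¹ := Germ.coe_inv g

/-- The place of the field of germs. -/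
noncomputable def gmPl (F : Ultrafilter ℕ) : Pl (Gm F) where
  Lim a c := ∃ g : ℕ → ℂ, toGm F g = a ∧ Tendsto g F (𝓝 c)
  add := by
    rintro a b c d ⟨g, rfl, hg⟩ ⟨h, rfl, hh⟩
    exact ⟨g + h, map_add _ _ _, hg.add hh⟩
  mul := by
    rintro a b c d ⟨g, rfl, hg⟩ ⟨h, rfl, hh⟩
    exact ⟨g * h, map_mul _ _ _, hg.mul hh⟩
  cst := by
    intro r
    exact ⟨fun _ => (r : ℂ), rfl, tendsto_const_nhds⟩
  uniq := by
    rintro a c d ⟨g, rfl, hg⟩ ⟨h, hgh, hh⟩
    exact tendsto_nhds_unique hg (hh.congr' (toGm_eq hgh))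
  dich := by
    intro a
    obtain ⟨g, rfl⟩ := toGm_surj F a
    by_cases hR : ∃ R : ℝ, ∀ᶠ n in (F : Filter ℕ), ‖g n‖ ≤ R
    · obtain ⟨R, hR⟩ := hR
      left
      have h1 : ((F.map g : Ultrafilter ℂ) : Filter ℂ) ≤ 𝓟 (Metric.closedBall 0 R) := by
        rw [le_principal_iff, Ultrafilter.coe_map, mem_map]
        refine mem_of_superset hR fun n hn => ?_
        simpa using hn
      obtain ⟨c, -, hc⟩ := (isCompact_closedBall (0 : ℂ) R).ultrafilter_le_nhds _ h1
      exact ⟨c, g, rfl, hc⟩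
    · right
      push Not at hR
      refine ⟨g⁻¹, toGm_inv F g, ?_⟩
      have h1 : Tendsto (fun n => ‖g n‖) F atTop := by
        rw [tendsto_atTop]
        intro R
        exact (hR R).mono fun n hn => hn.le
      have h2 : Tendsto g F (Bornology.cobounded ℂ) := tendsto_norm_atTop_iff_cobounded.1 h1
      exact tendsto_inv₀_cobounded.comp h2

end Pool.Agent.H.MP_deabf1_gt
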