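import Mathlib

/-!
A polynomial function which is bounded on a complex algebraic set has finitely many values.
-/

namespace Pool.Agent.H.MP_deabf1_gt

open MvPolynomial

theorem countable_of_linInd {σ : Type} [Finite σ] (I : Ideal (MvPolynomial σ ℂ)) {C : Type}
    {b : C → MvPolynomial σ ℂ ⧸ I} (hb : LinearIndependent ℂ b) : Countable C := by
  have h1 : Module.rank ℂ (MvPolynomial σ ℂ ⧸ I) ≤ Module.rank ℂ (MvPolynomial σ ℂ) :=
    LinearMap.rank_le_of_surjective (Ideal.Quotient.mkₐ ℂ I).toLinearMap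
      (Ideal.Quotient.mkₐ_surjective ℂ I)
  have h2 := (MvPolynomial.basisMonomials σ ℂ).mk_eq_rank''
  have h3 : Cardinal.mk (σ →₀ ℕ) ≤ Cardinal.aleph0 := Cardinal.mk_le_aleph0
  have h4 := hb.cardinal_le_rank
  rw [← Cardinal.mk_le_aleph0_iff]
  calc Cardinal.mk C ≤ Module.rank ℂ (MvPolynomial σ ℂ ⧸ I) := h4
    _ ≤ Module.rank ℂ (MvPolynomial σ ℂ) := h1
    _ = Cardinal.mk (σ →₀ ℕ) := h2.symm
    _ ≤ Cardinal.aleph0 := h3

theorem finite_values {σ : Type} [Finite σ] (I : Ideal (MvPolynomial σ ℂ)) (i : σ) {R : ℝ}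
    (hR : ∀ x ∈ zeroLocus ℂ I, ‖x i‖ ≤ R) : ((fun x : σ → ℂ => x i) '' zeroLocus ℂ I).Finite := by
  classical
  by_contra hinf
  set V := zeroLocus ℂ I with hV
  let A := MvPolynomial σ ℂ ⧸ I
  let π : MvPolynomial σ ℂ →ₐ[ℂ] A := Ideal.Quotient.mkₐ ℂ I
  let C : Type := {c : ℂ // R < ‖c‖}
  -- inverses
  have hinv : ∀ c : C, ∃ b : A, b * (π (X i) - algebraMap ℂ A c.1) = 1 := by
    intro c
    have h1 : I ⊔ Ideal.span {X i - MvPolynomial.C c.1} = ⊤ := by
      set J := I ⊔ Ideal.span {X i - MvPolynomial.C c.1} with hJ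
      have h2 : zeroLocus ℂ J = ∅ := by
        rw [Set.eq_empty_iff_forall_notMem]
        intro x hx
        have h3 : x ∈ V := fun p hp => hx p (le_sup_left (a := I) hp)
        have h4 := hx (X i - MvPolynomial.C c.1) (by
          rw [hJ]
          exact le_sup_right (a := I) (Ideal.subset_span rfl))
        simp only [map_sub, aeval_X, aeval_C, Algebra.algebraMap_self, RingHom.id_apply] at h4
        have h5 := hR x h3
        rw [sub_eq_zero.1 h4] at h5
        exact absurd c.2 (not_lt.2 h5)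
      have h3 := MvPolynomial.vanishingIdeal_zeroLocus_eq_radical (K := ℂ) J
      rw [h2] at h3
      have h4 : J.radical = ⊤ := by
        rw [← h3, Ideal.eq_top_iff_one]
        intro x hx
        exact absurd hx (Set.notMem_empty x)
      exact Ideal.radical_eq_top.1 h4
    have h2 : (1 : MvPolynomial σ ℂ) ∈ I ⊔ Ideal.span {X i - MvPolynomial.C c.1} := by
      rw [h1]
      trivial
    obtain ⟨p, hp, r, hr, hpr⟩ := Submodule.mem_sup.1 h2
    obtain ⟨b, rfl⟩ := Ideal.mem_span_singleton'.1 hr
    refine ⟨π b, ?_⟩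
    have h3 : π (X i) - algebraMap ℂ A c.1 = π (X i - MvPolynomial.C c.1) := by
      rw [map_sub]
      congr 1
    rw [h3, ← map_mul, ← map_one π, ← hpr, map_add]
    have h4 : π p = 0 := Ideal.Quotient.eq_zero_iff_mem.2 hp
    rw [h4, zero_add]
  choose b hb using hinv
  have hlin : LinearIndependent ℂ b := by
    rw [linearIndependent_iff']
    intro s a hs c hc
    -- the polynomial
    let Q : Polynomial ℂ := ∑ e ∈ s, Polynomial.C (a e) *
      ∏ e' ∈ s.erase e, (Polynomial.X - Polynomial.C e'.1)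
    have hQ : Polynomial.aeval (π (X i)) Q = 0 := by
      have h1 : Polynomial.aeval (π (X i)) Q = (∏ e' ∈ s, (π (X i) - algebraMap ℂ A e'.1)) *
          ∑ e ∈ s, a e • b e := by
        simp only [Q, map_sum, map_mul, map_prod, map_sub, Polynomial.aeval_C, Polynomial.aeval_X]
        rw [Finset.mul_sum]
        apply Finset.sum_congr rfl
        intro e he
        have h2 : a e • b e = algebraMap ℂ A (a e) * b e := Algebra.smul_def (a e) (b e)
        rw [← Finset.mul_prod_erase s _ he, h2]
        linear_combination (-(algebraMap ℂ A (a e) *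
          ∏ e' ∈ s.erase e, (π (X i) - algebraMap ℂ A e'.1))) * hb e
      rw [h1, hs, mul_zero]
    have hQ0 : Q = 0 := by
      by_contra hne
      apply hinf
      refine (Q.roots.toFinset.finite_toSet).subset ?_
      rintro _ ⟨x, hx, rfl⟩
      rw [Finset.mem_coe, Multiset.mem_toFinset, Polynomial.mem_roots hne, Polynomial.IsRoot.def]
      -- evaluation at `x`
      have h1 : Polynomial.aeval (X i : MvPolynomial σ ℂ) Q ∈ I := by
        rw [← Ideal.Quotient.eq_zero_iff_mem]
        have h2 : π (Polynomial.aeval (X i : MvPolynomial σ ℂ) Q) = 0 := by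
          rw [← Polynomial.aeval_algHom_apply, hQ]
        exact h2
      have h2 := hx _ h1
      rw [← Polynomial.aeval_algHom_apply, aeval_X] at h2
      rw [← h2, Polynomial.coe_aeval_eq_eval]
    have h2 := congrArg (Polynomial.eval c.1) hQ0
    rw [Polynomial.eval_zero, Polynomial.eval_finsetSum] at h2
    rw [Finset.sum_eq_single_of_mem c hc] at h2
    · rw [Polynomial.eval_mul, Polynomial.eval_C, Polynomial.eval_prod] at h2
      rcases mul_eq_zero.1 h2 with h3 | h3
      · exact h3
      · exfalso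
        rw [Finset.prod_eq_zero_iff] at h3
        obtain ⟨e, he, h4⟩ := h3
        rw [Polynomial.eval_sub, Polynomial.eval_X, Polynomial.eval_C] at h4
        exact (Finset.ne_of_mem_erase he) (Subtype.ext (sub_eq_zero.1 h4).symm)
    · intro e he hec
      rw [Polynomial.eval_mul, Polynomial.eval_prod]
      have h3 : ∏ e' ∈ s.erase e, Polynomial.eval c.1 (Polynomial.X - Polynomial.C e'.1) = 0 := by
        apply Finset.prod_eq_zero (i := c)
        · exact Finset.mem_erase.2 ⟨hec.symm, hc⟩
        · simp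
      rw [h3, mul_zero]
  have h1 := countable_of_linInd I hlin
  have h2 : {c : ℂ | R < ‖c‖}.Countable := Set.countable_coe_iff.1 h1
  have h3 := h2.dense_compl ℝ
  have h4 : {c : ℂ | R < ‖c‖}ᶜ = Metric.closedBall 0 R := by
    ext c
    simp
  rw [h4] at h3
  have h5 := h3.closure_eq
  rw [Metric.isClosed_closedBall.closure_eq] at h5
  have h6 : (((|R| + 1 : ℝ)) : ℂ) ∈ Metric.closedBall (0 : ℂ) R := by
    rw [h5]
    trivial
  rw [mem_closedBall_zero_iff, Complex.norm_real, Real.norm_eq_abs,
    abs_of_nonneg (by positivity)] at h6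
  have h7 := le_abs_self R
  linarith

/-- A bounded complex algebraic set is finite. -/
theorem finite_of_bounded {σ : Type} [Finite σ] (I : Ideal (MvPolynomial σ ℂ))
    (hR : ∀ i, ∃ R : ℝ, ∀ x ∈ zeroLocus ℂ I, ‖x i‖ ≤ R) : (zeroLocus ℂ I).Finite := by
  have h1 : ∀ i, ((fun x : σ → ℂ => x i) '' zeroLocus ℂ I).Finite := by
    intro i
    obtain ⟨R, hR⟩ := hR i
    exact finite_values I i hR
  refine (Set.Finite.pi' h1).subset ?_
  intro x hx i
  exact ⟨x, hx, rfl⟩

end Pool.Agent.H.MP_deabf1_gt
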