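import Pool.Agent.H.MP_deabf1_gt.WG
import Pool.Agent.H.MP_deabf1_gt.WH
import Pool.Agent.H.MP_deabf1_gt.WI

/-!
The Einstein equations of a tower have finitely many solutions.
-/

namespace Pool.Agent.H.MP_deabf1_gt

open Filter Topology MvPolynomial

variable {ι : Type} [Fintype ι] [DecidableEq ι]

theorem toGm_alg (F : Ultrafilter ℕ) (r : ℝ) :
    toGm F (fun _ => algebraMap ℝ ℂ r) = algebraMap ℝ (Gm F) r := rfl

/-- A sequence of solutions gives a solution in the field of germs. -/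
theorem sys_germ (F : Ultrafilter ℕ) {T : ι → ι → ι → ℝ} {γ d : ι → ℝ} {xs : ℕ → ι → ℂ}
    (hS : ∀ n, Pl.Sys T γ d Finset.univ (xs n) 0) :
    Pl.Sys T γ d Finset.univ (fun j => toGm F (fun n => xs n j)) 0 := by
  intro i hi
  refine ⟨?_, ?_⟩
  · intro h0
    have h1 : toGm F (fun n => xs n i) = toGm F 0 := by
      rw [map_zero]
      exact h0
    have h2 := toGm_eq h1
    obtain ⟨n, hn⟩ := h2.exists
    exact (hS n i hi).1 hn
  · have h1 : (fun n => algebraMap ℝ ℂ (γ i) * (xs n i)⁻¹ +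
        1 / 4 * ∑ j, ∑ k, algebraMap ℝ ℂ (T i j k) * Pl.term (xs n) i j k) =
        fun _ => algebraMap ℝ ℂ (d i) := by
      funext n
      have h2 := (hS n i hi).2
      rw [mul_zero, add_zero] at h2
      exact h2
    have h2 := congrArg (toGm F) h1
    rw [toGm_alg] at h2
    rw [mul_zero, add_zero, ← h2]
    have hinv : ∀ j, (toGm F (fun n => xs n j))⁻¹ = toGm F (fun n => (xs n j)⁻¹) := fun j =>
      (toGm_inv F _).symm
    have h3 : (fun n => algebraMap ℝ ℂ (γ i) * (xs n i)⁻¹ +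
        1 / 4 * ∑ j, ∑ k, algebraMap ℝ ℂ (T i j k) * Pl.term (xs n) i j k) =
        (fun _ => algebraMap ℝ ℂ (γ i)) * (fun n => (xs n i)⁻¹) +
        (1 / 4 : ℕ → ℂ) * ∑ j, ∑ k, (fun _ => algebraMap ℝ ℂ (T i j k)) *
          (2 * (fun n => (xs n i)⁻¹) + (fun n => xs n i) * (fun n => (xs n j)⁻¹) *
            (fun n => (xs n k)⁻¹) - (fun n => xs n j) * (fun n => (xs n i)⁻¹) *
            (fun n => (xs n k)⁻¹) - (fun n => xs n k) * (fun n => (xs n i)⁻¹) *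
            (fun n => (xs n j)⁻¹)) := by
      funext n
      simp only [Pi.add_apply, Pi.mul_apply, Finset.sum_apply, Pi.sub_apply, Pi.div_apply,
        Pi.one_apply, Pi.ofNat_apply, Pl.term]
    rw [h3]
    simp only [map_add, map_mul, map_sum, map_sub, map_div₀, map_one, map_ofNat, toGm_alg]
    unfold Pl.term
    simp only [hinv]
    have h4 : toGm F (1 / 4 : ℕ → ℂ) = 1 / 4 := by
      have h5 : (1 / 4 : ℕ → ℂ) * 4 = 1 := by
        funext n
        simp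
      have h6 := congrArg (toGm F) h5
      rw [map_mul, map_ofNat, map_one] at h6
      have := charZero_of_real (Gm F)
      rw [eq_div_iff (by norm_num)]
      exact h6
    rw [h4]

/-- The solutions are bounded. -/
theorem sys_bounded {T : ι → ι → ι → ℝ} (hT : Sym T) (hT0 : ∀ i j k, 0 ≤ T i j k)
    {γ d : ι → ℝ} (hγ : ∀ i, 0 ≤ γ i) (hd : ∀ i, 0 < d i) {f : ι → ℕ} (hf : Tower T d f) (i : ι) :
    ∃ R : ℝ, ∀ x : ι → ℂ, Pl.Sys T γ d Finset.univ x 0 → ‖x i‖ ≤ R := by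
  by_contra hne
  push Not at hne
  choose xs hS hB using fun n : ℕ => hne n
  set F : Ultrafilter ℕ := hyperfilter ℕ
  obtain ⟨c, g, hg, hc⟩ := Pl.tower_bounded (gmPl F) hT hT0 hγ hd hf (sys_germ F hS) i
  have h1 : Tendsto (fun n => xs n i) F (𝓝 c) := hc.congr' (toGm_eq hg)
  have h2 : ∀ᶠ n in (F : Filter ℕ), ‖xs n i‖ < ‖c‖ + 1 :=
    h1.norm.eventually_lt_const (lt_add_one _)
  have h3 : ∀ᶠ n : ℕ in (F : Filter ℕ), ‖c‖ + 1 ≤ n := by
    have h4 : ∀ᶠ n : ℕ in atTop, ‖c‖ + 1 ≤ n := by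
      obtain ⟨N, hN⟩ := exists_nat_ge (‖c‖ + 1)
      filter_upwards [eventually_ge_atTop N] with n hn
      exact hN.trans (by exact_mod_cast hn)
    rw [← Nat.cofinite_eq_atTop] at h4
    exact (hyperfilter_le_cofinite (α := ℕ)) h4
  obtain ⟨n, hn1, hn2⟩ := (h2.and h3).exists
  exact absurd (hB n) (not_lt.2 ((hn1.le).trans hn2))

/-- The Einstein equations of a tower have finitely many complex solutions. -/
theorem sys_finite {T : ι → ι → ι → ℝ} (hT : Sym T) (hT0 : ∀ i j k, 0 ≤ T i j k)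
    {γ d : ι → ℝ} (hγ : ∀ i, 0 ≤ γ i) (hd : ∀ i, 0 < d i) {f : ι → ℕ} (hf : Tower T d f) :
    {x : ι → ℂ | Pl.Sys T γ d Finset.univ x 0}.Finite := by
  classical
  let p1 : ι → MvPolynomial (ι ⊕ ι) ℂ := fun i => X (Sum.inl i) * X (Sum.inr i) - 1
  let p2 : ι → MvPolynomial (ι ⊕ ι) ℂ := fun i => C (algebraMap ℝ ℂ (γ i)) * X (Sum.inr i) +
    C (1 / 4) * ∑ j, ∑ k, C (algebraMap ℝ ℂ (T i j k)) * (C 2 * X (Sum.inr i) +
      X (Sum.inl i) * X (Sum.inr j) * X (Sum.inr k) - X (Sum.inl j) * X (Sum.inr i) * X (Sum.inr k)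
      - X (Sum.inl k) * X (Sum.inr i) * X (Sum.inr j)) - C (algebraMap ℝ ℂ (d i))
  let I : Ideal (MvPolynomial (ι ⊕ ι) ℂ) := Ideal.span (Set.range p1 ∪ Set.range p2)
  have hI : ∀ z : ι ⊕ ι → ℂ, z ∈ zeroLocus ℂ I ↔
      (∀ i, z (Sum.inl i) * z (Sum.inr i) - 1 = 0) ∧ ∀ i,
      algebraMap ℝ ℂ (γ i) * z (Sum.inr i) + 1 / 4 * ∑ j, ∑ k, algebraMap ℝ ℂ (T i j k) *
        (2 * z (Sum.inr i) + z (Sum.inl i) * z (Sum.inr j) * z (Sum.inr k)
        - z (Sum.inl j) * z (Sum.inr i) * z (Sum.inr k)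
        - z (Sum.inl k) * z (Sum.inr i) * z (Sum.inr j)) - algebraMap ℝ ℂ (d i) = 0 := by
    intro z
    rw [zeroLocus_span]
    constructor
    · intro h
      refine ⟨fun i => ?_, fun i => ?_⟩
      · have h1 := h (p1 i) (Or.inl ⟨i, rfl⟩)
        simpa [p1] using h1
      · have h1 := h (p2 i) (Or.inr ⟨i, rfl⟩)
        simpa [p2] using h1
    · rintro ⟨h1, h2⟩ p (⟨i, rfl⟩ | ⟨i, rfl⟩)
      · simpa [p1] using h1 i
      · simpa [p2] using h2 i
  have hto : ∀ x : ι → ℂ, Pl.Sys T γ d Finset.univ x 0 →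
      (Sum.elim x fun i => (x i)⁻¹) ∈ zeroLocus ℂ I := by
    intro x hx
    rw [hI]
    refine ⟨fun i => ?_, fun i => ?_⟩
    · simp only [Sum.elim_inl, Sum.elim_inr]
      rw [mul_inv_cancel₀ (hx i (Finset.mem_univ i)).1, sub_self]
    · simp only [Sum.elim_inl, Sum.elim_inr]
      have h1 := (hx i (Finset.mem_univ i)).2
      rw [mul_zero, add_zero] at h1
      rw [sub_eq_zero]
      exact h1
  have hfrom : ∀ z ∈ zeroLocus ℂ I, Pl.Sys T γ d Finset.univ (fun i => z (Sum.inl i)) 0 := by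
    intro z hz
    obtain ⟨h1, h2⟩ := (hI z).1 hz
    have h3 : ∀ i, z (Sum.inl i) ≠ 0 := by
      intro i h0
      have h4 := h1 i
      rw [h0, zero_mul, zero_sub] at h4
      norm_num at h4
    have h4 : ∀ i, z (Sum.inr i) = (z (Sum.inl i))⁻¹ := fun i =>
      eq_inv_of_mul_eq_one_right (sub_eq_zero.1 (h1 i))
    intro i _
    refine ⟨h3 i, ?_⟩
    have h5 := h2 i
    simp only [h4] at h5
    rw [mul_zero, add_zero]
    exact sub_eq_zero.1 h5
  have hfin : ∀ i : ι, ((fun z : ι ⊕ ι → ℂ => z (Sum.inl i)) '' zeroLocus ℂ I).Finite := by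
    intro i
    obtain ⟨R, hR⟩ := sys_bounded hT hT0 hγ hd hf i
    exact finite_values I (Sum.inl i) (R := R) fun z hz => hR _ (hfrom z hz)
  refine (Set.Finite.pi' hfin).subset ?_
  intro x hx i
  exact ⟨_, hto x hx, rfl⟩

/-- The Einstein equations of a tower have finitely many positive solutions. -/
theorem eqL_finite {T : ι → ι → ι → ℝ} (hT : Sym T) (hT0 : ∀ i j k, 0 ≤ T i j k)
    {γ d : ι → ℝ} (hγ : ∀ i, 0 ≤ γ i) (hd : ∀ i, 0 < d i) {f : ι → ℕ} (hf : Tower T d f) :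
    {u : ι → ℝ | (∀ i, 0 < u i) ∧ ∀ i, eqL T γ u i = d i}.Finite := by
  have h1 := sys_finite hT hT0 hγ hd hf
  let φ : (ι → ℝ) → ι → ℂ := fun u i => ((u i : ℂ))⁻¹
  have hφ : Set.InjOn φ {u : ι → ℝ | (∀ i, 0 < u i) ∧ ∀ i, eqL T γ u i = d i} := by
    intro u _ v _ huv
    funext i
    have h2 : ((u i : ℂ))⁻¹ = ((v i : ℂ))⁻¹ := congrFun huv i
    exact_mod_cast inv_injective h2
  refine Set.Finite.of_finite_image (h1.subset ?_) hφ
  rintro _ ⟨u, ⟨hu, hE⟩, rfl⟩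
  intro i _
  have hu0 : ∀ j, (u j : ℂ) ≠ 0 := fun j => by exact_mod_cast (hu j).ne'
  refine ⟨inv_ne_zero (hu0 i), ?_⟩
  rw [mul_zero, add_zero]
  have h2 : ((eqL T γ u i : ℝ) : ℂ) = ((d i : ℝ) : ℂ) := by rw [hE i]
  rw [show algebraMap ℝ ℂ (d i) = ((d i : ℝ) : ℂ) from rfl, ← h2]
  unfold eqL
  push_cast
  simp only [φ, inv_inv]
  congr 1
  congr 1
  apply Finset.sum_congr rfl
  intro j _
  apply Finset.sum_congr rfl
  intro k _
  unfold Pl.term
  rw [show algebraMap ℝ ℂ (T i j k) = ((T i j k : ℝ) : ℂ) from rfl]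
  simp only [inv_inv]
  have h3 := hu0 i
  have h4 := hu0 j
  have h5 := hu0 k
  field_simp

end Pool.Agent.H.MP_deabf1_gt
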