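import Pool.Agent.H.MP_deabf1_gt.L5
import Pool.Agent.H.MP_deabf1_gt.WG

/-!
The trace forms of the summands.
-/

namespace Pool.Agent.H.MP_deabf1_gt

open LinearMap (BilinForm)

variable {𝔤 K : Type*} [LieRing 𝔤] [LieAlgebra ℝ 𝔤] [Module.Finite ℝ 𝔤] [Group K]
  (D : HomData 𝔤 K) {q : ℕ} {n : Type*} [Fintype n] [DecidableEq n]

namespace HomData

/-- The matrix of `ad x` on the span of `e`. -/
def mat (e : n → 𝔤) (x : 𝔤) : Matrix n n ℝ := Matrix.of fun c b => D.Q ⁅x, e b⁆ (e c)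

theorem mat_apply (e : n → 𝔤) (x : 𝔤) (c b : n) : D.mat e x c b = D.Q ⁅x, e b⁆ (e c) := rfl

theorem mat_skew (e : n → 𝔤) (x : 𝔤) : (D.mat e x).transpose = -D.mat e x := by
  ext c b
  rw [Matrix.transpose_apply, Matrix.neg_apply, mat_apply, mat_apply, D.Q_skew, D.Q_symm]

/-- The trace form. -/
def bet (e : n → 𝔤) : BilinForm ℝ 𝔤 :=
  LinearMap.mk₂ ℝ (fun x y => ∑ b, ∑ c, D.Q ⁅x, e b⁆ (e c) * D.Q ⁅y, e b⁆ (e c))
    (by
      intro x x' y
      simp only [add_lie, map_add, LinearMap.add_apply, add_mul, Finset.sum_add_distrib])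
    (by
      intro c x y
      simp only [smul_lie, map_smul, LinearMap.smul_apply, smul_eq_mul, mul_assoc, Finset.mul_sum])
    (by
      intro x y y'
      simp only [add_lie, map_add, LinearMap.add_apply, mul_add, Finset.sum_add_distrib])
    (by
      intro c x y
      simp only [smul_lie, map_smul, LinearMap.smul_apply, smul_eq_mul, Finset.mul_sum]
      refine Finset.sum_congr rfl fun b _ => Finset.sum_congr rfl fun c' _ => ?_
      ring)

theorem bet_apply (e : n → 𝔤) (x y : 𝔤) :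
    D.bet e x y = ∑ b, ∑ c, D.Q ⁅x, e b⁆ (e c) * D.Q ⁅y, e b⁆ (e c) := rfl

theorem bet_trace (e : n → 𝔤) (x y : 𝔤) :
    D.bet e x y = -(D.mat e x * D.mat e y).trace := by
  have h1 : D.mat e x = -(D.mat e x).transpose := by
    rw [D.mat_skew, neg_neg]
  rw [h1, Matrix.neg_mul, Matrix.trace_neg, neg_neg, bet_apply, Matrix.trace]
  apply Finset.sum_congr rfl
  intro b _
  rw [Matrix.diag_apply, Matrix.mul_apply]
  rfl

theorem bet_symm (e : n → 𝔤) (x y : 𝔤) : D.bet e x y = D.bet e y x := by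
  rw [bet_trace, bet_trace, Matrix.trace_mul_comm]

theorem mat_lie {e : n → 𝔤} {W : Submodule ℝ 𝔤} (he : IsONB D.Q W e) {x y : 𝔤}
    (hx : ∀ v ∈ W, ⁅x, v⁆ ∈ W) (hy : ∀ v ∈ W, ⁅y, v⁆ ∈ W) :
    D.mat e ⁅x, y⁆ = D.mat e x * D.mat e y - D.mat e y * D.mat e x := by
  have key : ∀ x y : 𝔤, (∀ v ∈ W, ⁅y, v⁆ ∈ W) → ∀ c b,
      D.Q ⁅x, ⁅y, e b⁆⁆ (e c) = (D.mat e x * D.mat e y) c b := by
    intro x y hy c b
    rw [Matrix.mul_apply]
    conv_lhs => rw [he.exp _ (hy _ (he.mem b))]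
    rw [lie_sum, map_sum, LinearMap.sum_apply]
    apply Finset.sum_congr rfl
    intro a _
    rw [lie_smul, map_smul, LinearMap.smul_apply, smul_eq_mul, mat_apply, mat_apply, mul_comm]
  ext c b
  rw [Matrix.sub_apply, ← key x y hy, ← key y x hx, mat_apply, lie_lie, map_sub,
    LinearMap.sub_apply]

theorem bet_inv {e : n → 𝔤} {W : Submodule ℝ 𝔤} (he : IsONB D.Q W e) {x y z : 𝔤}
    (hx : ∀ v ∈ W, ⁅x, v⁆ ∈ W) (hy : ∀ v ∈ W, ⁅y, v⁆ ∈ W) (hz : ∀ v ∈ W, ⁅z, v⁆ ∈ W) :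
    D.bet e ⁅x, y⁆ z = D.bet e x ⁅y, z⁆ := by
  rw [bet_trace, bet_trace, D.mat_lie he hx hy, D.mat_lie he hy hz, Matrix.sub_mul,
    Matrix.mul_sub, Matrix.trace_sub, Matrix.trace_sub]
  have h1 : (D.mat e y * D.mat e x * D.mat e z).trace =
      (D.mat e x * (D.mat e z * D.mat e y)).trace := by
    rw [Matrix.mul_assoc, Matrix.trace_mul_comm, Matrix.mul_assoc]
  rw [h1, Matrix.mul_assoc]

theorem bet_Ad {e : n → 𝔤} {W : Submodule ℝ 𝔤} (he : IsONB D.Q W e)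
    (hW : ∀ h, ∀ v ∈ W, D.Ad h v ∈ W) (h : K) (x y : 𝔤) :
    D.bet e (D.Ad h x) (D.Ad h y) = D.bet e x y := by
  have hinv : ∀ (h : K) (x : 𝔤), D.Ad h⁻¹ (D.Ad h x) = x := by
    intro h x
    have h1 := D.l3_Ad_inv h⁻¹ x
    rwa [inv_inv] at h1
  -- the transported basis
  have he' : IsONB D.Q W (fun i => D.Ad h⁻¹ (e i)) := by
    refine ⟨fun i => hW _ _ (he.mem i), fun i j => ?_, fun v hv => ?_⟩
    · rw [D.Q_Ad, he.orth]
    · have h1 := he.exp (D.Ad h v) (hW h v hv)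
      have h2 := congrArg (D.Ad h⁻¹) h1
      rw [hinv, map_sum] at h2
      rw [h2]
      apply Finset.sum_congr rfl
      intro i _
      rw [map_smul, ← h2]
      congr 1
      have h3 := D.Q_Ad h v (D.Ad h⁻¹ (e i))
      rw [D.l3_Ad_inv] at h3
      exact h3
  have hq : ∀ x : 𝔤, D.bet e (D.Ad h x) (D.Ad h x) = D.bet e x x := by
    intro x
    let ω : 𝔤 →ₗ[ℝ] 𝔤 →ₗ[ℝ] ℝ := LinearMap.mk₂ ℝ (fun v w => D.Q ⁅x, v⁆ w)
      (by intro v v' w; simp only [lie_add, map_add, LinearMap.add_apply])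
      (by intro c v w; simp only [lie_smul, map_smul, LinearMap.smul_apply])
      (by intro v w w'; simp only [map_add])
      (by intro c v w; simp only [map_smul])
    have h1 := onb_indep2 D.Q_symm he he' ω
    have h2 : ∀ v w, ω v w = D.Q ⁅x, v⁆ w := fun v w => rfl
    simp only [h2] at h1
    rw [bet_apply, bet_apply]
    simp only [← pow_two]
    rw [h1]
    refine Finset.sum_congr rfl fun b _ => Finset.sum_congr rfl fun c _ => ?_
    congr 1
    have h3 := D.Q_Ad h ⁅x, D.Ad h⁻¹ (e b)⁆ (D.Ad h⁻¹ (e c))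
    rw [D.Ad_lie, D.l3_Ad_inv, D.l3_Ad_inv] at h3
    exact h3
  have h1 := hq (x + y)
  simp only [map_add, LinearMap.add_apply] at h1
  have h2 := D.bet_symm e (D.Ad h y) (D.Ad h x)
  have h3 := D.bet_symm e y x
  have h4 := hq x
  have h5 := hq y
  linarith

/-- The trace form on a summand which does not occur in the isotropy algebra. -/
theorem bet_eq {m : Fin q → Submodule ℝ 𝔤} (hm : D.Decomp m) {d : Fin q → ℕ}
    {f : ∀ i, Fin (d i) → 𝔤} (hf : ∀ i, IsONB D.Q (m i) (f i)) {n0 : ℕ} {z : Fin n0 → 𝔤}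
    (hz : IsONB D.Q D.𝔨.toSubmodule z)
    (hQo : ∀ i j, i ≠ j → ∀ v ∈ m i, ∀ w ∈ m j, D.Q v w = 0) {i j : Fin q} (hdi : 0 < d i)
    (hK : ∀ V ≤ D.𝔨.toSubmodule, ¬ D.Equivalent (m i) V) (w v : 𝔤) (hv : v ∈ m i) :
    D.bet (f j) w v = D.TT f i j j / d i * D.Q w v := by
  have hinv : ∀ h x y, D.bet (f j) (D.Ad h x) (D.Ad h y) = D.bet (f j) x y :=
    D.bet_Ad (hf j) (hm.irr j).inv
  obtain ⟨a, ha⟩ := D.schur_diag (hm.irr i) (D.bet_symm (f j)) hinv
  have haT : D.TT f i j j = a * d i := by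
    have h1 : D.TT f i j j = ∑ b, D.bet (f j) (f i b) (f i b) := by
      unfold TT
      apply Finset.sum_congr rfl
      intro b _
      rw [bet_apply]
      refine Finset.sum_congr rfl fun c _ => Finset.sum_congr rfl fun c' _ => ?_
      rw [pow_two]
    rw [h1]
    have h2 : ∀ b, D.bet (f j) (f i b) (f i b) = a := by
      intro b
      rw [ha _ ((hf i).mem b) _ ((hf i).mem b), (hf i).orth, if_pos rfl, mul_one]
    simp only [h2, Finset.sum_const, Finset.card_univ, Fintype.card_fin, nsmul_eq_mul]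
    ring
  have hdi' : (d i : ℝ) ≠ 0 := by exact_mod_cast hdi.ne'
  rw [haT, mul_div_cancel_right₀ _ hdi']
  -- no interaction with the isotropy algebra
  have hk : ∀ y ∈ D.𝔨, D.bet (f j) v y = 0 := by
    obtain ⟨g, hgW, hgQ, hgA⟩ := D.l3_rep D.𝔨.toSubmodule D.𝔨_Ad hinv
    rcases (hm.irr i).irr (m i ⊓ LinearMap.ker g) inf_le_left (by
        intro h x hx
        refine ⟨(hm.irr i).inv h x hx.1, ?_⟩
        rw [SetLike.mem_coe, LinearMap.mem_ker, hgA, LinearMap.mem_ker.1 hx.2, map_zero]) with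
      h1 | h1
    · exfalso
      refine hK ((m i).map g) ?_ ⟨g, ⟨?_, ?_, ?_⟩, fun h x _ => hgA h x⟩
      · rintro _ ⟨x, _, rfl⟩
        exact hgW x
      · intro x hx
        exact ⟨x, hx, rfl⟩
      · intro x hx y hy hxy
        have h3 : x - y ∈ m i ⊓ LinearMap.ker g := by
          refine ⟨(m i).sub_mem hx hy, ?_⟩
          rw [SetLike.mem_coe, LinearMap.mem_ker, map_sub, hxy, sub_self]
        rw [h1, Submodule.mem_bot] at h3
        exact sub_eq_zero.1 h3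
      · rintro _ ⟨x, hx, rfl⟩
        exact ⟨x, hx, rfl⟩
    · intro y hy
      have h3 : v ∈ m i ⊓ LinearMap.ker g := by
        rw [h1]
        exact hv
      rw [← hgQ v y hy, LinearMap.mem_ker.1 h3.2, map_zero, LinearMap.zero_apply]
  have hk' : ∀ c, D.bet (f j) (z c) v = 0 := by
    intro c
    rw [D.bet_symm]
    exact hk _ (hz.mem c)
  have hoff : ∀ k, k ≠ i → ∀ x ∈ m k, D.bet (f j) x v = 0 := fun k hk x hx =>
    D.schur_off (hm.irr k) (hm.irr i) (hm.inequiv k i hk) hinv x hx v hv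
  have hQz : ∀ c, D.Q (z c) v = 0 := by
    intro c
    have h1 : v ∈ D.𝔪 := D.l6_mem hm.sup hv
    rw [D.Q_symm]
    exact h1 _ (hz.mem c)
  have h1 := D.l6_expand hm.sup hf hz hQo w
  rw [h1]
  simp only [map_add, LinearMap.add_apply, map_sum, LinearMap.sum_apply, map_smul,
    LinearMap.smul_apply, hk', hQz, smul_zero, Finset.sum_const_zero, zero_add]
  rw [Finset.mul_sum]
  apply Finset.sum_congr rfl
  rintro ⟨k, c⟩ _
  by_cases hki : k = i
  · subst hki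
    rw [ha _ ((hf k).mem c) v hv]
    simp only [smul_eq_mul]
    ring
  · rw [hoff k hki _ ((hf k).mem c), hQo k i hki _ ((hf k).mem c) v hv]
    simp

/-- The trace form has the same factor on summands which are connected by a structure constant. -/
theorem bet_con {m : Fin q → Submodule ℝ 𝔤} (hm : D.Decomp m) {d : Fin q → ℕ}
    {f : ∀ i, Fin (d i) → 𝔤} (hf : ∀ i, IsONB D.Q (m i) (f i)) {n0 : ℕ} {z : Fin n0 → 𝔤}
    (hz : IsONB D.Q D.𝔨.toSubmodule z)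
    (hQo : ∀ i j, i ≠ j → ∀ v ∈ m i, ∀ w ∈ m j, D.Q v w = 0) {i k l j : Fin q}
    (hdi : 0 < d i) (hdl : 0 < d l)
    (hKi : ∀ V ≤ D.𝔨.toSubmodule, ¬ D.Equivalent (m i) V)
    (hKl : ∀ V ≤ D.𝔨.toSubmodule, ¬ D.Equivalent (m l) V)
    (hi : ∀ x ∈ m i, ∀ v ∈ m j, ⁅x, v⁆ ∈ m j) (hk : ∀ x ∈ m k, ∀ v ∈ m j, ⁅x, v⁆ ∈ m j)
    (hl : ∀ x ∈ m l, ∀ v ∈ m j, ⁅x, v⁆ ∈ m j) (hne : D.TT f i k l ≠ 0) :
    D.TT f i j j / d i = D.TT f l j j / d l := by
  have h1 : ∃ a b c, D.Q ⁅f i a, f k b⁆ (f l c) ≠ 0 := by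
    by_contra h
    push Not at h
    apply hne
    unfold TT
    refine Finset.sum_eq_zero fun a _ => Finset.sum_eq_zero fun b _ =>
      Finset.sum_eq_zero fun c _ => ?_
    rw [h a b c]
    norm_num
  obtain ⟨a, b, c, h1⟩ := h1
  have h2 := D.bet_inv (hf j) (x := f i a) (y := f k b) (z := f l c) (hi _ ((hf i).mem a))
    (hk _ ((hf k).mem b)) (hl _ ((hf l).mem c))
  rw [D.bet_eq hm hf hz hQo hdl hKl _ _ ((hf l).mem c), D.bet_symm,
    D.bet_eq hm hf hz hQo hdi hKi _ _ ((hf i).mem a), D.Q_symm ⁅f k b, f l c⁆, ← D.Q_inv] at h2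
  exact (mul_right_cancel₀ h1 h2).symm

end HomData

end Pool.Agent.H.MP_deabf1_gt
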