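import Pool.Agent.H.MP_deabf1_gt.WK
import Pool.Agent.H.MP_deabf1_gt.WJ

/-!
Finiteness of the number of invariant Einstein metrics for towers.
-/

namespace Pool.Agent.H.MP_deabf1_gt

open LinearMap (BilinForm)

variable {𝔤 K : Type*} [LieRing 𝔤] [LieAlgebra ℝ 𝔤] [Module.Finite ℝ 𝔤] [Group K]
  (D : HomData 𝔤 K) {q : ℕ}

namespace HomData

theorem lvl_mem {m : Fin q → Submodule ℝ 𝔤} {fl : Fin q → ℕ} {n : ℕ} {i : Fin q}
    (hi : fl i ≤ n) {x : 𝔤} (hx : x ∈ m i) :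
    x ∈ D.𝔨.toSubmodule ⊔ ⨆ i, ⨆ (_ : fl i ≤ n), m i :=
  Submodule.mem_sup_right (Submodule.mem_iSup_of_mem i (Submodule.mem_iSup_of_mem hi hx))

theorem lvl_orth {m : Fin q → Submodule ℝ 𝔤} (hm : D.Decomp m)
    (hQo : ∀ i j, i ≠ j → ∀ v ∈ m i, ∀ w ∈ m j, D.Q v w = 0) {fl : Fin q → ℕ} {n : ℕ} {j : Fin q}
    (hj : n < fl j) {w v : 𝔤} (hw : w ∈ D.𝔨.toSubmodule ⊔ ⨆ i, ⨆ (_ : fl i ≤ n), m i)
    (hv : v ∈ m j) : D.Q w v = 0 := by
  have h1 : D.𝔨.toSubmodule ⊔ ⨆ i, ⨆ (_ : fl i ≤ n), m i ≤ LinearMap.ker (D.Q.flip v) := by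
    refine sup_le ?_ (iSup_le fun i => iSup_le fun hi => ?_)
    · intro z hz
      rw [LinearMap.mem_ker]
      change D.Q z v = 0
      rw [D.Q_symm]
      exact (D.l6_mem hm.sup hv) z hz
    · intro x hx
      rw [LinearMap.mem_ker]
      change D.Q x v = 0
      refine hQo i j ?_ x hx v hv
      rintro rfl
      omega
  exact LinearMap.mem_ker.1 (h1 hw)

/-- A lower summand preserves a summand which is alone on its floor. -/
theorem lvl_pres {m : Fin q → Submodule ℝ 𝔤} (hm : D.Decomp m) {d : Fin q → ℕ}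
    {f : ∀ i, Fin (d i) → 𝔤} (hf : ∀ i, IsONB D.Q (m i) (f i)) {n0 : ℕ} {z : Fin n0 → 𝔤}
    (hz : IsONB D.Q D.𝔨.toSubmodule z)
    (hQo : ∀ i j, i ≠ j → ∀ v ∈ m i, ∀ w ∈ m j, D.Q v w = 0) {fl : Fin q → ℕ}
    (hsub : ∀ n, ∃ H : LieSubalgebra ℝ 𝔤,
      H.toSubmodule = D.𝔨.toSubmodule ⊔ ⨆ i, ⨆ (_ : fl i ≤ n), m i) {i j : Fin q}
    (hij : fl i < fl j) (hj : ∀ k, fl k = fl j → k = j) {x v : 𝔤} (hx : x ∈ m i) (hv : v ∈ m j) :
    ⁅x, v⁆ ∈ m j := by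
  obtain ⟨n, hn⟩ : ∃ n, fl j = n + 1 := ⟨fl j - 1, by omega⟩
  obtain ⟨H, hH⟩ := hsub n
  obtain ⟨H', hH'⟩ := hsub (n + 1)
  have hx1 : x ∈ H := by
    rw [← LieSubalgebra.mem_toSubmodule, hH]
    exact D.lvl_mem (by omega) hx
  have hx2 : x ∈ H' := by
    rw [← LieSubalgebra.mem_toSubmodule, hH']
    exact D.lvl_mem (by omega) hx
  have hv2 : v ∈ H' := by
    rw [← LieSubalgebra.mem_toSubmodule, hH']
    exact D.lvl_mem (by omega) hv
  have hxv : ⁅x, v⁆ ∈ D.𝔨.toSubmodule ⊔ ⨆ i, ⨆ (_ : fl i ≤ n + 1), m i := by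
    rw [← hH', LieSubalgebra.mem_toSubmodule]
    exact H'.lie_mem hx2 hv2
  have horth : ∀ w ∈ H, D.Q ⁅x, v⁆ w = 0 := by
    intro w hw
    have h1 : ⁅x, w⁆ ∈ D.𝔨.toSubmodule ⊔ ⨆ i, ⨆ (_ : fl i ≤ n), m i := by
      rw [← hH, LieSubalgebra.mem_toSubmodule]
      exact H.lie_mem hx1 hw
    rw [D.Q_skew, D.Q_symm, D.lvl_orth hm hQo (by omega) h1 hv, neg_zero]
  rw [D.l6_expand hm.sup hf hz hQo ⁅x, v⁆]
  refine (m j).add_mem ?_ ?_
  · refine (m j).sum_mem fun c _ => ?_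
    rw [horth (z c), zero_smul]
    · exact (m j).zero_mem
    · rw [← LieSubalgebra.mem_toSubmodule, hH]
      exact Submodule.mem_sup_left (hz.mem c)
  · refine (m j).sum_mem ?_
    rintro ⟨k, c⟩ _
    change D.Q ⁅x, v⁆ (f k c) • f k c ∈ m j
    rcases lt_trichotomy (fl k) (fl j) with h | h | h
    · rw [horth (f k c), zero_smul]
      · exact (m j).zero_mem
      · rw [← LieSubalgebra.mem_toSubmodule, hH]
        exact D.lvl_mem (by omega) ((hf k).mem c)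
    · have hkj := hj k h
      subst hkj
      exact (m k).smul_mem _ ((hf k).mem c)
    · rw [D.lvl_orth hm hQo (by omega) hxv ((hf k).mem c), zero_smul]
      exact (m j).zero_mem

/-- The structure constants of a tower. -/
theorem tower_of {m : Fin q → Submodule ℝ 𝔤} (hm : D.Decomp m) {d : Fin q → ℕ}
    {f : ∀ i, Fin (d i) → 𝔤} (hf : ∀ i, IsONB D.Q (m i) (f i)) {n0 : ℕ} {z : Fin n0 → 𝔤}
    (hz : IsONB D.Q D.𝔨.toSubmodule z)
    (hQo : ∀ i j, i ≠ j → ∀ v ∈ m i, ∀ w ∈ m j, D.Q v w = 0) (hd : ∀ i, 0 < d i)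
    {fl : Fin q → ℕ}
    (hsub : ∀ n, ∃ H : LieSubalgebra ℝ 𝔤,
      H.toSubmodule = D.𝔨.toSubmodule ⊔ ⨆ i, ⨆ (_ : fl i ≤ n), m i)
    (hfloor : ∀ n, (∀ i j, fl i = n → fl j = n → i = j) ∨
      ((Finset.univ.filter fun i => fl i = n).card ≤ 3 ∧
        ∀ i j, fl i = n → fl j < n → ∀ x ∈ m i, ∀ y ∈ m j, ⁅x, y⁆ = 0))
    (hK : ∀ i j, fl i < fl j → ∀ V ≤ D.𝔨.toSubmodule, ¬ D.Equivalent (m i) V) :
    Tower (D.TT f) (fun i => (d i : ℝ)) fl := by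
  refine ⟨?_, ?_, ?_⟩
  · intro i j k hik hjk
    obtain ⟨n, hn⟩ : ∃ n, fl k = n + 1 := ⟨fl k - 1, by omega⟩
    obtain ⟨H, hH⟩ := hsub n
    unfold TT
    refine Finset.sum_eq_zero fun a _ => Finset.sum_eq_zero fun b _ =>
      Finset.sum_eq_zero fun c _ => ?_
    have h1 : ⁅f i a, f j b⁆ ∈ D.𝔨.toSubmodule ⊔ ⨆ i, ⨆ (_ : fl i ≤ n), m i := by
      rw [← hH, LieSubalgebra.mem_toSubmodule]
      apply H.lie_mem
      · rw [← LieSubalgebra.mem_toSubmodule, hH]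
        exact D.lvl_mem (by omega) ((hf i).mem a)
      · rw [← LieSubalgebra.mem_toSubmodule, hH]
        exact D.lvl_mem (by omega) ((hf j).mem b)
    rw [D.lvl_orth hm hQo (by omega) h1 ((hf k).mem c)]
    norm_num
  · intro n
    rcases hfloor n with h | ⟨h1, h2⟩
    · exact Or.inl h
    · refine Or.inr ⟨h1, fun i j k hi hj => ?_⟩
      unfold TT
      refine Finset.sum_eq_zero fun a _ => Finset.sum_eq_zero fun b _ =>
        Finset.sum_eq_zero fun c _ => ?_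
      rw [h2 i j hi hj _ ((hf i).mem a) _ ((hf j).mem b), map_zero, LinearMap.zero_apply]
      norm_num
  · intro i k l j hi hk hl hne
    rcases hfloor (fl j) with h | ⟨_, h2⟩
    · have hj : ∀ k, fl k = fl j → k = j := fun k hk => h k j hk rfl
      have hne' : D.TT f i l k ≠ 0 := by
        rw [(D.TT_sym f).2 i l k]
        exact hne
      exact D.bet_con hm hf hz hQo (hd i) (hd k) (hK i j hi) (hK k j hk)
        (fun x hx v hv => D.lvl_pres hm hf hz hQo hsub hi hj hx hv)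
        (fun x hx v hv => D.lvl_pres hm hf hz hQo hsub hl hj hx hv)
        (fun x hx v hv => D.lvl_pres hm hf hz hQo hsub hk hj hx hv) hne'
    · have key : ∀ i, fl i < fl j → D.TT f i j j = 0 := by
        intro i hi
        unfold TT
        refine Finset.sum_eq_zero fun a _ => Finset.sum_eq_zero fun b _ =>
          Finset.sum_eq_zero fun c _ => ?_
        rw [← lie_skew, h2 j i rfl hi _ ((hf j).mem b) _ ((hf i).mem a), neg_zero, map_zero,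
          LinearMap.zero_apply]
        norm_num
      rw [key i hi, key k hk, zero_div, zero_div]

/-- Finiteness of the number of invariant Einstein metrics for towers. -/
theorem finite_einstein_tower {m : Fin q → Submodule ℝ 𝔤} (hm : D.Decomp m)
    (hflat : ∃ x ∈ D.𝔪, ∃ y : 𝔤, ⁅x, y⁆ ≠ 0) {fl : Fin q → ℕ}
    (hsub : ∀ n, ∃ H : LieSubalgebra ℝ 𝔤,
      H.toSubmodule = D.𝔨.toSubmodule ⊔ ⨆ i, ⨆ (_ : fl i ≤ n), m i)
    (hfloor : ∀ n, (∀ i j, fl i = n → fl j = n → i = j) ∨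
      ((Finset.univ.filter fun i => fl i = n).card ≤ 3 ∧
        ∀ i j, fl i = n → fl j < n → ∀ x ∈ m i, ∀ y ∈ m j, ⁅x, y⁆ = 0))
    (hK : ∀ i j, fl i < fl j → ∀ V ≤ D.𝔨.toSubmodule, ¬ D.Equivalent (m i) V) :
    ∃ F : Finset (BilinForm ℝ 𝔤), ∀ (g : BilinForm ℝ 𝔤) (lam : ℝ), D.IsMetric g →
      D.IsEinstein g lam → ∃ c : ℝ, 0 < c ∧ c • g ∈ F := by
  classical
  choose f hf using fun i => onb_exists (g := D.Q) D.Q_symm (m i) (fun x _ hx => D.Q_pos x hx)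
  obtain ⟨z, hz⟩ := onb_exists (g := D.Q) D.Q_symm D.𝔨.toSubmodule (fun x _ hx => D.Q_pos x hx)
  have hQo : ∀ i j, i ≠ j → ∀ v ∈ m i, ∀ w ∈ m j, D.Q v w = 0 := fun i j hij =>
    D.schur_off (hm.irr i) (hm.irr j) (hm.inequiv i j hij) D.Q_Ad
  have hd : ∀ i, 0 < Module.finrank ℝ (m i) := by
    intro i
    rw [Nat.pos_iff_ne_zero]
    intro h0
    exact (hm.irr i).ne (Submodule.finrank_eq_zero.1 h0)
  have hd' : ∀ i, (0 : ℝ) < (Module.finrank ℝ (m i) : ℝ) := fun i => by exact_mod_cast hd i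
  have hT := D.tower_of hm hf hz hQo hd hsub hfloor hK
  have hU := eqL_finite (D.TT_sym f) (D.TT_nonneg f) (D.GG_nonneg f z) hd' hT
  set U := {u : Fin q → ℝ | (∀ i, 0 < u i) ∧ ∀ i, eqL (D.TT f) (D.GG f z) u i =
    (Module.finrank ℝ (m i) : ℝ)} with hUdef
  have hfin : (⋃ u ∈ U, {g : BilinForm ℝ 𝔤 | D.IsMetric g ∧
      ∀ i, ∀ v ∈ m i, ∀ w ∈ m i, g v w = 1 / u i * D.Q v w}).Finite := by
    refine Set.Finite.biUnion hU fun u _ => Set.Subsingleton.finite ?_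
    rintro g ⟨hg, h1⟩ g' ⟨hg', h2⟩
    exact D.metric_ext hm hg hg' h1 h2
  refine ⟨hfin.toFinset, ?_⟩
  intro g lam hg hE
  obtain ⟨x, hx, hgd, hgo⟩ := D.metric_diag hm hg
  have hlam : 0 < lam := by
    by_contra h0
    have hEq := D.einstein_eq hm.sup hf hz hQo hg hx hgd hgo hE
    have h1 := lam_pos (D.TT_sym f) (D.TT_nonneg f) (D.GG_nonneg f z)
      (fun i => one_div_pos.2 (hx i)) (not_lt.1 h0) hEq
    obtain ⟨y, hy, y', hyy⟩ := hflat
    exact hyy (D.central_of hm.sup hf hz hQo (fun i => (h1 i).2) (fun i => (h1 i).1) y hy y')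
  refine ⟨lam, hlam, ?_⟩
  obtain ⟨hg', hE'⟩ := D.einstein_smul hlam hg hE
  have hx' : ∀ i, 0 < lam * x i := fun i => mul_pos hlam (hx i)
  have hgd' : ∀ i, ∀ v ∈ m i, ∀ w ∈ m i, (lam • g) v w = lam * x i * D.Q v w := by
    intro i v hv w hw
    rw [LinearMap.smul_apply, LinearMap.smul_apply, smul_eq_mul, hgd i v hv w hw, mul_assoc]
  have hgo' : ∀ i j, i ≠ j → ∀ v ∈ m i, ∀ w ∈ m j, (lam • g) v w = 0 := by
    intro i j hij v hv w hw
    rw [LinearMap.smul_apply, LinearMap.smul_apply, smul_eq_mul, hgo i j hij v hv w hw, mul_zero]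
  have hEq := D.einstein_eq hm.sup hf hz hQo hg' hx' hgd' hgo' hE'
  rw [Set.Finite.mem_toFinset]
  refine Set.mem_iUnion₂.2 ⟨fun j => 1 / (lam * x j), ?_, hg', ?_⟩
  · refine ⟨fun i => one_div_pos.2 (hx' i), fun i => ?_⟩
    rw [hEq i, div_self hlam.ne', mul_one]
  · intro i v hv w hw
    rw [hgd' i v hv w hw, one_div_one_div]

end HomData

end Pool.Agent.H.MP_deabf1_gt
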