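import Pool.Agent.H.MP_deabf1_gt.WL

/-!
Equal rank: no isotropy summand occurs in the isotropy algebra.
-/

namespace Pool.Agent.H.MP_deabf1_gt

open LinearMap (BilinForm)

variable {𝔤 K : Type*} [LieRing 𝔤] [LieAlgebra ℝ 𝔤] [Module.Finite ℝ 𝔤] [Group K]
  (D : HomData 𝔤 K) {q : ℕ}

namespace HomData

/-- `rk G = rk K`: the isotropy algebra `𝔨` contains a maximal abelian subalgebra `𝔱` of `𝔤` (an
element of `𝔤` lies in `𝔱` if and only if it commutes with `𝔱`). -/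
def EqualRank : Prop :=
  ∃ 𝔱 : Submodule ℝ 𝔤, 𝔱 ≤ D.𝔨.toSubmodule ∧ ∀ x, x ∈ 𝔱 ↔ ∀ y ∈ 𝔱, ⁅x, y⁆ = 0

/-- An invariant subspace is invariant under the isotropy algebra. -/
theorem lie_mem_of_inv {W : Submodule ℝ 𝔤} (hW : ∀ h, ∀ x ∈ W, D.Ad h x ∈ W) {z x : 𝔤}
    (hz : z ∈ D.𝔨) (hx : x ∈ W) : ⁅z, x⁆ ∈ W := by
  obtain ⟨c, hc⟩ := D.𝔨_exp z hz
  by_contra hne
  obtain ⟨f, hf, hfW⟩ := Submodule.exists_le_ker_of_notMem hne
  have h1 := hc f x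
  have h2 : (fun t : ℝ => f (D.Ad (c t) x)) = fun _ => 0 := by
    funext t
    exact LinearMap.mem_ker.1 (hfW (hW _ x hx))
  rw [h2] at h1
  exact hf (h1.unique (hasDerivAt_const _ _))

/-- An equivariant map commutes with the isotropy algebra. -/
theorem map_lie_of_equiv {W : Submodule ℝ 𝔤} (hW : ∀ h, ∀ x ∈ W, D.Ad h x ∈ W)
    {g : 𝔤 →ₗ[ℝ] 𝔤} (hg : ∀ h, ∀ x ∈ W, g (D.Ad h x) = D.Ad h (g x)) {z x : 𝔤} (hz : z ∈ D.𝔨)
    (hx : x ∈ W) : g ⁅z, x⁆ = ⁅z, g x⁆ := by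
  obtain ⟨c, hc⟩ := D.𝔨_exp z hz
  by_contra hne
  have hne' : g ⁅z, x⁆ - ⁅z, g x⁆ ≠ 0 := sub_ne_zero.2 hne
  obtain ⟨f, hf⟩ : ∃ f : 𝔤 →ₗ[ℝ] ℝ, f (g ⁅z, x⁆ - ⁅z, g x⁆) ≠ 0 :=
    ⟨D.Q (g ⁅z, x⁆ - ⁅z, g x⁆), (D.Q_pos _ hne').ne'⟩
  have h1 := hc (f.comp g) x
  have h2 := hc f (g x)
  have h3 : (fun t : ℝ => (f.comp g) (D.Ad (c t) x)) = fun t : ℝ => f (D.Ad (c t) (g x)) := by
    funext t
    rw [LinearMap.comp_apply, hg _ x hx]
  rw [h3] at h1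
  apply hf
  rw [map_sub, sub_eq_zero]
  exact h1.unique h2

theorem equalRank_inequiv (hD : D.EqualRank) {m : Fin q → Submodule ℝ 𝔤} (hm : D.Decomp m)
    (i : Fin q) : ∀ V ≤ D.𝔨.toSubmodule, ¬ D.Equivalent (m i) V := by
  rintro V hV ⟨g, hgb, hgA⟩
  obtain ⟨t, htk, ht⟩ := hD
  have hmi := (hm.irr i).inv
  have hVinv : ∀ h, ∀ x ∈ V, D.Ad h x ∈ V := by
    intro h x hx
    obtain ⟨y, hy, rfl⟩ := hgb.surjOn hx
    rw [← hgA h y hy]
    exact hgb.mapsTo (hmi h y hy)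
  -- an element of `V` commuting with `t` vanishes
  have hkey : ∀ v ∈ V, (∀ y ∈ t, ⁅v, y⁆ = 0) → v = 0 := by
    intro v hv hvt
    obtain ⟨y, hy, rfl⟩ := hgb.surjOn hv
    have h1 : ∀ s ∈ t, ⁅y, s⁆ = 0 := by
      intro s hs
      have h2 : g ⁅s, y⁆ = ⁅s, g y⁆ := D.map_lie_of_equiv hmi hgA (htk hs) hy
      have h3 : ⁅s, g y⁆ = 0 := by
        rw [← lie_skew, hvt s hs, neg_zero]
      have h4 : ⁅s, y⁆ ∈ m i := D.lie_mem_of_inv hmi (htk hs) hy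
      have h5 : ⁅s, y⁆ = 0 := by
        apply hgb.injOn h4 (m i).zero_mem
        rw [h2, h3, map_zero]
      rw [← lie_skew, h5, neg_zero]
    have h2 : y ∈ D.𝔨 := htk ((ht y).2 h1)
    have h3 : y ∈ D.𝔪 := D.l6_mem hm.sup hy
    have h4 : y = 0 := by
      by_contra hne
      exact (D.Q_pos y hne).ne' (h3 y h2)
    rw [h4, map_zero]
  -- `t` commutes with `V`
  have htV : ∀ s ∈ t, ∀ v ∈ V, ⁅s, v⁆ = 0 := by
    -- the projection to `V`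
    obtain ⟨e, he⟩ := onb_exists (g := D.Q) D.Q_symm V (fun x _ hx => D.Q_pos x hx)
    intro s hs v hv
    set s1 : 𝔤 := ∑ a, D.Q s (e a) • e a with hs1
    have hs1V : s1 ∈ V := V.sum_mem fun a _ => V.smul_mem _ (he.mem a)
    have horth : ∀ w ∈ V, D.Q (s - s1) w = 0 := by
      intro w hw
      have h1 : D.Q w s = ∑ a, D.Q w (e a) * D.Q (e a) s := onb_parseval he hw s
      rw [map_sub, LinearMap.sub_apply, D.Q_symm s w, h1, hs1, map_sum, LinearMap.sum_apply,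
        sub_eq_zero]
      apply Finset.sum_congr rfl
      intro a _
      rw [map_smul, LinearMap.smul_apply, smul_eq_mul, D.Q_symm (e a) w, D.Q_symm (e a) s]
      ring
    -- the part orthogonal to `V` commutes with `V`
    have hs1k : s1 ∈ D.𝔨 := hV hs1V
    have hcomm : ∀ w ∈ V, ⁅s - s1, w⁆ = 0 := by
      intro w hw
      have hk : s - s1 ∈ D.𝔨 := D.𝔨.sub_mem (htk hs) hs1k
      have h1 : ⁅s - s1, w⁆ ∈ V := D.lie_mem_of_inv hVinv hk hw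
      by_contra hne
      have h2 := D.Q_pos _ hne
      have h3 : ⁅w, ⁅s - s1, w⁆⁆ ∈ V := D.lie_mem_of_inv hVinv (hV hw) h1
      rw [D.Q_inv, horth _ h3] at h2
      exact lt_irrefl _ h2
    have hs10 : s1 = 0 := by
      apply hkey s1 hs1V
      intro y hy
      have hsy : ⁅s, y⁆ = 0 := (ht s).1 hs y hy
      have h1 : ⁅y, s1⁆ ∈ V := D.lie_mem_of_inv hVinv (htk hy) hs1V
      have h2 : ⁅s1, y⁆ ∈ V := by
        rw [← lie_skew]
        exact V.neg_mem h1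
      by_contra hne
      have h3 := D.Q_pos _ hne
      have h4 : ⁅s1, y⁆ = -⁅s - s1, y⁆ := by
        rw [sub_lie, hsy, zero_sub, neg_neg]
      have h5 : D.Q ⁅s1, y⁆ ⁅s1, y⁆ = 0 := by
        conv_lhs =>
          enter [1, 2]
          rw [h4]
        rw [map_neg, LinearMap.neg_apply, D.Q_inv]
        have h6 : ⁅y, ⁅s1, y⁆⁆ ∈ V := D.lie_mem_of_inv hVinv (htk hy) h2
        rw [horth _ h6, neg_zero]
      exact h3.ne' h5
    have h1 := hcomm v hv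
    rw [hs10, sub_zero] at h1
    exact h1
  -- so `V ≤ t`, and all elements of `V` vanish
  have hV0 : ∀ v ∈ V, v = 0 := by
    intro v hv
    apply hkey v hv
    intro y hy
    rw [← lie_skew, htV y hy v hv, neg_zero]
  obtain ⟨y, hy, hy0⟩ := (Submodule.ne_bot_iff _).1 (hm.irr i).ne
  apply hy0
  apply hgb.injOn hy (m i).zero_mem
  rw [map_zero]
  exact hV0 _ (hgb.mapsTo hy)

end HomData

end Pool.Agent.H.MP_deabf1_gt
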